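import Mathlib

/-!
# Derivations of fields of characteristic zero
-/

namespace Pool.Agent.Zariski

universe u

open Polynomial

/-- lifting along a surjection with nilpotent kernel (ring homomorphism form) -/
theorem exists_ringHom_lift {R A B : Type*} [CommRing R] [CommRing A] [CommRing B] [Algebra R A]
    [Algebra.FormallySmooth R A] (φ : R →+* B) (g : B →+* A) (hg : Function.Surjective g)
    (hg' : IsNilpotent (RingHom.ker g)) (h : ∀ r, g (φ r) = algebraMap R A r) :
    ∃ L : A →+* B, (∀ a, g (L a) = a) ∧ ∀ r, L (algebraMap R A r) = φ r := by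
  let _ : Algebra R B := φ.toAlgebra
  let g' : B →ₐ[R] A := { g with commutes' := h }
  refine ⟨(Algebra.FormallySmooth.liftOfSurjective (AlgHom.id R A) g' hg hg').toRingHom, ?_, ?_⟩
  · intro a
    exact Algebra.FormallySmooth.liftOfSurjective_apply (AlgHom.id R A) g' hg hg' a
  · intro r
    exact (Algebra.FormallySmooth.liftOfSurjective (AlgHom.id R A) g' hg hg').commutes r

/-- a field extension in characteristic zero is formally smooth -/
theorem formallySmooth_of_charZero {K L : Type*} [Field K] [Field L] [Algebra K L] [CharZero K] :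
    Algebra.FormallySmooth K L := by
  obtain ⟨ι, x, hx⟩ := exists_isTranscendenceBasis' K L
  have h1 : Algebra.IsAlgebraic (IntermediateField.adjoin K (Set.range x)) L :=
    hx.isAlgebraic_field
  have h2 : Algebra.IsSeparable (IntermediateField.adjoin K (Set.range x)) L := inferInstance
  exact Algebra.FormallySmooth.of_algebraicIndependent_of_isSeparable hx.1

/-- `k` is formally smooth over the polynomial ring in a transcendental element -/
theorem formallySmooth_polynomial {k : Type u} [Field k] [CharZero k] {t : k}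
    (ht : Transcendental ℚ t) :
    @Algebra.FormallySmooth ℚ[X] k _ _ ((aeval t : ℚ[X] →ₐ[ℚ] k).toRingHom.toAlgebra) := by
  let _ : Algebra ℚ[X] k := (aeval t : ℚ[X] →ₐ[ℚ] k).toRingHom.toAlgebra
  have hinj : Function.Injective (algebraMap ℚ[X] k) :=
    transcendental_iff_injective.mp ht
  have : FaithfulSMul ℚ[X] k := (faithfulSMul_iff_algebraMap_injective ℚ[X] k).mpr hinj
  let _ : Algebra (FractionRing ℚ[X]) k := FractionRing.liftAlgebra ℚ[X] k
  have : IsScalarTower ℚ[X] (FractionRing ℚ[X]) k := FractionRing.isScalarTower_liftAlgebra ℚ[X] k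
  have : CharZero (FractionRing ℚ[X]) := by
    have : Function.Injective (algebraMap ℚ (FractionRing ℚ[X])) :=
      (algebraMap ℚ (FractionRing ℚ[X])).injective
    exact charZero_of_injective_algebraMap this
  have h1 : Algebra.FormallySmooth (FractionRing ℚ[X]) k := formallySmooth_of_charZero
  have h2 : Algebra.FormallySmooth ℚ[X] (FractionRing ℚ[X]) :=
    .of_isLocalization (nonZeroDivisors ℚ[X])
  exact .comp ℚ[X] (FractionRing ℚ[X]) k

/-- A transcendental element has a derivation with `D t = 1`. -/
theorem exists_derivation_eq_one {k : Type u} [Field k] [CharZero k] {t : k}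
    (ht : Transcendental ℚ t) : ∃ D : Derivation ℤ k k, D t = 1 := by
  let φ : ℚ[X] →+* TrivSqZeroExt k k :=
    eval₂RingHom (algebraMap ℚ (TrivSqZeroExt k k)) (TrivSqZeroExt.inl t + TrivSqZeroExt.inr 1)
  let g : TrivSqZeroExt k k →+* k := (TrivSqZeroExt.fstHom ℚ k k).toRingHom
  have hg : Function.Surjective g := fun a => ⟨TrivSqZeroExt.inl a, rfl⟩
  have hg' : IsNilpotent (RingHom.ker g) := by
    have hsq : RingHom.ker g * RingHom.ker g = 0 := by
      rw [Ideal.zero_eq_bot, eq_bot_iff, Ideal.mul_le]
      intro a ha b hb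
      have ha' : a.fst = 0 := ha
      have hb' : b.fst = 0 := hb
      rw [Ideal.mem_bot]
      apply TrivSqZeroExt.ext
      · rw [TrivSqZeroExt.fst_mul, ha', zero_mul]; rfl
      · rw [TrivSqZeroExt.snd_mul, ha', hb']; simp
    exact ⟨2, (pow_two (RingHom.ker g)).trans hsq⟩
  have h : ∀ r : ℚ[X], g (φ r) = (aeval t : ℚ[X] →ₐ[ℚ] k) r := by
    intro r
    have : g.comp φ = (aeval t : ℚ[X] →ₐ[ℚ] k).toRingHom := by
      apply Polynomial.ringHom_ext
      · intro a
        simp [φ, g]
      · simp [φ, g]
    exact DFunLike.congr_fun this r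
  obtain ⟨L, hL1, hL2⟩ := @exists_ringHom_lift ℚ[X] k (TrivSqZeroExt k k) _ _ _
    ((aeval t : ℚ[X] →ₐ[ℚ] k).toRingHom.toAlgebra) (formallySmooth_polynomial ht) φ g hg hg' h
  have hfst : ∀ a, (L a).fst = a := hL1
  have hLt : L t = TrivSqZeroExt.inl t + TrivSqZeroExt.inr 1 := by
    have h3 := hL2 X
    have h4 : (aeval t : ℚ[X] →ₐ[ℚ] k) X = t := aeval_X t
    have h5 : L ((aeval t : ℚ[X] →ₐ[ℚ] k) X) = φ X := h3
    rw [h4] at h5
    rw [h5]
    simp [φ]
  let D0 : k →+ k :=
    { toFun := fun a => (L a).snd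
      map_zero' := by simp
      map_add' := fun a b => by simp }
  refine ⟨Derivation.mk' D0.toIntLinearMap ?_, ?_⟩
  · intro a b
    change (L (a * b)).snd = a • (L b).snd + b • (L a).snd
    rw [map_mul, TrivSqZeroExt.snd_mul, hfst, hfst]
    simp [mul_comm]
  · change (L t).snd = 1
    rw [hLt]
    simp

end Pool.Agent.Zariski
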