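import Pool.Agent.Zariski.Deriv

/-!
# Moving the coefficient field
-/

namespace Pool.Agent.Zariski

open MvPowerSeries

universe u

section exp

variable {n : ℕ} {k : Type u} [Field k]

/-- The ideal of power series of order at least `M`. -/
def expJ (n : ℕ) (k : Type u) [Field k] (M : ℕ) : Ideal (MvPowerSeries (Fin n) k) where
  carrier := {F | (M : ℕ∞) ≤ F.order}
  add_mem' := fun {a b} ha hb => (le_min ha hb).trans min_order_le_add
  zero_mem' := by simp
  smul_mem' := fun c x hx => by
    refine le_trans ?_ (le_order_mul (f := c) (g := x))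
    exact le_add_left hx

lemma mem_expJ {M : ℕ} {F : MvPowerSeries (Fin n) k} : F ∈ expJ n k M ↔ (M : ℕ∞) ≤ F.order :=
  Iff.rfl

lemma expJ_anti {M N : ℕ} (h : M ≤ N) : expJ n k N ≤ expJ n k M := fun F hF => by
  rw [mem_expJ] at hF ⊢
  exact le_trans (by exact_mod_cast h) hF

lemma eq_of_forall_expJ {F G : MvPowerSeries (Fin n) k} (h : ∀ M, F - G ∈ expJ n k M) : F = G := by
  rw [← sub_eq_zero, ← order_eq_top_iff, ENat.eq_top_iff_forall_ge]
  exact h

lemma coeff_of_mem_expJ {M : ℕ} {F : MvPowerSeries (Fin n) k} (h : F ∈ expJ n k M)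
    {a : Fin n →₀ ℕ} (ha : a.degree < M) : coeff a F = 0 :=
  coeff_of_lt_order (lt_of_lt_of_le (by exact_mod_cast ha) h)

lemma mem_expJ_of_coeff {M : ℕ} {F : MvPowerSeries (Fin n) k}
    (h : ∀ a : Fin n →₀ ℕ, a.degree < M → coeff a F = 0) : F ∈ expJ n k M :=
  nat_le_order h

lemma mul_mem_expJ {M N : ℕ} {F G : MvPowerSeries (Fin n) k} (hF : F ∈ expJ n k M)
    (hG : G ∈ expJ n k N) : F * G ∈ expJ n k (M + N) := by
  rw [mem_expJ] at *
  push_cast
  exact (add_le_add hF hG).trans le_order_mul

lemma pow_mem_expJ {h : MvPowerSeries (Fin n) k} (h0 : constantCoeff h = 0) (N : ℕ) :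
    h ^ N ∈ expJ n k N := le_order_pow_of_constantCoeff_eq_zero N h0

/-- sums over squares and over triangles -/
lemma diag_mem_expJ (f : ℕ → ℕ → MvPowerSeries (Fin n) k) (hf : ∀ i j, f i j ∈ expJ n k (i + j))
    (M : ℕ) :
    (∑ i ∈ Finset.range M, ∑ j ∈ Finset.range M, f i j) -
      ∑ N ∈ Finset.range M, ∑ i ∈ Finset.range (N + 1), f i (N - i) ∈ expJ n k M := by
  rw [Finset.sum_range_diag_flip, ← Finset.sum_sub_distrib]
  refine sum_mem fun i hi => ?_
  rw [← Finset.sum_Ico_eq_sub _ (Nat.sub_le M i)]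
  refine sum_mem fun j hj => ?_
  rw [Finset.mem_Ico] at hj
  exact expJ_anti (by omega) (hf i j)

variable (E : Derivation ℤ (MvPowerSeries (Fin n) k) (MvPowerSeries (Fin n) k))

/-- iterates of a derivation -/
noncomputable def itE (N : ℕ) (F : MvPowerSeries (Fin n) k) : MvPowerSeries (Fin n) k :=
  (fun G => E G)^[N] F

lemma itE_zero (F : MvPowerSeries (Fin n) k) : itE E 0 F = F := rfl

lemma itE_succ (N : ℕ) (F : MvPowerSeries (Fin n) k) : itE E (N + 1) F = E (itE E N F) := by
  unfold itE
  rw [Function.iterate_succ_apply']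

lemma itE_add_apply (M N : ℕ) (F : MvPowerSeries (Fin n) k) :
    itE E M (itE E N F) = itE E (M + N) F := by
  unfold itE
  rw [Function.iterate_add_apply]

lemma itE_sum {ι : Type*} (s : Finset ι) (f : ι → MvPowerSeries (Fin n) k) (N : ℕ) :
    itE E N (∑ i ∈ s, f i) = ∑ i ∈ s, itE E N (f i) := by
  induction N with
  | zero => rfl
  | succ N ih => simp only [itE_succ, ih, map_sum]

lemma itE_add (F G : MvPowerSeries (Fin n) k) (N : ℕ) :
    itE E N (F + G) = itE E N F + itE E N G := by
  induction N with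
  | zero => rfl
  | succ N ih => simp only [itE_succ, ih, map_add]

lemma itE_sub (F G : MvPowerSeries (Fin n) k) (N : ℕ) :
    itE E N (F - G) = itE E N F - itE E N G := by
  induction N with
  | zero => rfl
  | succ N ih => simp only [itE_succ, ih, map_sub]

lemma itE_map_zero (N : ℕ) : itE E N 0 = 0 := by
  induction N with
  | zero => rfl
  | succ N ih => simp only [itE_succ, ih, map_zero]

lemma itE_mul (N : ℕ) (F G : MvPowerSeries (Fin n) k) :
    itE E N (F * G) = ∑ ij ∈ Finset.HasAntidiagonal.antidiagonal N,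
      N.choose ij.1 • (itE E ij.1 F * itE E ij.2 G) := by
  induction N with
  | zero => simp [itE_zero]
  | succ N ih =>
    rw [Finset.sum_antidiagonal_choose_succ_nsmul (fun i j => itE E i F * itE E j G) N]
    simp only [itE_succ, ih, map_sum, map_nsmul, Derivation.leibniz, smul_add,
      Finset.sum_add_distrib, smul_eq_mul]
    congr 1
    refine Finset.sum_congr rfl fun ⟨i, j⟩ hij => ?_
    rw [N.choose_symm_of_eq_add (Finset.HasAntidiagonal.mem_antidiagonal.1 hij).symm, mul_comm]

/-- the terms of the exponential series -/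
noncomputable def expT (h : MvPowerSeries (Fin n) k) (N : ℕ) (F : MvPowerSeries (Fin n) k) :
    MvPowerSeries (Fin n) k :=
  C (((N.factorial : ℕ) : k)⁻¹) * h ^ N * itE E N F

/-- the partial sums of the exponential series -/
noncomputable def expS (h : MvPowerSeries (Fin n) k) (M : ℕ) (F : MvPowerSeries (Fin n) k) :
    MvPowerSeries (Fin n) k :=
  ∑ N ∈ Finset.range M, expT E h N F

/-- the exponential series -/
noncomputable def expPhi (h : MvPowerSeries (Fin n) k) (F : MvPowerSeries (Fin n) k) :
    MvPowerSeries (Fin n) k := fun a => coeff a (expS E h (a.degree + 1) F)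

lemma coeff_expPhi (h F : MvPowerSeries (Fin n) k) (a : Fin n →₀ ℕ) :
    coeff a (expPhi E h F) = coeff a (expS E h (a.degree + 1) F) := rfl

variable {E}

lemma expT_mem {h : MvPowerSeries (Fin n) k} (h0 : constantCoeff h = 0) (N : ℕ)
    (F : MvPowerSeries (Fin n) k) : expT E h N F ∈ expJ n k N := by
  unfold expT
  exact Ideal.mul_mem_right _ _ (Ideal.mul_mem_left _ _ (pow_mem_expJ h0 N))

lemma expPhi_sub_mem {h : MvPowerSeries (Fin n) k} (h0 : constantCoeff h = 0) (M : ℕ)
    (F : MvPowerSeries (Fin n) k) : expPhi E h F - expS E h M F ∈ expJ n k M := by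
  refine mem_expJ_of_coeff fun a ha => ?_
  rw [map_sub, coeff_expPhi, ← map_sub, ← neg_sub, map_neg]
  unfold expS
  rw [← Finset.sum_Ico_eq_sub _ (by omega : a.degree + 1 ≤ M), map_sum, neg_eq_zero]
  refine Finset.sum_eq_zero fun N hN => ?_
  rw [Finset.mem_Ico] at hN
  exact coeff_of_mem_expJ (expT_mem h0 N F) (by omega)

lemma expT_mul [CharZero k] (h : MvPowerSeries (Fin n) k) (N : ℕ) (F G : MvPowerSeries (Fin n) k) :
    expT E h N (F * G) = ∑ i ∈ Finset.range (N + 1), expT E h i F * expT E h (N - i) G := by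
  rw [← Finset.Nat.sum_antidiagonal_eq_sum_range_succ (fun i j => expT E h i F * expT E h j G)]
  unfold expT
  rw [itE_mul, Finset.mul_sum]
  refine Finset.sum_congr rfl fun ⟨i, j⟩ hij => ?_
  have hij' : i + j = N := Finset.HasAntidiagonal.mem_antidiagonal.1 hij
  subst hij'
  have h1 : (((i + j).factorial : ℕ) : k)⁻¹ * ((i + j).choose i : k) =
      ((i.factorial : ℕ) : k)⁻¹ * ((j.factorial : ℕ) : k)⁻¹ := by
    have h2 : (((i + j).choose i * i.factorial * j.factorial : ℕ) : k) =
        ((i + j).factorial : k) := by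
      rw [← Nat.add_choose_mul_factorial_mul_factorial i j, Nat.choose_symm_add]
    push_cast at h2
    have h3 : ((i.factorial : ℕ) : k) ≠ 0 := by exact_mod_cast i.factorial_ne_zero
    have h4 : ((j.factorial : ℕ) : k) ≠ 0 := by exact_mod_cast j.factorial_ne_zero
    have h5 : (((i + j).factorial : ℕ) : k) ≠ 0 := by exact_mod_cast (i + j).factorial_ne_zero
    field_simp
    linear_combination h2
  have h6 : (C (((i + j).factorial : k)⁻¹) : MvPowerSeries (Fin n) k) *
      ((i + j).choose i : MvPowerSeries (Fin n) k) = C ((i.factorial : k)⁻¹) * C ((j.factorial : k)⁻¹) := by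
    rw [← map_mul, ← h1, map_mul, map_natCast]
  simp only [nsmul_eq_mul]
  rw [pow_add]
  linear_combination (h ^ i * h ^ j * itE E i F * itE E j G) * h6

lemma expS_mul_mem [CharZero k] {h : MvPowerSeries (Fin n) k} (h0 : constantCoeff h = 0) (M : ℕ)
    (F G : MvPowerSeries (Fin n) k) :
    expS E h M F * expS E h M G - expS E h M (F * G) ∈ expJ n k M := by
  have h1 := diag_mem_expJ (fun i j => expT E h i F * expT E h j G)
    (fun i j => mul_mem_expJ (expT_mem h0 i F) (expT_mem h0 j G)) M
  have h2 : expS E h M F * expS E h M G = ∑ i ∈ Finset.range M, ∑ j ∈ Finset.range M,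
      expT E h i F * expT E h j G := by
    unfold expS
    rw [Finset.sum_mul_sum]
  have h3 : expS E h M (F * G) = ∑ N ∈ Finset.range M, ∑ i ∈ Finset.range (N + 1),
      expT E h i F * expT E h (N - i) G := by
    unfold expS
    exact Finset.sum_congr rfl fun N _ => expT_mul h N F G
  rw [h2, h3]
  exact h1

lemma expPhi_mul [CharZero k] {h : MvPowerSeries (Fin n) k} (h0 : constantCoeff h = 0)
    (F G : MvPowerSeries (Fin n) k) :
    expPhi E h (F * G) = expPhi E h F * expPhi E h G := by
  refine eq_of_forall_expJ fun M => ?_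
  have h1 := expPhi_sub_mem (E := E) h0 M (F * G)
  have h2 := expPhi_sub_mem (E := E) h0 M F
  have h3 := expPhi_sub_mem (E := E) h0 M G
  have h4 := expS_mul_mem (E := E) h0 M F G
  have h5 : expPhi E h (F * G) - expPhi E h F * expPhi E h G =
      (expPhi E h (F * G) - expS E h M (F * G)) -
      (expS E h M F * expS E h M G - expS E h M (F * G)) -
      (expPhi E h F - expS E h M F) * expPhi E h G -
      expS E h M F * (expPhi E h G - expS E h M G) := by
    ring
  rw [h5]
  exact sub_mem (sub_mem (sub_mem h1 h4) (Ideal.mul_mem_right _ _ h2)) (Ideal.mul_mem_left _ _ h3)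

/-- hypotheses on the derivation -/
structure IsCoeffDer (E : Derivation ℤ (MvPowerSeries (Fin n) k) (MvPowerSeries (Fin n) k)) :
    Prop where
  mem : ∀ (M : ℕ) (F : MvPowerSeries (Fin n) k), F ∈ expJ n k M → E F ∈ expJ n k M
  const : ∀ a : k, ∃ b : k, E (C a) = C b

lemma IsCoeffDer.itE_mem (hE : IsCoeffDer E) (N M : ℕ) {F : MvPowerSeries (Fin n) k}
    (hF : F ∈ expJ n k M) : itE E N F ∈ expJ n k M := by
  induction N with
  | zero => exact hF
  | succ N ih => rw [itE_succ]; exact hE.mem M _ ih

lemma expT_sub (h : MvPowerSeries (Fin n) k) (N : ℕ) (F G : MvPowerSeries (Fin n) k) :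
    expT E h N (F - G) = expT E h N F - expT E h N G := by
  unfold expT
  rw [itE_sub, mul_sub]

lemma expT_add (h : MvPowerSeries (Fin n) k) (N : ℕ) (F G : MvPowerSeries (Fin n) k) :
    expT E h N (F + G) = expT E h N F + expT E h N G := by
  unfold expT
  rw [itE_add, mul_add]

lemma expS_sub (h : MvPowerSeries (Fin n) k) (M : ℕ) (F G : MvPowerSeries (Fin n) k) :
    expS E h M (F - G) = expS E h M F - expS E h M G := by
  unfold expS
  rw [← Finset.sum_sub_distrib]
  exact Finset.sum_congr rfl fun N _ => expT_sub h N F G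

lemma expS_add (h : MvPowerSeries (Fin n) k) (M : ℕ) (F G : MvPowerSeries (Fin n) k) :
    expS E h M (F + G) = expS E h M F + expS E h M G := by
  unfold expS
  rw [← Finset.sum_add_distrib]
  exact Finset.sum_congr rfl fun N _ => expT_add h N F G

lemma expPhi_add {h : MvPowerSeries (Fin n) k} (F G : MvPowerSeries (Fin n) k) :
    expPhi E h (F + G) = expPhi E h F + expPhi E h G := by
  ext a
  rw [map_add, coeff_expPhi, coeff_expPhi, coeff_expPhi, expS_add, map_add]

lemma IsCoeffDer.expS_mem (hE : IsCoeffDer E) (h : MvPowerSeries (Fin n) k) (N M : ℕ)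
    {F : MvPowerSeries (Fin n) k} (hF : F ∈ expJ n k M) : expS E h N F ∈ expJ n k M := by
  unfold expS
  refine sum_mem fun i _ => ?_
  unfold expT
  exact Ideal.mul_mem_left _ _ (hE.itE_mem i M hF)

lemma E_natCast_inv [CharZero k] (m : ℕ) (hm : m ≠ 0) :
    E (C ((m : k)⁻¹)) = 0 := by
  have h1 : (m : k) ≠ 0 := by exact_mod_cast hm
  have h2 : (C (m : k) : MvPowerSeries (Fin n) k) * C ((m : k)⁻¹) = 1 := by
    rw [← map_mul, mul_inv_cancel₀ h1, map_one]
  have h3 : E ((C (m : k) : MvPowerSeries (Fin n) k) * C ((m : k)⁻¹)) = 0 := by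
    rw [h2, Derivation.map_one_eq_zero]
  rw [Derivation.leibniz] at h3
  have h4 : E (C (m : k) : MvPowerSeries (Fin n) k) = 0 := by
    rw [map_natCast, Derivation.map_natCast]
  rw [h4, smul_zero, add_zero, smul_eq_mul] at h3
  calc E (C ((m : k)⁻¹)) = (C (m : k) * C ((m : k)⁻¹)) * E (C ((m : k)⁻¹)) := by
        rw [h2, one_mul]
    _ = C ((m : k)⁻¹) * (C (m : k) * E (C ((m : k)⁻¹))) := by ring
    _ = 0 := by rw [h3, mul_zero]

lemma itE_mul_const {c : MvPowerSeries (Fin n) k} (hc : E c = 0) (N : ℕ)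
    (F : MvPowerSeries (Fin n) k) : itE E N (c * F) = c * itE E N F := by
  induction N with
  | zero => rfl
  | succ N ih => rw [itE_succ, ih, Derivation.leibniz, hc, smul_zero, add_zero, smul_eq_mul,
      itE_succ]

lemma E_pow_zero {h : MvPowerSeries (Fin n) k} (hEh : E h = 0) (N : ℕ) : E (h ^ N) = 0 := by
  rw [Derivation.leibniz_pow, hEh, smul_zero, smul_zero]

lemma expS_comp_mem [CharZero k] {h : MvPowerSeries (Fin n) k}
    (h0 : constantCoeff h = 0) (hEh : E h = 0) (M : ℕ) (F : MvPowerSeries (Fin n) k) :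
    expS E (-h) M (expS E h M F) - F ∈ expJ n k M := by
  rcases Nat.eq_zero_or_pos M with hM | hM
  · subst hM
    exact mem_expJ.2 (by simp)
  have h0' : constantCoeff (-h) = 0 := by rw [map_neg, h0, neg_zero]
  let f : ℕ → ℕ → MvPowerSeries (Fin n) k := fun i j =>
    (C ((i.factorial : k)⁻¹) * C ((j.factorial : k)⁻¹) * itE E (i + j) F) * ((-h) ^ i * h ^ j)
  have hf : ∀ i j, f i j ∈ expJ n k (i + j) := fun i j =>
    Ideal.mul_mem_left _ _ (mul_mem_expJ (pow_mem_expJ h0' i) (pow_mem_expJ h0 j))
  have h1 := diag_mem_expJ f hf M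
  have h2 : expS E (-h) M (expS E h M F) = ∑ i ∈ Finset.range M, ∑ j ∈ Finset.range M, f i j := by
    unfold expS
    refine Finset.sum_congr rfl fun i _ => ?_
    conv_lhs => unfold expT
    rw [itE_sum, Finset.mul_sum]
    refine Finset.sum_congr rfl fun j _ => ?_
    have hc : E (C ((j.factorial : k)⁻¹) * h ^ j) = 0 := by
      rw [Derivation.leibniz, E_pow_zero hEh, E_natCast_inv _ j.factorial_ne_zero, smul_zero,
        smul_zero, add_zero]
    rw [itE_mul_const hc, itE_add_apply]
    change _ = (C ((i.factorial : k)⁻¹) * C ((j.factorial : k)⁻¹) * itE E (i + j) F) *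
      ((-h) ^ i * h ^ j)
    ring
  have h3 : ∑ N ∈ Finset.range M, ∑ i ∈ Finset.range (N + 1), f i (N - i) = F := by
    have h4 : ∀ N, ∑ i ∈ Finset.range (N + 1), f i (N - i) =
        C ((N.factorial : k)⁻¹) * itE E N F * (-h + h) ^ N := by
      intro N
      rw [add_pow, Finset.mul_sum]
      refine Finset.sum_congr rfl fun i hi => ?_
      rw [Finset.mem_range] at hi
      obtain ⟨j, rfl⟩ := Nat.exists_eq_add_of_le (Nat.lt_succ_iff.1 hi)
      rw [Nat.add_sub_cancel_left]
      have h1 : (((i + j).factorial : ℕ) : k)⁻¹ * ((i + j).choose i : k) =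
          ((i.factorial : ℕ) : k)⁻¹ * ((j.factorial : ℕ) : k)⁻¹ := by
        have h2 : (((i + j).choose i * i.factorial * j.factorial : ℕ) : k) =
            ((i + j).factorial : k) := by
          rw [← Nat.add_choose_mul_factorial_mul_factorial i j, Nat.choose_symm_add]
        push_cast at h2
        have h3 : ((i.factorial : ℕ) : k) ≠ 0 := by exact_mod_cast i.factorial_ne_zero
        have h4 : ((j.factorial : ℕ) : k) ≠ 0 := by exact_mod_cast j.factorial_ne_zero
        have h5 : (((i + j).factorial : ℕ) : k) ≠ 0 := by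
          exact_mod_cast (i + j).factorial_ne_zero
        field_simp
        linear_combination h2
      have h6 : (C (((i + j).factorial : k)⁻¹) : MvPowerSeries (Fin n) k) *
          ((i + j).choose i : MvPowerSeries (Fin n) k) =
            C ((i.factorial : k)⁻¹) * C ((j.factorial : k)⁻¹) := by
        rw [← map_mul, ← h1, map_mul, map_natCast]
      change (C ((i.factorial : k)⁻¹) * C ((j.factorial : k)⁻¹) * itE E (i + j) F) *
        ((-h) ^ i * h ^ j) = _
      linear_combination (-(itE E (i + j) F * ((-h) ^ i * h ^ j))) * h6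
    simp only [h4, neg_add_cancel]
    rw [Finset.sum_eq_single_of_mem 0 (Finset.mem_range.2 hM)]
    · simp [itE_zero]
    · intro N _ hN
      rw [zero_pow hN, mul_zero]
  rw [h3, ← h2] at h1
  exact h1

lemma expPhi_comp [CharZero k] (hE : IsCoeffDer E) {h : MvPowerSeries (Fin n) k}
    (h0 : constantCoeff h = 0) (hEh : E h = 0) (F : MvPowerSeries (Fin n) k) :
    expPhi E (-h) (expPhi E h F) = F := by
  refine eq_of_forall_expJ fun M => ?_
  have h0' : constantCoeff (-h) = 0 := by rw [map_neg, h0, neg_zero]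
  have h1 := expPhi_sub_mem (E := E) h0' M (expPhi E h F)
  have h2 := hE.expS_mem (-h) M M (expPhi_sub_mem (E := E) h0 M F)
  have h3 := expS_comp_mem h0 hEh M F
  rw [expS_sub] at h2
  have h4 := add_mem (add_mem h1 h2) h3
  convert h4 using 1
  ring

lemma expPhi_of_sq {h : MvPowerSeries (Fin n) k} (h0 : constantCoeff h = 0)
    {F : MvPowerSeries (Fin n) k} (hF : E (E F) = 0) : expPhi E h F = F + h * E F := by
  refine eq_of_forall_expJ fun M => expJ_anti (Nat.le_add_right M 2) ?_
  have h1 := expPhi_sub_mem (E := E) h0 (M + 2) F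
  have h2 : expS E h (M + 2) F = F + h * E F := by
    unfold expS
    rw [Finset.sum_range_succ', Finset.sum_range_succ']
    have h3 : ∑ i ∈ Finset.range M, expT E h (i + 1 + 1) F = 0 := by
      refine Finset.sum_eq_zero fun i _ => ?_
      unfold expT
      have : itE E (i + 1 + 1) F = 0 := by
        have h4 : itE E (i + 1 + 1) F = itE E i (E (E F)) := by
          rw [← itE_add_apply E i 2]
          rfl
        rw [h4, hF, itE_map_zero]
      rw [this, mul_zero]
    rw [h3, zero_add]
    have h5 : expT E h (0 + 1) F = h * E F := by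
      unfold expT
      rw [itE_succ, itE_zero]
      simp
    have h6 : expT E h 0 F = F := by
      unfold expT
      rw [itE_zero]
      simp
    rw [h5, h6, add_comm]
  rwa [h2] at h1

end exp

lemma isCoeffDer_mkDer {n : ℕ} {k : Type u} [Field k] (D : Derivation ℤ k k) :
    IsCoeffDer (mkDer D (0 : Fin n → MvPowerSeries (Fin n) k)) where
  mem := by
    intro M F hF
    refine mem_expJ_of_coeff fun a ha => ?_
    rw [coeff_mkDer, coeff_of_mem_expJ hF ha, map_zero, zero_add]
    simp
  const := fun a => ⟨D a, mkDer_C D 0 a⟩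

/-- The automorphism `exp (h D)` of `k[[x]]` (acting on the coefficients only). -/
theorem exists_exp_automorphism {n : ℕ} {k : Type u} [Field k] [CharZero k]
    (D : Derivation ℤ k k) {h : MvPowerSeries (Fin n) k} (h0 : constantCoeff h = 0)
    (hD : mkDer D 0 h = 0) :
    ∃ Φ : MvPowerSeries (Fin n) k ≃+* MvPowerSeries (Fin n) k,
      (∀ i, Φ (X i) = X i) ∧ (∀ a : k, constantCoeff (Φ (C a)) = a) ∧
      (∀ a : k, D (D a) = 0 → Φ (C a) = C a + C (D a) * h) := by
  set E := mkDer D (0 : Fin n → MvPowerSeries (Fin n) k) with hEd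
  have hE : IsCoeffDer E := isCoeffDer_mkDer D
  have h0' : constantCoeff (-h) = 0 := by rw [map_neg, h0, neg_zero]
  have hD' : E (-h) = 0 := by rw [map_neg, hD, neg_zero]
  let Φ : MvPowerSeries (Fin n) k ≃+* MvPowerSeries (Fin n) k :=
    { toFun := expPhi E h
      invFun := expPhi E (-h)
      left_inv := fun F => expPhi_comp hE h0 hD F
      right_inv := fun F => by
        have := expPhi_comp hE h0' hD' F
        rwa [neg_neg] at this
      map_mul' := fun F G => expPhi_mul h0 F G
      map_add' := fun F G => expPhi_add F G }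
  refine ⟨Φ, fun i => ?_, fun a => ?_, fun a ha => ?_⟩
  · change expPhi E h (X i) = X i
    have h1 : E (X i) = 0 := by rw [hEd, mkDer_X]; rfl
    rw [expPhi_of_sq h0 (by rw [h1, map_zero]), h1, mul_zero, add_zero]
  · change constantCoeff (expPhi E h (C a)) = a
    rw [← coeff_zero_eq_constantCoeff_apply, coeff_expPhi]
    unfold expS
    simp [expT, itE_zero]
  · change expPhi E h (C a) = C a + C (D a) * h
    have h1 : E (C a) = C (D a) := mkDer_C D 0 a
    have h2 : E (C (D a) : MvPowerSeries (Fin n) k) = 0 := by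
      rw [hEd, mkDer_C, ha, map_zero]
    rw [expPhi_of_sq h0 (by rw [h1, h2]), h1, mul_comm]

end Pool.Agent.Zariski
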