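import Pool.Agent.Zariski.InvFun

/-!
# Projections `K[[y]] ⊂ K[[x_0, ..., x_r]]` and Weierstrass preparation relative to them

`y_1, ..., y_r` together with the variable `X 0` form a coordinate system.
-/

namespace Pool.Agent.Zariski

open MvPowerSeries

variable {r : ℕ} {K : Type*} [Field K]

/-- `y` and `X 0` form a coordinate system. -/
def Adm (y : Fin r → MvPowerSeries (Fin (r + 1)) K) : Prop :=
  (∀ i, constantCoeff (y i) = 0) ∧ (Matrix.of fun i j : Fin r => lin (y i) j.succ).det ≠ 0

/-- The coordinate system `X 0, y_0, ..., y_{r-1}`. -/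
noncomputable def full (y : Fin r → MvPowerSeries (Fin (r + 1)) K) :
    Fin (r + 1) → MvPowerSeries (Fin (r + 1)) K :=
  Fin.cons (X 0) y

theorem Adm.isParam_full {y : Fin r → MvPowerSeries (Fin (r + 1)) K} (hy : Adm y) :
    IsParam (full y) := by
  refine ⟨fun i => ?_, ?_⟩
  · refine Fin.cases ?_ (fun i => ?_) i
    · exact constantCoeff_X 0
    · exact hy.1 i
  · have h2 : (Matrix.of fun i j => lin (full y i) j).det =
        (Matrix.of fun i j : Fin r => lin (y i) j.succ).det := by
      rw [Matrix.det_succ_row_zero, Finset.sum_eq_single 0]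
      · have h3 : (Matrix.of fun i j => lin (full y i) j) 0 0 = 1 := by
          change lin (X 0 : MvPowerSeries (Fin (r + 1)) K) 0 = 1
          rw [lin_X, Pi.single_eq_same]
        rw [h3]
        simp only [Fin.val_zero, pow_zero, one_mul]
        congr 1
      · intro j _ hj
        have h3 : (Matrix.of fun i j => lin (full y i) j) 0 j = 0 := by
          change lin (X 0 : MvPowerSeries (Fin (r + 1)) K) j = 0
          rw [lin_X, Pi.single_eq_of_ne hj]
        rw [h3]
        ring
      · intro h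
        exact absurd (Finset.mem_univ _) h
    rw [h2]
    exact hy.2

theorem Adm.map {L : Type*} [Field L] (φ : K →+* L) {y : Fin r → MvPowerSeries (Fin (r + 1)) K}
    (hy : Adm y) : Adm (fun i => MvPowerSeries.map φ (y i)) := by
  refine ⟨fun i => ?_, ?_⟩
  · rw [constantCoeff_map, hy.1 i, map_zero]
  · have h : (Matrix.of fun i j : Fin r => lin (MvPowerSeries.map φ (y i)) j.succ) =
        φ.mapMatrix (Matrix.of fun i j : Fin r => lin (y i) j.succ) := by
      ext i j
      change lin (MvPowerSeries.map φ (y i)) j.succ = φ (lin (y i) j.succ)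
      rw [lin_map]
    rw [h, ← RingHom.map_det]
    exact fun h0 => hy.2 (φ.injective (by rw [h0, map_zero]))

/-- Substitution homomorphism. -/
noncomputable def subHom {n m : ℕ} (a : Fin n → MvPowerSeries (Fin m) K)
    (ha : ∀ i, constantCoeff (a i) = 0) :
    MvPowerSeries (Fin n) K →+* MvPowerSeries (Fin m) K :=
  (substAlgHom (R := K) (hasSubst_of_constantCoeff_zero ha)).toRingHom

@[simp] lemma subHom_apply {n m : ℕ} (a : Fin n → MvPowerSeries (Fin m) K)
    (ha : ∀ i, constantCoeff (a i) = 0) (g : MvPowerSeries (Fin n) K) :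
    subHom a ha g = subst a g :=
  substAlgHom_apply (hasSubst_of_constantCoeff_zero ha) g

lemma inclStar_apply (r : ℕ) (K : Type*) [Field K]
    (g : MvPowerSeries (Fin r) (Kstar r K)) : inclStar r K g = subst (xstar r K) g :=
  substAlgHom_apply (hasSubst_xstar r K) g

/-- The direction of the projection given by `y`: the kernel vector of the linear parts of `y`
with `0`-th coordinate `1`. -/
noncomputable def dir (y : Fin r → MvPowerSeries (Fin (r + 1)) K) : Fin (r + 1) → K :=
  Fin.cons 1 (fun j => - ((Matrix.of fun i j : Fin r => lin (y i) j.succ)⁻¹.mulVec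
    (fun i => lin (y i) 0)) j)

lemma dir_zero (y : Fin r → MvPowerSeries (Fin (r + 1)) K) : dir y 0 = 1 := rfl

lemma co_dir_succ (y : Fin r → MvPowerSeries (Fin (r + 1)) K) (j : Fin r) :
    dir y j.succ = - ((Matrix.of fun i j : Fin r => lin (y i) j.succ)⁻¹.mulVec
    (fun i => lin (y i) 0)) j := rfl

lemma Adm.lin_dir {y : Fin r → MvPowerSeries (Fin (r + 1)) K} (hy : Adm y) (i : Fin r) :
    ∑ j, lin (y i) j * dir y j = 0 := by
  rw [Fin.sum_univ_succ, dir_zero, mul_one]
  have h1 : ((Matrix.of fun i j : Fin r => lin (y i) j.succ).mulVec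
      ((Matrix.of fun i j : Fin r => lin (y i) j.succ)⁻¹.mulVec (fun i => lin (y i) 0))) i =
      lin (y i) 0 := by
    rw [Matrix.mulVec_mulVec, Matrix.mul_nonsing_inv _ (isUnit_iff_ne_zero.mpr hy.2),
      Matrix.one_mulVec]
  have h2 : ∑ j : Fin r, lin (y i) j.succ * dir y j.succ = - ((Matrix.of fun i j : Fin r =>
      lin (y i) j.succ).mulVec ((Matrix.of fun i j : Fin r => lin (y i) j.succ)⁻¹.mulVec
        (fun i => lin (y i) 0))) i := by
    simp only [co_dir_succ, mul_neg, Finset.sum_neg_distrib]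
    rfl
  rw [h2, h1]
  ring

lemma Adm.eq_smul_dir {y : Fin r → MvPowerSeries (Fin (r + 1)) K} (hy : Adm y)
    {v : Fin (r + 1) → K} (hv : ∀ i, ∑ j, lin (y i) j * v j = 0) : v = v 0 • dir y := by
  set M := (Matrix.of fun i j : Fin r => lin (y i) j.succ) with hM
  have h1 : M.mulVec (fun j : Fin r => v j.succ - v 0 * dir y j.succ) = 0 := by
    ext i
    have h2 := hv i
    have h3 := hy.lin_dir i
    rw [Fin.sum_univ_succ] at h2 h3
    rw [dir_zero] at h3
    change ∑ j : Fin r, lin (y i) j.succ * (v j.succ - v 0 * dir y j.succ) = 0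
    have h4 : ∑ j : Fin r, lin (y i) j.succ * (v j.succ - v 0 * dir y j.succ) =
        ∑ j : Fin r, lin (y i) j.succ * v j.succ -
          v 0 * ∑ j : Fin r, lin (y i) j.succ * dir y j.succ := by
      rw [Finset.mul_sum, ← Finset.sum_sub_distrib]
      exact Finset.sum_congr rfl fun j _ => by ring
    rw [h4]
    linear_combination h2 - v 0 * h3
  have h5 : (fun j : Fin r => v j.succ - v 0 * dir y j.succ) = 0 := by
    have h6 := congrArg (fun w => M⁻¹.mulVec w) h1
    simp only [Matrix.mulVec_mulVec] at h6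
    rw [Matrix.nonsing_inv_mul _ (isUnit_iff_ne_zero.mpr hy.2), Matrix.one_mulVec,
      Matrix.mulVec_zero] at h6
    exact h6
  ext j
  refine Fin.cases ?_ (fun j => ?_) j
  · rw [Pi.smul_apply, dir_zero, smul_eq_mul, mul_one]
  · rw [Pi.smul_apply, smul_eq_mul]
    exact sub_eq_zero.mp (congrFun h5 j)

lemma dir_map {L : Type*} [Field L] (φ : K →+* L) {y : Fin r → MvPowerSeries (Fin (r + 1)) K}
    (hy : Adm y) (j : Fin (r + 1)) :
    dir (fun i => MvPowerSeries.map φ (y i)) j = φ (dir y j) := by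
  have h := (hy.map φ).eq_smul_dir (v := fun j => φ (dir y j)) (fun i => by
    have h1 := congrArg φ (hy.lin_dir i)
    rw [map_sum, map_zero] at h1
    rw [← h1]
    refine Finset.sum_congr rfl fun j _ => ?_
    rw [lin_map, map_mul])
  have h2 := congrFun h j
  simp only [Pi.smul_apply, dir_zero, map_one, one_smul] at h2
  exact h2.symm

/-- Restriction of a power series to the line spanned by `v`. -/
noncomputable def line {n : ℕ} (v : Fin n → K) (f : MvPowerSeries (Fin n) K) : PowerSeries K :=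
  subst (fun i => PowerSeries.C (v i) * PowerSeries.X : Fin n → MvPowerSeries Unit K) f

/-- `g = υ (X_0 - y^*(b))` with `υ` a unit: the hypersurface `g = 0` is the graph
`X_0 = b(y)`. -/
structure IsRoot (y : Fin r → MvPowerSeries (Fin (r + 1)) K)
    (g υ : MvPowerSeries (Fin (r + 1)) K) (b : MvPowerSeries (Fin r) K) : Prop where
  unit : IsUnit υ
  const : constantCoeff b = 0
  eq : g = υ * (X 0 - subst y b)

/-! ### Auxiliary facts -/

section aux

theorem co_hs {n m : ℕ} {a : Fin n → MvPowerSeries (Fin m) K}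
    (ha : ∀ i, constantCoeff (a i) = 0) : HasSubst a := hasSubst_of_constantCoeff_zero ha

/-- division by the first variable -/
theorem co_X_dvd (h : MvPowerSeries (Fin (r + 1)) K) :
    X 0 ∣ h - rename (Fin.succEmb r) (killCompl (Fin.succEmb r) h) := by
  rw [X_dvd_iff]
  intro m hm
  have h1 : m ∈ Set.range (Finsupp.embDomain (M := ℕ) (Fin.succEmb r)) := by
    rw [Finsupp.mem_range_embDomain_iff]
    intro i hi
    rw [Finset.mem_coe, Finsupp.mem_support_iff] at hi
    have hi0 : i ≠ 0 := by rintro rfl; exact hi hm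
    exact ⟨i.pred hi0, Fin.succ_pred i hi0⟩
  obtain ⟨x, rfl⟩ := h1
  rw [map_sub, coeff_embDomain_rename, coeff_killCompl, sub_self]

theorem co_cons_const {g : MvPowerSeries (Fin (r + 1)) K} (h0 : constantCoeff g = 0)
    {y : Fin r → MvPowerSeries (Fin (r + 1)) K} (hy : ∀ i, constantCoeff (y i) = 0)
    (i : Fin (r + 1)) :
    constantCoeff ((Fin.cons g y : Fin (r + 1) → MvPowerSeries (Fin (r + 1)) K) i) = 0 := by
  refine Fin.cases ?_ (fun i => ?_) i
  · exact h0
  · exact hy i

theorem co_cons_rename {m : ℕ} {g : MvPowerSeries (Fin m) K}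
    {y : Fin r → MvPowerSeries (Fin m) K}
    (hc : HasSubst (Fin.cons g y : Fin (r + 1) → MvPowerSeries (Fin m) K))
    (F : MvPowerSeries (Fin r) K) :
    (subst (Fin.cons g y : Fin (r + 1) → MvPowerSeries (Fin m) K)
      (rename (Fin.succEmb r) F : MvPowerSeries (Fin (r + 1)) K) : MvPowerSeries (Fin m) K) =
      subst y F := by
  have hX : HasSubst (X ∘ (Fin.succEmb r) : Fin r → MvPowerSeries (Fin (r + 1)) K) :=
    HasSubst.X_comp _
  rw [rename_eq_subst, subst_comp_subst_apply hX hc]
  congr 1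
  funext i
  simp only [Function.comp_apply]
  rw [subst_X hc]
  rfl

theorem co_lin_sum {y : Fin r → MvPowerSeries (Fin (r + 1)) K} (hy : Adm y)
    {b : MvPowerSeries (Fin r) K} :
    ∑ j, lin (X 0 - subst y b : MvPowerSeries (Fin (r + 1)) K) j * dir y j = 1 := by
  have h1 : ∀ j, lin (X 0 - subst y b : MvPowerSeries (Fin (r + 1)) K) j =
      (Pi.single 0 1 : Fin (r + 1) → K) j - ∑ i, lin b i * lin (y i) j := by
    intro j
    rw [lin_sub, Pi.sub_apply, lin_X, lin_subst y hy.1]
  simp only [h1, sub_mul, Finset.sum_sub_distrib, Finset.sum_mul]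
  rw [Finset.sum_comm]
  have h2 : ∀ i : Fin r, ∑ j, lin b i * lin (y i) j * dir y j = 0 := by
    intro i
    have h3 := hy.lin_dir i
    calc ∑ j, lin b i * lin (y i) j * dir y j = lin b i * ∑ j, lin (y i) j * dir y j := by
          rw [Finset.mul_sum]
          exact Finset.sum_congr rfl fun j _ => by ring
      _ = 0 := by rw [h3, mul_zero]
  rw [Finset.sum_eq_zero (fun i _ => h2 i), sub_zero, Fin.sum_univ_succ, Pi.single_eq_same,
    dir_zero, one_mul, Finset.sum_eq_zero, add_zero]
  intro j _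
  rw [Pi.single_eq_of_ne (Fin.succ_ne_zero j), zero_mul]

theorem co_const {y : Fin r → MvPowerSeries (Fin (r + 1)) K}
    (hy : ∀ i, constantCoeff (y i) = 0) {b : MvPowerSeries (Fin r) K}
    (hb : constantCoeff b = 0) :
    constantCoeff (X 0 - subst y b : MvPowerSeries (Fin (r + 1)) K) = 0 := by
  rw [map_sub, constantCoeff_X, constantCoeff_subst0 y hy, hb, sub_zero]

/-- `g, y_1, ..., y_r` is a coordinate system if `g` is transversal to the direction. -/
theorem co_isParam_cons {y : Fin r → MvPowerSeries (Fin (r + 1)) K} (hy : Adm y)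
    {g : MvPowerSeries (Fin (r + 1)) K} (h0 : constantCoeff g = 0)
    (h1 : ∑ j, lin g j * dir y j ≠ 0) :
    IsParam (Fin.cons g y : Fin (r + 1) → MvPowerSeries (Fin (r + 1)) K) := by
  rw [isParam_iff_linearIndependent]
  refine ⟨co_cons_const h0 hy.1, ?_⟩
  have e : (fun i => lin ((Fin.cons g y : Fin (r + 1) → MvPowerSeries (Fin (r + 1)) K) i)) =
      Fin.cons (lin g) (fun i => lin (y i)) := by
    funext i
    refine Fin.cases ?_ (fun i => ?_) i
    · rfl
    · rfl
  rw [e, linearIndependent_finCons]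
  constructor
  · have h2 := hy.isParam_full
    rw [isParam_iff_linearIndependent] at h2
    exact h2.2.comp Fin.succ (Fin.succ_injective r)
  · intro hmem
    apply h1
    have h3 : Submodule.span K (Set.range fun i => lin (y i)) ≤
        LinearMap.ker (∑ j, dir y j • (LinearMap.proj j : (Fin (r + 1) → K) →ₗ[K] K)) := by
      rw [Submodule.span_le]
      rintro _ ⟨i, rfl⟩
      rw [SetLike.mem_coe, LinearMap.mem_ker, LinearMap.sum_apply]
      simp only [LinearMap.smul_apply, LinearMap.proj_apply, smul_eq_mul]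
      rw [← hy.lin_dir i]
      exact Finset.sum_congr rfl fun j _ => mul_comm _ _
    have h4 := h3 hmem
    rw [LinearMap.mem_ker, LinearMap.sum_apply] at h4
    simp only [LinearMap.smul_apply, LinearMap.proj_apply, smul_eq_mul] at h4
    rw [← h4]
    exact Finset.sum_congr rfl fun j _ => mul_comm _ _

end aux

theorem Adm.exists_root {y : Fin r → MvPowerSeries (Fin (r + 1)) K} (hy : Adm y)
    {g : MvPowerSeries (Fin (r + 1)) K} (h0 : constantCoeff g = 0)
    (h1 : ∑ j, lin g j * dir y j ≠ 0) : ∃ υ b, IsRoot y g υ b := by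
  obtain ⟨c, hc, hc1, hc2⟩ := (co_isParam_cons hy h0 h1).exists_inverse
  have hP : HasSubst (Fin.cons g y : Fin (r + 1) → MvPowerSeries (Fin (r + 1)) K) :=
    co_hs (co_cons_const h0 hy.1)
  set h : MvPowerSeries (Fin (r + 1)) K := subst c (X 0 : MvPowerSeries (Fin (r + 1)) K) with hh
  have hh0 : constantCoeff h = 0 := by
    rw [hh, constantCoeff_subst0 c hc.1, constantCoeff_X]
  set b := killCompl (Fin.succEmb r) h with hb
  have hb0 : constantCoeff b = 0 := by
    rw [← coeff_zero_eq_constantCoeff_apply, hb, coeff_killCompl, Finsupp.embDomain_zero,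
      coeff_zero_eq_constantCoeff_apply, hh0]
  obtain ⟨k, hk⟩ := co_X_dvd h
  rw [← hb] at hk
  have h2 : (X 0 - subst y b : MvPowerSeries (Fin (r + 1)) K) =
      g * subst (Fin.cons g y : Fin (r + 1) → MvPowerSeries (Fin (r + 1)) K) k := by
    have h3 : (subst (Fin.cons g y : Fin (r + 1) → MvPowerSeries (Fin (r + 1)) K)
        (h - rename (Fin.succEmb r) b : MvPowerSeries (Fin (r + 1)) K) :
        MvPowerSeries (Fin (r + 1)) K) = subst (Fin.cons g y) (X 0 * k) := by
      rw [hk]
    rw [subst_sub hP, subst_mul hP, subst_X hP, co_cons_rename hP, hh, hc1] at h3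
    exact h3
  set κ : MvPowerSeries (Fin (r + 1)) K :=
    subst (Fin.cons g y : Fin (r + 1) → MvPowerSeries (Fin (r + 1)) K) k with hκ
  have h4 : constantCoeff κ ≠ 0 := by
    intro h5
    have h6 := co_lin_sum hy (b := b)
    rw [h2, lin_mul, h5, h0, zero_smul, zero_smul, add_zero] at h6
    simp at h6
  have h5 : IsUnit κ := by
    rw [isUnit_iff_constantCoeff]
    exact isUnit_iff_ne_zero.mpr h4
  obtain ⟨u, hu⟩ := h5
  refine ⟨((u⁻¹ : (MvPowerSeries (Fin (r + 1)) K)ˣ) : MvPowerSeries (Fin (r + 1)) K), b,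
    Units.isUnit _, hb0, ?_⟩
  rw [h2, ← hu, mul_comm g, Units.inv_mul_cancel_left]

theorem IsRoot.map {L : Type*} [Field L] (φ : K →+* L)
    {y : Fin r → MvPowerSeries (Fin (r + 1)) K} (hy : ∀ i, constantCoeff (y i) = 0)
    {g υ : MvPowerSeries (Fin (r + 1)) K} {b : MvPowerSeries (Fin r) K} (h : IsRoot y g υ b) :
    IsRoot (fun i => MvPowerSeries.map φ (y i)) (MvPowerSeries.map φ g)
      (MvPowerSeries.map φ υ) (MvPowerSeries.map φ b) := by
  refine ⟨h.unit.map _, ?_, ?_⟩
  · rw [constantCoeff_map, h.const, map_zero]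
  · rw [h.eq, map_mul, map_sub, map_X, map_subst0 φ y hy]

/-- The value of the unit: `υ(0) = lin g (dir y)`. -/
theorem IsRoot.constantCoeff_unit {y : Fin r → MvPowerSeries (Fin (r + 1)) K} (hy : Adm y)
    {g υ : MvPowerSeries (Fin (r + 1)) K} {b : MvPowerSeries (Fin r) K} (h : IsRoot y g υ b) :
    constantCoeff υ = ∑ j, lin g j * dir y j := by
  rw [h.eq, lin_mul, co_const hy.1 h.const, zero_smul, add_zero]
  simp only [Pi.smul_apply, smul_eq_mul, mul_assoc]
  rw [← Finset.mul_sum, co_lin_sum hy, mul_one]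

/-- The linear part of the root: `lin g = υ(0) (e_0 - ∑_i (lin b)_i lin y_i)`. -/
theorem IsRoot.lin_eq {y : Fin r → MvPowerSeries (Fin (r + 1)) K} (hy : Adm y)
    {g υ : MvPowerSeries (Fin (r + 1)) K} {b : MvPowerSeries (Fin r) K} (h : IsRoot y g υ b)
    (j : Fin (r + 1)) :
    lin g j = constantCoeff υ * ((Pi.single 0 1 : Fin (r + 1) → K) j -
      ∑ i, lin b i * lin (y i) j) := by
  rw [h.eq, lin_mul, co_const hy.1 h.const, zero_smul, add_zero, Pi.smul_apply, smul_eq_mul,
    lin_sub, Pi.sub_apply, lin_X, lin_subst y hy.1]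

/-- The section of the projection with image the graph `X_0 = b(y)`. -/
theorem Adm.exists_section {y : Fin r → MvPowerSeries (Fin (r + 1)) K} (hy : Adm y)
    {b : MvPowerSeries (Fin r) K} (hb : constantCoeff b = 0) :
    ∃ a : Fin (r + 1) → MvPowerSeries (Fin r) K, (∀ i, constantCoeff (a i) = 0) ∧ a 0 = b ∧
      (∀ F : MvPowerSeries (Fin r) K, subst a (subst y F : MvPowerSeries (Fin (r + 1)) K) = F) ∧
      (∀ g : MvPowerSeries (Fin (r + 1)) K,
        (subst a g : MvPowerSeries (Fin r) K) = 0 ↔ (X 0 - subst y b) ∣ g) := by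
  set g₀ : MvPowerSeries (Fin (r + 1)) K := X 0 - subst y b with hg₀
  have hg0 : constantCoeff g₀ = 0 := co_const hy.1 hb
  have hg1 : ∑ j, lin g₀ j * dir y j ≠ 0 := by
    rw [hg₀, co_lin_sum hy]
    exact one_ne_zero
  obtain ⟨c, hc, hc1, hc2⟩ := (co_isParam_cons hy hg0 hg1).exists_inverse
  have hP : HasSubst (Fin.cons g₀ y : Fin (r + 1) → MvPowerSeries (Fin (r + 1)) K) :=
    co_hs (co_cons_const hg0 hy.1)
  have hcs : HasSubst c := co_hs hc.1
  set z : Fin (r + 1) → MvPowerSeries (Fin r) K := Fin.cons 0 X with hz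
  have hz0 : ∀ i, constantCoeff (z i) = 0 := by
    intro i
    refine Fin.cases ?_ (fun i => ?_) i
    · exact map_zero _
    · exact constantCoeff_X i
  have hzs : HasSubst z := co_hs hz0
  -- the restriction to the hyperplane
  have hρι : ∀ F : MvPowerSeries (Fin r) K,
      (subst z (rename (Fin.succEmb r) F : MvPowerSeries (Fin (r + 1)) K) :
        MvPowerSeries (Fin r) K) = F := by
    intro F
    rw [hz, co_cons_rename hzs, subst_self]
    rfl
  have hρ : ∀ p : MvPowerSeries (Fin (r + 1)) K,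
      (subst z p : MvPowerSeries (Fin r) K) = killCompl (Fin.succEmb r) p := by
    intro p
    obtain ⟨k, hk⟩ := co_X_dvd p
    have h2 : (subst z (p - rename (Fin.succEmb r) (killCompl (Fin.succEmb r) p) :
        MvPowerSeries (Fin (r + 1)) K) : MvPowerSeries (Fin r) K) = subst z (X 0 * k) := by
      rw [hk]
    rw [subst_sub hzs, subst_mul hzs, subst_X hzs, hρι] at h2
    have h3 : z 0 = 0 := rfl
    rw [h3, zero_mul, sub_eq_zero] at h2
    exact h2
  have hker : ∀ p : MvPowerSeries (Fin (r + 1)) K,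
      (subst z p : MvPowerSeries (Fin r) K) = 0 ↔ X 0 ∣ p := by
    intro p
    constructor
    · intro h2
      have h3 := co_X_dvd p
      rw [← hρ, h2, map_zero, sub_zero] at h3
      exact h3
    · rintro ⟨k, rfl⟩
      have h3 : z 0 = 0 := rfl
      rw [subst_mul hzs, subst_X hzs, h3, zero_mul]
  refine ⟨fun i => subst z (c i), fun i => ?_, ?_, fun F => ?_, fun g => ?_⟩
  · rw [constantCoeff_subst0 z hz0, hc.1]
  · have h2 : (X 0 : MvPowerSeries (Fin (r + 1)) K) =
        subst (Fin.cons g₀ y : Fin (r + 1) → MvPowerSeries (Fin (r + 1)) K)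
          (X 0 + rename (Fin.succEmb r) b : MvPowerSeries (Fin (r + 1)) K) := by
      rw [subst_add hP, subst_X hP, co_cons_rename hP]
      change (X 0 : MvPowerSeries (Fin (r + 1)) K) = g₀ + subst y b
      rw [hg₀, sub_add_cancel]
    have h3 : c 0 = X 0 + rename (Fin.succEmb r) b := by
      have h4 : (subst c (X 0 : MvPowerSeries (Fin (r + 1)) K) :
          MvPowerSeries (Fin (r + 1)) K) = c 0 := subst_X hcs 0
      rw [h2, hc2] at h4
      exact h4.symm
    simp only [h3]
    rw [subst_add hzs, subst_X hzs, hρι]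
    change (0 : MvPowerSeries (Fin r) K) + b = b
    rw [zero_add]
  · rw [← subst_comp_subst_apply hcs hzs, ← co_cons_rename hP F, hc2, hρι]
  · rw [← subst_comp_subst_apply hcs hzs, hker]
    constructor
    · rintro ⟨k, hk⟩
      refine ⟨subst (Fin.cons g₀ y : Fin (r + 1) → MvPowerSeries (Fin (r + 1)) K) k, ?_⟩
      rw [← hc1 g, hk, subst_mul hP, subst_X hP]
      rfl
    · rintro ⟨k, rfl⟩
      have h2 : g₀ = subst (Fin.cons g₀ y : Fin (r + 1) → MvPowerSeries (Fin (r + 1)) K)
          (X 0 : MvPowerSeries (Fin (r + 1)) K) := by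
        rw [subst_X hP]
        rfl
      refine ⟨subst c k, ?_⟩
      rw [subst_mul hcs]
      congr 1
      conv_lhs => rw [h2]
      rw [hc2]

/-- Continuity: congruent elements have congruent roots and units. -/
theorem IsRoot.congr_order {y : Fin r → MvPowerSeries (Fin (r + 1)) K} (hy : Adm y)
    {g υ g' υ' : MvPowerSeries (Fin (r + 1)) K} {b b' : MvPowerSeries (Fin r) K}
    (h : IsRoot y g υ b) (h' : IsRoot y g' υ' b') {k : ℕ} (hk : (k : ℕ∞) ≤ (g - g').order) :
    (k : ℕ∞) ≤ (b - b').order ∧ ((k - 1 : ℕ) : ℕ∞) ≤ (υ - υ').order := by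
  have hys := co_hs hy.1
  obtain ⟨a, ha0, ha1, ha2, ha3⟩ := hy.exists_section h.const
  have has := co_hs ha0
  have h1 : (subst a g : MvPowerSeries (Fin r) K) = 0 := (ha3 g).mpr ⟨υ, by rw [h.eq, mul_comm]⟩
  have h2 : (subst a (g - g') : MvPowerSeries (Fin r) K) = -(subst a υ' * (b - b')) := by
    rw [subst_sub has, h1, zero_sub, h'.eq, subst_mul has, subst_sub has, subst_X has, ha1, ha2]
  have hu : (subst a υ' : MvPowerSeries (Fin r) K).order = 0 := by
    by_contra hne
    rw [← ne_eq, order_ne_zero_iff_constCoeff_eq_zero, constantCoeff_subst0 a ha0] at hne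
    have := (isUnit_iff_constantCoeff.mp h'.unit).ne_zero
    exact this hne
  have h3 : (k : ℕ∞) ≤ (b - b').order := by
    have h4 := hk.trans (order_le_order_subst a ha0 (g - g'))
    rw [h2, order_neg, order_mul, hu, zero_add] at h4
    exact h4
  refine ⟨h3, ?_⟩
  have h5 : (υ - υ') * (X 0 - subst y b) = (g - g') + υ' * subst y (b - b') := by
    rw [subst_sub hys, h.eq, h'.eq]
    ring
  have h6 : (X 0 - subst y b : MvPowerSeries (Fin (r + 1)) K).order = 1 := by
    rw [order_eq_one_iff]
    refine ⟨co_const hy.1 h.const, fun h7 => ?_⟩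
    have h8 := co_lin_sum hy (b := b)
    rw [h7] at h8
    simp at h8
  have h7 : (k : ℕ∞) ≤ (υ - υ').order + 1 := by
    rw [← h6, ← order_mul, h5]
    refine le_trans (le_min hk ?_) min_order_le_add
    rw [order_mul]
    exact (h3.trans (order_le_order_subst y hy.1 (b - b'))).trans le_add_self
  rcases Nat.eq_zero_or_pos k with rfl | hk0
  · simp
  · obtain ⟨m, rfl⟩ : ∃ m, k = m + 1 := ⟨k - 1, by omega⟩
    rw [Nat.add_sub_cancel]
    push_cast at h7
    exact (ENat.add_le_add_iff_right (by simp)).mp h7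

/-- the vectors `e_0 - ∑_i (lin b)_i lin y_i` -/
theorem co_lin_indep {y : Fin r → MvPowerSeries (Fin (r + 1)) K} (hy : Adm y) {ι : Type*}
    {g υ : ι → MvPowerSeries (Fin (r + 1)) K} {b : ι → MvPowerSeries (Fin r) K}
    (h : ∀ i, IsRoot y (g i) (υ i) (b i))
    (hli : LinearIndependent K (fun i => lin (g i))) :
    LinearIndependent K (fun i => (fun j => (Pi.single 0 1 : Fin (r + 1) → K) j -
      ∑ l, lin (b i) l * lin (y l) j)) := by
  have hu : ∀ i, constantCoeff (υ i) ≠ 0 := fun i =>
    (isUnit_iff_constantCoeff.mp (h i).unit).ne_zero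
  have h1 := hli.units_smul (fun i => (Units.mk0 _ (hu i))⁻¹)
  convert h1 using 1
  funext i
  funext j
  change _ = (((Units.mk0 _ (hu i))⁻¹ : Kˣ) : K) * lin (g i) j
  rw [(h i).lin_eq hy j, Units.val_inv_eq_inv_val, Units.val_mk0, ← mul_assoc,
    inv_mul_cancel₀ (hu i), one_mul]

/-- Independence of linear parts passes to differences of roots (two elements). -/
theorem IsRoot.lin_sub_ne_zero {y : Fin r → MvPowerSeries (Fin (r + 1)) K} (hy : Adm y)
    {g₁ υ₁ g₂ υ₂ : MvPowerSeries (Fin (r + 1)) K} {b₁ b₂ : MvPowerSeries (Fin r) K}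
    (h₁ : IsRoot y g₁ υ₁ b₁) (h₂ : IsRoot y g₂ υ₂ b₂)
    (hli : LinearIndependent K ![lin g₁, lin g₂]) : lin (b₁ - b₂) ≠ 0 := by
  intro h0
  rw [lin_sub, sub_eq_zero] at h0
  have h1 := co_lin_indep hy (g := ![g₁, g₂]) (υ := ![υ₁, υ₂]) (b := ![b₁, b₂])
    (by
      intro i
      fin_cases i
      · exact h₁
      · exact h₂) (by
      convert hli using 1
      funext i
      fin_cases i <;> rfl)
  have h2 := h1.injective.ne (a₁ := (0 : Fin 2)) (a₂ := 1) (by decide)
  apply h2
  funext j
  change _ - ∑ l, lin b₁ l * _ = _ - ∑ l, lin b₂ l * _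
  rw [h0]

/-- Independence of linear parts passes to differences of roots (four elements). -/
theorem IsRoot.linearIndependent_sub {y : Fin r → MvPowerSeries (Fin (r + 1)) K} (hy : Adm y)
    {g υ : Fin 4 → MvPowerSeries (Fin (r + 1)) K} {b : Fin 4 → MvPowerSeries (Fin r) K}
    (h : ∀ i, IsRoot y (g i) (υ i) (b i))
    (hli : LinearIndependent K (fun i => lin (g i))) :
    LinearIndependent K ![lin (b 0 - b 1), lin (b 2 - b 3)] := by
  have h1 := co_lin_indep hy h hli
  rw [LinearIndependent.pair_iff]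
  intro s t hst
  rw [Fintype.linearIndependent_iff] at h1
  have h2 := h1 ![s, -s, t, -t] (by
    funext j
    rw [Fin.sum_univ_four]
    simp only [Matrix.cons_val, Pi.add_apply, Pi.smul_apply, smul_eq_mul, Pi.zero_apply]
    have h3 : ∑ l, (s * lin (b 0 - b 1) l + t * lin (b 2 - b 3) l) * lin (y l) j = 0 := by
      refine Finset.sum_eq_zero fun l _ => ?_
      have h4 := congrFun hst l
      simp only [Pi.add_apply, Pi.smul_apply, smul_eq_mul, Pi.zero_apply] at h4
      rw [h4, zero_mul]
    have h5 : ∑ l, (s * lin (b 0 - b 1) l + t * lin (b 2 - b 3) l) * lin (y l) j =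
        s * (∑ l, lin (b 0) l * lin (y l) j - ∑ l, lin (b 1) l * lin (y l) j) +
        t * (∑ l, lin (b 2) l * lin (y l) j - ∑ l, lin (b 3) l * lin (y l) j) := by
      rw [← Finset.sum_sub_distrib, ← Finset.sum_sub_distrib, Finset.mul_sum, Finset.mul_sum,
        ← Finset.sum_add_distrib]
      refine Finset.sum_congr rfl fun l _ => ?_
      rw [lin_sub, lin_sub, Pi.sub_apply, Pi.sub_apply]
      ring
    rw [h5] at h3
    linear_combination -h3)
  exact ⟨h2 0, h2 2⟩

end Pool.Agent.Zariski
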