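import Mathlib

/-!
# Zariski's dimensionality type: definitions

Conventions.  An algebroid hypersurface of dimension `r` over a field `K` is
`o = K[[x_0, ..., x_r]] / I` with `I = (f)`, `f` without multiple factors and `f(0) = 0`.
There are `r + 1` variables, indexed by `Fin (r + 1)`; the variable called `x_{r+1}` in the
source (the one that is kept in the generic projection) is the variable of index `0` here.
A point of the hypersurface is a prime ideal of `o`; it is given by the corresponding prime
ideal `p` of `K[[x]]` containing `I`.
-/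

namespace Pool.Agent.Zariski

open MvPowerSeries

universe u

/-- The index set of the indeterminates `u`: pairs `(i, a)` with `i < r` and `a` a nonzero
multi-index in `r + 1` variables. -/
abbrev UIdx (r : ℕ) : Type := Fin r × {a : Fin (r + 1) →₀ ℕ // a ≠ 0}

/-- The field `K* = K({u})` of rational functions in the indeterminates `u` over `K`. -/
def Kstar (r : ℕ) (K : Type u) [Field K] : Type u :=
  FractionRing (MvPolynomial (UIdx r) K)

/-- The field structure of `K*`: that of the fraction field of the polynomial ring `K[{u}]`. -/
noncomputable def fieldKstar (r : ℕ) (K : Type u) [Field K] : Field (Kstar r K) :=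
  FractionRing.field (MvPolynomial (UIdx r) K)

noncomputable instance instFieldKstar (r : ℕ) (K : Type u) [Field K] : Field (Kstar r K) :=
  fieldKstar r K

/-- `K*` as an algebra over `K[{u}]`. -/
noncomputable def algebraPolyKstar (r : ℕ) (K : Type u) [Field K] :
    Algebra (MvPolynomial (UIdx r) K) (Kstar r K) :=
  (OreLocalization.instAlgebra :
    Algebra (MvPolynomial (UIdx r) K) (FractionRing (MvPolynomial (UIdx r) K)))

noncomputable instance instAlgebraPolyKstar (r : ℕ) (K : Type u) [Field K] :
    Algebra (MvPolynomial (UIdx r) K) (Kstar r K) :=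
  algebraPolyKstar r K

/-- `K*` as an algebra over `K`. -/
noncomputable def algebraKstar (r : ℕ) (K : Type u) [Field K] : Algebra K (Kstar r K) :=
  (OreLocalization.instAlgebra : Algebra K (FractionRing (MvPolynomial (UIdx r) K)))

noncomputable instance instAlgebraKstar (r : ℕ) (K : Type u) [Field K] : Algebra K (Kstar r K) :=
  algebraKstar r K

/-- Extension of the coefficients `K[[x]] → K*[[x]]`. -/
noncomputable def extCoeff (r : ℕ) (K : Type u) [Field K] :
    MvPowerSeries (Fin (r + 1)) K →+* MvPowerSeries (Fin (r + 1)) (Kstar r K) :=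
  MvPowerSeries.map (algebraMap K (Kstar r K))

/-- The generic power series `x_i^* = ∑_{a ≠ 0} u_{i,a} x^a`. -/
noncomputable def xstar (r : ℕ) (K : Type u) [Field K] (i : Fin r) :
    MvPowerSeries (Fin (r + 1)) (Kstar r K) :=
  fun a => if h : a = 0 then 0 else
    algebraMap (MvPolynomial (UIdx r) K) (Kstar r K) (MvPolynomial.X (i, ⟨a, h⟩))

lemma constantCoeff_xstar (r : ℕ) (K : Type u) [Field K] (i : Fin r) :
    constantCoeff (xstar r K i) = 0 := by
  change (xstar r K i) 0 = 0
  simp [xstar]

lemma hasSubst_xstar (r : ℕ) (K : Type u) [Field K] : HasSubst (xstar r K) :=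
  hasSubst_of_constantCoeff_zero (constantCoeff_xstar r K)

/-- The inclusion of `A* = K*[[X_1^*, ..., X_r^*]]` in `K*[[x_1, ..., x_{r+1}]]`,
`X_i^* ↦ x_i^*`. -/
noncomputable def inclStar (r : ℕ) (K : Type u) [Field K] :
    MvPowerSeries (Fin r) (Kstar r K) →+* MvPowerSeries (Fin (r + 1)) (Kstar r K) :=
  (substAlgHom (R := Kstar r K) (hasSubst_xstar r K)).toRingHom

/-- `P` is the equation of `V*` in the basis `x_1^*, ..., x_r^*, x_{r+1}`, written by
Weierstrass preparation as a (distinguished) monic polynomial in `x_{r+1}` with coefficients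
in `A*`. -/
structure IsWeierstrassEq {r : ℕ} {K : Type u} [Field K]
    (I : Ideal (MvPowerSeries (Fin (r + 1)) K))
    (P : Polynomial (MvPowerSeries (Fin r) (Kstar r K))) : Prop where
  distinguished : P.IsDistinguishedAt (IsLocalRing.maximalIdeal (MvPowerSeries (Fin r) (Kstar r K)))
  span_eq : Ideal.span {P.eval₂ (inclStar r K) (X 0)} = I.map (extCoeff r K)

/-- The point `p / I` of `R / I` is simple: the local ring of `R / I` at it is regular. -/
def IsSimple {R : Type u} [CommRing R] (I p : Ideal R) : Prop :=
  ∃ _ : (p.map (Ideal.Quotient.mk I)).IsPrime,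
    IsRegularLocalRing (Localization.AtPrime (p.map (Ideal.Quotient.mk I)))

/-- `IsDimType r K I p d`: the dimensionality type over `K` of the `r`-dimensional algebroid
hypersurface `V = Spec K[[x_0, ..., x_r]] / I` at the point `p` is `d`.
It is `0` at a simple point; otherwise it is one more than the dimensionality type of the
critical hypersurface `Δ* = 0` (over `K*`) at the generic projection `π(p) = p o* ∩ A*`.  The
ideal of the reduced discriminant `Δ*` is the radical of the ideal of the discriminant. -/
def IsDimType : (r : ℕ) → (K : Type u) → [Field K] →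
    Ideal (MvPowerSeries (Fin (r + 1)) K) → Ideal (MvPowerSeries (Fin (r + 1)) K) → ℕ → Prop
  | 0, _, _, _, _, d => d = 0
  | r + 1, K, _, I, p, d =>
    (IsSimple I p ∧ d = 0) ∨
    (¬ IsSimple I p ∧ ∃ P : Polynomial (MvPowerSeries (Fin (r + 1)) (Kstar (r + 1) K)),
      IsWeierstrassEq I P ∧ ∃ d' : ℕ,
        IsDimType r (Kstar (r + 1) K) (Ideal.span {P.discr}).radical
          ((p.map (extCoeff (r + 1) K)).comap (inclStar (r + 1) K)) d' ∧ d = d' + 1)

/-- A coefficient field of the local ring `o`, given as an embedding `ι` of a field `K` in `o`: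
the field `ι(K)` is mapped isomorphically onto the residue field `o / m`. -/
def IsCoeffField {K : Type u} [Field K] {o : Type u} [CommRing o] [IsLocalRing o]
    (ι : K →+* o) : Prop :=
  Function.Bijective ((IsLocalRing.residue o).comp ι)

/-- The dimensionality type of `Spec o` at the point `R`, computed over the coefficient field
`ι(K)`, is `d`: there is a presentation `o = K[[x_0, ..., x_r]] / I` over this coefficient
field (that is, a choice of `r + 1` generators `Ψ(x_i)` of the maximal ideal of `o`) for which
the recursion gives `d`. -/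
def HasDimType (r : ℕ) {K : Type u} [Field K] {o : Type u} [CommRing o]
    (ι : K →+* o) (R : Ideal o) (d : ℕ) : Prop :=
  ∃ Ψ : MvPowerSeries (Fin (r + 1)) K →+* o, Function.Surjective Ψ ∧
    (∀ a : K, Ψ (C a) = ι a) ∧ IsDimType r K (RingHom.ker Ψ) (R.comap Ψ) d

end Pool.Agent.Zariski
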