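import Pool.Agent.Zariski.Coord

/-!
# Derivations of power series rings
-/

namespace Pool.Agent.Zariski

open MvPowerSeries

universe u

section

variable {n : ℕ} {K : Type u} [Field K]

/-- The coefficientwise extension of a derivation, as an additive map. -/
noncomputable def derivCoeffHom (D : Derivation ℤ K K) :
    MvPowerSeries (Fin n) K →+ MvPowerSeries (Fin n) K where
  toFun F := fun a => D (coeff a F)
  map_zero' := by
    ext a
    change D (coeff a (0 : MvPowerSeries (Fin n) K)) = coeff a (0 : MvPowerSeries (Fin n) K)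
    rw [map_zero, map_zero]
  map_add' F G := by
    ext a
    change D (coeff a (F + G)) = D (coeff a F) + D (coeff a G)
    rw [map_add, map_add]

lemma coeff_derivCoeffHom (D : Derivation ℤ K K) (F : MvPowerSeries (Fin n) K)
    (a : Fin n →₀ ℕ) : coeff a (derivCoeffHom D F) = D (coeff a F) := rfl

lemma derivCoeffHom_mul (D : Derivation ℤ K K) (F G : MvPowerSeries (Fin n) K) :
    derivCoeffHom D (F * G) = F * derivCoeffHom D G + G * derivCoeffHom D F := by
  classical
  ext a
  rw [coeff_derivCoeffHom, map_add, mul_comm G, coeff_mul, coeff_mul, coeff_mul, map_sum,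
    ← Finset.sum_add_distrib]
  refine Finset.sum_congr rfl fun p _ => ?_
  rw [Derivation.leibniz, coeff_derivCoeffHom, coeff_derivCoeffHom, smul_eq_mul, smul_eq_mul,
    mul_comm (coeff p.2 G)]

/-- The underlying additive map of `mkDer`. -/
noncomputable def mkDerHom (D : Derivation ℤ K K) (e : Fin n → MvPowerSeries (Fin n) K) :
    MvPowerSeries (Fin n) K →+ MvPowerSeries (Fin n) K where
  toFun F := derivCoeffHom D F + ∑ j, e j * pderiv K j F
  map_zero' := by simp
  map_add' F G := by
    simp only [map_add, mul_add, Finset.sum_add_distrib]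
    abel

lemma mkDerHom_apply (D : Derivation ℤ K K) (e : Fin n → MvPowerSeries (Fin n) K)
    (F : MvPowerSeries (Fin n) K) :
    mkDerHom D e F = derivCoeffHom D F + ∑ j, e j * pderiv K j F := rfl

lemma mkDerHom_mul (D : Derivation ℤ K K) (e : Fin n → MvPowerSeries (Fin n) K)
    (F G : MvPowerSeries (Fin n) K) :
    mkDerHom D e (F * G) = F * mkDerHom D e G + G * mkDerHom D e F := by
  have h : ∀ j, e j * pderiv K j (F * G) =
      F * (e j * pderiv K j G) + G * (e j * pderiv K j F) := fun j => by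
    rw [Derivation.leibniz, smul_eq_mul, smul_eq_mul]
    ring
  rw [mkDerHom_apply, mkDerHom_apply, mkDerHom_apply, derivCoeffHom_mul,
    Finset.sum_congr rfl fun j _ => h j, Finset.sum_add_distrib, ← Finset.mul_sum,
    ← Finset.mul_sum]
  ring

/-- The derivation `∑ D(F_a) x^a + ∑_j e_j ∂F/∂x_j` of `K[[x]]`. -/
noncomputable def mkDer (D : Derivation ℤ K K) (e : Fin n → MvPowerSeries (Fin n) K) :
    Derivation ℤ (MvPowerSeries (Fin n) K) (MvPowerSeries (Fin n) K) :=
  Derivation.mk' (mkDerHom D e).toIntLinearMap fun F G => mkDerHom_mul D e F G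

lemma mkDer_apply (D : Derivation ℤ K K) (e : Fin n → MvPowerSeries (Fin n) K)
    (F : MvPowerSeries (Fin n) K) :
    mkDer D e F = derivCoeffHom D F + ∑ j, e j * pderiv K j F := rfl

theorem coeff_mkDer (D : Derivation ℤ K K) (e : Fin n → MvPowerSeries (Fin n) K)
    (F : MvPowerSeries (Fin n) K) (a : Fin n →₀ ℕ) :
    coeff a (mkDer D e F) = D (coeff a F) + coeff a (∑ j, e j * pderiv K j F) := by
  rw [mkDer_apply, map_add, coeff_derivCoeffHom]

lemma derivCoeffHom_C (D : Derivation ℤ K K) (a : K) :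
    derivCoeffHom D (C a : MvPowerSeries (Fin n) K) = C (D a) := by
  classical
  ext b
  rw [coeff_derivCoeffHom, coeff_C, coeff_C]
  split_ifs
  · rfl
  · rw [map_zero]

lemma derivCoeffHom_X (D : Derivation ℤ K K) (j : Fin n) :
    derivCoeffHom D (X j : MvPowerSeries (Fin n) K) = 0 := by
  classical
  ext b
  rw [coeff_derivCoeffHom, coeff_X, map_zero]
  split_ifs
  · exact D.map_one_eq_zero
  · rw [map_zero]

theorem mkDer_C (D : Derivation ℤ K K) (e : Fin n → MvPowerSeries (Fin n) K) (a : K) :
    mkDer D e (C a) = C (D a) := by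
  rw [mkDer_apply, derivCoeffHom_C]
  simp

theorem mkDer_X (D : Derivation ℤ K K) (e : Fin n → MvPowerSeries (Fin n) K) (j : Fin n) :
    mkDer D e (X j) = e j := by
  classical
  rw [mkDer_apply, derivCoeffHom_X, zero_add, Finset.sum_eq_single j]
  · rw [pderiv_X_self, mul_one]
  · intro b _ hb
    rw [pderiv_X_of_ne hb.symm, mul_zero]
  · intro h
    exact absurd (Finset.mem_univ j) h

/-- A local homomorphism of power series rings maps the maximal ideal to the maximal ideal. -/
lemma der_hom_mem {m : ℕ} {L : Type*} [Field L]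
    (h : MvPowerSeries (Fin n) K →+* MvPowerSeries (Fin m) L)
    (hX : ∀ i, constantCoeff (h (X i)) = 0) {g : MvPowerSeries (Fin n) K}
    (hg : g ∈ IsLocalRing.maximalIdeal (MvPowerSeries (Fin n) K)) :
    h g ∈ IsLocalRing.maximalIdeal (MvPowerSeries (Fin m) L) := by
  have key : IsLocalRing.maximalIdeal (MvPowerSeries (Fin n) K) ≤
      (IsLocalRing.maximalIdeal (MvPowerSeries (Fin m) L)).comap h := by
    rw [maximalIdeal_eq_span_X, Ideal.span_le]
    rintro _ ⟨i, rfl⟩
    exact (mem_maximalIdeal_iff _).2 (hX i)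
  exact key hg

/-- A derivation along a local homomorphism lowers the adic filtration at most by one. -/
lemma der_pow_mem {m : ℕ} {L : Type*} [Field L]
    (h : MvPowerSeries (Fin n) K →+* MvPowerSeries (Fin m) L)
    (hX : ∀ i, constantCoeff (h (X i)) = 0)
    {E : MvPowerSeries (Fin n) K →+ MvPowerSeries (Fin m) L}
    (hE : ∀ f g, E (f * g) = h f * E g + h g * E f) (k : ℕ) :
    ∀ g ∈ IsLocalRing.maximalIdeal (MvPowerSeries (Fin n) K) ^ (k + 1),
      E g ∈ IsLocalRing.maximalIdeal (MvPowerSeries (Fin m) L) ^ k := by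
  have hh : ∀ l : ℕ, ∀ g ∈ IsLocalRing.maximalIdeal (MvPowerSeries (Fin n) K) ^ l,
      h g ∈ IsLocalRing.maximalIdeal (MvPowerSeries (Fin m) L) ^ l := by
    intro l g hg
    have h1 : Ideal.map h (IsLocalRing.maximalIdeal (MvPowerSeries (Fin n) K)) ≤
        IsLocalRing.maximalIdeal (MvPowerSeries (Fin m) L) :=
      Ideal.map_le_iff_le_comap.2 fun g hg => der_hom_mem h hX hg
    have h2 := Ideal.mem_map_of_mem h hg
    rw [Ideal.map_pow] at h2
    exact Ideal.pow_right_mono h1 l h2
  induction k with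
  | zero =>
    intro g _
    rw [pow_zero, Ideal.one_eq_top]
    exact Submodule.mem_top
  | succ k ih =>
    intro g hg
    rw [pow_succ] at hg
    refine Submodule.mul_induction_on hg (fun a ha b hb => ?_) (fun a b ha hb => ?_)
    · rw [hE]
      refine Ideal.add_mem _ ?_ ?_
      · exact Ideal.mul_mem_right _ _ (hh (k + 1) a ha)
      · rw [pow_succ, mul_comm (h b)]
        exact Ideal.mul_mem_mul (ih a ha) (der_hom_mem h hX hb)
    · rw [map_add]
      exact Ideal.add_mem _ ha hb

/-- A derivation along a ring homomorphism killing constants and variables kills monomials. -/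
lemma der_monomial_zero {m : ℕ} {L : Type*} [Field L]
    (h : MvPowerSeries (Fin n) K →+* MvPowerSeries (Fin m) L)
    {E : MvPowerSeries (Fin n) K →+ MvPowerSeries (Fin m) L}
    (hE : ∀ f g, E (f * g) = h f * E g + h g * E f)
    (hC : ∀ a, E (C a) = 0) (hX : ∀ i, E (X i) = 0) (p : MvPolynomial (Fin n) K) :
    E (p : MvPowerSeries (Fin n) K) = 0 := by
  induction p using MvPolynomial.induction_on with
  | C a =>
    rw [MvPolynomial.coe_C]
    exact hC a
  | add p q hp hq => rw [MvPolynomial.coe_add, map_add, hp, hq, add_zero]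
  | mul_X p i hp => rw [MvPolynomial.coe_mul, MvPolynomial.coe_X, hE, hp, hX, mul_zero, mul_zero,
      add_zero]

/-- Every power series is a polynomial modulo `m^k`. -/
lemma exists_poly_sub_mem (k : ℕ) (g : MvPowerSeries (Fin n) K) :
    ∃ p : MvPolynomial (Fin n) K, g - (p : MvPowerSeries (Fin n) K) ∈
      IsLocalRing.maximalIdeal (MvPowerSeries (Fin n) K) ^ k := by
  refine ⟨truncTotal k g, (mem_maximalIdeal_pow_iff k _).2 (nat_le_order fun d hd => ?_)⟩
  rw [map_sub, MvPolynomial.coeff_coe, coeff_truncTotal g hd, sub_self]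

/-- Any additive map satisfying the Leibniz rule along a local homomorphism `h` is determined
by its values on constants and on the variables. -/
theorem der_ext {m : ℕ} {L : Type*} [Field L]
    (h : MvPowerSeries (Fin n) K →+* MvPowerSeries (Fin m) L)
    (hX : ∀ i, constantCoeff (h (X i)) = 0)
    {E₁ E₂ : MvPowerSeries (Fin n) K →+ MvPowerSeries (Fin m) L}
    (h₁ : ∀ f g, E₁ (f * g) = h f * E₁ g + h g * E₁ f)
    (h₂ : ∀ f g, E₂ (f * g) = h f * E₂ g + h g * E₂ f)
    (hC : ∀ a, E₁ (C a) = E₂ (C a)) (hXX : ∀ i, E₁ (X i) = E₂ (X i)) : E₁ = E₂ := by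
  have hE : ∀ f g, (E₁ - E₂) (f * g) = h f * (E₁ - E₂) g + h g * (E₁ - E₂) f := fun f g => by
    rw [AddMonoidHom.sub_apply, AddMonoidHom.sub_apply, AddMonoidHom.sub_apply, h₁, h₂]
    ring
  have hEC : ∀ a, (E₁ - E₂) (C a) = 0 := fun a => by
    rw [AddMonoidHom.sub_apply, hC, sub_self]
  have hEX : ∀ i, (E₁ - E₂) (X i) = 0 := fun i => by
    rw [AddMonoidHom.sub_apply, hXX, sub_self]
  refine sub_eq_zero.1 (AddMonoidHom.ext fun g => ?_)
  have hmem : ∀ k : ℕ, (E₁ - E₂) g ∈ IsLocalRing.maximalIdeal (MvPowerSeries (Fin m) L) ^ k := by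
    intro k
    obtain ⟨p, hp⟩ := exists_poly_sub_mem (k + 1) g
    have h3 := der_pow_mem h hX hE k _ hp
    rwa [map_sub, der_monomial_zero h hE hEC hEX p, sub_zero] at h3
  have htop : ∀ k : ℕ, (k : ℕ∞) ≤ ((E₁ - E₂) g).order := fun k =>
    (mem_maximalIdeal_pow_iff k _).1 (hmem k)
  rw [AddMonoidHom.zero_apply, ← order_eq_top_iff]
  exact ENat.eq_top_iff_forall_ge.2 htop

theorem der_eq_mkDer (E : Derivation ℤ (MvPowerSeries (Fin n) K) (MvPowerSeries (Fin n) K))
    (D : Derivation ℤ K K) (hD : ∀ a, E (C a) = C (D a)) :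
    E = mkDer D (fun j => E (X j)) := by
  let E' : MvPowerSeries (Fin n) K →+ MvPowerSeries (Fin n) K :=
    { toFun := fun g => E g
      map_zero' := map_zero E
      map_add' := fun f g => map_add E f g }
  have h := der_ext (RingHom.id (MvPowerSeries (Fin n) K)) (fun i => by simp)
    (E₁ := E') (E₂ := mkDerHom D (fun j => E (X j)))
    (fun f g => E.leibniz f g)
    (fun f g => mkDerHom_mul D (fun j => E (X j)) f g)
    (fun a => (hD a).trans (mkDer_C D (fun j => E (X j)) a).symm)
    (fun i => (mkDer_X D (fun j => E (X j)) i).symm)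
  ext g : 1
  exact DFunLike.congr_fun h g

end

end Pool.Agent.Zariski
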