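import Pool.Agent.Zariski.Deriv

/-!
# Extension of derivations to generic coordinates
-/

namespace Pool.Agent.Zariski

open MvPowerSeries

universe u

/-- The additive map into the dual numbers defined by a derivation is a ring homomorphism. -/
noncomputable def dualOfDer {A B : Type*} [CommRing A] [CommRing B] (h : A →+* B)
    (D : A →+ B) (h1 : D 1 = 0) (hD : ∀ a b, D (a * b) = h a * D b + h b * D a) :
    A →+* TrivSqZeroExt B B where
  toFun a := (h a, D a)
  map_one' := by
    refine TrivSqZeroExt.ext ?_ ?_
    · exact map_one h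
    · exact h1
  map_zero' := by
    refine TrivSqZeroExt.ext ?_ ?_
    · exact map_zero h
    · exact map_zero D
  map_add' a b := by
    refine TrivSqZeroExt.ext ?_ ?_
    · exact map_add h a b
    · exact map_add D a b
  map_mul' a b := by
    refine TrivSqZeroExt.ext ?_ ?_
    · exact map_mul h a b
    · rw [TrivSqZeroExt.snd_mul]
      change D (a * b) = h a • D b + MulOpposite.op (h b) • D a
      rw [hD]
      simp [mul_comm]

/-- Extension of a derivation to `K({u})` with arbitrary values on the indeterminates. -/
theorem exists_derivation_Kstar (r : ℕ) (K : Type u) [Field K] (D : Derivation ℤ K K)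
    (v : UIdx r → Kstar r K) :
    ∃ D' : Derivation ℤ (Kstar r K) (Kstar r K),
      (∀ a : K, D' (algebraMap K (Kstar r K) a) = algebraMap K (Kstar r K) (D a)) ∧
      ∀ i, D' (algebraMap (MvPolynomial (UIdx r) K) (Kstar r K) (MvPolynomial.X i)) = v i := by
  let L := Kstar r K
  let R := MvPolynomial (UIdx r) K
  let h : K →+* L := algebraMap K L
  let δ : K →+* TrivSqZeroExt L L := dualOfDer h
    ((h : K →+ L).comp (D.toLinearMap.toAddMonoidHom)) (by simp) (by
      intro a b
      simp only [AddMonoidHom.coe_comp, LinearMap.toAddMonoidHom_coe, Function.comp_apply,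
        Derivation.coeFn_coe, Derivation.leibniz]
      simp)
  let φ : R →+* TrivSqZeroExt L L :=
    MvPolynomial.eval₂Hom δ (fun i => (algebraMap R L (MvPolynomial.X i), v i))
  have hfst : ∀ p : R, TrivSqZeroExt.fst (φ p) = algebraMap R L p := by
    have : ((TrivSqZeroExt.fstHom L L L).toRingHom.comp φ) = algebraMap R L := by
      refine MvPolynomial.ringHom_ext (fun a => ?_) (fun i => ?_)
      · simp only [φ, RingHom.comp_apply, MvPolynomial.coe_eval₂Hom, MvPolynomial.eval₂_C]
        change h a = algebraMap R L (MvPolynomial.C a)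
        rw [← MvPolynomial.algebraMap_eq, ← IsScalarTower.algebraMap_apply K R L]
      · simp only [φ, RingHom.comp_apply, MvPolynomial.coe_eval₂Hom, MvPolynomial.eval₂_X]
        rfl
    intro p
    exact RingHom.congr_fun this p
  have hunit : ∀ y : nonZeroDivisors R, IsUnit (φ y) := by
    intro y
    rw [TrivSqZeroExt.isUnit_iff_isUnit_fst, hfst]
    exact IsLocalization.map_units L y
  let ψ : L →+* TrivSqZeroExt L L := IsLocalization.lift (M := nonZeroDivisors R) hunit
  have hψ : ∀ p : R, ψ (algebraMap R L p) = φ p := fun p => IsLocalization.lift_eq hunit p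
  have hψfst : ∀ x : L, TrivSqZeroExt.fst (ψ x) = x := by
    have : ((TrivSqZeroExt.fstHom L L L).toRingHom.comp ψ) = RingHom.id L := by
      refine IsLocalization.ringHom_ext (nonZeroDivisors R) ?_
      ext p
      all_goals
        simp only [RingHom.comp_apply, RingHom.id_apply]
        rw [hψ]
        exact hfst _
    intro x
    exact RingHom.congr_fun this x
  refine ⟨Derivation.mk' (AddMonoidHom.toIntLinearMap
    { toFun := fun x => TrivSqZeroExt.snd (ψ x)
      map_zero' := by simp
      map_add' := fun x y => by simp }) ?_, ?_, ?_⟩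
  · intro x y
    change TrivSqZeroExt.snd (ψ (x * y)) = x • TrivSqZeroExt.snd (ψ y) +
      y • TrivSqZeroExt.snd (ψ x)
    rw [map_mul, TrivSqZeroExt.snd_mul, hψfst, hψfst]
    simp [mul_comm]
  · intro a
    change TrivSqZeroExt.snd (ψ (algebraMap K L a)) = h (D a)
    rw [IsScalarTower.algebraMap_apply K R L, hψ, MvPolynomial.algebraMap_eq]
    have h2 : φ (MvPolynomial.C a) = δ a := MvPolynomial.eval₂Hom_C _ _ _
    rw [h2]
    rfl
  · intro i
    change TrivSqZeroExt.snd (ψ (algebraMap R L (MvPolynomial.X i))) = v i
    have h2 : φ (MvPolynomial.X i) = (algebraMap R L (MvPolynomial.X i), v i) :=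
      MvPolynomial.eval₂Hom_X' _ _ _
    rw [hψ, h2]
    rfl

theorem pderiv_extCoeff (r : ℕ) (K : Type u) [Field K] (j : Fin (r + 1))
    (g : MvPowerSeries (Fin (r + 1)) K) :
    pderiv (Kstar r K) j (extCoeff r K g) = extCoeff r K (pderiv K j g) := by
  ext a
  rw [coeff_pderiv]
  simp only [extCoeff, coeff_map]
  rw [coeff_pderiv, map_mul, map_add, map_natCast, map_one]

/-- The derivation `mkDer D e` extends to `K*[[x]]` in such a way that it maps `A*` to itself,
acting on `A*` as `mkDer D' (C e')` with nonzero constants `e'`. -/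
theorem exists_extension (r : ℕ) (K : Type u) [Field K] (D : Derivation ℤ K K)
    (e : Fin (r + 1) → MvPowerSeries (Fin (r + 1)) K) (he : ∃ j, constantCoeff (e j) ≠ 0) :
    ∃ (D' : Derivation ℤ (Kstar r K) (Kstar r K)) (e' : Fin r → Kstar r K),
      (∀ i, e' i ≠ 0) ∧
      (∀ g, mkDer D' (fun j => extCoeff r K (e j)) (extCoeff r K g) =
        extCoeff r K (mkDer D e g)) ∧
      (∀ F, mkDer D' (fun j => extCoeff r K (e j)) (inclStar r K F) =
        inclStar r K (mkDer D' (fun i => C (e' i)) F)) := by
  let S : Fin r → MvPowerSeries (Fin (r + 1)) (Kstar r K) := fun i =>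
    ∑ j, extCoeff r K (e j) * pderiv (Kstar r K) j (xstar r K i)
  obtain ⟨D', hD1, hD2⟩ := exists_derivation_Kstar r K D (fun p => - coeff p.2.1 (S p.1))
  have hcx : ∀ i (a : Fin (r + 1) →₀ ℕ) (ha : a ≠ 0), coeff a (xstar r K i) =
      algebraMap (MvPolynomial (UIdx r) K) (Kstar r K) (MvPolynomial.X (i, ⟨a, ha⟩)) := by
    intro i a ha
    change xstar r K i a = _
    simp [xstar, ha]
  have hX : ∀ i, mkDer D' (fun j => extCoeff r K (e j)) (xstar r K i) =
      C (coeff 0 (S i)) := by
    intro i
    ext a
    rw [coeff_mkDer]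
    by_cases ha : a = 0
    · subst ha
      have h0 : coeff 0 (xstar r K i) = 0 := constantCoeff_xstar r K i
      rw [h0, map_zero, zero_add, coeff_C, if_pos rfl]
    · rw [hcx i a ha, hD2, coeff_C, if_neg ha]
      change - coeff a (S i) + coeff a (S i) = 0
      ring
  refine ⟨D', fun i => coeff 0 (S i), ?_, ?_, ?_⟩
  · intro i
    obtain ⟨j₀, hj₀⟩ := he
    have hS : coeff 0 (S i) = algebraMap (MvPolynomial (UIdx r) K) (Kstar r K)
        (∑ j, MvPolynomial.C (constantCoeff (e j)) *
          MvPolynomial.X (i, ⟨Finsupp.single j 1, by simp⟩)) := by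
      simp only [S, map_sum, map_mul, coeff_zero_eq_constantCoeff_apply]
      refine Finset.sum_congr rfl fun j _ => ?_
      refine congrArg₂ (· * ·) ?_ ?_
      · simp only [extCoeff, constantCoeff_map]
        rw [← MvPolynomial.algebraMap_eq, ← IsScalarTower.algebraMap_apply]
      · rw [← coeff_zero_eq_constantCoeff_apply, coeff_pderiv]
        rw [hcx i (0 + Finsupp.single j 1) (by simp)]
        simp
    change coeff 0 (S i) ≠ 0
    rw [hS]
    intro h0
    have h1 := (injective_iff_map_eq_zero (algebraMap (MvPolynomial (UIdx r) K)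
      (Kstar r K))).mp (IsFractionRing.injective (MvPolynomial (UIdx r) K) (Kstar r K)) _ h0
    have h2 := congrArg (MvPolynomial.coeff
      (Finsupp.single ((i, ⟨Finsupp.single j₀ 1, by simp⟩) : UIdx r) 1)) h1
    rw [MvPolynomial.coeff_sum, Finset.sum_eq_single j₀] at h2
    · rw [MvPolynomial.coeff_C_mul, MvPolynomial.coeff_X, if_pos rfl, mul_one,
        MvPolynomial.coeff_zero] at h2
      exact hj₀ h2
    · intro j _ hj
      rw [MvPolynomial.coeff_C_mul, MvPolynomial.coeff_X]
      rw [if_neg, mul_zero]
      intro hh
      rw [Finsupp.single_left_inj one_ne_zero] at hh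
      have h3 := congrArg (fun p : UIdx r => p.2.1) hh
      simp only at h3
      rw [Finsupp.single_left_inj one_ne_zero] at h3
      exact hj h3
    · simp
  · intro g
    ext a
    rw [coeff_mkDer]
    have e1 : ∑ j, extCoeff r K (e j) * pderiv (Kstar r K) j (extCoeff r K g) =
        extCoeff r K (∑ j, e j * pderiv K j g) := by
      rw [map_sum]
      refine Finset.sum_congr rfl fun j _ => ?_
      rw [pderiv_extCoeff, map_mul]
    rw [e1]
    simp only [extCoeff, coeff_map]
    rw [coeff_mkDer, hD1, map_add]
  · have key : ((mkDer D' (fun j => extCoeff r K (e j))).toLinearMap.toAddMonoidHom.comp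
        (inclStar r K : MvPowerSeries (Fin r) (Kstar r K) →+
          MvPowerSeries (Fin (r + 1)) (Kstar r K))) =
        (inclStar r K : MvPowerSeries (Fin r) (Kstar r K) →+
          MvPowerSeries (Fin (r + 1)) (Kstar r K)).comp
        (mkDer D' (fun i => C (coeff 0 (S i)))).toLinearMap.toAddMonoidHom := by
      refine der_ext (inclStar r K) ?_ ?_ ?_ ?_ ?_
      · intro i
        have : inclStar r K (X i) = xstar r K i := by
          change substAlgHom (R := Kstar r K) (hasSubst_xstar r K) (X i) = _
          rw [substAlgHom_X]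
        rw [this, constantCoeff_xstar]
      · intro f g
        simp
      · intro f g
        simp
      · intro a
        have h1 : ∀ b : Kstar r K, inclStar r K (C b) = C b := by
          intro b
          have h3 := (substAlgHom (R := Kstar r K) (hasSubst_xstar r K)).commutes b
          rw [MvPowerSeries.algebraMap_apply, MvPowerSeries.algebraMap_apply] at h3
          exact h3
        change mkDer D' (fun j => extCoeff r K (e j)) (inclStar r K (C a)) =
          inclStar r K (mkDer D' (fun i => C (coeff 0 (S i))) (C a))
        rw [h1, mkDer_C, mkDer_C, h1]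
      · intro i
        have h1 : ∀ b : Kstar r K, inclStar r K (C b) = C b := by
          intro b
          have h3 := (substAlgHom (R := Kstar r K) (hasSubst_xstar r K)).commutes b
          rw [MvPowerSeries.algebraMap_apply, MvPowerSeries.algebraMap_apply] at h3
          exact h3
        have h2 : inclStar r K (X i) = xstar r K i := by
          change substAlgHom (R := Kstar r K) (hasSubst_xstar r K) (X i) = _
          rw [substAlgHom_X]
        change mkDer D' (fun j => extCoeff r K (e j)) (inclStar r K (X i)) =
          inclStar r K (mkDer D' (fun i => C (coeff 0 (S i))) (X i))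
        rw [h2, hX, mkDer_X, h1]
    intro F
    exact DFunLike.congr_fun key F

end Pool.Agent.Zariski
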