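import Mathlib

/-!
# Discriminants of monic polynomials
-/

namespace Pool.Agent.Zariski

open Polynomial

section

variable {A : Type*} [CommRing A]

theorem C_discr_eq {P : A[X]} (hP : P.Monic) (h1 : 1 ≤ P.natDegree) :
    ∃ p q : A[X], P * p + derivative P * q = C P.discr := by
  obtain ⟨p, q, -, -, h⟩ := exists_mul_add_mul_eq_C_resultant P (derivative P)
    (m := P.natDegree) (n := P.natDegree - 1) le_rfl (natDegree_derivative_le P)
    (Or.inl (by omega))
  rw [resultant_deriv (natDegree_pos_iff_degree_pos.mp h1), hP.leadingCoeff, mul_one] at h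
  set s : A := (-1) ^ (P.natDegree * (P.natDegree - 1) / 2) with hs
  have hss : s * s = 1 := by rw [hs, ← mul_pow]; simp
  refine ⟨C s * p, C s * q, ?_⟩
  calc P * (C s * p) + derivative P * (C s * q) = C s * (P * p + derivative P * q) := by ring
    _ = C s * C (s * P.discr) := by rw [h]
    _ = C (s * s * P.discr) := by rw [← C_mul, mul_assoc]
    _ = C P.discr := by rw [hss, one_mul]

theorem discr_map_of_monic {B : Type*} [CommRing B] (φ : A →+* B) {P : A[X]} (hP : P.Monic) :
    (P.map φ).discr = φ P.discr := by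
  rcases subsingleton_or_nontrivial B with hB | hB
  · exact Subsingleton.elim _ _
  have hdeg : (P.map φ).natDegree = P.natDegree := hP.natDegree_map φ
  rcases Nat.eq_zero_or_pos P.natDegree with h0 | h1
  · have : P = 1 := eq_one_of_monic_natDegree_zero hP h0
    rw [this, Polynomial.map_one, ← C_1, discr_C, ← C_1, discr_C, map_one]
  · have e1 := resultant_deriv (natDegree_pos_iff_degree_pos.mp h1)
    have e2 := resultant_deriv (f := P.map φ)
      (natDegree_pos_iff_degree_pos.mp (by rw [hdeg]; exact h1))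
    rw [derivative_map, hdeg, resultant_map_map, e1, hP.leadingCoeff, (hP.map φ).leadingCoeff,
      mul_one, mul_one, map_mul, map_pow, map_neg, map_one] at e2
    set s : B := (-1) ^ (P.natDegree * (P.natDegree - 1) / 2) with hs
    have hss : s * s = 1 := by rw [hs, ← mul_pow]; simp
    calc (P.map φ).discr = s * s * (P.map φ).discr := by rw [hss, one_mul]
      _ = s * (s * (P.map φ).discr) := by ring
      _ = s * (s * φ P.discr) := by rw [← e2]
      _ = s * s * φ P.discr := by ring
      _ = φ P.discr := by rw [hss, one_mul]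

/-- If `P` and `P'` vanish at a point then so does the discriminant. -/
theorem map_discr_eq_zero {B : Type*} [CommRing B] (φ : A →+* B) (τ : B) {P : A[X]}
    (hP : P.Monic) (h1 : 1 ≤ P.natDegree) (h : P.eval₂ φ τ = 0)
    (h' : (derivative P).eval₂ φ τ = 0) : φ P.discr = 0 := by
  obtain ⟨p, q, e⟩ := C_discr_eq hP h1
  have := congrArg (eval₂ φ τ) e
  rw [eval₂_add, eval₂_mul, eval₂_mul, h, h', zero_mul, zero_mul, zero_add, eval₂_C] at this
  exact this.symm

theorem one_le_natDegree_of_root [Nontrivial A] {P : A[X]} (hP : P.Monic) {a : A}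
    (ha : P.eval a = 0) : 1 ≤ P.natDegree := by
  rcases Nat.eq_zero_or_pos P.natDegree with h0 | h1
  · rw [eq_one_of_monic_natDegree_zero hP h0, eval_one] at ha
    exact absurd ha one_ne_zero
  · exact h1

theorem sub_dvd_discr [IsDomain A] {P : A[X]} (hP : P.Monic) {a b : A} (ha : P.eval a = 0)
    (hb : P.eval b = 0) (hab : a ≠ b) : a - b ∣ P.discr := by
  obtain ⟨p, q, e⟩ := C_discr_eq hP (one_le_natDegree_of_root hP ha)
  obtain ⟨Q, hQ⟩ := dvd_iff_isRoot.mpr ha
  have hQb : Q.eval b = 0 := by
    have h2 := congrArg (eval b) hQ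
    rw [hb, eval_mul, eval_sub, eval_X, eval_C] at h2
    exact (mul_eq_zero.mp h2.symm).resolve_left (sub_ne_zero.mpr hab.symm)
  obtain ⟨R, hR⟩ := dvd_iff_isRoot.mpr hQb
  have hd : (derivative P).eval a = (a - b) * R.eval a := by
    rw [hQ, derivative_mul, derivative_sub, derivative_X, derivative_C, hR]
    simp
  have h3 := congrArg (eval a) e
  rw [eval_add, eval_mul, eval_mul, ha, hd, zero_mul, zero_add, eval_C] at h3
  exact ⟨R.eval a * q.eval a, by rw [← h3]; ring⟩

theorem sub_mul_sub_dvd_discr [IsDomain A] {P : A[X]} (hP : P.Monic) {a b c : A}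
    (ha : P.eval a = 0) (hb : P.eval b = 0) (hc : P.eval c = 0) (hab : a ≠ b) (hac : a ≠ c)
    (hbc : b ≠ c) : (a - b) * (a - c) ∣ P.discr := by
  obtain ⟨p, q, e⟩ := C_discr_eq hP (one_le_natDegree_of_root hP ha)
  obtain ⟨Q, hQ⟩ := dvd_iff_isRoot.mpr ha
  have hQb : Q.eval b = 0 := by
    have h2 := congrArg (eval b) hQ
    rw [hb, eval_mul, eval_sub, eval_X, eval_C] at h2
    exact (mul_eq_zero.mp h2.symm).resolve_left (sub_ne_zero.mpr hab.symm)
  have hQc : Q.eval c = 0 := by
    have h2 := congrArg (eval c) hQ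
    rw [hc, eval_mul, eval_sub, eval_X, eval_C] at h2
    exact (mul_eq_zero.mp h2.symm).resolve_left (sub_ne_zero.mpr hac.symm)
  obtain ⟨R, hR⟩ := dvd_iff_isRoot.mpr hQb
  have hRc : R.eval c = 0 := by
    have h2 := congrArg (eval c) hR
    rw [hQc, eval_mul, eval_sub, eval_X, eval_C] at h2
    exact (mul_eq_zero.mp h2.symm).resolve_left (sub_ne_zero.mpr hbc.symm)
  obtain ⟨S, hS⟩ := dvd_iff_isRoot.mpr hRc
  have hd : (derivative P).eval a = (a - b) * (a - c) * S.eval a := by
    rw [hQ, derivative_mul, derivative_sub, derivative_X, derivative_C, hR, hS]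
    simp
    ring
  have h3 := congrArg (eval a) e
  rw [eval_add, eval_mul, eval_mul, ha, hd, zero_mul, zero_add, eval_C] at h3
  exact ⟨S.eval a * q.eval a, by rw [← h3]; ring⟩

/-- A distinguished polynomial of degree at least two has its discriminant in the ideal. -/
theorem discr_mem_of_distinguished {I : Ideal A} {P : A[X]} (hP : P.IsDistinguishedAt I)
    (h2 : 2 ≤ P.natDegree) : P.discr ∈ I := by
  rw [← Ideal.Quotient.eq_zero_iff_mem]
  apply map_discr_eq_zero (Ideal.Quotient.mk I) 0 hP.monic (by omega)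
  · rw [eval₂_at_zero, Ideal.Quotient.eq_zero_iff_mem]
    exact hP.mem (by omega)
  · rw [eval₂_at_zero, Ideal.Quotient.eq_zero_iff_mem, coeff_derivative]
    exact I.mul_mem_right _ (hP.mem (by omega))

end

end Pool.Agent.Zariski
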