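import Pool.Agent.Zariski.DiscA

/-!
# Discriminants of monic polynomials, second part
-/

namespace Pool.Agent.Zariski

open Polynomial

section

variable {A : Type*} [CommRing A]

/-- Elements of `A` in the ideal `(P, P')` have a power divisible by the discriminant. -/
theorem discr_dvd_pow [IsDomain A] {P : A[X]} (hP : P.Monic) {a : A}
    (ha : C a ∈ Ideal.span {P, derivative P}) : P.discr ∣ a ^ P.natDegree := by
  rcases Nat.eq_zero_or_pos P.natDegree with h0 | h1
  · have hP1 : P = C 1 := by
      rw [hP.natDegree_eq_zero.mp h0, C_1]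
    rw [hP1, discr_C]
    exact one_dvd _
  rw [Ideal.mem_span_pair] at ha
  obtain ⟨u, v, huv⟩ := ha
  set n := P.natDegree with hn
  set N := v.natDegree + (derivative P).natDegree + (u.natDegree + n) with hN
  -- the resultant of `P` and `C a`
  have hC : resultant P (C a) n N = a ^ n := by
    rw [resultant_C_right, hn, coeff_natDegree, hP.leadingCoeff, one_pow, one_mul]
  have hvP : C a = v * derivative P + P * u := by
    rw [← huv]; ring
  have h2 : resultant P (C a) n N = resultant P (v * derivative P) n N := by
    rw [hvP]
    exact resultant_add_mul_right P (v * derivative P) u n N (by omega) le_rfl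
  have h3 : resultant P (v * derivative P) n N
      = resultant P (v * derivative P) n (v.natDegree + (derivative P).natDegree) := by
    rw [hN, resultant_add_right_deg P (v * derivative P) n
      (v.natDegree + (derivative P).natDegree) (u.natDegree + n) natDegree_mul_le, hn,
      coeff_natDegree, hP.leadingCoeff, one_pow, one_mul]
  have h4 := resultant_mul_right P v (derivative P) n le_rfl
  have h5 : resultant P (derivative P) n (n - 1)
      = resultant P (derivative P) n (derivative P).natDegree := by
    have hle : (derivative P).natDegree ≤ n - 1 := natDegree_derivative_le P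
    obtain ⟨k, hk⟩ := Nat.exists_eq_add_of_le hle
    rw [hk, resultant_add_right_deg P (derivative P) n (derivative P).natDegree k le_rfl, hn,
      coeff_natDegree, hP.leadingCoeff, one_pow, one_mul]
  have h6 := resultant_deriv (f := P) (natDegree_pos_iff_degree_pos.mp h1)
  rw [hP.leadingCoeff, mul_one] at h6
  have h7 : P.discr ∣ resultant P (derivative P) n (derivative P).natDegree := by
    rw [← h5, hn, h6]
    exact Dvd.intro_left _ rfl
  rw [← hC, h2, h3, h4]
  exact h7.mul_left _

/-- Squarefree monic polynomials over a UFD of characteristic 0 have nonzero discriminant. -/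
theorem discr_ne_zero_of_squarefree [IsDomain A] [UniqueFactorizationMonoid A] [CharZero A]
    {P : A[X]} (hP : P.Monic) (hs : Squarefree P) : P.discr ≠ 0 := by
  intro h0
  rcases Nat.eq_zero_or_pos P.natDegree with hn | h1
  · have hP1 : P = C 1 := by
      rw [hP.natDegree_eq_zero.mp hn, C_1]
    rw [hP1, discr_C] at h0
    exact one_ne_zero h0
  let K := FractionRing A
  have hinj : Function.Injective (algebraMap A K) := IsFractionRing.injective A K
  have : CharZero K := charZero_of_injective_algebraMap hinj
  -- the image of `P` is squarefree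
  have hsK : Squarefree (P.map (algebraMap A K)) := by
    intro q hq
    have hq1 : q ∣ P.map (algebraMap A K) := (dvd_mul_right q q).trans hq
    obtain ⟨g, hg⟩ := IsIntegrallyClosed.eq_map_mul_C_of_dvd K hP hq1
    have hPK0 : P.map (algebraMap A K) ≠ 0 := (hP.map _).ne_zero
    have hq0 : q ≠ 0 := by
      rintro rfl
      exact hPK0 (zero_dvd_iff.mp hq1)
    have hlc : q.leadingCoeff ≠ 0 := leadingCoeff_ne_zero.mpr hq0
    have hgm : g.Monic := by
      have h2 : (g.map (algebraMap A K)).leadingCoeff * q.leadingCoeff = q.leadingCoeff := by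
        conv_rhs => rw [← hg]
        rw [leadingCoeff_mul, leadingCoeff_C]
      have h3 : (g.map (algebraMap A K)).leadingCoeff = 1 := by
        have h4 : (g.map (algebraMap A K)).leadingCoeff * q.leadingCoeff
            = 1 * q.leadingCoeff := by rw [h2, one_mul]
        exact mul_right_cancel₀ hlc h4
      rw [leadingCoeff_map_of_injective hinj] at h3
      rw [Monic]
      apply hinj
      rw [h3, map_one]
    have hgg : (g * g).map (algebraMap A K) ∣ P.map (algebraMap A K) := by
      rw [Polynomial.map_mul]
      refine dvd_trans ?_ hq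
      refine mul_dvd_mul ?_ ?_ <;>
      · conv_rhs => rw [← hg]
        exact dvd_mul_right _ _
    rw [map_dvd_map _ hinj (hgm.mul hgm)] at hgg
    have hgu := hs g hgg
    have hg1 : g = 1 := hgm.eq_one_of_isUnit hgu
    rw [hg1, Polynomial.map_one, one_mul] at hg
    rw [← hg]
    exact isUnit_C.mpr (Ne.isUnit hlc)
  have hsep : (P.map (algebraMap A K)).Separable := PerfectField.separable_iff_squarefree.mpr hsK
  have hcop : IsCoprime (P.map (algebraMap A K)) (derivative (P.map (algebraMap A K))) := hsep
  have hres := resultant_ne_zero _ _ hcop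
  -- compare with the discriminant
  have hPm := hP.map (algebraMap A K)
  have hdeg : (P.map (algebraMap A K)).natDegree = P.natDegree := hP.natDegree_map _
  have h5 : resultant (P.map (algebraMap A K)) (derivative (P.map (algebraMap A K)))
      (P.map (algebraMap A K)).natDegree ((P.map (algebraMap A K)).natDegree - 1)
      = resultant (P.map (algebraMap A K)) (derivative (P.map (algebraMap A K)))
        (P.map (algebraMap A K)).natDegree
        (derivative (P.map (algebraMap A K))).natDegree := by
    have hle : (derivative (P.map (algebraMap A K))).natDegree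
      ≤ (P.map (algebraMap A K)).natDegree - 1 := natDegree_derivative_le _
    obtain ⟨k, hk⟩ := Nat.exists_eq_add_of_le hle
    rw [hk, resultant_add_right_deg _ _ _ _ k le_rfl,
      coeff_natDegree, hPm.leadingCoeff, one_pow, one_mul]
  have h6 := resultant_deriv (f := P) (natDegree_pos_iff_degree_pos.mp h1)
  rw [h0, mul_zero] at h6
  have h7 := congrArg (algebraMap A K) h6
  rw [← resultant_map_map, map_zero, ← derivative_map] at h7
  apply hres
  rw [← h5, hdeg]
  exact h7

/-- Conversely, monic polynomials with nonzero discriminant over a domain are squarefree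
with respect to monic factors. -/
theorem not_sq_dvd_of_discr_ne_zero [IsDomain A] {P Q : A[X]} (hP : P.Monic)
    (hd : P.discr ≠ 0) (hQ : Q.Monic) (hQP : Q ^ 2 ∣ P) : Q = 1 := by
  by_contra hne
  have hQ1 : 1 ≤ Q.natDegree := by
    rw [Nat.one_le_iff_ne_zero]
    intro h
    exact hne (hQ.natDegree_eq_zero.mp h)
  obtain ⟨R, hR⟩ := hQP
  have hR0 : R ≠ 0 := by
    rintro rfl
    rw [mul_zero] at hR
    exact hP.ne_zero hR
  have hPd : 1 ≤ P.natDegree := by
    have h1 : P.natDegree = (Q ^ 2).natDegree + R.natDegree := by
      rw [hR, (hQ.pow 2).natDegree_mul' hR0]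
    rw [hQ.natDegree_pow] at h1
    omega
  obtain ⟨p, q, hpq⟩ := C_discr_eq hP hPd
  have hdvd : Q ∣ C P.discr := by
    rw [← hpq]
    apply dvd_add
    · rw [hR]
      exact Dvd.dvd.mul_right (Dvd.dvd.mul_right (dvd_pow_self Q two_ne_zero) _) _
    · apply Dvd.dvd.mul_right
      rw [hR, derivative_mul, derivative_pow]
      apply dvd_add
      · apply Dvd.dvd.mul_right
        apply Dvd.dvd.mul_right
        apply Dvd.dvd.mul_left
        simp
      · exact Dvd.dvd.mul_right (dvd_pow_self Q two_ne_zero) _
  obtain ⟨S, hS⟩ := hdvd
  have hS0 : S ≠ 0 := by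
    rintro rfl
    rw [mul_zero, C_eq_zero] at hS
    exact hd hS
  have h2 := congrArg natDegree hS
  rw [natDegree_C, hQ.natDegree_mul' hS0] at h2
  omega

/-- the coefficientwise derivation -/
noncomputable def discBmap (D : Derivation ℤ A A) (F : A[X]) : A[X] :=
  ∑ i ∈ F.support, monomial i (D (F.coeff i))

theorem discBmap_coeff (D : Derivation ℤ A A) (F : A[X]) (n : ℕ) :
    (discBmap D F).coeff n = D (F.coeff n) := by
  classical
  rw [discBmap, finsetSum_coeff]
  simp only [coeff_monomial]
  rw [Finset.sum_ite_eq' F.support n (fun i => D (F.coeff i))]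
  split_ifs with h
  · rfl
  · rw [notMem_support_iff.mp h, map_zero]

theorem discBmap_add (D : Derivation ℤ A A) (F G : A[X]) :
    discBmap D (F + G) = discBmap D F + discBmap D G := by
  ext n
  simp only [discBmap_coeff, coeff_add, map_add]

theorem discBmap_mul (D : Derivation ℤ A A) (F G : A[X]) :
    discBmap D (F * G) = discBmap D F * G + F * discBmap D G := by
  ext n
  rw [discBmap_coeff, coeff_mul, coeff_add, coeff_mul, coeff_mul, map_sum,
    ← Finset.sum_add_distrib]
  apply Finset.sum_congr rfl
  intro x _
  rw [Derivation.leibniz, discBmap_coeff, discBmap_coeff, smul_eq_mul, smul_eq_mul]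
  ring

theorem discBmap_C (D : Derivation ℤ A A) (a : A) : discBmap D (C a) = C (D a) := by
  ext n
  rw [discBmap_coeff, coeff_C, coeff_C]
  split_ifs
  · rfl
  · exact map_zero D

theorem discBmap_derivative (D : Derivation ℤ A A) (F : A[X]) :
    discBmap D (derivative F) = derivative (discBmap D F) := by
  ext n
  rw [discBmap_coeff, coeff_derivative, coeff_derivative, discBmap_coeff, Derivation.leibniz]
  have h1 : D ((n : A) + 1) = 0 := by
    have : ((n : A) + 1) = ((n + 1 : ℕ) : A) := by push_cast; ring
    rw [this, Derivation.map_natCast]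
  rw [h1, smul_zero, zero_add, smul_eq_mul, mul_comm]

/-- In a `ℚ`-algebra the radical of an ideal stable under a derivation is stable. -/
theorem derivation_radical_stable [Algebra ℚ A] (D : Derivation ℤ A A) (J : Ideal A)
    (hJ : ∀ a ∈ J, D a ∈ J) {a : A} (ha : a ∈ J.radical) : D a ∈ J.radical := by
  obtain ⟨m, hm⟩ := ha
  -- `a^(m-k) (D a)^(2k) ∈ J`
  have key : ∀ k, k ≤ m → a ^ (m - k) * (D a) ^ (2 * k) ∈ J := by
    intro k
    induction k with
    | zero =>
      intro _
      simpa using hm
    | succ k ih =>
      intro hk
      have h1 := ih (by omega)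
      obtain ⟨j, hj⟩ : ∃ j, m - k = j + 1 := ⟨m - k - 1, by omega⟩
      have hj' : m - (k + 1) = j := by omega
      rw [hj] at h1
      rw [hj']
      -- differentiate
      have h2 := hJ _ h1
      rw [Derivation.leibniz, Derivation.leibniz_pow, Derivation.leibniz_pow] at h2
      simp only [smul_eq_mul, nsmul_eq_mul, Nat.add_sub_cancel] at h2
      -- multiply by `D a`
      have h3 := J.mul_mem_left (D a) h2
      have h4 : D a * (a ^ (j + 1) * (((2 * k : ℕ) : A) * (D a ^ (2 * k - 1) * D (D a)))
          + D a ^ (2 * k) * (((j + 1 : ℕ) : A) * (a ^ j * D a)))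
          = ((2 * k : ℕ) : A) * D (D a) * (a ^ (j + 1) * D a ^ (2 * k))
            + ((j + 1 : ℕ) : A) * (a ^ j * D a ^ (2 * (k + 1))) := by
        rcases Nat.eq_zero_or_pos k with rfl | hk0
        · push_cast
          ring
        · obtain ⟨i, hi⟩ : ∃ i, 2 * k = i + 1 := ⟨2 * k - 1, by omega⟩
          have hi2 : 2 * (k + 1) = i + 3 := by omega
          rw [hi2, hi, Nat.add_sub_cancel]
          ring
      rw [h4] at h3
      have h5 : ((j + 1 : ℕ) : A) * (a ^ j * D a ^ (2 * (k + 1))) ∈ J := by
        have h6 := J.mul_mem_left (((2 * k : ℕ) : A) * D (D a)) h1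
        have h7 := J.sub_mem h3 h6
        have e : ((2 * k : ℕ) : A) * D (D a) * (a ^ (j + 1) * D a ^ (2 * k))
            + ((j + 1 : ℕ) : A) * (a ^ j * D a ^ (2 * (k + 1)))
            - ((2 * k : ℕ) : A) * D (D a) * (a ^ (j + 1) * D a ^ (2 * k))
            = ((j + 1 : ℕ) : A) * (a ^ j * D a ^ (2 * (k + 1))) := by ring
        rwa [e] at h7
      have h8 := J.mul_mem_left (algebraMap ℚ A ((((j + 1 : ℕ) : ℚ))⁻¹)) h5
      rw [← mul_assoc] at h8
      have h9 : algebraMap ℚ A ((((j + 1 : ℕ) : ℚ))⁻¹) * ((j + 1 : ℕ) : A) = 1 := by
        have : ((j + 1 : ℕ) : A) = algebraMap ℚ A ((j + 1 : ℕ) : ℚ) := by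
          rw [map_natCast]
        rw [this, ← map_mul, inv_mul_cancel₀ (by positivity), map_one]
      rwa [h9, one_mul] at h8
  have h := key m le_rfl
  rw [Nat.sub_self, pow_zero, one_mul] at h
  exact ⟨2 * m, h⟩

/-- Invariance of the radical of the discriminant under a derivation `D` of `A` for which `P`
is invariant up to a vector field in the `T`-direction. -/
theorem derivation_radical_discr [IsDomain A] [Algebra ℚ A] (D : Derivation ℤ A A) {P : A[X]}
    (hP : P.Monic) {c : A[X]}
    (h : P ∣ (∑ i ∈ P.support, monomial i (D (P.coeff i))) + c * derivative P)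
    {a : A} (ha : a ∈ (Ideal.span {P.discr}).radical) :
    D a ∈ (Ideal.span {P.discr}).radical := by
  rcases Nat.eq_zero_or_pos P.natDegree with hn | h1
  · have hP1 : P = C 1 := by
      rw [hP.natDegree_eq_zero.mp hn, C_1]
    rw [hP1, discr_C, Ideal.span_singleton_one, Ideal.radical_top]
    exact Submodule.mem_top
  change P ∣ discBmap D P + c * derivative P at h
  -- the contraction of the ideal `(P, P')`
  set I : Ideal A[X] := Ideal.span {P, derivative P} with hI
  set J : Ideal A := I.comap C with hJdef
  have hPI : P ∈ I := Ideal.subset_span (by simp)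
  have hP'I : derivative P ∈ I := Ideal.subset_span (by simp)
  -- `J` is stable
  have hJ : ∀ b ∈ J, D b ∈ J := by
    intro b hb
    rw [hJdef, Ideal.mem_comap] at hb ⊢
    rw [hI, Ideal.mem_span_pair] at hb
    obtain ⟨u, v, huv⟩ := hb
    obtain ⟨w, hw⟩ := h
    -- derivative of the relation
    have hE1 : discBmap D P = P * w - c * derivative P := by
      rw [← hw]; ring
    have hE2 : discBmap D (derivative P)
        = derivative P * w + P * derivative w
          - (derivative c * derivative P + c * derivative (derivative P)) := by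
      rw [discBmap_derivative, hE1, derivative_sub, derivative_mul, derivative_mul]
    have h2 : C (D b) = discBmap D (u * P + v * derivative P)
        + c * derivative (u * P + v * derivative P) := by
      rw [huv, discBmap_C, derivative_C, mul_zero, add_zero]
    have h3 : discBmap D (u * P + v * derivative P)
        + c * derivative (u * P + v * derivative P)
        = (discBmap D u + u * w + c * derivative u + v * derivative w) * P
          + (discBmap D v + v * w - v * derivative c + c * derivative v) * derivative P := by
      rw [discBmap_add, discBmap_mul, discBmap_mul, hE1, hE2, derivative_add, derivative_mul,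
        derivative_mul]
      ring
    rw [h2, h3]
    exact I.add_mem (I.mul_mem_left _ hPI) (I.mul_mem_left _ hP'I)
  -- comparison of the radicals
  have hd : P.discr ∈ J := by
    rw [hJdef, Ideal.mem_comap]
    obtain ⟨p, q, hpq⟩ := C_discr_eq hP h1
    rw [← hpq]
    exact I.add_mem (I.mul_mem_right _ hPI) (I.mul_mem_right _ hP'I)
  have hle : (Ideal.span {P.discr}).radical ≤ J.radical := by
    apply Ideal.radical_mono
    rw [Ideal.span_singleton_le_iff_mem]
    exact hd
  have hge : J.radical ≤ (Ideal.span {P.discr}).radical := by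
    rw [Ideal.radical_le_radical_iff]
    intro b hb
    exact ⟨P.natDegree, Ideal.mem_span_singleton.mpr (discr_dvd_pow hP hb)⟩
  exact hge (derivation_radical_stable D J hJ (hle ha))

end

end Pool.Agent.Zariski
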