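import Pool.Agent.Zariski.InvFun

/-!
# The closed point of a hypersurface is simple iff the equation has order one
-/

namespace Pool.Agent.Zariski

open MvPowerSeries

universe u

theorem regular_dim_ge (K : Type u) [Field K] (n : ℕ) :
    (n : WithBot ℕ∞) ≤ ringKrullDim (MvPowerSeries (Fin n) K) := by
  induction n with
  | zero => exact ringKrullDim_nonneg_of_nontrivial
  | succ n ih =>
    rw [ringKrullDim_eq_of_ringEquiv (finSuccEquiv K n).toRingEquiv]
    refine le_trans ?_ ringKrullDim_succ_le_ringKrullDim_powerseries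
    push_cast
    gcongr

theorem regular_spanFinrank_le (K : Type u) [Field K] (n : ℕ) :
    (IsLocalRing.maximalIdeal (MvPowerSeries (Fin n) K)).spanFinrank ≤ n := by
  rw [maximalIdeal_eq_span_X]
  refine (Submodule.spanFinrank_span_le_ncard_of_finite (Set.finite_range _)).trans ?_
  rw [← Set.image_univ]
  refine (Set.ncard_image_le Set.finite_univ).trans ?_
  simp

theorem regular_dim_eq (K : Type u) [Field K] (n : ℕ) :
    ringKrullDim (MvPowerSeries (Fin n) K) = n := by
  apply le_antisymm _ (regular_dim_ge K n)
  refine (ringKrullDim_le_spanFinrank_maximalIdeal _).trans ?_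
  exact_mod_cast regular_spanFinrank_le K n

theorem regular_span_ne_top {n : ℕ} {K : Type u} [Field K] {f : MvPowerSeries (Fin n) K}
    (h0 : constantCoeff f = 0) : Ideal.span {f} ≠ ⊤ := by
  intro h
  rw [Ideal.span_singleton_eq_top, isUnit_iff_constantCoeff, h0] at h
  simp at h

/-- A quotient of `K[[x]]` by a proper ideal is local. -/
theorem isLocalRing_quotient {n : ℕ} {K : Type u} [Field K] {f : MvPowerSeries (Fin n) K}
    (h0 : constantCoeff f = 0) :
    IsLocalRing (MvPowerSeries (Fin n) K ⧸ Ideal.span {f}) := by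
  have : Nontrivial (MvPowerSeries (Fin n) K ⧸ Ideal.span {f}) :=
    Ideal.Quotient.nontrivial_iff.2 (regular_span_ne_top h0)
  exact IsLocalRing.of_surjective' (Ideal.Quotient.mk _) Ideal.Quotient.mk_surjective

theorem regular_dim_quot {n : ℕ} {K : Type u} [Field K] {f : MvPowerSeries (Fin n) K}
    (hf : f ≠ 0) (h0 : constantCoeff f = 0) :
    ringKrullDim (MvPowerSeries (Fin n) K ⧸ Ideal.span {f}) + 1 = n := by
  rw [ringKrullDim_quotient_span_singleton_succ_eq_ringKrullDim_of_mem_nonZeroDivisors
    (mem_nonZeroDivisors_of_ne_zero hf) ((mem_maximalIdeal_iff f).2 h0), regular_dim_eq]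

/-- the closed point -/
theorem regular_map_maximal {n : ℕ} {K : Type u} [Field K] {f : MvPowerSeries (Fin n) K}
    (h0 : constantCoeff f = 0) [IsLocalRing (MvPowerSeries (Fin n) K ⧸ Ideal.span {f})] :
    (IsLocalRing.maximalIdeal (MvPowerSeries (Fin n) K)).map (Ideal.Quotient.mk (Ideal.span {f})) =
      IsLocalRing.maximalIdeal (MvPowerSeries (Fin n) K ⧸ Ideal.span {f}) := by
  have hle : Ideal.span {f} ≤ IsLocalRing.maximalIdeal (MvPowerSeries (Fin n) K) := by
    rw [Ideal.span_singleton_le_iff_mem, mem_maximalIdeal_iff]; exact h0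
  have : ((IsLocalRing.maximalIdeal (MvPowerSeries (Fin n) K)).map
      (Ideal.Quotient.mk (Ideal.span {f}))).IsMaximal := by
    refine Ideal.IsMaximal.map_of_surjective_of_ker_le Ideal.Quotient.mk_surjective ?_
    rw [Ideal.mk_ker]; exact hle
  exact IsLocalRing.eq_maximalIdeal this

theorem regular_loc (S : Type*) [CommRing S] [IsLocalRing S] (p : Ideal S) [p.IsPrime]
    (hp : p = IsLocalRing.maximalIdeal S) :
    IsRegularLocalRing (Localization.AtPrime p) ↔ IsRegularLocalRing S := by
  let e : S ≃ₐ[S] (Localization.AtPrime p) :=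
    IsLocalization.atUnits S p.primeCompl (fun x hx => by
      have h1 : x ∉ p := hx
      rw [hp, IsLocalRing.mem_maximalIdeal, mem_nonunits_iff, not_not] at h1
      exact h1)
  constructor
  · intro h
    exact IsRegularLocalRing.of_ringEquiv e.toRingEquiv.symm
  · intro h
    exact IsRegularLocalRing.of_ringEquiv e.toRingEquiv

theorem regular_isSimple_iff {n : ℕ} {K : Type u} [Field K] {f : MvPowerSeries (Fin n) K}
    (h0 : constantCoeff f = 0) :
    IsSimple (Ideal.span {f}) (IsLocalRing.maximalIdeal (MvPowerSeries (Fin n) K)) ↔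
      IsRegularLocalRing (MvPowerSeries (Fin n) K ⧸ Ideal.span {f}) := by
  have hloc := isLocalRing_quotient h0
  have hmax := regular_map_maximal h0
  constructor
  · rintro ⟨hp, h⟩
    exact (regular_loc _ _ hmax).1 h
  · intro h
    have hpp : ((IsLocalRing.maximalIdeal (MvPowerSeries (Fin n) K)).map
      (Ideal.Quotient.mk (Ideal.span {f}))).IsPrime := by rw [hmax]; infer_instance
    exact ⟨hpp, (regular_loc _ _ hmax).2 h⟩

theorem regular_nakayama {R : Type*} [CommRing R] [IsLocalRing R] [IsNoetherianRing R]
    {J : Ideal R} (h : IsLocalRing.maximalIdeal R ≤ J ⊔ IsLocalRing.maximalIdeal R ^ 2) :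
    IsLocalRing.maximalIdeal R ≤ J := by
  apply Submodule.le_of_le_smul_of_le_jacobson_bot
    (I := IsLocalRing.maximalIdeal R) (IsNoetherian.noetherian _)
    (IsLocalRing.maximalIdeal_le_jacobson _)
  rw [smul_eq_mul, ← pow_two]
  exact h

theorem regular_mem_sq {n : ℕ} {K : Type u} [Field K] {g : MvPowerSeries (Fin n) K}
    (h0 : constantCoeff g = 0) (h1 : lin g = 0) :
    g ∈ IsLocalRing.maximalIdeal (MvPowerSeries (Fin n) K) ^ 2 := by
  rw [mem_maximalIdeal_pow_iff]
  exact_mod_cast (two_le_order_iff g).2 ⟨h0, h1⟩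

/-- if the linear part is nonzero, one variable is superfluous -/
theorem regular_gen {n : ℕ} {K : Type u} [Field K] {f : MvPowerSeries (Fin n) K}
    (h0 : constantCoeff f = 0) {i : Fin n} (hi : lin f i ≠ 0) :
    IsLocalRing.maximalIdeal (MvPowerSeries (Fin n) K) ≤
      Ideal.span (X '' {j : Fin n | j ≠ i}) ⊔ Ideal.span {f} := by
  apply regular_nakayama
  set J := Ideal.span (X '' {j : Fin n | j ≠ i}) ⊔ Ideal.span {f} with hJ
  have hX : ∀ j : Fin n, j ≠ i → (X j : MvPowerSeries (Fin n) K) ∈ J := by
    intro j hj
    exact Ideal.mem_sup_left (Ideal.subset_span ⟨j, hj, rfl⟩)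
  have hf : f ∈ J := Ideal.mem_sup_right (Ideal.mem_span_singleton_self f)
  have hXi : (X i : MvPowerSeries (Fin n) K) ∈ J ⊔
      IsLocalRing.maximalIdeal (MvPowerSeries (Fin n) K) ^ 2 := by
    have hg : f - ∑ j, C (lin f j) * X j ∈
        IsLocalRing.maximalIdeal (MvPowerSeries (Fin n) K) ^ 2 := by
      apply regular_mem_sq
      · simp [h0]
      · funext k
        rw [lin_sub]
        have : lin (∑ j, C (lin f j) * X j : MvPowerSeries (Fin n) K) = lin f := by
          funext l
          have hs : ∀ s : Finset (Fin n), lin (∑ j ∈ s, C (lin f j) * X j :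
              MvPowerSeries (Fin n) K) l = ∑ j ∈ s, lin f j * (Pi.single j (1 : K) : Fin n → K) l := by
            intro s
            induction s using Finset.induction_on with
            | empty => simp [lin_zero]
            | insert a s ha ih =>
              rw [Finset.sum_insert ha, Finset.sum_insert ha, lin_add, Pi.add_apply, ih, lin_mul,
                lin_X, lin_C]
              simp
          rw [hs]
          rw [Finset.sum_eq_single l (fun j _ hj => by rw [Pi.single_eq_of_ne hj.symm, mul_zero])
            (fun h => absurd (Finset.mem_univ l) h), Pi.single_eq_same, mul_one]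
        rw [this]
        simp
    have e : (X i : MvPowerSeries (Fin n) K) = C (lin f i)⁻¹ * (f - (f - ∑ j, C (lin f j) * X j) -
        ∑ j ∈ Finset.univ.erase i, C (lin f j) * X j) := by
      rw [sub_sub_cancel, ← Finset.add_sum_erase Finset.univ _ (Finset.mem_univ i),
        add_sub_cancel_right, ← mul_assoc, ← map_mul, inv_mul_cancel₀ hi, map_one, one_mul]
    rw [e]
    apply Ideal.mul_mem_left
    apply Ideal.sub_mem
    · exact Ideal.sub_mem _ (Ideal.mem_sup_left hf) (Ideal.mem_sup_right hg)
    · apply Ideal.sum_mem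
      intro j hj
      exact Ideal.mul_mem_left _ _ (Ideal.mem_sup_left (hX j (Finset.ne_of_mem_erase hj)))
  rw [maximalIdeal_eq_span_X, Ideal.span_le]
  rintro _ ⟨j, rfl⟩
  by_cases hj : j = i
  · rw [hj]
    have := hXi
    rw [maximalIdeal_eq_span_X] at this
    exact this
  · exact Ideal.mem_sup_left (hX j hj)

theorem isSimple_iff {n : ℕ} {K : Type u} [Field K] {f : MvPowerSeries (Fin n) K}
    (hf : f ≠ 0) (h0 : constantCoeff f = 0) :
    IsSimple (Ideal.span {f}) (IsLocalRing.maximalIdeal (MvPowerSeries (Fin n) K)) ↔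
      lin f ≠ 0 := by
  rw [regular_isSimple_iff h0]
  have hloc := isLocalRing_quotient h0
  have hmax := regular_map_maximal h0
  have hdim := regular_dim_quot hf h0
  set S := MvPowerSeries (Fin n) K ⧸ Ideal.span {f} with hS
  set m := IsLocalRing.maximalIdeal (MvPowerSeries (Fin n) K) with hm
  constructor
  · intro hreg hlin
    have hsf := (isRegularLocalRing_iff S).1 hreg
    obtain ⟨s, hs1, hs2⟩ := Submodule.FG.exists_span_finset_card_eq_spanFinrank
      (IsNoetherian.noetherian (IsLocalRing.maximalIdeal S))
    have hcard : s.card + 1 = n := by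
      rw [← hsf, ← hs1] at hdim
      exact_mod_cast hdim
    -- lift the generators
    obtain ⟨l, hl⟩ : ∃ l : S → MvPowerSeries (Fin n) K, ∀ x, Ideal.Quotient.mk (Ideal.span {f}) (l x) = x :=
      ⟨fun x => (Ideal.Quotient.mk_surjective x).choose,
        fun x => (Ideal.Quotient.mk_surjective x).choose_spec⟩
    classical
    set T : Finset (MvPowerSeries (Fin n) K) := s.image l with hT
    have hmap : (Ideal.span (T : Set (MvPowerSeries (Fin n) K))).map
        (Ideal.Quotient.mk (Ideal.span {f})) = IsLocalRing.maximalIdeal S := by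
      rw [Ideal.map_span, ← hs2]
      congr 1
      rw [hT, Finset.coe_image, ← Set.image_comp]
      have : (Ideal.Quotient.mk (Ideal.span {f}) : _ → S) ∘ l = id := funext hl
      rw [this, Set.image_id]
    have hle : m ≤ Ideal.span (T : Set (MvPowerSeries (Fin n) K)) ⊔ Ideal.span {f} := by
      have h1 : m ≤ ((Ideal.span (T : Set (MvPowerSeries (Fin n) K))).map
        (Ideal.Quotient.mk (Ideal.span {f}))).comap (Ideal.Quotient.mk (Ideal.span {f})) := by
        rw [hmap, ← hmax]
        exact Ideal.le_comap_map
      rw [Ideal.comap_map_of_surjective _ Ideal.Quotient.mk_surjective, ← RingHom.ker_eq_comap_bot,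
        Ideal.mk_ker] at h1
      exact h1
    have hle2 : m ≤ Ideal.span (T : Set (MvPowerSeries (Fin n) K)) := by
      apply regular_nakayama
      refine hle.trans (sup_le_sup le_rfl ?_)
      rw [Ideal.span_singleton_le_iff_mem]
      exact regular_mem_sq h0 hlin
    have hge : Ideal.span (T : Set (MvPowerSeries (Fin n) K)) ≤ m := by
      have h1 : Ideal.span (T : Set (MvPowerSeries (Fin n) K)) ≤ m.comap (RingHom.id _) := by
        have h2 : (Ideal.span (T : Set (MvPowerSeries (Fin n) K))) ≤
            ((Ideal.span (T : Set (MvPowerSeries (Fin n) K))).map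
              (Ideal.Quotient.mk (Ideal.span {f}))).comap (Ideal.Quotient.mk (Ideal.span {f})) :=
          Ideal.le_comap_map
        rw [hmap, ← hmax, Ideal.comap_map_of_surjective _ Ideal.Quotient.mk_surjective,
          ← RingHom.ker_eq_comap_bot, Ideal.mk_ker] at h2
        refine h2.trans (sup_le le_rfl ?_)
        rw [Ideal.span_singleton_le_iff_mem]
        exact (mem_maximalIdeal_iff f).2 h0
      exact h1
    have hmT : m = Ideal.span (T : Set (MvPowerSeries (Fin n) K)) := le_antisymm hle2 hge
    have hd := ringKrullDim_le_spanFinrank_maximalIdeal (MvPowerSeries (Fin n) K)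
    rw [regular_dim_eq] at hd
    have hd2 : n ≤ m.spanFinrank := by exact_mod_cast hd
    have hd3 : m.spanFinrank ≤ T.card := by
      rw [hmT]
      have := Submodule.spanFinrank_span_le_ncard_of_finite (R := MvPowerSeries (Fin n) K)
        (T.finite_toSet)
      rwa [Set.ncard_coe_finset] at this
    have hd4 : T.card ≤ s.card := Finset.card_image_le
    omega
  · intro hlin
    have hne : ∃ i, lin f i ≠ 0 := by
      by_contra h
      push Not at h
      exact hlin (funext h)
    obtain ⟨i, hi⟩ := hne
    apply IsRegularLocalRing.of_spanFinrank_maximalIdeal_le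
    change ((Submodule.spanFinrank (IsLocalRing.maximalIdeal S) : ℕ) : WithBot ℕ∞) ≤
      ringKrullDim S
    have hgen := regular_gen h0 hi
    have hmS : IsLocalRing.maximalIdeal S = Ideal.span
        ((Ideal.Quotient.mk (Ideal.span {f})) '' (X '' {j : Fin n | j ≠ i})) := by
      rw [← Ideal.map_span]
      apply le_antisymm
      · rw [← hmax]
        refine (Ideal.map_mono hgen).trans ?_
        rw [Ideal.map_sup, Ideal.map_quotient_self, sup_bot_eq]
      · rw [← hmax]
        apply Ideal.map_mono
        rw [hm, maximalIdeal_eq_span_X]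
        exact Ideal.span_mono (Set.image_subset_range _ _)
    have hfin : ({j : Fin n | j ≠ i}).Finite := Set.toFinite _
    have hle : (IsLocalRing.maximalIdeal S).spanFinrank + 1 ≤ n := by
      have h1 : (IsLocalRing.maximalIdeal S).spanFinrank ≤ ({j : Fin n | j ≠ i}).ncard := by
        rw [hmS]
        refine (Submodule.spanFinrank_span_le_ncard_of_finite ((hfin.image _).image _)).trans ?_
        exact (Set.ncard_image_le (hfin.image _)).trans (Set.ncard_image_le hfin)
      have h2 : ({j : Fin n | j ≠ i}).ncard + 1 = n := by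
        have : {j : Fin n | j ≠ i} = ((Finset.univ.erase i : Finset (Fin n)) : Set (Fin n)) := by
          ext; simp
        rw [this, Set.ncard_coe_finset, Finset.card_erase_of_mem (Finset.mem_univ i),
          Finset.card_univ, Fintype.card_fin]
        have := i.pos
        omega
      omega
    have h3 : (((IsLocalRing.maximalIdeal S).spanFinrank : ℕ) : WithBot ℕ∞) + 1 ≤ ringKrullDim S + 1 := by
      rw [hdim]
      exact_mod_cast hle
    have h4 : ringKrullDim S ≠ ⊤ := by
      intro h
      rw [h] at hdim
      have : (⊤ : WithBot ℕ∞) + 1 = ⊤ := rfl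
      rw [this] at hdim
      exact ENat.natCast_ne_top n (WithBot.coe_injective hdim).symm
    have h5 : ringKrullDim S ≠ ⊥ := by
      intro h
      rw [h] at hdim
      have : (⊥ : WithBot ℕ∞) + 1 = ⊥ := rfl
      rw [this] at hdim
      exact absurd hdim (by simp)
    obtain ⟨d, hd⟩ := WithBot.ne_bot_iff_exists.1 h5
    rw [← hd] at h3 h4 ⊢
    have h6 : d ≠ ⊤ := by
      rintro rfl
      exact h4 rfl
    obtain ⟨k, rfl⟩ := ENat.ne_top_iff_exists.1 h6
    norm_cast at h3 ⊢
    omega

theorem regular_constantCoeff_inclStar (r : ℕ) (K : Type u) [Field K]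
    (g : MvPowerSeries (Fin r) (Kstar r K)) :
    constantCoeff (inclStar r K g) = constantCoeff g := by
  have e : inclStar r K g = subst (xstar r K) g := by
    change substAlgHom (R := Kstar r K) (hasSubst_xstar r K) g = _
    rw [coe_substAlgHom]
  rw [e]
  exact constantCoeff_subst0 _ (constantCoeff_xstar r K) g

/-- The closed point goes to the closed point. -/
theorem closed_step (r : ℕ) (K : Type u) [Field K] :
    ((IsLocalRing.maximalIdeal (MvPowerSeries (Fin (r + 1)) K)).map (extCoeff r K)).comap
      (inclStar r K) = IsLocalRing.maximalIdeal (MvPowerSeries (Fin r) (Kstar r K)) := by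
  have h1 : (IsLocalRing.maximalIdeal (MvPowerSeries (Fin (r + 1)) K)).map (extCoeff r K) =
      IsLocalRing.maximalIdeal (MvPowerSeries (Fin (r + 1)) (Kstar r K)) := by
    rw [maximalIdeal_eq_span_X, maximalIdeal_eq_span_X, Ideal.map_span, ← Set.range_comp]
    congr 2
    funext i
    simp [extCoeff]
  rw [h1]
  ext g
  rw [Ideal.mem_comap, mem_maximalIdeal_iff, mem_maximalIdeal_iff, regular_constantCoeff_inclStar]

end Pool.Agent.Zariski
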