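import Pool.Agent.Zariski.Weier

/-!
# `K[[x_1, ..., x_n]]` is a unique factorization domain (`K` a field of characteristic 0)
-/

namespace Pool.Agent.Zariski

open MvPowerSeries

/-- The coefficient of degree `d` of the restriction of `f` to a line. -/
lemma coeff_line_ufd {n : ℕ} {K : Type*} [Field K] (v : Fin n → K)
    (f : MvPowerSeries (Fin n) K) (d : ℕ) :
    PowerSeries.coeff d (line v f) =
      ∑ a ∈ Finset.finsuppAntidiag (Finset.univ : Finset (Fin n)) d, coeff a f *
        ∏ i, v i ^ a i := by
  have hs : HasSubst (fun i => PowerSeries.C (v i) * PowerSeries.X : Fin n → MvPowerSeries Unit K) := by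
    apply hasSubst_of_constantCoeff_zero
    intro i
    change PowerSeries.constantCoeff (PowerSeries.C (v i) * PowerSeries.X) = 0
    simp
  have key : ∀ a : Fin n →₀ ℕ, (a.prod fun s e => ((fun i => PowerSeries.C (v i) * PowerSeries.X : Fin n → PowerSeries K) s) ^ e) = PowerSeries.C (∏ i, v i ^ a i) * PowerSeries.X ^ (a.sum fun _ e => e) := by
    intro a
    rw [Finsupp.prod_fintype _ _ (by simp), Finsupp.sum_fintype _ _ (by simp)]
    simp only [mul_pow, Finset.prod_mul_distrib, Finset.prod_pow_eq_pow_sum, map_prod, map_pow]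
  have h1 := coeff_subst hs f (Finsupp.single () d)
  change coeff (Finsupp.single () d) (subst _ f) = _
  rw [h1]
  rw [finsum_eq_sum_of_support_subset (s := Finset.finsuppAntidiag (Finset.univ : Finset (Fin n)) d)]
  · refine Finset.sum_congr rfl fun a ha => ?_
    rw [Finset.mem_finsuppAntidiag] at ha
    rw [smul_eq_mul]
    congr 1
    change PowerSeries.coeff d (a.prod fun s e => ((fun i => PowerSeries.C (v i) * PowerSeries.X : Fin n → PowerSeries K) s) ^ e) = _
    rw [key, PowerSeries.coeff_C_mul, PowerSeries.coeff_X_pow]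
    have : d = a.sum fun _ e => e := by
      rw [Finsupp.sum_fintype _ _ (by simp), ← ha.1]
    rw [if_pos this, mul_one]
  · intro a ha
    rw [Finset.mem_coe, Finset.mem_finsuppAntidiag]
    refine ⟨?_, Finset.subset_univ _⟩
    by_contra hne
    apply ha
    have : coeff (Finsupp.single () d) (a.prod fun s e => ((fun i => PowerSeries.C (v i) * PowerSeries.X : Fin n → MvPowerSeries Unit K) s) ^ e) = 0 := by
      change PowerSeries.coeff d (a.prod fun s e => ((fun i => PowerSeries.C (v i) * PowerSeries.X : Fin n → PowerSeries K) s) ^ e) = 0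
      rw [key, PowerSeries.coeff_C_mul, PowerSeries.coeff_X_pow, if_neg, mul_zero]
      rw [Finsupp.sum_fintype _ _ (by simp)]
      exact fun h => hne h.symm
    exact (congrArg (fun z => coeff a f • z) this).trans (smul_zero _)

lemma exists_line_ne_zero_ufd {r : ℕ} {K : Type*} [Field K] [Infinite K]
    {f : MvPowerSeries (Fin (r + 1)) K} {d : ℕ} (hd : f.order = d) :
    ∃ c : Fin r → K, PowerSeries.coeff d (line (Fin.cons 1 c : Fin (r + 1) → K) f) ≠ 0 := by
  classical
  -- the leading form as a polynomial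
  let F : MvPolynomial (Fin (r + 1)) K :=
    ∑ a ∈ Finset.finsuppAntidiag (Finset.univ : Finset (Fin (r + 1))) d,
      MvPolynomial.monomial a (coeff a f)
  have hcoeff : ∀ v : Fin (r + 1) → K, PowerSeries.coeff d (line v f) = MvPolynomial.eval v F := by
    intro v
    rw [coeff_line_ufd, map_sum]
    refine Finset.sum_congr rfl fun a _ => ?_
    rw [MvPolynomial.eval_monomial, Finsupp.prod_fintype _ _ (by simp)]
  have hhom : ∀ (t : K) (v : Fin (r + 1) → K),
      MvPolynomial.eval (fun i => t * v i) F = t ^ d * MvPolynomial.eval v F := by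
    intro t v
    rw [← hcoeff, ← hcoeff, coeff_line_ufd, coeff_line_ufd, Finset.mul_sum]
    refine Finset.sum_congr rfl fun a ha => ?_
    rw [Finset.mem_finsuppAntidiag] at ha
    simp only [mul_pow, Finset.prod_mul_distrib, Finset.prod_pow_eq_pow_sum]
    rw [ha.1]
    ring
  have hF : F ≠ 0 := by
    obtain ⟨⟨a, ha1, ha2⟩, -⟩ := order_eq_nat.1 hd
    intro h0
    apply ha1
    have h2 : MvPolynomial.coeff a F = coeff a f := by
      rw [MvPolynomial.coeff_sum]
      rw [Finset.sum_eq_single a]
      · simp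
      · intro b _ hb
        rw [MvPolynomial.coeff_monomial, if_neg hb]
      · intro h
        exfalso
        apply h
        rw [Finset.mem_finsuppAntidiag]
        refine ⟨?_, Finset.subset_univ _⟩
        rw [← ha2, Finsupp.degree_eq_sum]
    rw [← h2, h0, MvPolynomial.coeff_zero]
  have hne : F * MvPolynomial.X 0 ≠ 0 := mul_ne_zero hF (MvPolynomial.X_ne_zero _)
  obtain ⟨v, hv⟩ : ∃ v : Fin (r + 1) → K, MvPolynomial.eval v (F * MvPolynomial.X 0) ≠ 0 := by
    by_contra! h
    exact hne (MvPolynomial.funext (fun v => by rw [h v, map_zero]))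
  rw [map_mul, MvPolynomial.eval_X] at hv
  have hv0 : v 0 ≠ 0 := right_ne_zero_of_mul hv
  have hvF : MvPolynomial.eval v F ≠ 0 := left_ne_zero_of_mul hv
  refine ⟨fun j => (v 0)⁻¹ * v j.succ, ?_⟩
  have : (Fin.cons 1 (fun j => (v 0)⁻¹ * v j.succ) : Fin (r + 1) → K) = fun i => (v 0)⁻¹ * v i := by
    funext i
    refine Fin.cases ?_ (fun j => ?_) i
    · simp [hv0]
    · simp
  rw [this, hcoeff, hhom]
  exact mul_ne_zero (pow_ne_zero _ (inv_ne_zero hv0)) hvF

lemma exists_adm_ufd {r : ℕ} {K : Type*} [Field K] (c : Fin r → K) :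
    ∃ y : Fin r → MvPowerSeries (Fin (r + 1)) K, Adm y ∧ dir y = Fin.cons 1 c := by
  classical
  let y : Fin r → MvPowerSeries (Fin (r + 1)) K := fun i => X i.succ - C (c i) * X 0
  have hlin : ∀ i j, lin (y i) j = (Pi.single i.succ 1 : Fin (r + 1) → K) j - c i * (Pi.single 0 1 : Fin (r + 1) → K) j := by
    intro i j
    rw [lin_sub, lin_mul, lin_X, lin_C, lin_X]
    simp
  have h1 : ∀ i, constantCoeff (y i) = 0 := by
    intro i; simp [y]
  have hM : (Matrix.of fun i j : Fin r => lin (y i) j.succ) = 1 := by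
    ext i j
    rw [Matrix.of_apply, hlin]
    simp [Pi.single_apply, Matrix.one_apply, eq_comm]
  refine ⟨y, ⟨h1, by rw [hM]; simp⟩, ?_⟩
  rw [dir, hM]
  congr 1
  funext j
  simp [hlin]

lemma constantCoeff_eval₂_ufd {r : ℕ} {K : Type*} [Field K]
    {y : Fin r → MvPowerSeries (Fin (r + 1)) K} (hy : Adm y)
    (F : Polynomial (MvPowerSeries (Fin r) K)) :
    constantCoeff (F.eval₂ (subHom y hy.1) (X 0)) = constantCoeff (F.coeff 0) := by
  rw [Polynomial.hom_eval₂, constantCoeff_X, Polynomial.eval₂_at_zero]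
  change constantCoeff (subHom y hy.1 (F.coeff 0)) = _
  rw [subHom_apply, constantCoeff_subst0 y hy.1]

lemma constantCoeff_coeff_zero_of_dvd_ufd {A K : Type*} [CommRing A] [Field K] (φ : A →+* K)
    {P g : Polynomial A} {d : ℕ} (hP : P.map φ = Polynomial.X ^ d) (hg : g.Monic)
    (hdeg : 0 < g.natDegree) (h : g ∣ P) : φ (g.coeff 0) = 0 := by
  by_contra hne
  have h1 : g.map φ ∣ Polynomial.X ^ d := hP ▸ Polynomial.map_dvd φ h
  have h2 : IsCoprime (g.map φ) (Polynomial.X : Polynomial K) := by
    rw [isCoprime_comm]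
    refine (Polynomial.irreducible_X.coprime_iff_not_dvd).2 ?_
    rw [Polynomial.X_dvd_iff, Polynomial.coeff_map]
    exact hne
  have h3 : IsUnit (g.map φ) := (h2.pow_right (n := d)).isUnit_of_dvd' dvd_rfl h1
  have h4 := Polynomial.natDegree_eq_zero_of_isUnit h3
  rw [hg.natDegree_map] at h4
  omega

/-- An irreducible power series is prime (induction step). -/
lemma prime_of_irreducible_ufd {r : ℕ} {K : Type*} [Field K] [CharZero K]
    [UniqueFactorizationMonoid (MvPowerSeries (Fin r) K)]
    {f : MvPowerSeries (Fin (r + 1)) K} (hf : Irreducible f) : Prime f := by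
  classical
  have : Infinite K := CharZero.infinite K
  have : IsDomain (MvPowerSeries (Fin (r + 1)) K) := NoZeroDivisors.to_isDomain _
  have : IsDomain (MvPowerSeries (Fin r) K) := NoZeroDivisors.to_isDomain _
  have hf0 : f ≠ 0 := hf.ne_zero
  obtain ⟨d, hd⟩ : ∃ d : ℕ, f.order = d :=
    ⟨f.order.toNat, (ne_zero_iff_order_finite.1 hf0).symm⟩
  obtain ⟨c, hc⟩ := exists_line_ne_zero_ufd hd
  obtain ⟨y, hy, hdir⟩ := exists_adm_ufd c
  rw [← hdir] at hc
  obtain ⟨P, hP, hPd, hPf⟩ := hy.exists_weierstrass hd hc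
  have hassoc : Associated (P.eval₂ (subHom y hy.1) (X 0)) f :=
    Ideal.span_singleton_eq_span_singleton.1 hPf
  have hirr : Irreducible (P.eval₂ (subHom y hy.1) (X 0)) := (hassoc.irreducible_iff).2 hf
  refine hassoc.prime ?_
  -- reduction of `P` modulo the maximal ideal
  have hPm : P.Monic := hP.monic
  have hred : P.map (constantCoeff : MvPowerSeries (Fin r) K →+* K) = Polynomial.X ^ P.natDegree := by
    ext i
    rw [Polynomial.coeff_map, Polynomial.coeff_X_pow]
    split_ifs with h
    · subst h
      rw [hPm.coeff_natDegree, map_one]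
    · rcases lt_or_gt_of_ne h with h | h
      · exact (mem_maximalIdeal_iff _).1 (hP.mem h)
      · rw [Polynomial.coeff_eq_zero_of_natDegree_lt h, map_zero]
  -- a monic nonunit factor of `P` has nonunit value
  have hfac : ∀ g : Polynomial (MvPowerSeries (Fin r) K), g.Monic → g ∣ P → ¬ IsUnit g →
      ¬ IsUnit (g.eval₂ (subHom y hy.1) (X 0)) := by
    intro g hg hgP hgu hu
    have hdeg : 0 < g.natDegree := by
      rcases Nat.eq_zero_or_pos g.natDegree with h | h
      · exact absurd ((Polynomial.Monic.natDegree_eq_zero hg).1 h ▸ isUnit_one) hgu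
      · exact h
    have h1 := constantCoeff_coeff_zero_of_dvd_ufd _ hred hg hdeg hgP
    have h2 := hu.map (constantCoeff (R := K) (σ := Fin (r + 1)))
    rw [constantCoeff_eval₂_ufd hy, h1] at h2
    exact not_isUnit_zero h2
  have hPirr : Irreducible P := by
    refine ⟨fun h => hirr.not_isUnit ?_, ?_⟩
    · exact h.map (Polynomial.eval₂RingHom (subHom y hy.1) (X 0))
    · intro a b hab
      -- make the factors monic
      have hlead : a.leadingCoeff * b.leadingCoeff = 1 := by
        rw [← Polynomial.leadingCoeff_mul, ← hab, hPm.leadingCoeff]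
      obtain ⟨ua, hua⟩ : IsUnit a.leadingCoeff := IsUnit.of_mul_eq_one _ hlead
      obtain ⟨ub, hub⟩ : IsUnit b.leadingCoeff := IsUnit.of_mul_eq_one _ (by rw [mul_comm]; exact hlead)
      let a' := Polynomial.C b.leadingCoeff * a
      let b' := Polynomial.C a.leadingCoeff * b
      have hab' : P = a' * b' := by
        have : a' * b' = Polynomial.C (a.leadingCoeff * b.leadingCoeff) * (a * b) := by
          rw [Polynomial.C_mul]; ring
        rw [this, hlead, Polynomial.C_1, one_mul, hab]
      have ha' : a'.Monic := by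
        rw [Polynomial.Monic, Polynomial.leadingCoeff_mul, Polynomial.leadingCoeff_C, mul_comm, hlead]
      have hb' : b'.Monic := by
        rw [Polynomial.Monic, Polynomial.leadingCoeff_mul, Polynomial.leadingCoeff_C, hlead]
      have key : IsUnit a' ∨ IsUnit b' := by
        by_contra! hcon
        have h1 := hfac a' ha' ⟨b', hab'⟩ hcon.1
        have h2 := hfac b' hb' ⟨a', by rw [hab', mul_comm]⟩ hcon.2
        have h3 : P.eval₂ (subHom y hy.1) (X 0) =
            a'.eval₂ (subHom y hy.1) (X 0) * b'.eval₂ (subHom y hy.1) (X 0) := by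
          rw [← Polynomial.eval₂_mul, ← hab']
        rcases hirr.isUnit_or_isUnit h3 with h | h
        · exact h1 h
        · exact h2 h
      rcases key with h | h
      · exact Or.inl (isUnit_of_mul_isUnit_right h)
      · exact Or.inr (isUnit_of_mul_isUnit_right h)
  have hPprime : Prime P := UniqueFactorizationMonoid.irreducible_iff_prime.1 hPirr
  refine ⟨hirr.ne_zero, hirr.not_isUnit, ?_⟩
  intro g h hgh
  obtain ⟨c₁, hc₁⟩ := hy.exists_poly_congr hP g
  obtain ⟨c₂, hc₂⟩ := hy.exists_poly_congr hP h
  have hdvd : P ∣ c₁ * c₂ := by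
    apply hy.dvd_of_eval_mem hP
    rw [Polynomial.eval₂_mul]
    have e : c₁.eval₂ (subHom y hy.1) (X 0) * c₂.eval₂ (subHom y hy.1) (X 0) =
        g * h - (g - c₁.eval₂ (subHom y hy.1) (X 0)) * h -
        c₁.eval₂ (subHom y hy.1) (X 0) * (h - c₂.eval₂ (subHom y hy.1) (X 0)) := by ring
    rw [e]
    refine Ideal.sub_mem _ (Ideal.sub_mem _ (Ideal.mem_span_singleton.2 hgh) ?_) ?_
    · exact Ideal.mul_mem_right _ _ hc₁
    · exact Ideal.mul_mem_left _ _ hc₂
  have hcase : ∀ (g : MvPowerSeries (Fin (r + 1)) K) (c : Polynomial (MvPowerSeries (Fin r) K)),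
      g - c.eval₂ (subHom y hy.1) (X 0) ∈ Ideal.span {P.eval₂ (subHom y hy.1) (X 0)} → P ∣ c →
      P.eval₂ (subHom y hy.1) (X 0) ∣ g := by
    intro g c h1 h2
    have h3 : P.eval₂ (subHom y hy.1) (X 0) ∣ c.eval₂ (subHom y hy.1) (X 0) :=
      map_dvd (Polynomial.eval₂RingHom (subHom y hy.1) (X 0)) h2
    have h4 := dvd_add (Ideal.mem_span_singleton.1 h1) h3
    rwa [sub_add_cancel] at h4
  rcases hPprime.dvd_or_dvd hdvd with h1 | h1
  · exact Or.inl (hcase g c₁ hc₁ h1)
  · exact Or.inr (hcase h c₂ hc₂ h1)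

instance mvPowerSeries_ufd (n : ℕ) (K : Type*) [Field K] [CharZero K] :
    UniqueFactorizationMonoid (MvPowerSeries (Fin n) K) := by
  induction n with
  | zero =>
    have : IsDomain (MvPowerSeries (Fin 0) K) := NoZeroDivisors.to_isDomain _
    refine UniqueFactorizationMonoid.mk ?_
    intro a
    have hunit : ∀ a : MvPowerSeries (Fin 0) K, a ≠ 0 → IsUnit a := by
      intro a ha
      rw [MvPowerSeries.isUnit_iff_constantCoeff]
      rw [isUnit_iff_ne_zero]
      intro h0
      apply ha
      ext e
      have : e = 0 := Subsingleton.elim _ _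
      rw [this]
      exact h0
    constructor
    · intro h
      exact absurd (hunit a h.ne_zero) h.not_isUnit
    · intro h
      exact h.irreducible
  | succ r ih =>
    have : IsDomain (MvPowerSeries (Fin (r + 1)) K) := NoZeroDivisors.to_isDomain _
    refine UniqueFactorizationMonoid.mk ?_
    intro a
    exact ⟨fun h => prime_of_irreducible_ufd h, fun h => h.irreducible⟩

/-- Over a UFD the radical of a nonzero principal ideal is generated by a squarefree element. -/
theorem exists_squarefree_radical {A : Type*} [CommRing A] [IsDomain A]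
    [UniqueFactorizationMonoid A] {d : A} (hd : d ≠ 0) :
    ∃ D : A, Squarefree D ∧ (Ideal.span {d}).radical = Ideal.span {D} := by
  classical
  let _ : NormalizationMonoid A := UniqueFactorizationMonoid.strongNormalizationMonoid.toNormalizationMonoid
  refine ⟨UniqueFactorizationMonoid.radical d, UniqueFactorizationMonoid.squarefree_radical, ?_⟩
  ext b
  rw [Ideal.mem_radical_iff, Ideal.mem_span_singleton,
    ← UniqueFactorizationMonoid.exists_dvd_pow_iff_radical_dvd hd]
  simp only [Ideal.mem_span_singleton]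

end Pool.Agent.Zariski
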