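import Pool.Agent.Zariski.Gen
import Pool.Agent.Zariski.UFD
import Pool.Agent.Zariski.DiscB
import Pool.Agent.Zariski.Regular

/-!
# Existence and uniqueness of the dimensionality type at the closed point
-/

namespace Pool.Agent.Zariski

open MvPowerSeries

universe u

section ExistAux

/-- `C v_i * X` form of the substitution defining `line`. -/
lemma ex_hasSubst_line {n : ℕ} {K : Type*} [Field K] (v : Fin n → K) :
    HasSubst (fun i => PowerSeries.C (v i) * PowerSeries.X : Fin n → MvPowerSeries Unit K) := by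
  apply hasSubst_of_constantCoeff_zero
  intro i
  have h : PowerSeries.constantCoeff (PowerSeries.C (v i) * PowerSeries.X : PowerSeries K) = 0 := by
    rw [map_mul, PowerSeries.constantCoeff_X, mul_zero]
  exact h

lemma ex_coeff_line {n : ℕ} {K : Type*} [Field K] (v : Fin n → K)
    (f : MvPowerSeries (Fin n) K) (k : ℕ) :
    PowerSeries.coeff k (line v f) =
      ∑ a ∈ Finset.finsuppAntidiag Finset.univ k, coeff a f * ∏ i, v i ^ a i := by
  have h1 : PowerSeries.coeff k (line v f) = coeff (Finsupp.single () k) (line v f) := rfl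
  rw [h1]
  unfold line
  rw [coeff_subst (ex_hasSubst_line v)]
  have h2 : ∀ a : Fin n →₀ ℕ, coeff a f • coeff (Finsupp.single () k)
      (a.prod fun s e => (PowerSeries.C (v s) * PowerSeries.X : MvPowerSeries Unit K) ^ e) =
      if a ∈ Finset.finsuppAntidiag Finset.univ k then coeff a f * ∏ i, v i ^ a i else 0 := by
    intro a
    have h3 : (a.prod fun s e => (PowerSeries.C (v s) * PowerSeries.X : MvPowerSeries Unit K) ^ e) =
        (PowerSeries.C (∏ i, v i ^ a i) * PowerSeries.X ^ (∑ i, a i) : PowerSeries K) := by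
      rw [Finsupp.prod_fintype _ _ (by intro i; exact pow_zero _)]
      have h4 : ∀ i, ((PowerSeries.C (v i) * PowerSeries.X : PowerSeries K)) ^ (a i) =
          PowerSeries.C (v i ^ a i) * PowerSeries.X ^ (a i) := by
        intro i; rw [mul_pow, map_pow]
      calc (∏ i, (PowerSeries.C (v i) * PowerSeries.X : PowerSeries K) ^ (a i)) =
          ∏ i, (PowerSeries.C (v i ^ a i) * PowerSeries.X ^ (a i) : PowerSeries K) :=
            Finset.prod_congr rfl (fun i _ => h4 i)
        _ = _ := by
            rw [Finset.prod_mul_distrib, map_prod, Finset.prod_pow_eq_pow_sum]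
    rw [h3]
    have h5 : coeff (Finsupp.single () k)
        (PowerSeries.C (∏ i, v i ^ a i) * PowerSeries.X ^ (∑ i, a i) : PowerSeries K) =
        PowerSeries.coeff k
          (PowerSeries.C (∏ i, v i ^ a i) * PowerSeries.X ^ (∑ i, a i) : PowerSeries K) := rfl
    rw [h5, PowerSeries.coeff_C_mul, PowerSeries.coeff_X_pow]
    have h6 : a ∈ Finset.finsuppAntidiag Finset.univ k ↔ k = ∑ i, a i := by
      rw [Finset.mem_finsuppAntidiag]
      constructor
      · rintro ⟨h, -⟩; exact h.symm
      · intro h; exact ⟨h.symm, Finset.subset_univ _⟩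
    by_cases h7 : k = ∑ i, a i
    · rw [if_pos h7, if_pos (h6.mpr h7), mul_one, smul_eq_mul]
    · rw [if_neg h7, if_neg (fun h => h7 (h6.mp h)), mul_zero, smul_zero]
  rw [finsum_congr h2]
  rw [finsum_eq_sum_of_support_subset (s := Finset.finsuppAntidiag Finset.univ k)]
  · apply Finset.sum_congr rfl
    intro a ha
    rw [if_pos ha]
  · intro a ha
    by_contra h
    rw [Finset.mem_coe] at h
    rw [Function.mem_support, if_neg h] at ha
    exact ha rfl

lemma ex_coeff_line_of_lt {n : ℕ} {K : Type*} [Field K] (v : Fin n → K)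
    (f : MvPowerSeries (Fin n) K) (k : ℕ) (hk : (k : ℕ∞) < f.order) :
    PowerSeries.coeff k (line v f) = 0 := by
  rw [ex_coeff_line]
  apply Finset.sum_eq_zero
  intro a ha
  rw [Finset.mem_finsuppAntidiag] at ha
  have : ((Finsupp.degree a : ℕ) : ℕ∞) < f.order := by
    rw [show Finsupp.degree a = k by rw [← ha.1, Finsupp.degree_eq_sum]]
    exact hk
  rw [coeff_of_lt_order this, zero_mul]

lemma ex_line_mul {n : ℕ} {K : Type*} [Field K] (v : Fin n → K)
    (f g : MvPowerSeries (Fin n) K) : line v (f * g) = line v f * line v g := by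
  unfold line
  exact subst_mul (ex_hasSubst_line v) f g

lemma ex_le_order_line {n : ℕ} {K : Type*} [Field K] (v : Fin n → K)
    (f : MvPowerSeries (Fin n) K) : f.order ≤ (line v f).order := by
  apply PowerSeries.le_order
  intro i hi
  exact ex_coeff_line_of_lt v f i hi

/-- A factor of an element regular in the direction `v` is regular in the direction `v`. -/
lemma ex_regular_factor {n : ℕ} {K : Type*} [Field K] (v : Fin n → K)
    {f g h : MvPowerSeries (Fin n) K} (hfg : f = g * h) {d : ℕ} (hd : f.order = d)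
    (hf : PowerSeries.coeff d (line v f) ≠ 0) {e : ℕ} (he : g.order = e) :
    PowerSeries.coeff e (line v g) ≠ 0 := by
  have h1 : (line v f).order ≤ d := PowerSeries.order_le d hf
  have h2 : (line v f).order = (line v g).order + (line v h).order := by
    rw [hfg, ex_line_mul, PowerSeries.order_mul]
  have h3 : f.order = g.order + h.order := by rw [hfg, order_mul]
  have h4 := ex_le_order_line v g
  have h5 := ex_le_order_line v h
  have h6 : h.order ≠ ⊤ := by
    intro h6
    rw [h6, hd] at h3
    simp at h3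
  obtain ⟨e', he'⟩ := ENat.ne_top_iff_exists.mp h6
  have h7 : (line v g).order = e := by
    have h8 : (line v g).order + (line v h).order ≤ g.order + h.order := by
      rw [← h2, ← h3, hd]; exact h1
    rw [he, ← he'] at h8
    rw [he] at h4
    rw [← he'] at h5
    have h9 : (line v g).order ≠ ⊤ := by
      intro h9; rw [h9] at h8; simp at h8
    have h10 : (line v h).order ≠ ⊤ := by
      intro h10; rw [h10] at h8; simp at h8
    obtain ⟨a, ha⟩ := ENat.ne_top_iff_exists.mp h9
    obtain ⟨b, hb⟩ := ENat.ne_top_iff_exists.mp h10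
    rw [← ha] at h4 h8 ⊢
    rw [← hb] at h5 h8
    norm_cast at *
    omega
  intro h8
  have h9 := PowerSeries.coeff_order (φ := line v g) (by
    intro h9; rw [h9] at h7; simp at h7)
  rw [h7] at h9
  exact h9 h8


/-- Coordinates `X_{i+1} - v_i X_0` with direction `(1, v)`. -/
noncomputable def exY {r : ℕ} {K : Type*} [Field K] (v : Fin r → K) :
    Fin r → MvPowerSeries (Fin (r + 1)) K :=
  fun i => X i.succ - C (v i) * X 0

lemma ex_lin_exY {r : ℕ} {K : Type*} [Field K] (v : Fin r → K) (i : Fin r) (j : Fin (r + 1)) :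
    lin (exY v i) j = (Pi.single i.succ 1 : Fin (r + 1) → K) j -
      v i * (Pi.single 0 1 : Fin (r + 1) → K) j := by
  unfold exY
  rw [lin_sub, lin_mul, lin_C, lin_X, lin_X]
  simp [constantCoeff_C]

lemma ex_matrix {r : ℕ} {K : Type*} [Field K] (v : Fin r → K) :
    (Matrix.of fun i j : Fin r => lin (exY v i) j.succ) = 1 := by
  ext i j
  rw [Matrix.of_apply, ex_lin_exY, Matrix.one_apply]
  have h1 : (Pi.single 0 1 : Fin (r + 1) → K) j.succ = 0 := by
    rw [Pi.single_apply, if_neg (Fin.succ_ne_zero j)]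
  rw [h1, mul_zero, sub_zero, Pi.single_apply]
  by_cases h : i = j
  · rw [if_pos h, if_pos (by rw [h])]
  · rw [if_neg h, if_neg (fun h' => h (Fin.succ_injective _ h').symm)]

lemma ex_adm {r : ℕ} {K : Type*} [Field K] (v : Fin r → K) : Adm (exY v) := by
  constructor
  · intro i
    simp [exY]
  · rw [ex_matrix, Matrix.det_one]
    exact one_ne_zero

lemma ex_dir {r : ℕ} {K : Type*} [Field K] (v : Fin r → K) :
    dir (exY v) = Fin.cons 1 v := by
  unfold dir
  rw [ex_matrix, inv_one, Matrix.one_mulVec]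
  congr 1
  funext j
  rw [ex_lin_exY]
  have h1 : (Pi.single j.succ 1 : Fin (r + 1) → K) 0 = 0 := by
    rw [Pi.single_apply, if_neg (Fin.succ_ne_zero j).symm]
  rw [h1, Pi.single_eq_same]
  ring

/-- There are `K`-rational coordinates in which `f` is regular. -/
lemma ex_exists_direction {r : ℕ} {K : Type*} [Field K] [CharZero K]
    {f : MvPowerSeries (Fin (r + 1)) K} {d : ℕ} (hd : f.order = d) :
    ∃ v : Fin r → K, PowerSeries.coeff d (line (dir (exY v)) f) ≠ 0 := by
  have hg := gen_line r K hd
  rw [ex_coeff_line] at hg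
  set Q : MvPolynomial (Fin r) K := ∑ a ∈ Finset.finsuppAntidiag Finset.univ d,
    MvPolynomial.C (coeff a f) * ∏ i : Fin r, MvPolynomial.X i ^ a i.succ with hQ
  have hval : ∀ {L : Type _} [Field L] (φ : K →+* L) (w : Fin r → L),
      MvPolynomial.eval₂ φ w Q = ∑ a ∈ Finset.finsuppAntidiag Finset.univ d,
        φ (coeff a f) * ∏ i : Fin (r + 1), (Fin.cons 1 w : Fin (r + 1) → L) i ^ a i := by
    intro L _ φ w
    rw [hQ, MvPolynomial.eval₂_sum]
    apply Finset.sum_congr rfl
    intro a _
    rw [MvPolynomial.eval₂_mul, MvPolynomial.eval₂_C, MvPolynomial.eval₂_prod, Fin.prod_univ_succ]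
    simp [MvPolynomial.eval₂_pow, MvPolynomial.eval₂_X]
  have hne : Q ≠ 0 := by
    intro h0
    apply hg
    have h1 : dir (xstar r K) = Fin.cons 1 (fun j => dir (xstar r K) j.succ) := by
      funext j
      refine Fin.cases ?_ ?_ j
      · rw [dir_zero, Fin.cons_zero]
      · intro i; rw [Fin.cons_succ]
    have h2 := hval (algebraMap K (Kstar r K)) (fun j => dir (xstar r K) j.succ)
    rw [h0, MvPolynomial.eval₂_zero, ← h1] at h2
    rw [h2]
    apply Finset.sum_congr rfl
    intro a _
    congr 1
  obtain ⟨v, hv⟩ : ∃ v : Fin r → K, MvPolynomial.eval v Q ≠ 0 := by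
    by_contra hcon
    push Not at hcon
    apply hne
    apply MvPolynomial.funext
    intro v
    rw [hcon v, map_zero]
  refine ⟨v, ?_⟩
  rw [ex_coeff_line, ex_dir]
  have h3 := hval (RingHom.id K) v
  rw [MvPolynomial.eval₂_id] at h3
  rw [h3] at hv
  simpa using hv


instance ex_isDomain (n : ℕ) (K : Type*) [Field K] : IsDomain (MvPowerSeries (Fin n) K) :=
  NoZeroDivisors.to_isDomain _

instance ex_charZero (n : ℕ) (K : Type*) [Field K] [CharZero K] :
    CharZero (MvPowerSeries (Fin n) K) :=
  charZero_of_injective_algebraMap (algebraMap K (MvPowerSeries (Fin n) K)).injective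

lemma ex_constantCoeff_eval₂ {r : ℕ} {K : Type*} [Field K]
    {y : Fin r → MvPowerSeries (Fin (r + 1)) K} (hy : ∀ i, constantCoeff (y i) = 0)
    (q : Polynomial (MvPowerSeries (Fin r) K)) :
    constantCoeff (q.eval₂ (subHom y hy) (X 0)) = constantCoeff (q.coeff 0) := by
  rw [Polynomial.hom_eval₂, constantCoeff_X, Polynomial.eval₂_at_zero, RingHom.comp_apply,
    subHom_apply, constantCoeff_subst0 y hy]

lemma ex_isUnit_iff {n : ℕ} {K : Type*} [Field K] (g : MvPowerSeries (Fin n) K) :
    IsUnit g ↔ constantCoeff g ≠ 0 := by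
  rw [MvPowerSeries.isUnit_iff_constantCoeff, isUnit_iff_ne_zero]

lemma ex_dvd_of_span_eq {A : Type*} [CommRing A] {a b : A} (h : Ideal.span {a} = Ideal.span {b}) :
    a ∣ b := by
  rw [← Ideal.mem_span_singleton, h]
  exact Ideal.mem_span_singleton_self b

/-- The Weierstrass polynomial of a squarefree element is squarefree. -/
lemma ex_squarefree_poly {r : ℕ} {K : Type*} [Field K]
    {y : Fin r → MvPowerSeries (Fin (r + 1)) K} (hy : Adm y)
    {f : MvPowerSeries (Fin (r + 1)) K} (hf : Squarefree f)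
    {P : Polynomial (MvPowerSeries (Fin r) K)}
    (hP : P.IsDistinguishedAt (IsLocalRing.maximalIdeal (MvPowerSeries (Fin r) K)))
    (h : Ideal.span {P.eval₂ (subHom y hy.1) (X 0)} = Ideal.span {f}) : Squarefree P := by
  intro q hq
  obtain ⟨s, hs⟩ := hq
  have hlc : q.leadingCoeff * q.leadingCoeff * s.leadingCoeff = 1 := by
    rw [← Polynomial.leadingCoeff_mul, ← Polynomial.leadingCoeff_mul, ← hs]
    exact hP.monic
  have hlu : IsUnit q.leadingCoeff :=
    IsUnit.of_mul_eq_one (q.leadingCoeff * s.leadingCoeff) (by rw [← hlc]; ring)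
  have hqu : IsUnit (q.eval₂ (subHom y hy.1) (X 0)) := by
    apply hf
    refine dvd_trans ?_ (ex_dvd_of_span_eq h)
    rw [hs, Polynomial.eval₂_mul, Polynomial.eval₂_mul]
    exact dvd_mul_right _ _
  rw [ex_isUnit_iff, ex_constantCoeff_eval₂] at hqu
  rcases Nat.eq_zero_or_pos q.natDegree with hd | hd
  · rw [Polynomial.eq_C_of_natDegree_eq_zero hd]
    apply Polynomial.isUnit_C.mpr
    rw [Polynomial.leadingCoeff, hd] at hlu
    exact hlu
  · exfalso
    apply hqu
    set φ : MvPowerSeries (Fin r) K →+* K := constantCoeff with hφ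
    have h1 : P.map φ = Polynomial.X ^ P.natDegree := by
      ext i
      rw [Polynomial.coeff_map, Polynomial.coeff_X_pow]
      by_cases hi : i = P.natDegree
      · rw [if_pos hi, hi]
        have : P.coeff P.natDegree = 1 := hP.monic
        rw [this, map_one]
      · rw [if_neg hi]
        rcases lt_or_gt_of_ne hi with hlt | hgt
        · exact (mem_maximalIdeal_iff _).mp (hP.mem hlt)
        · rw [Polynomial.coeff_eq_zero_of_natDegree_lt hgt, map_zero]
    have h2 : q.map φ ∣ Polynomial.X ^ P.natDegree := by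
      rw [← h1, hs, Polynomial.map_mul, Polynomial.map_mul]
      exact Dvd.intro _ (mul_assoc _ _ _).symm
    obtain ⟨i, hi, hass⟩ := (dvd_prime_pow Polynomial.prime_X _).mp h2
    have h3 : (q.map φ).natDegree = q.natDegree := by
      apply Polynomial.natDegree_map_of_leadingCoeff_ne_zero
      exact ((ex_isUnit_iff _).mp hlu)
    have h4 : i = q.natDegree := by
      rw [← h3, Polynomial.natDegree_eq_of_degree_eq
        (Polynomial.degree_eq_degree_of_associated hass), Polynomial.natDegree_X_pow]
    have h5 : (Polynomial.X : Polynomial K) ∣ q.map φ := by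
      refine dvd_trans ?_ hass.dvd'
      exact dvd_pow_self _ (by omega)
    rw [Polynomial.X_dvd_iff, Polynomial.coeff_map] at h5
    exact h5

/-- An element with a Weierstrass polynomial of nonzero discriminant is squarefree. -/
lemma ex_squarefree_of_discr {r : ℕ} {K : Type*} [Field K]
    {y : Fin r → MvPowerSeries (Fin (r + 1)) K} (hy : Adm y)
    {f : MvPowerSeries (Fin (r + 1)) K} {d : ℕ} (hd : f.order = d)
    (hf : PowerSeries.coeff d (line (dir y) f) ≠ 0)
    {Q : Polynomial (MvPowerSeries (Fin r) K)}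
    (hQ : Q.IsDistinguishedAt (IsLocalRing.maximalIdeal (MvPowerSeries (Fin r) K)))
    (h : Ideal.span {Q.eval₂ (subHom y hy.1) (X 0)} = Ideal.span {f})
    (hdisc : Q.discr ≠ 0) : Squarefree f := by
  intro g hg
  obtain ⟨s, hs⟩ := hg
  by_contra hu
  have hf0 : f ≠ 0 := by
    intro h0; rw [h0] at hd; simp at hd
  have hg0 : g ≠ 0 := by
    intro h0; rw [h0] at hs; simp at hs; exact hf0 hs
  have hgo : g.order ≠ ⊤ := by
    intro h0; exact hg0 (order_eq_top_iff.mp h0)
  obtain ⟨e, he⟩ := ENat.ne_top_iff_exists.mp hgo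
  have he' : g.order = e := he.symm
  have he1 : 1 ≤ e := by
    rw [ex_isUnit_iff, not_not] at hu
    have := one_le_order_iff_constCoeff_eq_zero.mpr hu
    rw [he'] at this
    exact_mod_cast this
  have hreg := ex_regular_factor (dir y) (g := g) (h := g * s) (by rw [hs]; ring) hd hf he'
  obtain ⟨q0, hq0, hq0d, hq0s⟩ := hy.exists_weierstrass he' hreg
  have h1 : Q.eval₂ (subHom y hy.1) (X 0) ∈
      Ideal.span {(q0 * q0).eval₂ (subHom y hy.1) (X 0)} := by
    rw [Ideal.mem_span_singleton, Polynomial.eval₂_mul]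
    refine dvd_trans ?_ (ex_dvd_of_span_eq h.symm)
    rw [hs]
    refine dvd_trans ?_ (dvd_mul_right _ s)
    exact mul_dvd_mul (ex_dvd_of_span_eq hq0s) (ex_dvd_of_span_eq hq0s)
  have h2 := hy.dvd_of_eval_mem (hq0.mul hq0) h1
  have h3 := not_sq_dvd_of_discr_ne_zero hQ.monic hdisc hq0.monic (by rw [sq]; exact h2)
  rw [h3, Polynomial.natDegree_one] at hq0d
  omega

lemma ex_isDistinguished_map {r : ℕ} {K L : Type*} [Field K] [Field L] (φ : K →+* L)
    {Q : Polynomial (MvPowerSeries (Fin r) K)}
    (hQ : Q.IsDistinguishedAt (IsLocalRing.maximalIdeal (MvPowerSeries (Fin r) K))) :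
    (Q.map (MvPowerSeries.map φ)).IsDistinguishedAt
      (IsLocalRing.maximalIdeal (MvPowerSeries (Fin r) L)) := by
  refine ⟨⟨?_⟩, hQ.monic.map _⟩
  intro n hn
  rw [hQ.monic.natDegree_map] at hn
  rw [Polynomial.coeff_map, mem_maximalIdeal_iff, constantCoeff_map,
    (mem_maximalIdeal_iff _).mp (hQ.mem hn), map_zero]

lemma ex_eval₂_map {r : ℕ} {K L : Type*} [Field K] [Field L] (φ : K →+* L)
    {y : Fin r → MvPowerSeries (Fin (r + 1)) K} (hy : ∀ i, constantCoeff (y i) = 0)
    (hy' : ∀ i, constantCoeff (MvPowerSeries.map φ (y i)) = 0)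
    (Q : Polynomial (MvPowerSeries (Fin r) K)) :
    (Q.map (MvPowerSeries.map φ)).eval₂ (subHom (fun i => MvPowerSeries.map φ (y i)) hy') (X 0) =
      MvPowerSeries.map φ (Q.eval₂ (subHom y hy) (X 0)) := by
  rw [Polynomial.eval₂_map, Polynomial.hom_eval₂, map_X]
  congr 1
  ext1 g
  rw [RingHom.comp_apply, RingHom.comp_apply, subHom_apply, subHom_apply, map_subst0 φ y hy]

lemma ex_line_map {r : ℕ} {K L : Type*} [Field K] [Field L] (φ : K →+* L)
    {y : Fin r → MvPowerSeries (Fin (r + 1)) K} (hy : Adm y)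
    {f : MvPowerSeries (Fin (r + 1)) K} {d : ℕ}
    (hf : PowerSeries.coeff d (line (dir y) f) ≠ 0) :
    PowerSeries.coeff d (line (dir (fun i => MvPowerSeries.map φ (y i)))
      (MvPowerSeries.map φ f)) ≠ 0 := by
  rw [ex_coeff_line] at hf ⊢
  have h : ∑ a ∈ Finset.finsuppAntidiag Finset.univ d, coeff a (MvPowerSeries.map φ f) *
      ∏ i, dir (fun i => MvPowerSeries.map φ (y i)) i ^ a i =
      φ (∑ a ∈ Finset.finsuppAntidiag Finset.univ d, coeff a f * ∏ i, dir y i ^ a i) := by
    rw [map_sum]
    apply Finset.sum_congr rfl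
    intro a _
    rw [map_mul, map_prod, coeff_map]
    congr 1
    apply Finset.prod_congr rfl
    intro i _
    rw [map_pow, dir_map φ hy]
  rw [h]
  exact (map_ne_zero φ).mpr hf


end ExistAux

/-- Existence of the Weierstrass equation in generic coordinates. -/
theorem exists_isWeierstrassEq {r : ℕ} {K : Type u} [Field K] [CharZero K]
    {f : MvPowerSeries (Fin (r + 1)) K} (hf : f ≠ 0) (h0 : constantCoeff f = 0) :
    ∃ P, IsWeierstrassEq (Ideal.span {f}) P := by
  obtain ⟨d, hd⟩ := ENat.ne_top_iff_exists.mp (fun h => hf (order_eq_top_iff.mp h))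
  have hd1 : (extCoeff r K f).order = d := by
    rw [hd]; exact order_map_eq _ f
  obtain ⟨P, hP, -, hs⟩ := (adm_xstar r K).exists_weierstrass hd1 (gen_line r K hd.symm)
  refine ⟨P, hP, ?_⟩
  rw [Ideal.map_span, Set.image_singleton]
  exact hs

/-- Uniqueness of the Weierstrass equation in generic coordinates. -/
theorem isWeierstrassEq_unique {r : ℕ} {K : Type u} [Field K] [CharZero K]
    {I : Ideal (MvPowerSeries (Fin (r + 1)) K)} {P Q} (hP : IsWeierstrassEq I P)
    (hQ : IsWeierstrassEq I Q) : P = Q :=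
  (adm_xstar r K).weierstrass_unique hP.distinguished hQ.distinguished
    (hP.span_eq.trans hQ.span_eq.symm)

/-- The degree of the Weierstrass equation is the order (the multiplicity). -/
theorem natDegree_of_isWeierstrassEq {r : ℕ} {K : Type u} [Field K] [CharZero K]
    {f : MvPowerSeries (Fin (r + 1)) K} (hf : f ≠ 0) {P}
    (hP : IsWeierstrassEq (Ideal.span {f}) P) : (P.natDegree : ℕ∞) = f.order := by
  obtain ⟨d, hd⟩ := ENat.ne_top_iff_exists.mp (fun h => hf (order_eq_top_iff.mp h))
  have hd1 : (extCoeff r K f).order = d := by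
    rw [hd]; exact order_map_eq _ f
  obtain ⟨Q, hQ, hQd, hs⟩ := (adm_xstar r K).exists_weierstrass hd1 (gen_line r K hd.symm)
  have hPQ : P = Q := by
    refine isWeierstrassEq_unique hP ⟨hQ, ?_⟩
    rw [Ideal.map_span, Set.image_singleton]
    exact hs
  rw [hPQ, hQd, hd]

/-- The discriminant of a hypersurface without multiple factors is nonzero. -/
theorem discr_ne_zero {r : ℕ} {K : Type u} [Field K] [CharZero K]
    {f : MvPowerSeries (Fin (r + 1)) K} (hf : Squarefree f) (h0 : constantCoeff f = 0) {P}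
    (hP : IsWeierstrassEq (Ideal.span {f}) P) : P.discr ≠ 0 := by
  have hf0 : f ≠ 0 := hf.ne_zero
  obtain ⟨d, hd⟩ := ENat.ne_top_iff_exists.mp (fun h => hf0 (order_eq_top_iff.mp h))
  obtain ⟨v, hv⟩ := ex_exists_direction hd.symm
  obtain ⟨Q, hQ, -, hs⟩ := (ex_adm v).exists_weierstrass hd.symm hv
  have hQsq := ex_squarefree_poly (ex_adm v) hf hQ hs
  have hQd := discr_ne_zero_of_squarefree hQ.monic hQsq
  set φ : K →+* Kstar r K := algebraMap K (Kstar r K) with hφ
  have hinj : Function.Injective (MvPowerSeries.map (σ := Fin r) φ) := by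
    intro a b hab
    ext n
    apply φ.injective
    rw [← coeff_map, ← coeff_map, hab]
  have hQd' : (Q.map (MvPowerSeries.map φ)).discr ≠ 0 := by
    rw [discr_map_of_monic _ hQ.monic]
    exact (map_ne_zero_iff _ hinj).mpr hQd
  have hadm : Adm (fun i => MvPowerSeries.map φ (exY v i)) := (ex_adm v).map φ
  have hord : (extCoeff r K f).order = d := by
    rw [hd]; exact order_map_eq _ f
  have hspan : Ideal.span {(Q.map (MvPowerSeries.map φ)).eval₂ (subHom _ hadm.1) (X 0)} =
      Ideal.span {extCoeff r K f} := by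
    rw [ex_eval₂_map φ (ex_adm v).1 hadm.1]
    have := congrArg (Ideal.map (MvPowerSeries.map φ)) hs
    rw [Ideal.map_span, Ideal.map_span, Set.image_singleton, Set.image_singleton] at this
    exact this
  have hsq : Squarefree (extCoeff r K f) :=
    ex_squarefree_of_discr hadm hord (ex_line_map φ (ex_adm v) hv)
      (ex_isDistinguished_map φ hQ) hspan hQd'
  have hPs : Squarefree P := by
    refine ex_squarefree_poly (adm_xstar r K) hsq hP.distinguished ?_
    have h1 := hP.span_eq
    rw [Ideal.map_span, Set.image_singleton] at h1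
    exact h1
  exact discr_ne_zero_of_squarefree hP.distinguished.monic hPs

/-- At a singular closed point the discriminant is not a unit. -/
theorem constantCoeff_discr {r : ℕ} {K : Type u} [Field K] [CharZero K]
    {f : MvPowerSeries (Fin (r + 1)) K} (hf : f ≠ 0) (h0 : constantCoeff f = 0)
    (h1 : lin f = 0) {P}
    (hP : IsWeierstrassEq (Ideal.span {f}) P) : constantCoeff P.discr = 0 := by
  have h2 : (2 : ℕ∞) ≤ f.order := (two_le_order_iff f).mpr ⟨h0, h1⟩
  rw [← natDegree_of_isWeierstrassEq hf hP] at h2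
  rw [← mem_maximalIdeal_iff]
  exact discr_mem_of_distinguished hP.distinguished (by exact_mod_cast h2)

/-- The reduced discriminant: a squarefree generator of the radical. -/
theorem exists_reduced_discr {r : ℕ} {K : Type u} [Field K] [CharZero K]
    {f : MvPowerSeries (Fin (r + 1)) K} (hf : Squarefree f) (h0 : constantCoeff f = 0)
    (h1 : lin f = 0) {P} (hP : IsWeierstrassEq (Ideal.span {f}) P) :
    ∃ D : MvPowerSeries (Fin r) (Kstar r K), Squarefree D ∧ constantCoeff D = 0 ∧
      (Ideal.span {P.discr}).radical = Ideal.span {D} := by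
  obtain ⟨D, hD, hrad⟩ := exists_squarefree_radical (discr_ne_zero hf h0 hP)
  refine ⟨D, hD, ?_, hrad⟩
  have h2 : D ∈ (Ideal.span {P.discr}).radical := by
    rw [hrad]; exact Ideal.mem_span_singleton_self D
  rw [← mem_maximalIdeal_iff]
  have h3 : (Ideal.span {P.discr}).radical ≤
      IsLocalRing.maximalIdeal (MvPowerSeries (Fin r) (Kstar r K)) := by
    rw [(IsLocalRing.maximalIdeal.isMaximal _).isPrime.radical_le_iff]
    rw [Ideal.span_singleton_le_iff_mem, mem_maximalIdeal_iff]
    exact constantCoeff_discr hf.ne_zero h0 h1 hP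
  exact h3 h2

/-- The recursion at the closed point of a singular hypersurface. -/
theorem isDimType_succ_iff {r : ℕ} {K : Type u} [Field K] [CharZero K]
    {f : MvPowerSeries (Fin (r + 2)) K} (hf : f ≠ 0) (h0 : constantCoeff f = 0) (d : ℕ) :
    IsDimType (r + 1) K (Ideal.span {f}) (IsLocalRing.maximalIdeal _) d ↔
      (lin f ≠ 0 ∧ d = 0) ∨ (lin f = 0 ∧ ∃ P, IsWeierstrassEq (Ideal.span {f}) P ∧
        ∃ d', IsDimType r (Kstar (r + 1) K) (Ideal.span {P.discr}).radical
          (IsLocalRing.maximalIdeal _) d' ∧ d = d' + 1) := by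
  rw [IsDimType, isSimple_iff hf h0, closed_step, not_not]

/-- Existence of the dimensionality type at the closed point. -/
theorem exists_isDimType {r : ℕ} {K : Type u} [Field K] [CharZero K]
    {f : MvPowerSeries (Fin (r + 1)) K} (hf : Squarefree f) (h0 : constantCoeff f = 0) :
    ∃ d, IsDimType r K (Ideal.span {f}) (IsLocalRing.maximalIdeal _) d := by
  induction r generalizing K with
  | zero => exact ⟨0, by rw [IsDimType]⟩
  | succ r ih =>
    by_cases h1 : lin f = 0
    · obtain ⟨P, hP⟩ := exists_isWeierstrassEq hf.ne_zero h0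
      obtain ⟨D, hD, hD0, hrad⟩ := exists_reduced_discr hf h0 h1 hP
      obtain ⟨d', hd'⟩ := ih hD hD0
      refine ⟨d' + 1, (isDimType_succ_iff hf.ne_zero h0 _).mpr (Or.inr ⟨h1, P, hP, d', ?_, rfl⟩)⟩
      rw [hrad]
      exact hd'
    · exact ⟨0, (isDimType_succ_iff hf.ne_zero h0 _).mpr (Or.inl ⟨h1, rfl⟩)⟩

end Pool.Agent.Zariski
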