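import Pool.Agent.Zariski.Deriv

/-!
# Presentations of a complete local ring over a coefficient field
-/

namespace Pool.Agent.Zariski

open MvPowerSeries

universe u

/-- A power series is its constant term plus a combination of the variables. -/
lemma pres_eq_C_add_sum {n : ℕ} {K : Type u} [Field K] (g : MvPowerSeries (Fin n) K) :
    ∃ c : Fin n → MvPowerSeries (Fin n) K,
      g = C (constantCoeff g) + ∑ i, c i * X i := by
  have h : g - C (constantCoeff g) ∈ IsLocalRing.maximalIdeal (MvPowerSeries (Fin n) K) := by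
    rw [mem_maximalIdeal_iff]
    simp
  rw [maximalIdeal_eq_span_X, Ideal.mem_span_range_iff_exists_fun] at h
  obtain ⟨c, hc⟩ := h
  refine ⟨c, ?_⟩
  rw [hc]
  ring

/-- Two ring homs to a Noetherian local ring, sending the variables to nonunits, which agree on
constants and variables, are equal. -/
lemma pres_hom_ext {n : ℕ} {K : Type u} [Field K] {o : Type u} [CommRing o] [IsLocalRing o]
    [IsNoetherianRing o] (Φ Ψ : MvPowerSeries (Fin n) K →+* o)
    (hX : ∀ i, Ψ (X i) ∈ IsLocalRing.maximalIdeal o)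
    (hC : ∀ a, Ψ (C a) = Φ (C a)) (hXX : ∀ i, Ψ (X i) = Φ (X i)) : Ψ = Φ := by
  have key : ∀ k : ℕ, ∀ g, Ψ g - Φ g ∈ IsLocalRing.maximalIdeal o ^ k := by
    intro k
    induction k with
    | zero => intro g; simp
    | succ k ih =>
      intro g
      obtain ⟨c, hc⟩ := pres_eq_C_add_sum g
      have : Ψ g - Φ g = ∑ i, (Ψ (c i) - Φ (c i)) * Ψ (X i) := by
        conv_lhs => rw [hc]
        simp only [map_add, map_sum, map_mul, hC, hXX]
        simp only [sub_mul, Finset.sum_sub_distrib]
        ring
      rw [this, pow_succ]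
      exact Ideal.sum_mem _ fun i _ => Ideal.mul_mem_mul (ih _) (hX i)
  ext1 g
  have h := Ideal.iInf_pow_eq_bot_of_isLocalRing (IsLocalRing.maximalIdeal o)
    (Ideal.IsPrime.ne_top inferInstance)
  have h2 : Ψ g - Φ g ∈ (⨅ i : ℕ, IsLocalRing.maximalIdeal o ^ i) := by
    rw [Ideal.mem_iInf]
    exact fun k => key k g
  rw [h, Ideal.mem_bot] at h2
  exact sub_eq_zero.mp h2

/-- Two presentations over the same coefficient field, of embedding dimension `n`, differ by a
change of coordinates. -/
theorem exists_param_of_presentations {n : ℕ} {K : Type u} [Field K] {o : Type u} [CommRing o]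
    (Ψ₀ Ψ : MvPowerSeries (Fin n) K →+* o) (h₀ : Function.Surjective Ψ₀)
    (h : Function.Surjective Ψ) (hC : ∀ a, Ψ (C a) = Ψ₀ (C a))
    (hker : RingHom.ker Ψ₀ ≤ IsLocalRing.maximalIdeal (MvPowerSeries (Fin n) K) ^ 2) :
    ∃ a : Fin n → MvPowerSeries (Fin n) K, IsParam a ∧ ∀ g, Ψ g = Ψ₀ (subst a g) := by
  have hnt : Nontrivial o := by
    by_contra hn
    rw [not_nontrivial_iff_subsingleton] at hn
    have h1 : (1 : MvPowerSeries (Fin n) K) ∈ RingHom.ker Ψ₀ := by
      rw [RingHom.mem_ker]
      exact Subsingleton.elim _ _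
    have h2 := Ideal.pow_le_self (two_ne_zero) (hker h1)
    rw [mem_maximalIdeal_iff] at h2
    simp at h2
  have hloc : IsLocalRing o := IsLocalRing.of_surjective' Ψ₀ h₀
  have hno : IsNoetherianRing o := isNoetherianRing_of_surjective _ _ Ψ₀ h₀
  have hl0 : IsLocalHom Ψ₀ := IsLocalHom.of_surjective Ψ₀ h₀
  have hl : IsLocalHom Ψ := IsLocalHom.of_surjective Ψ h
  have hX : ∀ i, Ψ (X i) ∈ IsLocalRing.maximalIdeal o := by
    intro i
    rw [← Ideal.mem_comap, IsLocalRing.maximalIdeal_comap, mem_maximalIdeal_iff]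
    simp
  choose a ha using fun i => h₀ (Ψ (X i))
  have ha0 : ∀ i, constantCoeff (a i) = 0 := by
    intro i
    rw [← mem_maximalIdeal_iff]
    have h1 := hX i
    rw [← ha i] at h1
    rwa [← Ideal.mem_comap, IsLocalRing.maximalIdeal_comap] at h1
  have hs : HasSubst a := hasSubst_of_constantCoeff_zero ha0
  have heq : Ψ = Ψ₀.comp (subHom a ha0) := by
    refine pres_hom_ext _ _ hX ?_ ?_
    · intro c
      rw [RingHom.comp_apply, subHom_apply, subst_C, hC]
    · intro i
      rw [RingHom.comp_apply, subHom_apply, subst_X hs, ha]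
  refine ⟨a, ⟨ha0, ?_⟩, fun g => ?_⟩
  · choose G hG using fun j => h (Ψ₀ (X j))
    have hlin : ∀ j, lin (subst a (G j)) = lin (X j) := by
      intro j
      have h1 : subst a (G j) - X j ∈ RingHom.ker Ψ₀ := by
        rw [RingHom.mem_ker, map_sub, ← hG j, heq, RingHom.comp_apply, subHom_apply, sub_self]
      have h2 := hker h1
      rw [mem_maximalIdeal_pow_iff] at h2
      have h3 := ((two_le_order_iff _).mp (by exact_mod_cast h2)).2
      rw [lin_sub, sub_eq_zero] at h3
      exact h3
    have hmul : (Matrix.of fun j i => lin (G j) i) * (Matrix.of fun i j => lin (a i) j) = 1 := by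
      ext j k
      rw [Matrix.mul_apply]
      simp only [Matrix.of_apply]
      rw [← lin_subst a ha0, hlin, lin_X, Matrix.one_apply, Pi.single_apply]
      simp [eq_comm]
    intro hdet
    have := congrArg Matrix.det hmul
    rw [Matrix.det_mul, hdet, mul_zero, Matrix.det_one] at this
    exact zero_ne_one this
  · rw [heq, RingHom.comp_apply, subHom_apply]

/-- The kernel of the second presentation. -/
theorem exists_ker_eq {n : ℕ} {K : Type u} [Field K] {o : Type u} [CommRing o]
    (Ψ₀ Ψ : MvPowerSeries (Fin n) K →+* o) (h₀ : Function.Surjective Ψ₀)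
    (h : Function.Surjective Ψ) (hC : ∀ a, Ψ (C a) = Ψ₀ (C a))
    {f : MvPowerSeries (Fin n) K} (hf : RingHom.ker Ψ₀ = Ideal.span {f})
    (hf2 : f ∈ IsLocalRing.maximalIdeal (MvPowerSeries (Fin n) K) ^ 2) :
    ∃ b : Fin n → MvPowerSeries (Fin n) K, IsParam b ∧ RingHom.ker Ψ = Ideal.span {subst b f} := by
  have hker : RingHom.ker Ψ₀ ≤ IsLocalRing.maximalIdeal (MvPowerSeries (Fin n) K) ^ 2 := by
    rw [hf, Ideal.span_singleton_le_iff_mem]
    exact hf2
  obtain ⟨a, ha, hag⟩ := exists_param_of_presentations Ψ₀ Ψ h₀ h hC hker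
  obtain ⟨b, hb, hab, hba⟩ := ha.exists_inverse
  refine ⟨b, hb, ?_⟩
  ext g
  rw [RingHom.mem_ker, hag, ← RingHom.mem_ker, hf, Ideal.mem_span_singleton,
    Ideal.mem_span_singleton]
  constructor
  · rintro ⟨k, hk⟩
    refine ⟨subst b k, ?_⟩
    rw [← hba g, hk, ← subHom_apply b hb.1, ← subHom_apply b hb.1, ← subHom_apply b hb.1,
      map_mul]
  · rintro ⟨k, hk⟩
    refine ⟨subst a k, ?_⟩
    rw [hk, ← subHom_apply a ha.1, ← subHom_apply a ha.1, map_mul, subHom_apply, subHom_apply,
      hab]

/-- Transport of the derivation `∂/∂x_i` by a change of coordinates. -/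
theorem exists_mkDer_subst {n : ℕ} {K : Type u} [Field K]
    {b : Fin n → MvPowerSeries (Fin n) K} (hb : IsParam b) (i : Fin n) :
    ∃ e : Fin n → MvPowerSeries (Fin n) K, (∃ j, constantCoeff (e j) ≠ 0) ∧
      ∀ F, mkDer (0 : Derivation ℤ K K) e (subst b F) = subst b (pderiv K i F) := by
  obtain ⟨a, ha, hba, hab⟩ := hb.exists_inverse
  -- hba : subst b (subst a g) = g, hab : subst a (subst b g) = g
  let E0 : MvPowerSeries (Fin n) K →+ MvPowerSeries (Fin n) K :=
    ((subHom b hb.1).toAddMonoidHom.comp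
      ((pderiv K i : Derivation K (MvPowerSeries (Fin n) K) (MvPowerSeries (Fin n) K)) :
        MvPowerSeries (Fin n) K →ₗ[K] MvPowerSeries (Fin n) K).toAddMonoidHom).comp
      (subHom a ha.1).toAddMonoidHom
  have hE0 : ∀ F, E0 F = subst b (pderiv K i (subst a F)) := by
    intro F
    simp [E0]
  have hleib : ∀ F G, E0 (F * G) = F * E0 G + G * E0 F := by
    intro F G
    rw [hE0, hE0, hE0]
    have h1 : subst a (F * G) = (subst a F * subst a G : MvPowerSeries (Fin n) K) := by
      rw [← subHom_apply a ha.1, map_mul, subHom_apply, subHom_apply]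
    rw [h1, Derivation.leibniz, smul_eq_mul, smul_eq_mul, ← subHom_apply b hb.1, map_add,
      map_mul, map_mul]
    simp only [subHom_apply]
    rw [hba, hba]
  let E : Derivation ℤ (MvPowerSeries (Fin n) K) (MvPowerSeries (Fin n) K) :=
    Derivation.mk'
      { toFun := E0
        map_add' := E0.map_add
        map_smul' := fun c F => by
          have := map_intCast_smul E0 ℤ ℤ c F
          rw [Int.cast_id] at this
          exact this }
      (fun F G => hleib F G)
  have hE : ∀ F, E F = subst b (pderiv K i (subst a F)) := fun F => hE0 F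
  have hEC : ∀ c : K, E (C c) = C ((0 : Derivation ℤ K K) c) := by
    intro c
    rw [hE]
    rw [subst_C, pderiv_C, Derivation.coe_zero, Pi.zero_apply, map_zero,
      ← subHom_apply b hb.1, map_zero]
  have hmk := der_eq_mkDer E 0 hEC
  refine ⟨fun j => E (X j), ?_, ?_⟩
  · have hcol : ∃ j, lin (a j) i ≠ 0 := by
      by_contra hcon
      push Not at hcon
      apply ha.2
      apply Matrix.det_eq_zero_of_column_eq_zero i
      intro j
      exact hcon j
    obtain ⟨j, hj⟩ := hcol
    refine ⟨j, ?_⟩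
    have hs : HasSubst a := hasSubst_of_constantCoeff_zero ha.1
    change constantCoeff (E (X j)) ≠ 0
    rw [hE, subst_X hs, constantCoeff_subst0 b hb.1, ← coeff_zero_eq_constantCoeff_apply,
      coeff_pderiv]
    simpa [lin] using hj
  · intro F
    rw [← hmk, hE, hab]

end Pool.Agent.Zariski
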