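import Pool.Agent.Zariski.Exist
import Pool.Agent.Zariski.DerivExt

/-!
# The upper bound: a hypersurface invariant under a nonsingular derivation
-/

namespace Pool.Agent.Zariski

open MvPowerSeries

universe u

/-- Image of the extension of an ideal under a derivation extending a stable one. -/
theorem up_map_stable {A B : Type*} [CommRing A] [CommRing B] (φ : A →+* B) {I : Ideal A}
    (E : B → B) (hadd : ∀ x y, E (x + y) = E x + E y)
    (hmul : ∀ x y, E (x * y) = x * E y + y * E x) (E₀ : A → A) (h : ∀ g, E (φ g) = φ (E₀ g))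
    (hI : ∀ g ∈ I, E₀ g ∈ I) {x : B} (hx : x ∈ I.map φ) : E x ∈ I.map φ := by
  have hx' : x ∈ Submodule.span B (φ '' (I : Set A)) := hx
  clear hx
  induction hx' using Submodule.span_induction with
  | mem x hx =>
    obtain ⟨g, hg, rfl⟩ := hx
    rw [h]
    exact Ideal.mem_map_of_mem φ (hI g hg)
  | zero =>
    have : E 0 = 0 := by
      have := hadd 0 0
      simpa using this
    rw [this]
    exact Ideal.zero_mem _
  | add x y hx hy ihx ihy =>
    rw [hadd]
    exact Ideal.add_mem _ ihx ihy
  | smul a x hx ih =>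
    rw [smul_eq_mul, hmul]
    exact Ideal.add_mem _ (Ideal.mul_mem_left _ _ ih) (Ideal.mul_mem_right _ _ hx)

/-- A derivation in the sense of functions is a derivation over the integers. -/
theorem up_exists_der {A : Type*} [CommRing A] (E : A → A)
    (hadd : ∀ x y, E (x + y) = E x + E y) (hmul : ∀ x y, E (x * y) = x * E y + y * E x) :
    ∃ E₁ : Derivation ℤ A A, ∀ x, E₁ x = E x := by
  have h0 : E 0 = 0 := by
    have := hadd 0 0
    simpa using this
  refine ⟨Derivation.mk' (AddMonoidHom.toIntLinearMap ⟨⟨E, h0⟩, hadd⟩) fun x y => ?_,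
    fun x => rfl⟩
  exact hmul x y

/-- Value of a derivation at a polynomial expression. -/
theorem up_der_eval₂ {A B : Type*} [CommRing A] [CommRing B] (φ : A →+* B)
    (E : Derivation ℤ B B) (E' : Derivation ℤ A A) (h : ∀ F, E (φ F) = φ (E' F)) (t : B)
    (P : Polynomial A) :
    E (P.eval₂ φ t) = (∑ i ∈ P.support, Polynomial.monomial i (E' (P.coeff i))).eval₂ φ t +
      P.derivative.eval₂ φ t * E t := by
  rw [Polynomial.eval₂_finsetSum, Polynomial.derivative_apply, Polynomial.sum_def,
    Polynomial.eval₂_finsetSum, Finset.sum_mul, ← Finset.sum_add_distrib,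
    Polynomial.eval₂_eq_sum, Polynomial.sum_def, map_sum]
  refine Finset.sum_congr rfl fun i _ => ?_
  rw [Derivation.leibniz, h, Derivation.leibniz_pow, Polynomial.eval₂_monomial,
    Polynomial.eval₂_mul, Polynomial.eval₂_C, Polynomial.eval₂_pow, Polynomial.eval₂_X, map_mul,
    map_natCast]
  simp only [smul_eq_mul, nsmul_eq_mul]
  ring

/-- The abstract argument: invariance of the radical of the discriminant. -/
theorem up_abstract {A B : Type*} [CommRing A] [IsDomain A] [Algebra ℚ A] [CommRing B]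
    (φ : A →+* B) (E : B → B) (hadd : ∀ x y, E (x + y) = E x + E y)
    (hmul : ∀ x y, E (x * y) = x * E y + y * E x)
    (E' : A → A) (hadd' : ∀ x y, E' (x + y) = E' x + E' y)
    (hmul' : ∀ x y, E' (x * y) = x * E' y + y * E' x)
    (h : ∀ F, E (φ F) = φ (E' F)) (t : B) {P : Polynomial A} (hP : P.Monic)
    (h1 : E (P.eval₂ φ t) ∈ Ideal.span {P.eval₂ φ t}) {c : Polynomial A}
    (hc : E t - c.eval₂ φ t ∈ Ideal.span {P.eval₂ φ t})
    (hdvd : ∀ F : Polynomial A, F.eval₂ φ t ∈ Ideal.span {P.eval₂ φ t} → P ∣ F)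
    {a : A} (ha : a ∈ (Ideal.span {P.discr}).radical) :
    E' a ∈ (Ideal.span {P.discr}).radical := by
  obtain ⟨E₁, hE₁⟩ := up_exists_der E hadd hmul
  obtain ⟨E₂, hE₂⟩ := up_exists_der E' hadd' hmul'
  have h2 := up_der_eval₂ φ E₁ E₂ (fun F => by rw [hE₁, hE₂, h]) t P
  have h3 : P ∣ (∑ i ∈ P.support, Polynomial.monomial i (E₂ (P.coeff i))) +
      c * Polynomial.derivative P := by
    refine hdvd _ ?_
    rw [Polynomial.eval₂_add, Polynomial.eval₂_mul]
    have h4 : (∑ i ∈ P.support, Polynomial.monomial i (E₂ (P.coeff i))).eval₂ φ t +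
        c.eval₂ φ t * P.derivative.eval₂ φ t =
        E (P.eval₂ φ t) - P.derivative.eval₂ φ t * (E t - c.eval₂ φ t) := by
      rw [← hE₁ (P.eval₂ φ t), ← hE₁ t, h2]; ring
    rw [h4]
    exact Ideal.sub_mem _ h1 (Ideal.mul_mem_left _ _ hc)
  rw [← hE₂]
  exact derivation_radical_discr E₂ hP h3 ha

/-- The reduced discriminant is invariant under the extended derivation. -/
theorem radical_discr_stable {r : ℕ} {K : Type u} [Field K] [CharZero K]
    {I : Ideal (MvPowerSeries (Fin (r + 1)) K)} {P} (hP : IsWeierstrassEq I P)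
    (D : Derivation ℤ K K) (e : Fin (r + 1) → MvPowerSeries (Fin (r + 1)) K)
    (he : ∃ j, constantCoeff (e j) ≠ 0) (hI : ∀ g ∈ I, mkDer D e g ∈ I) :
    ∃ (D' : Derivation ℤ (Kstar r K) (Kstar r K)) (e' : Fin r → Kstar r K),
      (∀ i, e' i ≠ 0) ∧
      ∀ g ∈ (Ideal.span {P.discr}).radical,
        mkDer D' (fun i => C (e' i)) g ∈ (Ideal.span {P.discr}).radical := by
  obtain ⟨D', e', he', hext, hincl⟩ := exists_extension r K D e he
  refine ⟨D', e', he', fun g hg => ?_⟩
  have hy := adm_xstar r K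
  have hsub : subHom (xstar r K) hy.1 = inclStar r K := rfl
  obtain ⟨c, hc⟩ := hy.exists_poly_congr hP.distinguished
    (mkDer D' (fun j => extCoeff r K (e j)) (X 0))
  rw [hsub] at hc
  have hadd : ∀ x y, mkDer D' (fun j => extCoeff r K (e j)) (x + y) =
      mkDer D' (fun j => extCoeff r K (e j)) x + mkDer D' (fun j => extCoeff r K (e j)) y :=
    fun x y => map_add _ x y
  have hmul : ∀ x y, mkDer D' (fun j => extCoeff r K (e j)) (x * y) =
      x * mkDer D' (fun j => extCoeff r K (e j)) y +
      y * mkDer D' (fun j => extCoeff r K (e j)) x := fun x y => by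
    rw [Derivation.leibniz, smul_eq_mul, smul_eq_mul]
  have h1 : mkDer D' (fun j => extCoeff r K (e j)) (P.eval₂ (inclStar r K) (X 0)) ∈
      Ideal.span {P.eval₂ (inclStar r K) (X 0)} := by
    rw [hP.span_eq]
    refine up_map_stable (extCoeff r K) _ hadd hmul (mkDer D e) hext hI ?_
    rw [← hP.span_eq]
    exact Ideal.mem_span_singleton_self _
  have : IsDomain (MvPowerSeries (Fin r) (Kstar r K)) := NoZeroDivisors.to_isDomain _
  refine up_abstract (inclStar r K) (mkDer D' (fun j => extCoeff r K (e j))) hadd hmul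
    (mkDer D' (fun i => C (e' i))) (fun x y => map_add _ x y) (fun x y => ?_) hincl (X 0)
    hP.distinguished.monic h1 hc (fun F hF => ?_) hg
  · rw [Derivation.leibniz, smul_eq_mul, smul_eq_mul]
  · exact hy.dvd_of_eval_mem hP.distinguished hF

/-- One variable, induction on the order. -/
theorem up_one_variable_aux {K : Type u} [Field K] [CharZero K] (D : Derivation ℤ K K)
    {e : Fin 1 → K} (he : e 0 ≠ 0) {J : Ideal (MvPowerSeries (Fin 1) K)}
    (hJ : ∀ g ∈ J, mkDer D (fun i => C (e i)) g ∈ J) (N : ℕ) :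
    ∀ d : MvPowerSeries (Fin 1) K, d ∈ J →
      (∀ k < N, coeff (Finsupp.single 0 k) d = 0) → coeff (Finsupp.single 0 N) d ≠ 0 →
      J = ⊤ := by
  have hco : ∀ (g : MvPowerSeries (Fin 1) K) (k : ℕ),
      coeff (Finsupp.single 0 k) (mkDer D (fun i => C (e i)) g) =
        D (coeff (Finsupp.single 0 k) g) +
          e 0 * (coeff (Finsupp.single 0 (k + 1)) g * ((k : K) + 1)) := by
    intro g k
    rw [coeff_mkDer, Fin.sum_univ_one, coeff_C_mul, coeff_pderiv, ← Finsupp.single_add,
      Finsupp.single_eq_same]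
  induction N with
  | zero =>
    intro d hd _ h0
    refine Ideal.eq_top_of_isUnit_mem _ hd ?_
    rw [MvPowerSeries.isUnit_iff_constantCoeff, isUnit_iff_ne_zero]
    rw [Finsupp.single_zero] at h0
    exact h0
  | succ N ih =>
    intro d hd hlt hN
    refine ih (mkDer D (fun i => C (e i)) d) (hJ d hd) ?_ ?_
    · intro k hk
      rw [hco, hlt k (by omega), hlt (k + 1) (by omega)]
      simp
    · rw [hco, hlt N (by omega), map_zero, zero_add]
      exact mul_ne_zero he (mul_ne_zero hN (by exact_mod_cast Nat.succ_ne_zero N))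

/-- One variable: no proper nonzero ideal is stable under a nonsingular derivation. -/
theorem one_variable {K : Type u} [Field K] [CharZero K] (D : Derivation ℤ K K)
    {e : Fin 1 → K} (he : e 0 ≠ 0) {J : Ideal (MvPowerSeries (Fin 1) K)}
    (hJ : ∀ g ∈ J, mkDer D (fun i => C (e i)) g ∈ J) {d : MvPowerSeries (Fin 1) K}
    (hd : d ∈ J) (hd0 : d ≠ 0) : J = ⊤ := by
  have hex : ∃ k : ℕ, coeff (Finsupp.single 0 k) d ≠ 0 := by
    by_contra hcon
    push Not at hcon
    apply hd0
    ext a
    have ha : a = Finsupp.single 0 (a 0) := by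
      refine Finsupp.ext fun i => ?_
      rw [Subsingleton.elim i 0, Finsupp.single_eq_same]
    rw [ha, hcon, map_zero]
  classical
  exact up_one_variable_aux D he hJ (Nat.find hex) d hd
    (fun k hk => by have := Nat.find_min hex hk; push Not at this; exact this)
    (Nat.find_spec hex)

/-- The upper bound, for all fields at once. -/
theorem up_dimType_le_aux (r : ℕ) : ∀ (K : Type u) [Field K] [CharZero K]
    (f : MvPowerSeries (Fin (r + 2)) K), Squarefree f → constantCoeff f = 0 →
    ∀ (D : Derivation ℤ K K) (e : Fin (r + 2) → MvPowerSeries (Fin (r + 2)) K),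
    (∃ j, constantCoeff (e j) ≠ 0) →
    (∀ g ∈ Ideal.span {f}, mkDer D e g ∈ Ideal.span {f}) → ∀ d : ℕ,
    IsDimType (r + 1) K (Ideal.span {f}) (IsLocalRing.maximalIdeal _) d → d ≤ r := by
  induction r with
  | zero =>
    intro K _ _ f hf h0 D e he hI d hd
    rw [isDimType_succ_iff hf.ne_zero h0] at hd
    rcases hd with ⟨_, rfl⟩ | ⟨h1, P, hP, d', hd', rfl⟩
    · exact le_rfl
    · exfalso
      obtain ⟨D', e', he', hst⟩ := radical_discr_stable hP D e he hI
      have hne := discr_ne_zero hf h0 hP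
      have hc := constantCoeff_discr hf.ne_zero h0 h1 hP
      have htop := one_variable D' (he' 0) hst
        (Ideal.le_radical (Ideal.mem_span_singleton_self P.discr)) hne
      rw [Ideal.radical_eq_top, Ideal.span_singleton_eq_top,
        MvPowerSeries.isUnit_iff_constantCoeff, hc] at htop
      exact not_isUnit_zero htop
  | succ r ih =>
    intro K _ _ f hf h0 D e he hI d hd
    rw [isDimType_succ_iff hf.ne_zero h0] at hd
    rcases hd with ⟨_, rfl⟩ | ⟨h1, P, hP, d', hd', rfl⟩
    · exact Nat.zero_le _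
    · obtain ⟨D', e', he', hst⟩ := radical_discr_stable hP D e he hI
      obtain ⟨D₀, hsq, hc0, hrad⟩ := exists_reduced_discr hf h0 h1 hP
      rw [hrad] at hd' hst
      have := ih (Kstar (r + 2) K) D₀ hsq hc0 D' (fun i => C (e' i))
        ⟨0, by rw [constantCoeff_C]; exact he' 0⟩ hst d' hd'
      omega

/-- The upper bound. -/
theorem dimType_le {r : ℕ} {K : Type u} [Field K] [CharZero K]
    {f : MvPowerSeries (Fin (r + 2)) K} (hf : Squarefree f) (h0 : constantCoeff f = 0)
    (D : Derivation ℤ K K) (e : Fin (r + 2) → MvPowerSeries (Fin (r + 2)) K)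
    (he : ∃ j, constantCoeff (e j) ≠ 0)
    (hI : ∀ g ∈ Ideal.span {f}, mkDer D e g ∈ Ideal.span {f}) {d : ℕ}
    (hd : IsDimType (r + 1) K (Ideal.span {f}) (IsLocalRing.maximalIdeal _) d) : d ≤ r :=
  up_dimType_le_aux r K f hf h0 D e he hI d hd

end Pool.Agent.Zariski
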