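import Pool.Agent.Zariski.LowD
import Pool.Agent.Zariski.Up
import Pool.Agent.Zariski.Pres
import Pool.Agent.Zariski.CoeffA
import Pool.Agent.Zariski.CoeffB

/-!
# The dimensionality type depends on the coefficient field
-/

namespace Pool.Agent.Zariski

open MvPowerSeries

universe u

section

variable {n : ℕ} {k : Type u} [Field k]

/-- The maximal ideal of the quotient: elements of `K[[x]]` without constant term. -/
theorem mk_mem_maximalIdeal {f : MvPowerSeries (Fin n) k} (h0 : constantCoeff f = 0)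
    [IsLocalRing (MvPowerSeries (Fin n) k ⧸ Ideal.span {f})] {g : MvPowerSeries (Fin n) k}
    (hg : constantCoeff g = 0) :
    Ideal.Quotient.mk (Ideal.span {f}) g ∈
      IsLocalRing.maximalIdeal (MvPowerSeries (Fin n) k ⧸ Ideal.span {f}) := by
  rw [IsLocalRing.mem_maximalIdeal, mem_nonunits_iff]
  intro hu
  obtain ⟨y, hy⟩ := hu.exists_right_inv
  obtain ⟨g', rfl⟩ := Ideal.Quotient.mk_surjective y
  rw [← map_mul, ← map_one (Ideal.Quotient.mk (Ideal.span {f})), Ideal.Quotient.eq,
    Ideal.mem_span_singleton] at hy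
  obtain ⟨c, hc⟩ := hy
  have := congrArg constantCoeff hc
  rw [map_sub, map_mul, map_mul, hg, h0, map_one, zero_mul, zero_mul, zero_sub] at this
  exact one_ne_zero (neg_eq_zero.1 this)

/-- Coefficient fields of the quotient from embeddings in `K[[x]]`. -/
theorem isCoeffField_mk {f : MvPowerSeries (Fin n) k} (h0 : constantCoeff f = 0)
    [IsLocalRing (MvPowerSeries (Fin n) k ⧸ Ideal.span {f})] (θ : k →+* MvPowerSeries (Fin n) k)
    (hθ : ∀ a, constantCoeff (θ a) = a) :
    IsCoeffField ((Ideal.Quotient.mk (Ideal.span {f})).comp θ) := by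
  refine ⟨RingHom.injective _, fun x => ?_⟩
  obtain ⟨y, rfl⟩ := IsLocalRing.residue_surjective x
  obtain ⟨g, rfl⟩ := Ideal.Quotient.mk_surjective y
  refine ⟨constantCoeff g, ?_⟩
  change IsLocalRing.residue _ (Ideal.Quotient.mk (Ideal.span {f}) (θ (constantCoeff g))) = _
  rw [← sub_eq_zero, ← map_sub, IsLocalRing.residue_eq_zero_iff, ← map_sub]
  exact mk_mem_maximalIdeal h0 (by rw [map_sub, hθ, sub_self])

/-- The closed point of a presentation. -/
theorem comap_maximalIdeal_of_surjective {o : Type u} [CommRing o] [IsLocalRing o]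
    {Ψ : MvPowerSeries (Fin n) k →+* o} (hΨ : Function.Surjective Ψ) :
    (IsLocalRing.maximalIdeal o).comap Ψ =
      IsLocalRing.maximalIdeal (MvPowerSeries (Fin n) k) :=
  IsLocalRing.eq_maximalIdeal (Ideal.comap_isMaximal_of_surjective Ψ hΨ)

/-- An ideal `(F)` with `E F = 0` is stable under the derivation `E`. -/
theorem stable_of_eq_zero {A : Type*} [CommRing A] {R : Type*} [CommRing R] [Algebra R A]
    (E : Derivation R A A) {F : A} (hF : E F = 0) :
    ∀ g ∈ Ideal.span {F}, E g ∈ Ideal.span {F} := by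
  intro g hg
  obtain ⟨c, rfl⟩ := Ideal.mem_span_singleton.1 hg
  rw [E.leibniz, hF, smul_zero, add_zero, smul_eq_mul]
  exact Ideal.mul_mem_right _ _ (Ideal.mem_span_singleton_self F)

/-- `Vf` does not involve the variable `0`. -/
theorem derivation_Vf {A : Type*} [CommRing A] {R : Type*} [CommRing R] [Algebra R A]
    (E : Derivation R A A) (m : ℕ)
    {a : Fin 3 → A} {y : Fin 6 → A} (ha : ∀ i, E (a i) = 0) (hy : ∀ i, i ≠ 0 → E (y i) = 0) :
    E (Vf m a y) = 0 := by
  have hmul : ∀ {x z : A}, E x = 0 → E z = 0 → E (x * z) = 0 := fun {x z} hx hz => by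
    rw [E.leibniz, hx, hz, smul_zero, smul_zero, add_zero]
  have hadd : ∀ {x z : A}, E x = 0 → E z = 0 → E (x + z) = 0 := fun {x z} hx hz => by
    rw [map_add, hx, hz, add_zero]
  have hpow : ∀ {x : A} (j : ℕ), E x = 0 → E (x ^ j) = 0 := fun {x} j hx => by
    rw [E.leibniz_pow, hx, smul_zero, smul_zero]
  have hy1 := hy 1 (by decide)
  have hy2 := hy 2 (by decide)
  have hy3 := hy 3 (by decide)
  have hy4 := hy 4 (by decide)
  have hy5 := hy 5 (by decide)
  have hterm : ∀ i, E ((y 1 + a i * y 5 ^ m) * (y 3 + a i * y 5 ^ m)) = 0 := fun i =>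
    hmul (hadd hy1 (hmul (ha i) (hpow m hy5))) (hadd hy3 (hmul (ha i) (hpow m hy5)))
  rw [Vf, Fin.prod_univ_three]
  exact hmul (hmul hy2 hy4) (hmul (hmul (hterm 0) (hterm 1)) (hterm 2))

theorem isParam_X (n : ℕ) (k : Type u) [Field k] :
    IsParam (X : Fin n → MvPowerSeries (Fin n) k) := by
  refine ⟨fun i => constantCoeff_X i, ?_⟩
  have : (Matrix.of fun i j => lin (X i : MvPowerSeries (Fin n) k) j) = 1 := by
    ext i j
    rw [Matrix.of_apply, lin_X, Matrix.one_apply, Pi.single_apply]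
    simp only [eq_comm]
  rw [this, Matrix.det_one]
  exact one_ne_zero

end

section

variable {k : Type u} [Field k]

/-- distinct constant terms -/
theorem distinct_consts {a : Fin 3 → MvPowerSeries (Fin 6) k} {t : k}
    (e0 : constantCoeff (a 0) = 0) (e1 : constantCoeff (a 1) = 1) (e2 : constantCoeff (a 2) = t)
    (ht0 : t ≠ 0) (ht1 : t ≠ 1) :
    ∀ i j, i ≠ j → constantCoeff (a i) ≠ constantCoeff (a j) := by
  intro i j hij
  fin_cases i <;> fin_cases j <;> first | exact absurd rfl hij | skip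
  · change constantCoeff (a 0) ≠ constantCoeff (a 1); rw [e0, e1]; exact zero_ne_one
  · change constantCoeff (a 0) ≠ constantCoeff (a 2); rw [e0, e2]; exact ht0.symm
  · change constantCoeff (a 1) ≠ constantCoeff (a 0); rw [e0, e1]; exact one_ne_zero
  · change constantCoeff (a 1) ≠ constantCoeff (a 2); rw [e1, e2]; exact ht1.symm
  · change constantCoeff (a 2) ≠ constantCoeff (a 0); rw [e0, e2]; exact ht0
  · change constantCoeff (a 2) ≠ constantCoeff (a 1); rw [e1, e2]; exact ht1

theorem squarefree_V1 {φ : Fin 6 → MvPowerSeries (Fin 6) k} (hφ : IsParam φ) {m : ℕ}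
    (hm : 2 ≤ m) {t : k} (ht0 : t ≠ 0) (ht1 : t ≠ 1) :
    Squarefree (Vf m ![0, 1, C t + φ 0 * φ 5] φ) :=
  squarefree_Vf hφ hm (distinct_consts (map_zero _) (map_one _) (by simp [hφ.1 0]) ht0 ht1)

theorem squarefree_V0 {φ : Fin 6 → MvPowerSeries (Fin 6) k} (hφ : IsParam φ) {m : ℕ}
    (hm : 2 ≤ m) {t : k} (ht0 : t ≠ 0) (ht1 : t ≠ 1) :
    Squarefree (Vf m ![0, 1, C t] φ) :=
  squarefree_Vf hφ hm (distinct_consts (map_zero _) (map_one _) (by simp) ht0 ht1)

theorem subst_Vf {b : Fin 6 → MvPowerSeries (Fin 6) k} (hb : ∀ i, constantCoeff (b i) = 0)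
    (m : ℕ) (t : k) :
    subst b (Vf m ![0, 1, C t] X : MvPowerSeries (Fin 6) k) = Vf m ![0, 1, C t] b := by
  rw [← subHom_apply b hb, map_Vf]
  have hs : HasSubst b := hasSubst_of_constantCoeff_zero hb
  have h1 : (fun i => subHom b hb ((![0, 1, C t] : Fin 3 → MvPowerSeries (Fin 6) k) i)) =
      ![0, 1, C t] := by
    funext i
    fin_cases i
    · exact map_zero _
    · exact map_one _
    · change subHom b hb (C t) = C t
      rw [subHom_apply]
      exact subst_C0 b hb t
  have h2 : (fun i => subHom b hb (X i)) = b := by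
    funext i
    rw [subHom_apply, subst_X hs]
  rw [h1, h2]

theorem subst_Vf' {b : Fin 6 → MvPowerSeries (Fin 6) k} (hb : ∀ i, constantCoeff (b i) = 0)
    (m : ℕ) (t : k) :
    subst b (Vf m ![0, 1, C t + X 0 * X 5] X : MvPowerSeries (Fin 6) k) =
      Vf m ![0, 1, C t + b 0 * b 5] b := by
  rw [← subHom_apply b hb, map_Vf]
  have hs : HasSubst b := hasSubst_of_constantCoeff_zero hb
  have h2 : ∀ i, subHom b hb (X i) = b i := by
    intro i
    rw [subHom_apply, subst_X hs]
  have h1 : (fun i => subHom b hb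
      ((![0, 1, C t + X 0 * X 5] : Fin 3 → MvPowerSeries (Fin 6) k) i)) =
      ![0, 1, C t + b 0 * b 5] := by
    funext i
    fin_cases i
    · exact map_zero _
    · exact map_one _
    · change subHom b hb (C t + X 0 * X 5) = C t + b 0 * b 5
      rw [map_add, map_mul, h2, h2, subHom_apply, subst_C0 b hb t]
  rw [h1]
  simp only [h2]

theorem Vf_mem_sq {φ : Fin 6 → MvPowerSeries (Fin 6) k}
    (hφ : ∀ i, constantCoeff (φ i) = 0) {m : ℕ} (hm : 1 ≤ m)
    (a : Fin 3 → MvPowerSeries (Fin 6) k) :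
    Vf m a φ ∈ IsLocalRing.maximalIdeal (MvPowerSeries (Fin 6) k) ^ 2 := by
  rw [mem_maximalIdeal_pow_iff]
  exact (two_le_order_iff _).2 ⟨constantCoeff_Vf hφ hm a, lin_Vf hφ hm a⟩

end

/-- First coefficient field: the dimensionality type of the closed point is `5`. -/
theorem first_coeffField {k : Type u} [Field k] [CharZero k] {t : k} (ht0 : t ≠ 0) (ht1 : t ≠ 1)
    {f : MvPowerSeries (Fin 6) k} (hf : f = Vf 4 ![0, 1, C t + X 0 * X 5] X)
    [IsLocalRing (MvPowerSeries (Fin 6) k ⧸ Ideal.span {f})] (d : ℕ) :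
    HasDimType 5 ((Ideal.Quotient.mk (Ideal.span {f})).comp C)
      (IsLocalRing.maximalIdeal (MvPowerSeries (Fin 6) k ⧸ Ideal.span {f})) d ↔ d = 5 := by
  have hX := isParam_X 6 k
  have key : ∀ d, HasDimType 5 ((Ideal.Quotient.mk (Ideal.span {f})).comp C)
      (IsLocalRing.maximalIdeal (MvPowerSeries (Fin 6) k ⧸ Ideal.span {f})) d → d = 5 := by
    rintro d ⟨Ψ, hΨ, hC, hd⟩
    rw [comap_maximalIdeal_of_surjective hΨ] at hd
    obtain ⟨b, hb, hker⟩ := exists_ker_eq (Ideal.Quotient.mk (Ideal.span {f})) Ψ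
      Ideal.Quotient.mk_surjective hΨ (fun a => hC a) (f := f) Ideal.mk_ker
      (by rw [hf]; exact Vf_mem_sq hX.1 (by norm_num) _)
    rw [hker, hf, subst_Vf' hb.1] at hd
    exact dimType_eq_five hb le_rfl ht0 ht1 hd
  refine ⟨key d, ?_⟩
  rintro rfl
  have hsq : Squarefree f := by rw [hf]; exact squarefree_V1 hX (by norm_num) ht0 ht1
  have h0 : constantCoeff f = 0 := by rw [hf]; exact constantCoeff_Vf hX.1 (by norm_num) _
  obtain ⟨d, hd⟩ := exists_isDimType (r := 5) hsq h0
  have h5 : HasDimType 5 ((Ideal.Quotient.mk (Ideal.span {f})).comp C)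
      (IsLocalRing.maximalIdeal (MvPowerSeries (Fin 6) k ⧸ Ideal.span {f})) d := by
    refine ⟨Ideal.Quotient.mk (Ideal.span {f}), Ideal.Quotient.mk_surjective, fun a => rfl, ?_⟩
    rw [comap_maximalIdeal_of_surjective Ideal.Quotient.mk_surjective, Ideal.mk_ker]
    exact hd
  have := key d h5
  rwa [this] at h5

/-- Second coefficient field: the dimensionality type of the closed point is at most `4`. -/
theorem second_coeffField {k : Type u} [Field k] [CharZero k] {t : k} (ht0 : t ≠ 0) (ht1 : t ≠ 1)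
    {f : MvPowerSeries (Fin 6) k} (hf : f = Vf 4 ![0, 1, C t + X 0 * X 5] X)
    (Φ : MvPowerSeries (Fin 6) k ≃+* MvPowerSeries (Fin 6) k) (hΦX : ∀ i, Φ (X i) = X i)
    (hΦt : Φ (C t) = C t + X 0 * X 5)
    [IsLocalRing (MvPowerSeries (Fin 6) k ⧸ Ideal.span {f})] :
    (∃ d, HasDimType 5 ((Ideal.Quotient.mk (Ideal.span {f})).comp (Φ.toRingHom.comp C))
      (IsLocalRing.maximalIdeal (MvPowerSeries (Fin 6) k ⧸ Ideal.span {f})) d) ∧
    (∀ d, HasDimType 5 ((Ideal.Quotient.mk (Ideal.span {f})).comp (Φ.toRingHom.comp C))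
      (IsLocalRing.maximalIdeal (MvPowerSeries (Fin 6) k ⧸ Ideal.span {f})) d → d ≤ 4) := by
  have hX := isParam_X 6 k
  set f0 : MvPowerSeries (Fin 6) k := Vf 4 ![0, 1, C t] X with hf0
  have hΦf : Φ f0 = f := by
    have h1 : Φ.toRingHom f0 = _ := map_Vf Φ.toRingHom 4 ![0, 1, C t] X
    have h2 : (fun i => Φ.toRingHom ((![0, 1, C t] : Fin 3 → MvPowerSeries (Fin 6) k) i)) =
        ![0, 1, C t + X 0 * X 5] := by
      funext i
      fin_cases i
      · exact map_zero _
      · exact map_one _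
      · exact hΦt
    have h3 : (fun i => Φ.toRingHom (X i)) = (X : Fin 6 → MvPowerSeries (Fin 6) k) :=
      funext hΦX
    rw [h2, h3, ← hf] at h1
    exact h1
  have hsq : Squarefree f0 := squarefree_V0 hX (by norm_num) ht0 ht1
  have h0 : constantCoeff f0 = 0 := constantCoeff_Vf hX.1 (by norm_num) _
  set Ψ₀ : MvPowerSeries (Fin 6) k →+* MvPowerSeries (Fin 6) k ⧸ Ideal.span {f} :=
    (Ideal.Quotient.mk (Ideal.span {f})).comp Φ.toRingHom with hΨ₀
  have hsurj : Function.Surjective Ψ₀ :=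
    Ideal.Quotient.mk_surjective.comp Φ.surjective
  have hker : RingHom.ker Ψ₀ = Ideal.span {f0} := by
    ext g
    rw [RingHom.mem_ker, Ideal.mem_span_singleton]
    change Ideal.Quotient.mk (Ideal.span {f}) (Φ g) = 0 ↔ _
    rw [Ideal.Quotient.eq_zero_iff_mem, Ideal.mem_span_singleton, ← hΦf]
    exact map_dvd_iff Φ
  constructor
  · obtain ⟨d, hd⟩ := exists_isDimType (r := 5) hsq h0
    refine ⟨d, Ψ₀, hsurj, fun a => rfl, ?_⟩
    rw [comap_maximalIdeal_of_surjective hsurj, hker]
    exact hd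
  · rintro d ⟨Ψ, hΨ, hC, hd⟩
    rw [comap_maximalIdeal_of_surjective hΨ] at hd
    obtain ⟨b, hb, hker'⟩ := exists_ker_eq Ψ₀ Ψ hsurj hΨ (fun a => hC a) hker
      (Vf_mem_sq hX.1 (by norm_num) _)
    rw [hker'] at hd
    obtain ⟨e, he, hder⟩ := exists_mkDer_subst hb 0
    have hz : mkDer (0 : Derivation ℤ k k) e (subst b f0) = 0 := by
      rw [hder, derivation_Vf (pderiv k 0) 4, ← coe_substAlgHom
        (hasSubst_of_constantCoeff_zero hb.1), map_zero]
      · intro i
        fin_cases i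
        · exact map_zero _
        · exact Derivation.map_one_eq_zero _
        · exact pderiv_C
      · intro i hi
        exact pderiv_X_of_ne hi
    have hVb : subst b f0 = Vf 4 ![0, 1, C t] b := subst_Vf hb.1 4 t
    have hst := stable_of_eq_zero (mkDer (0 : Derivation ℤ k k) e) hz
    exact dimType_le (r := 4) (by rw [hVb]; exact squarefree_V0 hb (by norm_num) ht0 ht1)
      (by rw [hVb]; exact constantCoeff_Vf hb.1 (by norm_num) _) 0 e he
      hst hd

end Pool.Agent.Zariski
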