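import Pool.Agent.Zariski.KeyProp

/-!
# The final contradiction in three variables
-/

namespace Pool.Agent.Zariski

open MvPowerSeries

namespace F3

section general

variable {L : Type*} [Field L]

lemma subHom_C {n k : ℕ} (a : Fin n → MvPowerSeries (Fin k) L)
    (ha : ∀ i, constantCoeff (a i) = 0) (r : L) : subHom a ha (C r) = C r := by
  rw [subHom_apply, subst_C]

lemma subHom_X {n k : ℕ} (a : Fin n → MvPowerSeries (Fin k) L)
    (ha : ∀ i, constantCoeff (a i) = 0) (i : Fin n) : subHom a ha (X i) = a i := by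
  rw [subHom_apply, subst_X (hasSubst_of_constantCoeff_zero ha)]

lemma constantCoeff_subHom {n k : ℕ} (a : Fin n → MvPowerSeries (Fin k) L)
    (ha : ∀ i, constantCoeff (a i) = 0) (g : MvPowerSeries (Fin n) L) :
    constantCoeff (subHom a ha g) = constantCoeff g := by
  rw [subHom_apply, constantCoeff_subst0 a ha]

lemma lin_subHom {n k : ℕ} (a : Fin n → MvPowerSeries (Fin k) L)
    (ha : ∀ i, constantCoeff (a i) = 0) (g : MvPowerSeries (Fin n) L) (j : Fin k) :
    lin (subHom a ha g) j = ∑ i, lin g i * lin (a i) j := by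
  rw [subHom_apply, lin_subst a ha]

lemma linpow {n : ℕ} (g : MvPowerSeries (Fin n) L) (k : ℕ) :
    lin (g ^ k) = ((k : L) * constantCoeff g ^ (k - 1)) • lin g := by
  induction k with
  | zero =>
    have : (1 : MvPowerSeries (Fin n) L) = C 1 := by simp
    rw [pow_zero, this, lin_C]
    simp
  | succ k ih =>
    rw [pow_succ, lin_mul, ih, map_pow, smul_smul, ← add_smul]
    congr 1
    rcases k with _ | k
    · simp
    · simp only [Nat.add_sub_cancel]
      push_cast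
      ring

/-- the chart of the blow-up -/
noncomputable def bl (σ η : L) : Fin 3 → MvPowerSeries (Fin 3) L :=
  ![X 1 * (C σ + X 0), X 1, X 1 * (C η + X 2)]

lemma bl0 (σ η : L) : ∀ i, constantCoeff (bl σ η i) = 0 := by
  intro i
  fin_cases i <;> simp [bl]

lemma lin_bl_zero (σ η : L) (i : Fin 3) : lin (bl σ η i) 0 = 0 := by
  fin_cases i <;> simp [bl, lin_mul, lin_add, lin_X, lin_C]

lemma lin_bl_two (σ η : L) (i : Fin 3) : lin (bl σ η i) 2 = 0 := by
  fin_cases i <;> simp [bl, lin_mul, lin_add, lin_X, lin_C]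

/-- the blow-up homomorphism -/
noncomputable def Bl (σ η : L) : MvPowerSeries (Fin 3) L →+* MvPowerSeries (Fin 3) L :=
  subHom (bl σ η) (bl0 σ η)

lemma lin_Bl_zero (σ η : L) (g : MvPowerSeries (Fin 3) L) : lin (Bl σ η g) 0 = 0 := by
  unfold Bl
  rw [lin_subHom]
  simp [lin_bl_zero]

lemma lin_Bl_two (σ η : L) (g : MvPowerSeries (Fin 3) L) : lin (Bl σ η g) 2 = 0 := by
  unfold Bl
  rw [lin_subHom]
  simp [lin_bl_two]

lemma constantCoeff_Bl (σ η : L) (g : MvPowerSeries (Fin 3) L) :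
    constantCoeff (Bl σ η g) = constantCoeff g := constantCoeff_subHom _ _ _

lemma Bl_X0 (σ η : L) : Bl σ η (X 0) = X 1 * (C σ + X 0) := subHom_X _ _ _
lemma Bl_X1 (σ η : L) : Bl σ η (X 1) = X 1 := subHom_X _ _ _
lemma Bl_X2 (σ η : L) : Bl σ η (X 2) = X 1 * (C η + X 2) := subHom_X _ _ _
lemma Bl_C (σ η r : L) : Bl σ η (C r) = C r := subHom_C _ _ _

lemma exists_Bl (σ η : L) {g : MvPowerSeries (Fin 3) L} (hg : constantCoeff g = 0) :
    ∃ g' : MvPowerSeries (Fin 3) L, Bl σ η g = X 1 * g' ∧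
      constantCoeff g' = σ * lin g 0 + lin g 1 + η * lin g 2 ∧ lin g' 0 = lin g 0 := by
  have h1 := (mem_maximalIdeal_iff g).mpr hg
  rw [maximalIdeal_eq_span_X, Ideal.span, Submodule.mem_span_range_iff_exists_fun] at h1
  obtain ⟨h, rfl⟩ := h1
  refine ⟨(C σ + X 0) * Bl σ η (h 0) + Bl σ η (h 1) + (C η + X 2) * Bl σ η (h 2), ?_, ?_, ?_⟩
  · simp only [smul_eq_mul, Fin.sum_univ_three, map_add, map_mul, Bl_X0, Bl_X1, Bl_X2]
    ring
  · simp [Fin.sum_univ_three, lin_add, lin_mul, lin_X, constantCoeff_Bl]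
  · simp [Fin.sum_univ_three, lin_add, lin_mul, lin_X, lin_C, constantCoeff_Bl, lin_Bl_zero]

lemma dvd_Bl (σ η : L) (k : ℕ) {g : MvPowerSeries (Fin 3) L} (hg : (k : ℕ∞) ≤ g.order) :
    (X 1 : MvPowerSeries (Fin 3) L) ^ k ∣ Bl σ η g := by
  have h1 := (mem_maximalIdeal_pow_iff k g).mpr hg
  have h2 : Ideal.map (Bl σ η) (IsLocalRing.maximalIdeal (MvPowerSeries (Fin 3) L)) ≤
      Ideal.span {X 1} := by
    rw [Ideal.map_le_iff_le_comap]
    intro f hf
    rw [Ideal.mem_comap, Ideal.mem_span_singleton]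
    obtain ⟨f', hf', -⟩ := exists_Bl σ η ((mem_maximalIdeal_iff f).mp hf)
    exact ⟨f', hf'⟩
  have h3 := Ideal.mem_map_of_mem (Bl σ η) h1
  rw [Ideal.map_pow] at h3
  have h4 := Ideal.pow_right_mono h2 k h3
  rwa [Ideal.span_singleton_pow, Ideal.mem_span_singleton] at h4

lemma constantCoeff_eq_of_order {k : ℕ} (hk : 1 ≤ k) {n : ℕ} {F G : MvPowerSeries (Fin n) L}
    (h : (k : ℕ∞) ≤ (F - G).order) : constantCoeff G = constantCoeff F := by
  have h1 : (1 : ℕ∞) ≤ (F - G).order := le_trans (by exact_mod_cast hk) h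
  have h2 := one_le_order_iff_constCoeff_eq_zero.mp h1
  rw [map_sub, sub_eq_zero] at h2
  exact h2.symm

end general

section arcs

variable {L : Type*} [Field L] [CharZero L]

/-- an arc on the curve `β₁ = β₂ = 0` for every root `η` -/
lemma exists_arc {m : ℕ} (hm : 4 ≤ m) {t : L} {β₁ β₂ : MvPowerSeries (Fin 3) L}
    (h : KeyData m t β₁ β₂) (hs : h.s = X 0) (hp : h.p = X 1) (hq : h.q = X 2) (η : L)
    (hη : η ^ m * constantCoeff h.F₃ = constantCoeff h.F₁) :
    ∃ Ψ : MvPowerSeries (Fin 3) L →+* MvPowerSeries (Fin 3) L, Ψ β₁ = 0 ∧ Ψ β₂ = 0 ∧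
      ∀ δ, constantCoeff δ = 0 → Ψ δ = 0 →
        -(h.w0 * η) * lin δ 0 + lin δ 1 + η * lin δ 2 = 0 := by
  obtain ⟨k, rfl⟩ : ∃ k, m = k + 4 := ⟨m - 4, by omega⟩
  set σ : L := -(h.w0 * η) with hσ
  set N₁ : L := constantCoeff h.F₁ with hN₁
  set N₃ : L := constantCoeff h.F₃ with hN₃
  have hN₁0 : N₁ ≠ 0 := h.F₁0
  have hN₃0 : N₃ ≠ 0 := h.F₃0
  have hN : N₁ ≠ N₃ := h.F₁₃
  have hη0 : η ≠ 0 := by
    intro h0
    rw [h0, zero_pow (by omega), zero_mul] at hη
    exact hN₁0 hη.symm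
  have hη1 : η ≠ 1 := by
    intro h1
    rw [h1, one_pow, one_mul] at hη
    exact hN hη.symm
  obtain ⟨x', hx', hx'0, hx'1⟩ := exists_Bl σ η h.x0
  have hlx0 : lin h.x 0 = 1 := by
    rw [h.lin_x, hs, hp, hq]
    simp [lin_X]
  have hlx1 : lin h.x 1 = -h.w0 := by
    rw [h.lin_x, hs, hp, hq]
    simp [lin_X]
  have hlx2 : lin h.x 2 = h.w0 := by
    rw [h.lin_x, hs, hp, hq]
    simp [lin_X]
  rw [hlx0, hlx1, hlx2] at hx'0
  rw [hlx0] at hx'1
  have hG₁ : constantCoeff h.G₁ = N₁ := constantCoeff_eq_of_order (by omega) h.FG₁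
  have hG₃ : constantCoeff h.G₃ = N₃ := constantCoeff_eq_of_order (by omega) h.FG₃
  obtain ⟨e₁, he₁⟩ := dvd_Bl σ η _ h.FG₁
  obtain ⟨e₃, he₃⟩ := dvd_Bl σ η _ h.FG₃
  have hk : k + 4 - 1 = k + 3 := by omega
  rw [hk] at he₁ he₃
  set om : MvPowerSeries (Fin 3) L := (C σ + X 0) * Bl σ η h.G₁ -
    x' * (C η + X 2) ^ (k + 5) * Bl σ η h.G₃ -
    X 1 ^ (k + 1) * (C t * e₁ - C t * (C η + X 2) ^ (k + 4) * e₃) with hom
  set be : MvPowerSeries (Fin 3) L := Bl σ η h.F₁ - (C η + X 2) ^ (k + 4) * Bl σ η h.F₃ with hbe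
  have hβ₁ : Bl σ η β₁ = X 1 ^ (k + 4) * be := by
    rw [h.eq₁, hp, hq, hbe]
    simp only [map_sub, map_mul, map_pow, Bl_X1, Bl_X2, mul_pow]
    generalize (C η + X 2 : MvPowerSeries (Fin 3) L) = w
    ring
  have hβ₂ : Bl σ η (β₂ - C t * β₁) = X 1 ^ (k + 6) * om := by
    have e : β₂ - C t * β₁ = X 0 * X 1 ^ (k + 5) * h.G₁ - h.x * X 2 ^ (k + 5) * h.G₃ -
        C t * X 1 ^ (k + 4) * (h.F₁ - h.G₁) + C t * X 2 ^ (k + 4) * (h.F₃ - h.G₃) := by
      have e1 := h.eq₁
      have e2 := h.eq₂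
      rw [hp, hq] at e1
      rw [hs, hp, hq] at e2
      linear_combination e2 - C t * e1
    rw [e, hom, map_add, map_sub, map_sub]
    simp only [map_mul, map_pow, Bl_X0, Bl_X1, Bl_X2, Bl_C, hx', he₁, he₃, mul_pow]
    generalize (C η + X 2 : MvPowerSeries (Fin 3) L) = w
    ring
  -- the new coordinate system
  have hparam : IsParam ![om, X 1, be] := by
    constructor
    · intro i
      fin_cases i
      · simp only [hom]
        simp only [Fin.zero_eta, Matrix.cons_val_zero, map_sub, map_mul, map_add, map_pow,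
          constantCoeff_C, constantCoeff_X, constantCoeff_Bl, hG₁, hG₃, hx'0]
        rw [zero_pow (by omega), zero_mul, sub_zero, add_zero, add_zero, hσ]
        have : η ^ (k + 5) = η ^ (k + 4) * η := by ring
        rw [this]
        linear_combination (-η * (-(h.w0 * η) * 1 + -h.w0 + η * h.w0)) * hη
      · simp
      · simp only [hbe]
        simp only [Fin.reduceFinMk, Matrix.cons_val, map_sub, map_mul, map_add, map_pow,
          constantCoeff_C, constantCoeff_X, constantCoeff_Bl]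
        rw [add_zero, ← hN₁, ← hN₃, hη, sub_self]
    · have h00 : lin om 0 = N₁ * (1 - η) := by
        simp only [hom, lin_sub, lin_mul, lin_add, linpow, Pi.sub_apply, Pi.add_apply,
          Pi.smul_apply, smul_eq_mul, lin_X, lin_C, lin_Bl_zero, map_mul, map_add, map_pow,
          constantCoeff_C, constantCoeff_X, constantCoeff_Bl, hG₁, hG₃, hx'1, Pi.zero_apply,
          add_zero]
        simp
        have : η ^ (k + 5) = η ^ (k + 4) * η := by ring
        rw [this]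
        linear_combination (-η) * hη
      have h20 : lin be 0 = 0 := by
        simp only [hbe, lin_sub, lin_mul, lin_add, linpow, Pi.sub_apply, Pi.add_apply,
          Pi.smul_apply, smul_eq_mul, lin_X, lin_C, lin_Bl_zero]
        simp
      have h22 : lin be 2 = -(N₃ * ((k + 4 : ℕ) * η ^ (k + 3))) := by
        simp only [hbe, lin_sub, lin_mul, lin_add, linpow, Pi.sub_apply, Pi.add_apply,
          Pi.smul_apply, smul_eq_mul, lin_X, lin_C, lin_Bl_two, constantCoeff_Bl, map_add,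
          constantCoeff_C, constantCoeff_X]
        simp [hN₃]
      rw [Matrix.det_fin_three]
      simp only [Matrix.of_apply, Matrix.cons_val_zero, Matrix.cons_val_one, Matrix.cons_val,
        h00, h20, h22, lin_X]
      simp only [Pi.single_eq_same, Pi.single_apply]
      simp
      refine ⟨⟨hN₁0, sub_ne_zero.mpr (Ne.symm hη1)⟩, hN₃0, ?_, hη0⟩
      exact_mod_cast Nat.succ_ne_zero (k + 3)
  obtain ⟨b, hb, hb1, hb2⟩ := hparam.exists_inverse
  have hsub := hasSubst_of_constantCoeff_zero hparam.1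
  have hΦ : ∀ i, subHom b hb.1 ((![om, X 1, be] : Fin 3 → MvPowerSeries (Fin 3) L) i) = X i := by
    intro i
    have := hb2 (X i)
    rw [subst_X hsub] at this
    rw [subHom_apply]
    exact this
  have hΦ0 : subHom b hb.1 om = X 0 := hΦ 0
  have hΦ1 : subHom b hb.1 (X 1) = X 1 := hΦ 1
  have hΦ2 : subHom b hb.1 be = X 2 := hΦ 2
  have hκ : ∀ i, constantCoeff ((![0, X 1, 0] : Fin 3 → MvPowerSeries (Fin 3) L) i) = 0 := by
    intro i
    fin_cases i <;> simp
  have hκ0 : subHom _ hκ (X 0) = 0 := subHom_X _ _ _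
  have hκ1 : subHom _ hκ (X 1) = X 1 := subHom_X _ _ _
  have hκ2 : subHom _ hκ (X 2) = 0 := subHom_X _ _ _
  refine ⟨(subHom _ hκ).comp ((subHom b hb.1).comp (Bl σ η)), ?_, ?_, ?_⟩
  · simp only [RingHom.comp_apply]
    rw [hβ₁, map_mul, map_mul, hΦ2, hκ2, mul_zero]
  · have e : β₂ = (β₂ - C t * β₁) + C t * β₁ := by ring
    simp only [RingHom.comp_apply]
    rw [e, map_add (Bl σ η), map_mul (Bl σ η) (C t), hβ₁, hβ₂]
    simp only [map_add, map_mul, hΦ0, hΦ2, hκ0, hκ2, mul_zero, add_zero]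
  · intro δ hδ0 hδ
    obtain ⟨δ', hδ', hδ'0, -⟩ := exists_Bl σ η hδ0
    simp only [RingHom.comp_apply] at hδ
    rw [hδ', map_mul, map_mul, hΦ1, hκ1] at hδ
    have hX : (X 1 : MvPowerSeries (Fin 3) L) ≠ 0 := by
      intro h0
      have := congrArg (fun g => lin g 1) h0
      simp [lin_X, lin_zero] at this
    have h3 := (mul_eq_zero.mp hδ).resolve_left hX
    have h4 := congrArg constantCoeff h3
    rw [constantCoeff_subHom, constantCoeff_subHom, hδ'0, map_zero] at h4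
    exact h4

end arcs

section normal

variable {L : Type*} [Field L]

lemma li_X : LinearIndependent L
    ![lin (X 0 : MvPowerSeries (Fin 3) L), lin (X 1), lin (X 2)] := by
  rw [Fintype.linearIndependent_iff]
  intro g hg i
  have h := congrFun hg i
  fin_cases i <;> simpa [Fin.sum_univ_three, lin_X] using h

/-- We may assume that `s, p, q` are the variables. -/
lemma exists_normal {m : ℕ} {t : L} {β₁ β₂ : MvPowerSeries (Fin 3) L}
    (h : KeyData m t β₁ β₂) :
    ∃ (b : Fin 3 → MvPowerSeries (Fin 3) L) (hb : IsParam b)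
      (h' : KeyData m t (subHom b hb.1 β₁) (subHom b hb.1 β₂)),
      h'.s = X 0 ∧ h'.p = X 1 ∧ h'.q = X 2 := by
  have ha : IsParam ![h.s, h.p, h.q] := by
    rw [isParam_iff_linearIndependent]
    refine ⟨?_, ?_⟩
    · intro i
      fin_cases i
      exacts [h.s0, h.p0, h.q0]
    · have e : (fun i => lin ((![h.s, h.p, h.q] : Fin 3 → MvPowerSeries (Fin 3) L) i)) =
          ![lin h.s, lin h.p, lin h.q] := by
        funext i
        fin_cases i <;> rfl
      rw [e]
      exact h.li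
  obtain ⟨b, hb, hb1, hb2⟩ := ha.exists_inverse
  have hsub := hasSubst_of_constantCoeff_zero ha.1
  have hΦ : ∀ i, subHom b hb.1 ((![h.s, h.p, h.q] : Fin 3 → MvPowerSeries (Fin 3) L) i) =
      X i := by
    intro i
    have := hb2 (X i)
    rw [subst_X hsub] at this
    rw [subHom_apply]
    exact this
  have es : subHom b hb.1 h.s = X 0 := hΦ 0
  have ep : subHom b hb.1 h.p = X 1 := hΦ 1
  have eq : subHom b hb.1 h.q = X 2 := hΦ 2
  refine ⟨b, hb, ⟨X 0, X 1, X 2, subHom b hb.1 h.x, subHom b hb.1 h.F₁, subHom b hb.1 h.F₃,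
    subHom b hb.1 h.G₁, subHom b hb.1 h.G₃, by simp, by simp, by simp, ?_, li_X, h.w0, ?_, ?_, ?_,
    ?_, ?_, ?_, ?_, ?_⟩, rfl, rfl, rfl⟩
  · rw [constantCoeff_subHom, h.x0]
  · funext j
    rw [← es, ← ep, ← eq]
    simp only [Pi.add_apply, Pi.smul_apply, Pi.sub_apply, smul_eq_mul, lin_subHom]
    rw [h.lin_x]
    simp only [Pi.add_apply, Pi.smul_apply, Pi.sub_apply, smul_eq_mul, Fin.sum_univ_three]
    ring
  · rw [constantCoeff_subHom]
    exact h.F₁0
  · rw [constantCoeff_subHom]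
    exact h.F₃0
  · rw [constantCoeff_subHom, constantCoeff_subHom]
    exact h.F₁₃
  · rw [← map_sub, subHom_apply]
    exact h.FG₁.trans (order_le_order_subst b hb.1 _)
  · rw [← map_sub, subHom_apply]
    exact h.FG₃.trans (order_le_order_subst b hb.1 _)
  · have e := congrArg (subHom b hb.1) h.eq₁
    rw [e]
    simp only [map_sub, map_mul, map_pow, ep, eq]
  · have e := congrArg (subHom b hb.1) h.eq₂
    rw [e]
    simp only [map_sub, map_add, map_mul, map_pow, es, ep, eq, subHom_C]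

end normal

section leading

variable {L : Type*} [Field L]

/-- The homogeneous component of degree `d`, as a polynomial. -/
noncomputable def hc (d : ℕ) (f : MvPowerSeries (Fin 3) L) : MvPolynomial (Fin 3) L :=
  ∑ a ∈ Finset.finsuppAntidiag Finset.univ d, MvPolynomial.monomial a (coeff a f)

lemma mem_anti (a : Fin 3 →₀ ℕ) (d : ℕ) :
    a ∈ Finset.finsuppAntidiag Finset.univ d ↔ a.degree = d := by
  rw [Finset.mem_finsuppAntidiag, Finsupp.degree_eq_sum]
  simp

lemma coeff_hc (d : ℕ) (f : MvPowerSeries (Fin 3) L) (a : Fin 3 →₀ ℕ) :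
    MvPolynomial.coeff a (hc d f) = if a.degree = d then coeff a f else 0 := by
  unfold hc
  rw [MvPolynomial.coeff_sum]
  simp only [MvPolynomial.coeff_monomial]
  rw [Finset.sum_ite_eq']
  simp only [mem_anti]

lemma hc_sub (d : ℕ) (f g : MvPowerSeries (Fin 3) L) : hc d (f - g) = hc d f - hc d g := by
  ext a
  rw [MvPolynomial.coeff_sub, coeff_hc, coeff_hc, coeff_hc]
  split_ifs <;> simp

lemma hc_add (d : ℕ) (f g : MvPowerSeries (Fin 3) L) : hc d (f + g) = hc d f + hc d g := by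
  ext a
  rw [MvPolynomial.coeff_add, coeff_hc, coeff_hc, coeff_hc]
  split_ifs <;> simp

lemma hc_eq_zero {d : ℕ} {f : MvPowerSeries (Fin 3) L} (h : (d : ℕ∞) < f.order) :
    hc d f = 0 := by
  ext a
  rw [coeff_hc, MvPolynomial.coeff_zero]
  split_ifs with ha
  · apply coeff_of_lt_order
    rw [ha]
    exact h
  · rfl

lemma hc_mul {d e : ℕ} {f g : MvPowerSeries (Fin 3) L} (hf : (d : ℕ∞) ≤ f.order)
    (hg : (e : ℕ∞) ≤ g.order) : hc (d + e) (f * g) = hc d f * hc e g := by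
  classical
  ext a
  rw [coeff_hc, MvPolynomial.coeff_mul]
  simp only [coeff_hc]
  split_ifs with ha
  · rw [MvPowerSeries.coeff_mul]
    apply Finset.sum_congr rfl
    rintro ⟨b, c⟩ hbc
    have hbc' : b + c = a := Finset.HasAntidiagonal.mem_antidiagonal.mp hbc
    have hdeg : b.degree + c.degree = d + e := by rw [← map_add, hbc', ha]
    simp only
    rcases lt_trichotomy b.degree d with hb | hb | hb
    · have h0 : coeff b f = 0 := by
        apply coeff_of_lt_order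
        exact lt_of_lt_of_le (by exact_mod_cast hb) hf
      rw [h0, zero_mul, if_neg hb.ne, zero_mul]
    · have hc' : c.degree = e := by omega
      rw [if_pos hb, if_pos hc']
    · have h0 : coeff c g = 0 := by
        apply coeff_of_lt_order
        exact lt_of_lt_of_le (by exact_mod_cast (by omega : c.degree < e)) hg
      rw [h0, mul_zero, if_neg (by omega : ¬ c.degree = e), mul_zero]
  · symm
    apply Finset.sum_eq_zero
    rintro ⟨b, c⟩ hbc
    have hbc' : b + c = a := Finset.HasAntidiagonal.mem_antidiagonal.mp hbc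
    simp only
    by_cases hb : b.degree = d
    · have hc' : ¬ c.degree = e := by
        intro hc'
        apply ha
        rw [← hbc', map_add, hb, hc']
      rw [if_neg hc', mul_zero]
    · rw [if_neg hb, zero_mul]

/-- the value of the homogeneous component of degree `d` -/
noncomputable def ev (v : Fin 3 → L) (d : ℕ) (f : MvPowerSeries (Fin 3) L) : L :=
  MvPolynomial.aeval v (hc d f)

lemma ev_sub (v : Fin 3 → L) (d : ℕ) (f g : MvPowerSeries (Fin 3) L) :
    ev v d (f - g) = ev v d f - ev v d g := by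
  unfold ev
  rw [hc_sub, map_sub]

lemma ev_add (v : Fin 3 → L) (d : ℕ) (f g : MvPowerSeries (Fin 3) L) :
    ev v d (f + g) = ev v d f + ev v d g := by
  unfold ev
  rw [hc_add, map_add]

lemma ev_mul (v : Fin 3 → L) {d e : ℕ} {f g : MvPowerSeries (Fin 3) L}
    (hf : (d : ℕ∞) ≤ f.order) (hg : (e : ℕ∞) ≤ g.order) :
    ev v (d + e) (f * g) = ev v d f * ev v e g := by
  unfold ev
  rw [hc_mul hf hg, map_mul]

lemma ev_eq_zero (v : Fin 3 → L) {d : ℕ} {f : MvPowerSeries (Fin 3) L}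
    (h : (d : ℕ∞) < f.order) : ev v d f = 0 := by
  unfold ev
  rw [hc_eq_zero h, map_zero]

lemma ev_zero (v : Fin 3 → L) (f : MvPowerSeries (Fin 3) L) : ev v 0 f = constantCoeff f := by
  have h : hc 0 f = MvPolynomial.C (constantCoeff f) := by
    ext a
    rw [coeff_hc, MvPolynomial.coeff_C]
    by_cases ha : a = 0
    · subst ha
      simp
    · rw [if_neg (fun h => ha ((Finsupp.degree_eq_zero_iff a).mp h)), if_neg (Ne.symm ha)]
  unfold ev
  rw [h, MvPolynomial.aeval_C]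
  rfl

lemma ev_X (v : Fin 3 → L) (i : Fin 3) : ev v 1 (X i : MvPowerSeries (Fin 3) L) = v i := by
  have h : hc 1 (X i : MvPowerSeries (Fin 3) L) = MvPolynomial.X i := by
    classical
    ext a
    rw [coeff_hc, MvPolynomial.coeff_X, MvPowerSeries.coeff_X]
    by_cases ha : a = Finsupp.single i 1
    · subst ha
      simp
    · rw [if_neg ha, if_neg (Ne.symm ha), ite_self]
  unfold ev
  rw [h, MvPolynomial.aeval_X]

lemma one_le_order {g : MvPowerSeries (Fin 3) L} (hg : constantCoeff g = 0) :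
    ((1 : ℕ) : ℕ∞) ≤ g.order := by
  have := one_le_order_iff_constCoeff_eq_zero.mpr hg
  exact_mod_cast this

lemma le_order_X_pow (i : Fin 3) (n : ℕ) :
    (n : ℕ∞) ≤ (X i ^ n : MvPowerSeries (Fin 3) L).order :=
  le_order_pow_of_constantCoeff_eq_zero n (by simp)

lemma ev_X_pow (v : Fin 3 → L) (i : Fin 3) (n : ℕ) :
    ev v n (X i ^ n : MvPowerSeries (Fin 3) L) = v i ^ n := by
  induction n with
  | zero => rw [pow_zero, pow_zero, ev_zero, map_one]
  | succ n ih =>
    rw [pow_succ, ev_mul v (le_order_X_pow i n) (one_le_order (by simp)), ih, ev_X, pow_succ]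

lemma ev_one (v : Fin 3 → L) {g : MvPowerSeries (Fin 3) L} (hg : constantCoeff g = 0) :
    ev v 1 g = lin g 0 * v 0 + lin g 1 * v 1 + lin g 2 * v 2 := by
  have h1 := (mem_maximalIdeal_iff g).mpr hg
  rw [maximalIdeal_eq_span_X, Ideal.span, Submodule.mem_span_range_iff_exists_fun] at h1
  obtain ⟨h, rfl⟩ := h1
  have key : ∀ i, ev v 1 (h i * X i) = constantCoeff (h i) * v i := by
    intro i
    have := ev_mul v (d := 0) (e := 1) (f := h i) (g := X i) (by simp)
      (one_le_order (by simp))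
    rw [zero_add] at this
    rw [this, ev_zero, ev_X]
  simp only [smul_eq_mul, Fin.sum_univ_three, ev_add, key]
  simp [lin_add, lin_mul, lin_X]

lemma dvd_ev (v : Fin 3 → L) {π g : MvPowerSeries (Fin 3) L} {d k : ℕ} (hd : π.order = d)
    (hk : (k : ℕ∞) ≤ g.order) (hπ : π ∣ g) (hv : ev v d π = 0) : ev v k g = 0 := by
  obtain ⟨ρ, rfl⟩ := hπ
  rw [order_mul, hd] at hk
  by_cases hkd : k < d
  · apply ev_eq_zero
    rw [order_mul, hd]
    exact lt_of_lt_of_le (by exact_mod_cast hkd) le_self_add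
  · obtain ⟨e, rfl⟩ : ∃ e, k = d + e := ⟨k - d, by omega⟩
    have he : (e : ℕ∞) ≤ ρ.order := by
      push_cast at hk
      exact (ENat.add_le_add_iff_left (ENat.natCast_ne_top d)).mp hk
    rw [ev_mul v hd.ge he, hv, zero_mul]

end leading

section final

variable {L : Type*} [Field L]

/-- the value on the plane `X_0 = c X_1`, as a polynomial in `X_2` -/
noncomputable def pol (c : L) (d : ℕ) (f : MvPowerSeries (Fin 3) L) : Polynomial L :=
  MvPolynomial.aeval ![Polynomial.C c, 1, Polynomial.X] (hc d f)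

lemma eval_pol (c y : L) (d : ℕ) (f : MvPowerSeries (Fin 3) L) :
    (pol c d f).eval y = ev ![c, 1, y] d f := by
  unfold pol ev
  have h := MvPolynomial.comp_aeval_apply (R := L)
    (f := (![Polynomial.C c, 1, Polynomial.X] : Fin 3 → Polynomial L)) (Polynomial.aeval y)
    (hc d f)
  rw [Polynomial.coe_aeval_eq_eval] at h
  rw [h]
  congr 1
  congr 1
  funext i
  fin_cases i <;> simp

lemma coeff_pol (c : L) (d : ℕ) (f : MvPowerSeries (Fin 3) L) :
    (pol c d f).coeff d = ev ![0, 0, 1] d f := by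
  unfold pol ev hc
  rw [map_sum, map_sum, Polynomial.finsetSum_coeff]
  apply Finset.sum_congr rfl
  intro a ha
  have hdeg : a 0 + a 1 + a 2 = d := by
    have h := (mem_anti a d).mp ha
    rw [Finsupp.degree_eq_sum, Fin.sum_univ_three] at h
    exact h
  rw [MvPolynomial.aeval_monomial, MvPolynomial.aeval_monomial,
    Finsupp.prod_fintype _ _ (by intro i; simp), Finsupp.prod_fintype _ _ (by intro i; simp),
    Fin.prod_univ_three, Fin.prod_univ_three]
  simp only [Matrix.cons_val_zero, Matrix.cons_val_one, Matrix.cons_val, one_pow, mul_one,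
    Polynomial.algebraMap_eq, Algebra.algebraMap_self, RingHom.id_apply]
  rw [← mul_assoc, ← Polynomial.C_pow, ← Polynomial.C_mul, Polynomial.coeff_C_mul_X_pow]
  by_cases h : d = a 2
  · have h0 : a 0 = 0 := by omega
    have h1 : a 1 = 0 := by omega
    rw [if_pos h, h0, h1]
    simp
  · rw [if_neg h]
    have h2 : a 0 ≠ 0 ∨ a 1 ≠ 0 := by omega
    rcases h2 with h2 | h2
    · rw [zero_pow h2]
      ring
    · rw [zero_pow h2]
      ring

/-- the leading forms of `β₁` and `β₂ - t β₁` -/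
lemma leading {m : ℕ} (hm : 4 ≤ m) {t : L} {β₁ β₂ : MvPowerSeries (Fin 3) L}
    (h : KeyData m t β₁ β₂) (hs : h.s = X 0) (hp : h.p = X 1) (hq : h.q = X 2) :
    (m : ℕ∞) ≤ β₁.order ∧ ((m + 2 : ℕ) : ℕ∞) ≤ (β₂ - C t * β₁).order ∧
    ∀ v : Fin 3 → L, ev v m β₁ = v 1 ^ m * constantCoeff h.F₁ - v 2 ^ m * constantCoeff h.F₃ ∧
      ev v (m + 2) (β₂ - C t * β₁) = v 0 * v 1 ^ (m + 1) * constantCoeff h.F₁ -
        (v 0 + h.w0 * (v 2 - v 1)) * v 2 ^ (m + 1) * constantCoeff h.F₃ := by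
  have e1 := h.eq₁
  have e2 := h.eq₂
  rw [hp, hq] at e1
  rw [hs, hp, hq] at e2
  have e : β₂ - C t * β₁ = X 0 * X 1 ^ (m + 1) * h.G₁ - h.x * X 2 ^ (m + 1) * h.G₃ -
      C t * X 1 ^ m * (h.F₁ - h.G₁) + C t * X 2 ^ m * (h.F₃ - h.G₃) := by
    linear_combination e2 - C t * e1
  have hG₁ : constantCoeff h.G₁ = constantCoeff h.F₁ :=
    constantCoeff_eq_of_order (by omega) h.FG₁
  have hG₃ : constantCoeff h.G₃ = constantCoeff h.F₃ :=
    constantCoeff_eq_of_order (by omega) h.FG₃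
  have hlx0 : lin h.x 0 = 1 := by
    rw [h.lin_x, hs, hp, hq]
    simp [lin_X]
  have hlx1 : lin h.x 1 = -h.w0 := by
    rw [h.lin_x, hs, hp, hq]
    simp [lin_X]
  have hlx2 : lin h.x 2 = h.w0 := by
    rw [h.lin_x, hs, hp, hq]
    simp [lin_X]
  have oz : ∀ g : MvPowerSeries (Fin 3) L, ((0 : ℕ) : ℕ∞) ≤ g.order := fun g => by simp
  have oX : ∀ i : Fin 3, ((1 : ℕ) : ℕ∞) ≤ (X i : MvPowerSeries (Fin 3) L).order :=
    fun i => one_le_order (by simp)
  have ox : ((1 : ℕ) : ℕ∞) ≤ h.x.order := one_le_order h.x0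
  have om : ∀ {f g : MvPowerSeries (Fin 3) L} {a b : ℕ}, (a : ℕ∞) ≤ f.order →
      (b : ℕ∞) ≤ g.order → ((a + b : ℕ) : ℕ∞) ≤ (f * g).order := by
    intro f g a b hf hg
    rw [order_mul]
    push_cast
    exact add_le_add hf hg
  -- orders of the terms
  have t1 : ((m + 0 : ℕ) : ℕ∞) ≤ (X 1 ^ m * h.F₁ : MvPowerSeries (Fin 3) L).order :=
    om (le_order_X_pow 1 m) (oz _)
  have t2 : ((m + 0 : ℕ) : ℕ∞) ≤ (X 2 ^ m * h.F₃ : MvPowerSeries (Fin 3) L).order :=
    om (le_order_X_pow 2 m) (oz _)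
  have u1 : ((1 + (m + 1) + 0 : ℕ) : ℕ∞) ≤
      (X 0 * X 1 ^ (m + 1) * h.G₁ : MvPowerSeries (Fin 3) L).order :=
    om (om (oX 0) (le_order_X_pow 1 (m + 1))) (oz _)
  have u2 : ((1 + (m + 1) + 0 : ℕ) : ℕ∞) ≤
      (h.x * X 2 ^ (m + 1) * h.G₃ : MvPowerSeries (Fin 3) L).order :=
    om (om ox (le_order_X_pow 2 (m + 1))) (oz _)
  have u3 : ((0 + m + (m - 1) : ℕ) : ℕ∞) ≤
      (C t * X 1 ^ m * (h.F₁ - h.G₁) : MvPowerSeries (Fin 3) L).order :=
    om (om (oz _) (le_order_X_pow 1 m)) h.FG₁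
  have u4 : ((0 + m + (m - 1) : ℕ) : ℕ∞) ≤
      (C t * X 2 ^ m * (h.F₃ - h.G₃) : MvPowerSeries (Fin 3) L).order :=
    om (om (oz _) (le_order_X_pow 2 m)) h.FG₃
  have hw : ((m + 2 : ℕ) : ℕ∞) < ((0 + m + (m - 1) : ℕ) : ℕ∞) := by
    exact_mod_cast (by omega : m + 2 < 0 + m + (m - 1))
  have hu : (1 + (m + 1) + 0 : ℕ) = m + 2 := by omega
  rw [hu] at u1 u2
  rw [add_zero] at t1 t2
  have toI : ∀ (k : ℕ) (g : MvPowerSeries (Fin 3) L), (k : ℕ∞) ≤ g.order ↔
      g ∈ IsLocalRing.maximalIdeal (MvPowerSeries (Fin 3) L) ^ k :=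
    fun k g => (mem_maximalIdeal_pow_iff k g).symm
  refine ⟨?_, ?_, ?_⟩
  · rw [toI] at t1 t2 ⊢
    rw [e1]
    exact Ideal.sub_mem _ t1 t2
  · have u3' := hw.le.trans u3
    have u4' := hw.le.trans u4
    rw [toI] at u1 u2 u3' u4' ⊢
    rw [e]
    exact Ideal.add_mem _ (Ideal.sub_mem _ (Ideal.sub_mem _ u1 u2) u3') u4'
  · intro v
    constructor
    · refine (congrArg (ev v m) e1).trans ?_
      rw [ev_sub]
      have a1 := ev_mul v (le_order_X_pow 1 m) (oz h.F₁)
      have a2 := ev_mul v (le_order_X_pow 2 m) (oz h.F₃)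
      rw [add_zero, ev_X_pow, ev_zero] at a1 a2
      rw [a1, a2]
    · rw [e, ev_add, ev_sub, ev_sub, ev_eq_zero v (hw.trans_le u3), ev_eq_zero v (hw.trans_le u4)]
      have a1 := ev_mul v (om (oX 0) (le_order_X_pow 1 (m + 1))) (oz h.G₁)
      have a2 := ev_mul v (om ox (le_order_X_pow 2 (m + 1))) (oz h.G₃)
      rw [hu, ev_zero, hG₁, ev_mul v (oX 0) (le_order_X_pow 1 (m + 1)), ev_X, ev_X_pow] at a1
      rw [hu, ev_zero, hG₃, ev_mul v ox (le_order_X_pow 2 (m + 1)), ev_one v h.x0, ev_X_pow,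
        hlx0, hlx1, hlx2] at a2
      rw [a1, a2]
      ring

end final

end F3

variable {L : Type*} [Field L] [IsAlgClosed L] [CharZero L]

open F3 in
/-- `β₁` and `β₂` have no common factor. -/
theorem KeyData.isUnit_of_dvd {m : ℕ} (hm : 4 ≤ m) {t : L}
    {β₁ β₂ : MvPowerSeries (Fin 3) L} (h : KeyData m t β₁ β₂) {π : MvPowerSeries (Fin 3) L}
    (h₁ : π ∣ β₁) (h₂ : π ∣ β₂) : IsUnit π := by
  by_contra hu
  have hπ0 : constantCoeff π = 0 := by
    rw [← mem_maximalIdeal_iff]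
    exact hu
  obtain ⟨b, hb, h', hs, hp, hq⟩ := exists_normal h
  obtain ⟨o1, o2, hl⟩ := leading hm h' hs hp hq
  set N₁ : L := constantCoeff h'.F₁ with hN₁
  set N₃ : L := constantCoeff h'.F₃ with hN₃
  have hN₁0 : N₁ ≠ 0 := h'.F₁0
  have hN₃0 : N₃ ≠ 0 := h'.F₃0
  have hN : N₁ ≠ N₃ := h'.F₁₃
  set π' := subHom b hb.1 π with hπ'
  have hπ'0 : constantCoeff π' = 0 := by rw [hπ', constantCoeff_subHom, hπ0]
  have d1 : π' ∣ subHom b hb.1 β₁ := map_dvd _ h₁
  have d2 : π' ∣ subHom b hb.1 β₂ - C t * subHom b hb.1 β₁ :=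
    dvd_sub (map_dvd _ h₂) (Dvd.dvd.mul_left (map_dvd _ h₁) _)
  have hm0 : m ≠ 0 := by omega
  have hne : π' ≠ 0 := by
    intro h0
    rw [h0, zero_dvd_iff] at d1
    have h1 := (hl ![0, 0, 1]).1
    rw [d1] at h1
    have h2 : ev ![0, 0, 1] m (0 : MvPowerSeries (Fin 3) L) = 0 :=
      ev_eq_zero _ (by rw [order_zero]; exact ENat.natCast_lt_top m)
    rw [h2] at h1
    simp [hm0] at h1
    exact hN₃0 h1
  have hd := ne_zero_iff_order_finite.mp hne
  set d := π'.order.toNat with hddef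
  have hd1 : 1 ≤ d := by
    have h1 := one_le_order hπ'0
    rw [← hd] at h1
    exact_mod_cast h1
  have hA : ev ![0, 0, 1] d π' ≠ 0 := by
    intro h0
    have h1 := dvd_ev _ hd.symm o1 d1 h0
    rw [(hl _).1] at h1
    simp [hm0] at h1
    exact hN₃0 h1
  -- the plane `X_0 = c X_1`
  obtain ⟨c, hc⟩ : ∃ c : L, ∀ y : L, y ≠ 0 → c + h'.w0 * y ≠ 0 := by
    by_cases hw : h'.w0 = 0
    · exact ⟨1, fun y _ => by rw [hw]; simp⟩
    · exact ⟨0, fun y hy => by simp [hw, hy]⟩
  have hcoef : (pol c d π').coeff d ≠ 0 := by rwa [coeff_pol]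
  have hdeg : (pol c d π').degree ≠ 0 := by
    intro h0
    have h1 := Polynomial.coeff_eq_zero_of_degree_lt
      (show (pol c d π').degree < (d : WithBot ℕ) by
        rw [h0]
        exact_mod_cast hd1)
    exact hcoef h1
  obtain ⟨y, hy⟩ := IsAlgClosed.exists_root _ hdeg
  have hy' : ev ![c, 1, y] d π' = 0 := by
    rw [← eval_pol]
    exact hy
  have e1 := dvd_ev _ hd.symm o1 d1 hy'
  have e2 := dvd_ev _ hd.symm o2 d2 hy'
  rw [(hl _).1] at e1
  rw [(hl _).2] at e2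
  simp only [Matrix.cons_val_zero, Matrix.cons_val_one, Matrix.cons_val, one_pow, one_mul,
    mul_one] at e1 e2
  have hyy : y ≠ 0 := by
    intro h0
    rw [h0, zero_pow hm0, zero_mul, sub_zero] at e1
    exact hN₁0 e1
  have hy1 : y ≠ 1 := by
    intro h1
    rw [h1, one_pow, one_mul, sub_eq_zero] at e1
    exact hN e1
  have e3 : N₁ * ((1 - y) * (c + h'.w0 * y)) = 0 := by
    have : y ^ (m + 1) = y ^ m * y := by ring
    rw [this] at e2
    linear_combination e2 - (c + h'.w0 * (y - 1)) * y * e1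
  rcases mul_eq_zero.mp e3 with e4 | e4
  · exact hN₁0 e4
  · rcases mul_eq_zero.mp e4 with e5 | e5
    · exact hy1 (sub_eq_zero.mp e5).symm
    · exact hc y hyy e5

open F3 in
/-- No power of an element of order one lies in the ideal `(β₁, β₂)`. -/
theorem KeyData.pow_notMem {m : ℕ} (hm : 4 ≤ m) {t : L}
    {β₁ β₂ : MvPowerSeries (Fin 3) L} (h : KeyData m t β₁ β₂) {δ : MvPowerSeries (Fin 3) L}
    (h0 : constantCoeff δ = 0) (h1 : lin δ ≠ 0) (N : ℕ) :
    δ ^ N ∉ Ideal.span {β₁, β₂} := by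
  intro hmem
  obtain ⟨b, hb, h', hs, hp, hq⟩ := exists_normal h
  set δ' := subHom b hb.1 δ with hδ'
  have hδ'0 : constantCoeff δ' = 0 := by rw [hδ', constantCoeff_subHom, h0]
  have hδ'1 : lin δ' ≠ 0 := by
    have e1 := (order_eq_one_iff δ).mpr ⟨h0, h1⟩
    rw [← hb.order_subst δ] at e1
    have e2 := ((order_eq_one_iff _).mp e1).2
    rw [hδ', subHom_apply]
    exact e2
  have hkill : ∀ Ψ : MvPowerSeries (Fin 3) L →+* MvPowerSeries (Fin 3) L,
      Ψ (subHom b hb.1 β₁) = 0 → Ψ (subHom b hb.1 β₂) = 0 → Ψ δ' = 0 := by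
    intro Ψ e1 e2
    have hle : Ideal.span {β₁, β₂} ≤ RingHom.ker (Ψ.comp (subHom b hb.1)) := by
      rw [Ideal.span_le]
      rintro x (rfl | rfl)
      · exact e1
      · exact e2
    have h3 : Ψ (subHom b hb.1 (δ ^ N)) = 0 := hle hmem
    rw [map_pow, map_pow] at h3
    exact eq_zero_of_pow_eq_zero h3
  have hm0 : m ≠ 0 := by omega
  -- the first arc
  have hκ : ∀ i, constantCoeff ((![X 0, 0, 0] : Fin 3 → MvPowerSeries (Fin 3) L) i) = 0 := by
    intro i
    fin_cases i <;> simp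
  have hκ1 : subHom _ hκ (X 1) = 0 := subHom_X _ _ _
  have hκ2 : subHom _ hκ (X 2) = 0 := subHom_X _ _ _
  have l0 : lin δ' 0 = 0 := by
    have e := hkill (subHom _ hκ) (by
      rw [h'.eq₁, hp, hq]
      simp only [map_sub, map_mul, map_pow, hκ1, hκ2, zero_pow hm0, zero_mul, sub_zero]) (by
      rw [h'.eq₂, hp, hq]
      simp only [map_sub, map_mul, map_pow, hκ1, hκ2, zero_pow hm0, zero_mul, mul_zero, sub_zero])
    have e' := congrArg (fun g => lin g 0) e
    simp only [lin_subHom, Fin.sum_univ_three, lin_zero] at e'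
    simpa [lin_X, lin_zero] using e'
  -- two roots
  obtain ⟨η, hη⟩ := IsAlgClosed.exists_pow_nat_eq
    (constantCoeff h'.F₁ / constantCoeff h'.F₃) (show 0 < m by omega)
  have hη' : η ^ m * constantCoeff h'.F₃ = constantCoeff h'.F₁ := by
    rw [hη, div_mul_cancel₀ _ h'.F₃0]
  have hη0 : η ≠ 0 := by
    intro e
    rw [e, zero_pow hm0, zero_mul] at hη'
    exact h'.F₁0 hη'.symm
  have : NeZero m := ⟨hm0⟩
  obtain ⟨ζ, hζ⟩ := HasEnoughRootsOfUnity.exists_primitiveRoot L m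
  have hζ1 : ζ ≠ 1 := hζ.ne_one (by omega)
  have hη2 : (η * ζ) ^ m * constantCoeff h'.F₃ = constantCoeff h'.F₁ := by
    rw [mul_pow, hζ.pow_eq_one, mul_one, hη']
  obtain ⟨Ψ₁, a1, a2, a3⟩ := exists_arc hm h' hs hp hq η hη'
  obtain ⟨Ψ₂, b1, b2, b3⟩ := exists_arc hm h' hs hp hq (η * ζ) hη2
  have l1 := a3 δ' hδ'0 (hkill Ψ₁ a1 a2)
  have l2 := b3 δ' hδ'0 (hkill Ψ₂ b1 b2)
  rw [l0, mul_zero, zero_add] at l1 l2
  have l3 : η * (1 - ζ) * lin δ' 2 = 0 := by linear_combination l1 - l2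
  have l4 : lin δ' 2 = 0 := by
    rcases mul_eq_zero.mp l3 with e | e
    · rcases mul_eq_zero.mp e with e' | e'
      · exact absurd e' hη0
      · exact absurd (sub_eq_zero.mp e').symm hζ1
    · exact e
  have l5 : lin δ' 1 = 0 := by
    rw [l4, mul_zero, add_zero] at l1
    exact l1
  apply hδ'1
  funext i
  fin_cases i
  · exact l0
  · exact l5
  · exact l4

end Pool.Agent.Zariski
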