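import Pool.Agent.Zariski.Coord

/-!
# Genericity of the generic projection
-/

namespace Pool.Agent.Zariski

open MvPowerSeries

universe u

/-! ### The coefficients of the restriction to a line -/

section line

variable {n : ℕ} {K : Type*} [Field K]

lemma gen_coeff_prod (v : Fin n → K) (a : Fin n →₀ ℕ) (k : ℕ) :
    PowerSeries.coeff k (a.prod fun s e =>
      (PowerSeries.C (v s) * PowerSeries.X : PowerSeries K) ^ e) =
      if k = ∑ i, a i then ∏ i, v i ^ a i else 0 := by
  classical
  have h1 : (a.prod fun s e => (PowerSeries.C (v s) * PowerSeries.X : PowerSeries K) ^ e) =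
      PowerSeries.C (∏ i, v i ^ a i) * PowerSeries.X ^ (∑ i, a i) := by
    rw [Finsupp.prod_fintype _ _ (by simp)]
    simp_rw [mul_pow]
    rw [Finset.prod_mul_distrib, Finset.prod_pow_eq_pow_sum, map_prod]
    simp_rw [map_pow]
  rw [h1, PowerSeries.coeff_C_mul, PowerSeries.coeff_X_pow]
  split_ifs <;> simp

lemma gen_coeff_line (v : Fin n → K) (f : MvPowerSeries (Fin n) K) (k : ℕ) :
    PowerSeries.coeff k (line v f) =
      ∑ a ∈ Finset.finsuppAntidiag Finset.univ k, coeff a f * ∏ i, v i ^ a i := by
  classical
  have hs : HasSubst (fun i => PowerSeries.C (v i) * PowerSeries.X :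
      Fin n → MvPowerSeries Unit K) := by
    refine hasSubst_of_constantCoeff_zero fun i => ?_
    change PowerSeries.constantCoeff (PowerSeries.C (v i) * PowerSeries.X) = 0
    simp
  have h1 : PowerSeries.coeff k (line v f) =
      finsum fun d : Fin n →₀ ℕ => coeff d f • (coeff (Finsupp.single () k)
        (d.prod fun s e => ((PowerSeries.C (v s) * PowerSeries.X : PowerSeries K) :
          MvPowerSeries Unit K) ^ e)) := coeff_subst hs f _
  have h2 : ∀ d : Fin n →₀ ℕ, (coeff (Finsupp.single () k)
        (d.prod fun s e => ((PowerSeries.C (v s) * PowerSeries.X : PowerSeries K) :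
          MvPowerSeries Unit K) ^ e)) = if k = ∑ i, d i then ∏ i, v i ^ d i else 0 :=
    fun d => gen_coeff_prod v d k
  rw [h1]
  simp_rw [h2]
  rw [finsum_eq_sum_of_support_subset (s := Finset.finsuppAntidiag Finset.univ k)]
  · refine Finset.sum_congr rfl fun a ha => ?_
    rw [Finset.mem_finsuppAntidiag] at ha
    rw [if_pos ha.1.symm, smul_eq_mul]
  · intro a ha
    rw [Function.mem_support] at ha
    rw [Finset.mem_coe, Finset.mem_finsuppAntidiag]
    refine ⟨?_, Finset.subset_univ _⟩
    by_contra hne
    apply ha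
    rw [if_neg (fun h => hne h.symm), smul_zero]

end line

/-! ### Homogeneous polynomials -/

lemma gen_aeval_mul {n d : ℕ} {K B : Type*} [Field K] [CommRing B] [Algebra K B]
    {h : MvPolynomial (Fin n) K} (hh : h.IsHomogeneous d) (c : B) (v : Fin n → B) :
    MvPolynomial.aeval (fun i => c * v i) h = c ^ d * MvPolynomial.aeval v h := by
  rw [MvPolynomial.aeval_def, MvPolynomial.aeval_def, MvPolynomial.eval₂_eq',
    MvPolynomial.eval₂_eq', Finset.mul_sum]
  refine Finset.sum_congr rfl fun a ha => ?_
  have h1 : ∑ i, a i = d := by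
    rw [← Finsupp.degree_eq_sum]
    by_contra hne
    exact (MvPolynomial.mem_support_iff.mp ha) (hh.coeff_eq_zero hne)
  have h2 : ∏ i, (c * v i) ^ a i = c ^ d * ∏ i, v i ^ a i := by
    simp_rw [mul_pow]
    rw [Finset.prod_mul_distrib, Finset.prod_pow_eq_pow_sum, h1]
  rw [h2]
  ring

/-! ### The generic direction -/

section generic

variable (r : ℕ) (K : Type u) [Field K]

/-- the indeterminate of a linear coefficient -/
noncomputable def genVar (i : Fin r) (j : Fin (r + 1)) : MvPolynomial (UIdx r) K :=
  MvPolynomial.X (i, ⟨Finsupp.single j 1, by simp⟩)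

/-- the generic matrix -/
noncomputable def genMat : Matrix (Fin r) (Fin r) (MvPolynomial (UIdx r) K) :=
  Matrix.of fun i j => genVar r K i j.succ

lemma lin_xstar (i : Fin r) (j : Fin (r + 1)) :
    lin (xstar r K i) j = algebraMap (MvPolynomial (UIdx r) K) (Kstar r K) (genVar r K i j) := by
  change (xstar r K i) (Finsupp.single j 1) = _
  have h : Finsupp.single j 1 ≠ (0 : Fin (r + 1) →₀ ℕ) := by simp
  simp only [xstar]
  rw [dif_neg h]
  rfl

/-- the specialization `u_(i,j+1) ↦ δ_ij T_0`, `u_(i,0) ↦ -T_(i+1)` -/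
noncomputable def genSpec : MvPolynomial (UIdx r) K →ₐ[K] MvPolynomial (Fin (r + 1)) K :=
  MvPolynomial.aeval fun p =>
    if p.2.1 = Finsupp.single p.1.succ 1 then MvPolynomial.X 0
    else if p.2.1 = Finsupp.single 0 1 then - MvPolynomial.X p.1.succ else 0

lemma genSpec_succ (i j : Fin r) : genSpec r K (genVar r K i j.succ) =
    if i = j then MvPolynomial.X 0 else 0 := by
  unfold genSpec genVar
  rw [MvPolynomial.aeval_X]
  dsimp only
  have h2 : (Finsupp.single j.succ 1 : Fin (r + 1) →₀ ℕ) ≠ Finsupp.single 0 1 := by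
    intro h
    have := (Finsupp.single_left_inj (one_ne_zero)).mp h
    exact absurd this (Fin.succ_ne_zero j)
  by_cases hij : i = j
  · rw [if_pos (by rw [hij]), if_pos hij]
  · rw [if_neg, if_neg h2, if_neg hij]
    intro h
    have := (Finsupp.single_left_inj (one_ne_zero)).mp h
    exact hij (Fin.succ_injective _ this).symm

lemma genSpec_zero (i : Fin r) : genSpec r K (genVar r K i 0) = - MvPolynomial.X i.succ := by
  unfold genSpec genVar
  rw [MvPolynomial.aeval_X]
  dsimp only
  rw [if_neg, if_pos rfl]
  intro h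
  have := (Finsupp.single_left_inj (one_ne_zero)).mp h
  exact absurd this.symm (Fin.succ_ne_zero i)

lemma genSpec_mat : (genMat r K).map (genSpec r K) =
    (MvPolynomial.X 0 : MvPolynomial (Fin (r + 1)) K) • (1 : Matrix (Fin r) (Fin r) _) := by
  ext1 i j
  rw [Matrix.map_apply, Matrix.smul_apply, Matrix.one_apply]
  unfold genMat
  rw [Matrix.of_apply, genSpec_succ]
  split_ifs <;> simp

lemma genSpec_det : genSpec r K (genMat r K).det = MvPolynomial.X 0 ^ r := by
  have h : genSpec r K (genMat r K).det = ((genMat r K).map (genSpec r K)).det :=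
    (genSpec r K).map_det (genMat r K)
  rw [h, genSpec_mat, Matrix.det_smul, Matrix.det_one, mul_one, Fintype.card_fin]

lemma genMat_det_ne_zero : (genMat r K).det ≠ 0 := by
  intro h
  have h1 := genSpec_det r K
  rw [h, map_zero] at h1
  exact pow_ne_zero r (MvPolynomial.X_ne_zero 0) h1.symm

lemma gen_of_eq : (Matrix.of fun i j : Fin r => lin (xstar r K i) j.succ) =
    (genMat r K).map (algebraMap (MvPolynomial (UIdx r) K) (Kstar r K)) := by
  ext i j
  rw [Matrix.of_apply, lin_xstar]
  rfl

lemma gen_det : (Matrix.of fun i j : Fin r => lin (xstar r K i) j.succ).det =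
    algebraMap (MvPolynomial (UIdx r) K) (Kstar r K) (genMat r K).det := by
  rw [gen_of_eq]
  exact ((algebraMap (MvPolynomial (UIdx r) K) (Kstar r K)).map_det (genMat r K)).symm

lemma gen_inj : Function.Injective (algebraMap (MvPolynomial (UIdx r) K) (Kstar r K)) :=
  IsFractionRing.injective _ _

lemma gen_det_ne_zero : (Matrix.of fun i j : Fin r => lin (xstar r K i) j.succ).det ≠ 0 := by
  rw [gen_det]
  intro h
  exact genMat_det_ne_zero r K (gen_inj r K (by rw [h, map_zero]))

/-- the direction with cleared denominators -/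
noncomputable def genDir : Fin (r + 1) → MvPolynomial (UIdx r) K :=
  Fin.cons (genMat r K).det (fun j => - ((genMat r K).adjugate.mulVec
    (fun i => genVar r K i 0)) j)

lemma genDir_eq (j : Fin (r + 1)) :
    algebraMap (MvPolynomial (UIdx r) K) (Kstar r K) (genDir r K j) =
      algebraMap (MvPolynomial (UIdx r) K) (Kstar r K) (genMat r K).det *
        dir (xstar r K) j := by
  refine Fin.cases ?_ (fun j => ?_) j
  · unfold genDir dir
    rw [Fin.cons_zero, Fin.cons_zero, mul_one]
  · unfold genDir dir
    rw [Fin.cons_succ, Fin.cons_succ, map_neg, mul_neg]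
    congr 1
    rw [gen_of_eq, Matrix.inv_def]
    have hdet := gen_det_ne_zero r K
    rw [gen_of_eq] at hdet
    have h1 : ((genMat r K).map (algebraMap (MvPolynomial (UIdx r) K) (Kstar r K))).det =
        algebraMap (MvPolynomial (UIdx r) K) (Kstar r K) (genMat r K).det := by
      rw [← gen_of_eq, gen_det]
    rw [h1] at hdet ⊢
    rw [Ring.inverse_eq_inv', Matrix.smul_mulVec, Pi.smul_apply, smul_eq_mul, ← mul_assoc,
      mul_inv_cancel₀ hdet, one_mul]
    have h2 : ((genMat r K).map (algebraMap (MvPolynomial (UIdx r) K) (Kstar r K))).adjugate =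
        (genMat r K).adjugate.map (algebraMap (MvPolynomial (UIdx r) K) (Kstar r K)) :=
      ((algebraMap (MvPolynomial (UIdx r) K) (Kstar r K)).map_adjugate (genMat r K)).symm
    rw [h2]
    simp only [Matrix.mulVec, dotProduct, map_sum, map_mul, Matrix.map_apply, lin_xstar]

lemma genSpec_dir (j : Fin (r + 1)) :
    MvPolynomial.X 0 * genSpec r K (genDir r K j) = MvPolynomial.X 0 ^ r * MvPolynomial.X j := by
  refine Fin.cases ?_ (fun j => ?_) j
  · unfold genDir
    rw [Fin.cons_zero, genSpec_det]
    ring
  · unfold genDir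
    rw [Fin.cons_succ, map_neg]
    have h1 : genSpec r K ((genMat r K).adjugate.mulVec (fun i => genVar r K i 0) j) =
        (((genMat r K).map (genSpec r K)).adjugate.mulVec
          (fun i => genSpec r K (genVar r K i 0))) j := by
      have h2 : ((genMat r K).map (genSpec r K)).adjugate =
          (genMat r K).adjugate.map (genSpec r K) :=
        ((genSpec r K).map_adjugate (genMat r K)).symm
      rw [h2]
      simp only [Matrix.mulVec, dotProduct, map_sum, map_mul, Matrix.map_apply]
    rw [h1, genSpec_mat, Matrix.adjugate_smul, Matrix.adjugate_one, Matrix.smul_mulVec,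
      Matrix.one_mulVec, Pi.smul_apply, genSpec_zero, Fintype.card_fin, smul_eq_mul]
    have hr : r = (r - 1) + 1 := by
      have := j.pos
      omega
    rw [mul_neg, mul_neg, mul_neg, neg_neg, ← mul_assoc, ← pow_succ', ← hr]

/-- A nonzero form over `K` does not vanish on the generic direction. -/
theorem gen_poly {d : ℕ} {h : MvPolynomial (Fin (r + 1)) K} (hh : h.IsHomogeneous d)
    (h0 : h ≠ 0) : MvPolynomial.aeval (dir (xstar r K)) h ≠ 0 := by
  intro hz
  -- over the polynomial ring
  have h1 : MvPolynomial.aeval (genDir r K) h = 0 := by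
    apply gen_inj r K
    rw [map_zero, ← MvPolynomial.aeval_algebraMap_apply]
    have e : (fun j => algebraMap (MvPolynomial (UIdx r) K) (Kstar r K) (genDir r K j)) =
        fun j => algebraMap (MvPolynomial (UIdx r) K) (Kstar r K) (genMat r K).det *
          dir (xstar r K) j := funext (genDir_eq r K)
    have e2 : (MvPolynomial.aeval (algebraMap (MvPolynomial (UIdx r) K) (Kstar r K) ∘
        genDir r K)) h = (MvPolynomial.aeval (fun j =>
          algebraMap (MvPolynomial (UIdx r) K) (Kstar r K) (genMat r K).det *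
          dir (xstar r K) j)) h := by
      rw [← e]
      rfl
    rw [e2, gen_aeval_mul hh, hz, mul_zero]
  -- specialize
  have h2 : MvPolynomial.aeval (fun j => genSpec r K (genDir r K j)) h = 0 := by
    have e : MvPolynomial.aeval (fun j => genSpec r K (genDir r K j)) h =
        genSpec r K (MvPolynomial.aeval (genDir r K) h) := by
      have := MvPolynomial.comp_aeval (genDir r K) (genSpec r K)
      rw [← AlgHom.comp_apply, this]
    rw [e, h1, map_zero]
  have h3 : MvPolynomial.aeval (fun j => (MvPolynomial.X 0 : MvPolynomial (Fin (r + 1)) K) *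
      genSpec r K (genDir r K j)) h = 0 := by
    rw [gen_aeval_mul hh, h2, mul_zero]
  have e4 : (fun j => (MvPolynomial.X 0 : MvPolynomial (Fin (r + 1)) K) *
      genSpec r K (genDir r K j)) = fun j => MvPolynomial.X 0 ^ r * MvPolynomial.X j :=
    funext (genSpec_dir r K)
  rw [e4, gen_aeval_mul hh, MvPolynomial.aeval_X_left_apply] at h3
  rcases mul_eq_zero.mp h3 with h4 | h4
  · exact pow_ne_zero _ (pow_ne_zero _ (MvPolynomial.X_ne_zero 0)) h4
  · exact h0 h4

end generic

theorem adm_xstar (r : ℕ) (K : Type u) [Field K] : Adm (xstar r K) :=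
  ⟨constantCoeff_xstar r K, gen_det_ne_zero r K⟩

/-- A nonzero power series over `K` is regular of order equal to its order in the generic
direction. -/
theorem gen_line (r : ℕ) (K : Type u) [Field K] {f : MvPowerSeries (Fin (r + 1)) K} {d : ℕ}
    (hd : f.order = d) :
    PowerSeries.coeff d (line (dir (xstar r K)) (extCoeff r K f)) ≠ 0 := by
  classical
  set h : MvPolynomial (Fin (r + 1)) K :=
    ∑ a ∈ Finset.finsuppAntidiag Finset.univ d, MvPolynomial.monomial a (coeff a f) with hh
  have hhom : h.IsHomogeneous d := by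
    refine MvPolynomial.IsHomogeneous.sum _ _ _ fun a ha => ?_
    rw [Finset.mem_finsuppAntidiag] at ha
    refine MvPolynomial.isHomogeneous_monomial _ ?_
    rw [Finsupp.degree_eq_sum]
    exact ha.1
  have h0 : h ≠ 0 := by
    obtain ⟨⟨a, ha1, ha2⟩, _⟩ := order_eq_nat.mp hd
    intro hz
    apply ha1
    have h1 := congrArg (MvPolynomial.coeff a) hz
    rw [hh, MvPolynomial.coeff_sum, MvPolynomial.coeff_zero, Finset.sum_eq_single a] at h1
    · rw [MvPolynomial.coeff_monomial, if_pos rfl] at h1
      exact h1
    · intro b _ hb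
      rw [MvPolynomial.coeff_monomial, if_neg hb]
    · intro hna
      exfalso
      apply hna
      rw [Finset.mem_finsuppAntidiag]
      refine ⟨?_, Finset.subset_univ _⟩
      rw [← Finsupp.degree_eq_sum]
      exact ha2
  have h1 := gen_poly r K hhom h0
  rw [gen_coeff_line]
  have e : MvPolynomial.aeval (dir (xstar r K)) h =
      ∑ a ∈ Finset.finsuppAntidiag Finset.univ d,
        coeff a (extCoeff r K f) * ∏ i, dir (xstar r K) i ^ a i := by
    rw [hh, map_sum]
    refine Finset.sum_congr rfl fun a _ => ?_
    rw [MvPolynomial.aeval_monomial, Finsupp.prod_fintype _ _ (by simp)]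
    unfold extCoeff
    rw [coeff_map]
  rw [← e]
  exact h1

/-- A nonzero linear form over `K` does not vanish on the generic direction. -/
theorem gen_lin (r : ℕ) (K : Type u) [Field K] {l : Fin (r + 1) → K} (hl : l ≠ 0) :
    ∑ j, algebraMap K (Kstar r K) (l j) * dir (xstar r K) j ≠ 0 := by
  classical
  set h : MvPolynomial (Fin (r + 1)) K := ∑ j, MvPolynomial.C (l j) * MvPolynomial.X j with hh
  have hhom : h.IsHomogeneous 1 :=
    MvPolynomial.IsHomogeneous.sum _ _ _ fun j _ => MvPolynomial.isHomogeneous_C_mul_X _ _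
  have h0 : h ≠ 0 := by
    obtain ⟨i, hi⟩ := Function.ne_iff.mp hl
    intro hz
    apply hi
    have h1 := congrArg (MvPolynomial.coeff (Finsupp.single i 1)) hz
    rw [hh, MvPolynomial.coeff_sum, MvPolynomial.coeff_zero, Finset.sum_eq_single i] at h1
    · rw [MvPolynomial.coeff_C_mul, MvPolynomial.coeff_X, if_pos rfl, mul_one] at h1
      exact h1
    · intro b _ hb
      rw [MvPolynomial.coeff_C_mul, MvPolynomial.coeff_X, if_neg, mul_zero]
      intro h2
      exact hb ((Finsupp.single_left_inj one_ne_zero).mp h2)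
    · intro hna
      exact absurd (Finset.mem_univ _) hna
  have h1 := gen_poly r K hhom h0
  rw [hh, map_sum] at h1
  simp only [map_mul, MvPolynomial.aeval_C, MvPolynomial.aeval_X] at h1
  exact h1

/-- In particular the linear part of an element over `K` does not vanish on the generic
direction. -/
theorem gen_lin' (r : ℕ) (K : Type u) [Field K] {g : MvPowerSeries (Fin (r + 1)) K}
    (hl : lin g ≠ 0) :
    ∑ j, lin (extCoeff r K g) j * dir (xstar r K) j ≠ 0 := by
  have h1 := gen_lin r K hl
  have e : lin (extCoeff r K g) = fun j => algebraMap K (Kstar r K) (lin g j) :=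
    lin_map (algebraMap K (Kstar r K)) g
  rw [e]
  exact h1

end Pool.Agent.Zariski
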