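import Pool.Agent.Zariski.InvFun

/-!
# The hypersurface
-/

namespace Pool.Agent.Zariski

open MvPowerSeries

/-- `y₂ y₄ ∏_i (y₁ + a_i y₅^m) (y₃ + a_i y₅^m)`. -/
def Vf {R : Type*} [CommRing R] (m : ℕ) (a : Fin 3 → R) (y : Fin 6 → R) : R :=
  y 2 * y 4 * ∏ i, ((y 1 + a i * y 5 ^ m) * (y 3 + a i * y 5 ^ m))

theorem map_Vf {R S : Type*} [CommRing R] [CommRing S] (h : R →+* S) (m : ℕ) (a : Fin 3 → R)
    (y : Fin 6 → R) : h (Vf m a y) = Vf m (fun i => h (a i)) (fun i => h (y i)) := by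
  simp [Vf, map_prod]

theorem constantCoeff_Vf {K : Type*} [Field K] {φ : Fin 6 → MvPowerSeries (Fin 6) K}
    (hφ : ∀ i, constantCoeff (φ i) = 0) {m : ℕ} (_hm : 1 ≤ m) (a : Fin 3 → MvPowerSeries (Fin 6) K) :
    constantCoeff (Vf m a φ) = 0 := by
  rw [map_Vf]
  simp [Vf, hφ]

theorem lin_Vf {K : Type*} [Field K] {φ : Fin 6 → MvPowerSeries (Fin 6) K}
    (hφ : ∀ i, constantCoeff (φ i) = 0) {m : ℕ} (_hm : 1 ≤ m) (a : Fin 3 → MvPowerSeries (Fin 6) K) :
    lin (Vf m a φ) = 0 := by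
  unfold Vf
  rw [lin_mul, lin_mul]
  simp [hφ]

/-- The eight factors of `Vf`. -/
def vfFac {R : Type*} [CommRing R] (m : ℕ) (a : Fin 3 → R) (y : Fin 6 → R) :
    Fin 2 × Option (Fin 3) → R
  | (0, none) => y 2
  | (1, none) => y 4
  | (0, some i) => y 1 + a i * y 5 ^ m
  | (1, some i) => y 3 + a i * y 5 ^ m

/-- The index of the linear part of the factors of `Vf`. -/
def vfIdx : Fin 2 × Option (Fin 3) → Fin 6
  | (0, none) => 2
  | (1, none) => 4
  | (0, some _) => 1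
  | (1, some _) => 3

theorem Vf_eq_prod_vfFac {R : Type*} [CommRing R] (m : ℕ) (a : Fin 3 → R) (y : Fin 6 → R) :
    Vf m a y = ∏ k, vfFac m a y k := by
  rw [Fintype.prod_prod_type, Fin.prod_univ_two, Fintype.prod_option, Fintype.prod_option]
  simp only [vfFac, Vf, Finset.prod_mul_distrib]
  ring

theorem vfIdx_ne_five (k : Fin 2 × Option (Fin 3)) : vfIdx k ≠ 5 := by
  rcases k with ⟨i, o⟩
  fin_cases i <;> rcases o with _ | o <;> simp [vfIdx]

theorem vfIdx_eq {k l : Fin 2 × Option (Fin 3)} (hkl : k ≠ l) (h : vfIdx k = vfIdx l) :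
    ∃ (e : Fin 2) (i j : Fin 3), i ≠ j ∧ k = (e, some i) ∧ l = (e, some j) := by
  revert hkl h
  revert k l
  decide

theorem squarefree_prod_of_prime_of_not_dvd {R ι : Type*} [CommRing R] [IsDomain R]
    [Fintype ι] [DecidableEq ι]
    {p : ι → R} (hp : ∀ i, Prime (p i)) (hnd : ∀ i j, i ≠ j → ¬ p i ∣ p j) :
    Squarefree (∏ i, p i) := by
  rintro x ⟨z, hz⟩
  have h1 : x * (x * z) = 1 * ∏ i ∈ (Finset.univ : Finset ι), p i := by
    rw [one_mul, hz, mul_assoc]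
  obtain ⟨t, u, b, c, _, htu, hbc, hx, hxz⟩ :=
    mul_eq_mul_prime_prod (fun i _ => hp i) h1
  have hb : IsUnit b := IsUnit.of_mul_eq_one c hbc.symm
  have hc : IsUnit c := IsUnit.of_mul_eq_one b (by rw [mul_comm]; exact hbc.symm)
  rcases t.eq_empty_or_nonempty with ht | ⟨i, hi⟩
  · rw [hx, ht]
    simpa using hb
  · exfalso
    have h2 : p i ∣ x := by
      rw [hx]
      exact Dvd.dvd.mul_left (Finset.dvd_prod_of_mem _ hi) _
    have h3 : p i ∣ c * ∏ j ∈ u, p j := by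
      rw [← hxz]
      exact Dvd.dvd.mul_right h2 _
    rcases (hp i).dvd_or_dvd h3 with h4 | h4
    · exact (hp i).not_isUnit (isUnit_of_dvd_unit h4 hc)
    · obtain ⟨j, hj, h5⟩ := ((hp i).dvd_finsetProd_iff _).1 h4
      have hij : i ≠ j := by
        rintro rfl
        exact (Finset.disjoint_left.1 htu hi) hj
      exact hnd i j hij h5

section

variable {K : Type*} [Field K] {φ : Fin 6 → MvPowerSeries (Fin 6) K}

theorem constantCoeff_vfFac (hφ : ∀ i, constantCoeff (φ i) = 0) {m : ℕ} (hm : 2 ≤ m)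
    (a : Fin 3 → MvPowerSeries (Fin 6) K) (k : Fin 2 × Option (Fin 3)) :
    constantCoeff (vfFac m a φ k) = 0 := by
  have hm0 : m ≠ 0 := by omega
  rcases k with ⟨i, o⟩
  fin_cases i <;> rcases o with _ | o <;> simp [vfFac, hφ, hm0]

theorem lin_vfFac (hφ : ∀ i, constantCoeff (φ i) = 0) {m : ℕ} (hm : 2 ≤ m)
    (a : Fin 3 → MvPowerSeries (Fin 6) K) (k : Fin 2 × Option (Fin 3)) :
    lin (vfFac m a φ k) = lin (φ (vfIdx k)) := by
  have hm0 : m ≠ 0 := by omega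
  have h5 : lin (φ 5 ^ m) = 0 := lin_pow_of_two_le (hφ 5) hm
  rcases k with ⟨i, o⟩
  fin_cases i <;> rcases o with _ | o <;>
    simp [vfFac, vfIdx, lin_add, lin_mul, h5, hφ, hm0]

theorem lin_smul_of_dvd {f g : MvPowerSeries (Fin 6) K} (hf : constantCoeff f = 0)
    (h : f ∣ g) : ∃ c : K, lin g = c • lin f := by
  obtain ⟨c, rfl⟩ := h
  refine ⟨constantCoeff c, ?_⟩
  rw [lin_mul, hf, zero_smul, zero_add]

theorem eq_of_lin_eq_smul (hli : LinearIndependent K (fun i => lin (φ i))) {i j : Fin 6} {c : K}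
    (h : lin (φ j) = c • lin (φ i)) : i = j := by
  by_contra hij
  have h1 := Fintype.linearIndependent_iff.1 hli (Pi.single j 1 - Pi.single i c) (by
    simp [sub_smul, Finset.sum_sub_distrib, Pi.single_apply, ite_smul, h]) j
  simp [Ne.symm hij] at h1

end

theorem squarefree_Vf {K : Type*} [Field K] {φ : Fin 6 → MvPowerSeries (Fin 6) K}
    (hφ : IsParam φ) {m : ℕ} (hm : 2 ≤ m) {a : Fin 3 → MvPowerSeries (Fin 6) K}
    (ha : ∀ i j, i ≠ j → constantCoeff (a i) ≠ constantCoeff (a j)) :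
    Squarefree (Vf m a φ) := by
  obtain ⟨h0, hli⟩ := (isParam_iff_linearIndependent φ).1 hφ
  have hne : ∀ i, lin (φ i) ≠ 0 := fun i => hli.ne_zero i
  have hprime : ∀ k, Prime (vfFac m a φ k) := fun k =>
    prime_of_lin_ne_zero (constantCoeff_vfFac h0 hm a k)
      (by rw [lin_vfFac h0 hm]; exact hne _)
  haveI : IsDomain (MvPowerSeries (Fin 6) K) := NoZeroDivisors.to_isDomain _
  rw [Vf_eq_prod_vfFac]
  refine squarefree_prod_of_prime_of_not_dvd hprime ?_
  intro k l hkl hdvd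
  obtain ⟨c, hc⟩ := lin_smul_of_dvd (constantCoeff_vfFac h0 hm a k) hdvd
  rw [lin_vfFac h0 hm, lin_vfFac h0 hm] at hc
  have hidx := eq_of_lin_eq_smul hli hc
  obtain ⟨e, i, j, hij, rfl, rfl⟩ := vfIdx_eq hkl hidx
  have hkey : vfFac m a φ (e, some i) ∣ (a j - a i) * φ 5 ^ m := by
    have h1 : (a j - a i) * φ 5 ^ m = vfFac m a φ (e, some j) - vfFac m a φ (e, some i) := by
      fin_cases e <;> simp only [vfFac] <;> ring
    rw [h1]
    exact dvd_sub hdvd dvd_rfl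
  rcases (hprime (e, some i)).dvd_or_dvd hkey with h2 | h2
  · have hu : IsUnit (a j - a i) := by
      rw [MvPowerSeries.isUnit_iff_constantCoeff, map_sub]
      exact IsUnit.mk0 _ (sub_ne_zero.2 (ha j i (Ne.symm hij)))
    exact (hprime (e, some i)).not_isUnit (isUnit_of_dvd_unit h2 hu)
  · obtain ⟨c', hc'⟩ := lin_smul_of_dvd (constantCoeff_vfFac h0 hm a (e, some i))
      ((hprime (e, some i)).dvd_of_dvd_pow h2)
    rw [lin_vfFac h0 hm] at hc'
    exact vfIdx_ne_five _ (eq_of_lin_eq_smul hli hc')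

end Pool.Agent.Zariski
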