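import Pool.Agent.Zariski.Lin

/-!
# The formal inverse function theorem
-/

namespace Pool.Agent.Zariski

open MvPowerSeries

variable {n : ℕ} {K : Type*} [Field K]

/-- `a` is a system of parameters (a formal coordinate change): no constant terms, invertible
Jacobian matrix at the origin. -/
def IsParam (a : Fin n → MvPowerSeries (Fin n) K) : Prop :=
  (∀ i, constantCoeff (a i) = 0) ∧ (Matrix.of fun i j => lin (a i) j).det ≠ 0

/-! ### auxiliary lemmas -/

lemma invfun_subst_comp {a b : Fin n → MvPowerSeries (Fin n) K}
    (ha : ∀ i, constantCoeff (a i) = 0) (hb : ∀ i, constantCoeff (b i) = 0)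
    (g : MvPowerSeries (Fin n) K) :
    subst b (subst a g) = subst (fun i => subst b (a i)) g :=
  subst_comp_subst_apply (hasSubst_of_constantCoeff_zero ha) (hasSubst_of_constantCoeff_zero hb) g

lemma invfun_subst_X (g : MvPowerSeries (Fin n) K) :
    subst (X : Fin n → MvPowerSeries (Fin n) K) g = g := by
  rw [subst_self]; rfl

/-- substitution as a linear endomorphism -/
noncomputable def invfunS {a : Fin n → MvPowerSeries (Fin n) K}
    (ha : ∀ i, constantCoeff (a i) = 0) : Module.End K (MvPowerSeries (Fin n) K) :=
  (substAlgHom (R := K) (hasSubst_of_constantCoeff_zero ha)).toLinearMap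

lemma invfunS_apply {a : Fin n → MvPowerSeries (Fin n) K}
    (ha : ∀ i, constantCoeff (a i) = 0) (g : MvPowerSeries (Fin n) K) :
    invfunS ha g = subst a g := by
  unfold invfunS
  rw [AlgHom.toLinearMap_apply, substAlgHom_apply]

/-- a coordinate change tangent to the identity raises the order of `g - g ∘ c` -/
lemma invfun_sub_mem {c : Fin n → MvPowerSeries (Fin n) K}
    (hc : ∀ i, constantCoeff (c i) = 0) (hl : ∀ i, lin (c i) = Pi.single i 1) (k : ℕ) :
    ∀ g ∈ IsLocalRing.maximalIdeal (MvPowerSeries (Fin n) K) ^ k,
      g - subst c g ∈ IsLocalRing.maximalIdeal (MvPowerSeries (Fin n) K) ^ (k + 1) := by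
  have hs := hasSubst_of_constantCoeff_zero hc
  set M := IsLocalRing.maximalIdeal (MvPowerSeries (Fin n) K) with hM
  have h1 : ∀ f ∈ M, f - subst c f ∈ M ^ 2 := by
    intro f hf
    rw [mem_maximalIdeal_pow_iff]
    refine (two_le_order_iff _).2 ⟨?_, ?_⟩
    · rw [map_sub, constantCoeff_subst0 c hc, sub_self]
    · rw [lin_sub]
      ext j
      rw [Pi.sub_apply, lin_subst c hc]
      simp only [hl, Pi.single_apply, mul_ite, mul_one, mul_zero, Finset.sum_ite_eq,
        Finset.mem_univ, if_true, Pi.zero_apply, sub_self]
  have hphi : ∀ f ∈ M, subst c f ∈ M := by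
    intro f hf
    rw [mem_maximalIdeal_iff] at hf ⊢
    rw [constantCoeff_subst0 c hc, hf]
  induction k with
  | zero =>
    intro g _
    rw [zero_add, pow_one, mem_maximalIdeal_iff, map_sub, constantCoeff_subst0 c hc, sub_self]
  | succ k ih =>
    intro g hg
    rw [pow_succ'] at hg
    induction hg using Submodule.mul_induction_on' with
    | mem_mul_mem f hf h hh =>
      have e : f * h - subst c (f * h) = (f - subst c f) * h + subst c f * (h - subst c h) := by
        rw [subst_mul hs]; ring
      rw [e]
      refine Ideal.add_mem _ ?_ ?_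
      · have := Ideal.mul_mem_mul (h1 f hf) hh
        rw [← pow_add] at this
        rwa [show k + 1 + 1 = 2 + k by ring]
      · have := Ideal.mul_mem_mul (hphi f hf) (ih h hh)
        rw [← pow_succ'] at this
        exact this
    | add x _ y _ hx hy =>
      have e : x + y - subst c (x + y) = (x - subst c x) + (y - subst c y) := by
        rw [subst_add hs]; ring
      rw [e]
      exact Ideal.add_mem _ hx hy

lemma invfun_coeff_eq_zero {g : MvPowerSeries (Fin n) K} {k : ℕ}
    (hg : g ∈ IsLocalRing.maximalIdeal (MvPowerSeries (Fin n) K) ^ k) {e : Fin n →₀ ℕ}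
    (he : e.degree < k) : coeff e g = 0 := by
  rw [mem_maximalIdeal_pow_iff] at hg
  exact coeff_of_lt_order (lt_of_lt_of_le (by exact_mod_cast he) hg)

lemma invfun_mem_of_coeff {g : MvPowerSeries (Fin n) K} {k : ℕ}
    (h : ∀ e : Fin n →₀ ℕ, e.degree < k → coeff e g = 0) :
    g ∈ IsLocalRing.maximalIdeal (MvPowerSeries (Fin n) K) ^ k := by
  rw [mem_maximalIdeal_pow_iff]
  exact nat_le_order h

lemma invfun_eq_zero {g : MvPowerSeries (Fin n) K}
    (h : ∀ k : ℕ, g ∈ IsLocalRing.maximalIdeal (MvPowerSeries (Fin n) K) ^ k) : g = 0 := by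
  ext e
  rw [invfun_coeff_eq_zero (h (e.degree + 1)) (Nat.lt_succ_self _), map_zero]

/-- a coordinate change tangent to the identity is bijective -/
lemma invfun_bijective_of_lin {c : Fin n → MvPowerSeries (Fin n) K}
    (hc : ∀ i, constantCoeff (c i) = 0) (hl : ∀ i, lin (c i) = Pi.single i 1) :
    Function.Bijective (subst c : MvPowerSeries (Fin n) K → MvPowerSeries (Fin n) K) := by
  have hs := hasSubst_of_constantCoeff_zero hc
  set M := IsLocalRing.maximalIdeal (MvPowerSeries (Fin n) K) with hM
  have hraise := invfun_sub_mem hc hl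
  have hpres : ∀ k : ℕ, ∀ g ∈ M ^ k, subst c g ∈ M ^ k := by
    intro k g hg
    have h1 := Ideal.pow_le_pow_right (Nat.le_succ k) (hraise k g hg)
    have := Ideal.sub_mem _ hg h1
    rwa [sub_sub_cancel] at this
  constructor
  · intro f g hfg
    have h0 : subst c (f - g) = 0 := by rw [subst_sub hs]; exact sub_eq_zero.2 hfg
    have : f - g = 0 := by
      refine invfun_eq_zero fun k => ?_
      induction k with
      | zero => rw [pow_zero, Ideal.one_eq_top]; exact Submodule.mem_top
      | succ k ih =>
        have := hraise k _ ih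
        rwa [h0, sub_zero] at this
    exact sub_eq_zero.1 this
  · intro g
    -- `x = 1 - φ`
    set x : Module.End K (MvPowerSeries (Fin n) K) := 1 - invfunS hc with hx
    have hxa : ∀ g, x g = g - subst c g := fun g => by
      rw [hx, LinearMap.sub_apply, Module.End.one_apply, invfunS_apply]
    have hpow : ∀ (j : ℕ) (g : MvPowerSeries (Fin n) K), (x ^ j) g ∈ M ^ j := by
      intro j
      induction j with
      | zero => intro g; rw [pow_zero, Ideal.one_eq_top]; exact Submodule.mem_top
      | succ j ih =>
        intro g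
        rw [pow_succ' x j, Module.End.mul_apply, hxa]
        exact hraise j _ (ih g)
    have hgeom : ∀ J : ℕ, subst c ((∑ j ∈ Finset.range J, x ^ j) g) = g - (x ^ J) g := by
      intro J
      have h1 : (1 - x) * ∑ j ∈ Finset.range J, x ^ j = 1 - x ^ J := mul_neg_geom_sum x J
      have h2 : (1 : Module.End K (MvPowerSeries (Fin n) K)) - x = invfunS hc := by
        rw [hx, sub_sub_cancel]
      rw [h2] at h1
      have h3 := congrArg (fun L : Module.End K (MvPowerSeries (Fin n) K) => L g) h1
      simp only [Module.End.mul_apply, LinearMap.sub_apply, Module.End.one_apply] at h3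
      rw [invfunS_apply] at h3
      exact h3
    let y : MvPowerSeries (Fin n) K := fun e =>
      coeff e ((∑ j ∈ Finset.range (e.degree + 1), x ^ j) g)
    have hy : ∀ e, coeff e y = coeff e ((∑ j ∈ Finset.range (e.degree + 1), x ^ j) g) :=
      fun e => rfl
    have hclose : ∀ J : ℕ, y - (∑ j ∈ Finset.range J, x ^ j) g ∈ M ^ J := by
      intro J
      refine invfun_mem_of_coeff fun e he => ?_
      rw [map_sub, hy, sub_eq_zero, LinearMap.sum_apply, LinearMap.sum_apply, map_sum, map_sum]
      have hsub : Finset.range (e.degree + 1) ⊆ Finset.range J :=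
        Finset.range_subset_range.2 he
      refine Finset.sum_subset hsub fun j _ hj => ?_
      refine invfun_coeff_eq_zero (hpow j g) ?_
      have : ¬ j < e.degree + 1 := by simpa using hj
      omega
    refine ⟨y, ?_⟩
    rw [← sub_eq_zero]
    refine invfun_eq_zero fun J => ?_
    have e1 : subst c y - g =
        subst c (y - (∑ j ∈ Finset.range J, x ^ j) g) - (x ^ J) g := by
      rw [subst_sub hs, hgeom J]; ring
    rw [e1]
    exact Ideal.sub_mem _ (hpres J _ (hclose J)) (hpow J g)

/-- linear families -/
noncomputable def invfunLin (A : Matrix (Fin n) (Fin n) K) (i : Fin n) :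
    MvPowerSeries (Fin n) K := ∑ j, C (A i j) * X j

lemma invfunLin_const (A : Matrix (Fin n) (Fin n) K) (i : Fin n) :
    constantCoeff (invfunLin A i) = 0 := by
  unfold invfunLin
  rw [map_sum]
  exact Finset.sum_eq_zero fun j _ => by rw [map_mul, constantCoeff_X, mul_zero]

lemma invfunLin_lin (A : Matrix (Fin n) (Fin n) K) (i j : Fin n) :
    lin (invfunLin A i) j = A i j := by
  unfold invfunLin lin
  rw [map_sum, Finset.sum_eq_single j]
  · rw [coeff_C_mul, coeff_X, if_pos rfl, mul_one]
  · intro k _ hk
    rw [coeff_C_mul, coeff_X, if_neg, mul_zero]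
    intro h
    exact hk ((Finsupp.single_left_injective one_ne_zero h).symm)
  · intro h; exact absurd (Finset.mem_univ _) h

lemma invfunLin_comp (A B : Matrix (Fin n) (Fin n) K) (h : A * B = 1) (i : Fin n) :
    subst (invfunLin B) (invfunLin A i) = X i := by
  have hs := hasSubst_of_constantCoeff_zero (invfunLin_const B)
  have e0 : invfunLin A i = ∑ j, C (A i j) * X j := rfl
  rw [← substAlgHom_apply (R := K) hs, e0, map_sum]
  have h1 : ∀ j, substAlgHom (R := K) hs (C (A i j) * X j) =
      ∑ k, C (A i j * B j k) * X k := by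
    intro j
    have h0 : (C (A i j) : MvPowerSeries (Fin n) K) = algebraMap K _ (A i j) := rfl
    rw [map_mul, substAlgHom_X, h0, AlgHom.commutes, ← h0]
    show C (A i j) * (∑ k, C (B j k) * X k) = _
    rw [Finset.mul_sum]
    refine Finset.sum_congr rfl fun k _ => ?_
    rw [map_mul, mul_assoc]
  rw [Finset.sum_congr rfl fun j _ => h1 j, Finset.sum_comm]
  have h2 : ∀ k, ∑ j, (C (A i j * B j k) * X k : MvPowerSeries (Fin n) K) =
      C ((1 : Matrix (Fin n) (Fin n) K) i k) * X k := by
    intro k
    rw [← Finset.sum_mul, ← map_sum, ← h, Matrix.mul_apply]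
  rw [Finset.sum_congr rfl fun k _ => h2 k, Finset.sum_eq_single i]
  · rw [Matrix.one_apply_eq, map_one, one_mul]
  · intro k _ hk
    rw [Matrix.one_apply_ne hk.symm, map_zero, zero_mul]
  · intro h; exact absurd (Finset.mem_univ _) h

theorem IsParam.subst_bijective {a : Fin n → MvPowerSeries (Fin n) K} (ha : IsParam a) :
    Function.Bijective (subst a : MvPowerSeries (Fin n) K → MvPowerSeries (Fin n) K) := by
  obtain ⟨ha0, hdet⟩ := ha
  set A : Matrix (Fin n) (Fin n) K := Matrix.of fun i j => lin (a i) j with hA
  have hu : IsUnit A.det := isUnit_iff_ne_zero.2 hdet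
  have hAB : A * A⁻¹ = 1 := Matrix.mul_nonsing_inv A hu
  have hBA : A⁻¹ * A = 1 := Matrix.nonsing_inv_mul A hu
  -- `c = a ∘ (linear inverse)`
  let c : Fin n → MvPowerSeries (Fin n) K := fun i => subst (invfunLin A⁻¹) (a i)
  have hc0 : ∀ i, constantCoeff (c i) = 0 := fun i => by
    show constantCoeff (subst (invfunLin A⁻¹) (a i)) = 0
    rw [constantCoeff_subst0 _ (invfunLin_const _), ha0]
  have hcl : ∀ i, lin (c i) = Pi.single i 1 := by
    intro i
    ext j
    show lin (subst (invfunLin A⁻¹) (a i)) j = _
    rw [lin_subst _ (invfunLin_const _)]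
    simp only [invfunLin_lin]
    have : ∑ k, lin (a i) k * A⁻¹ k j = (A * A⁻¹) i j := by
      rw [Matrix.mul_apply]; rfl
    rw [this, hAB, Matrix.one_apply, Pi.single_apply]
    simp only [eq_comm]
  have hcb := invfun_bijective_of_lin hc0 hcl
  -- `S_c = S_β ∘ S_a`
  have h1 : ∀ g, subst (invfunLin A⁻¹) (subst a g) = subst c g := fun g =>
    invfun_subst_comp ha0 (invfunLin_const _) g
  have h2 : ∀ g : MvPowerSeries (Fin n) K,
      subst (invfunLin A) (subst (invfunLin A⁻¹) g) = g := fun g => by
    rw [invfun_subst_comp (invfunLin_const _) (invfunLin_const _)]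
    have : (fun i => subst (invfunLin A) (invfunLin A⁻¹ i)) =
        (X : Fin n → MvPowerSeries (Fin n) K) := funext fun i => invfunLin_comp _ _ hBA i
    rw [this, invfun_subst_X]
  have h3 : ∀ g : MvPowerSeries (Fin n) K,
      subst (invfunLin A⁻¹) (subst (invfunLin A) g) = g := fun g => by
    rw [invfun_subst_comp (invfunLin_const _) (invfunLin_const _)]
    have : (fun i => subst (invfunLin A⁻¹) (invfunLin A i)) =
        (X : Fin n → MvPowerSeries (Fin n) K) := funext fun i => invfunLin_comp _ _ hAB i
    rw [this, invfun_subst_X]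
  have h4 : (subst a : MvPowerSeries (Fin n) K → MvPowerSeries (Fin n) K) =
      (subst (invfunLin A)) ∘ (subst c) := by
    funext g
    rw [Function.comp_apply, ← h1, h2]
  rw [h4]
  refine Function.Bijective.comp ⟨?_, ?_⟩ hcb
  · exact Function.LeftInverse.injective h3
  · exact Function.RightInverse.surjective h2

/-- Formal inverse function theorem. -/
theorem IsParam.exists_inverse {a : Fin n → MvPowerSeries (Fin n) K} (ha : IsParam a) :
    ∃ b : Fin n → MvPowerSeries (Fin n) K, IsParam b ∧
      (∀ g, subst a (subst b g) = g) ∧ (∀ g, subst b (subst a g) = g) := by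
  obtain ⟨hinj, hsurj⟩ := ha.subst_bijective
  choose b hb using fun i : Fin n => hsurj (X i)
  have hb0 : ∀ i, constantCoeff (b i) = 0 := fun i => by
    rw [← constantCoeff_subst0 a ha.1 (b i), hb, constantCoeff_X]
  have h1 : ∀ g, subst a (subst b g) = g := fun g => by
    rw [invfun_subst_comp hb0 ha.1]
    have : (fun i => subst a (b i)) = (X : Fin n → MvPowerSeries (Fin n) K) := funext hb
    rw [this, invfun_subst_X]
  have h2 : ∀ g, subst b (subst a g) = g := fun g => hinj (h1 (subst a g))
  refine ⟨b, ⟨hb0, ?_⟩, h1, h2⟩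
  have hmul : (Matrix.of fun i j => lin (b i) j) * (Matrix.of fun i j => lin (a i) j) = 1 := by
    ext i j
    rw [Matrix.mul_apply]
    simp only [Matrix.of_apply]
    rw [← lin_subst a ha.1, hb, lin_X, Matrix.one_apply, Pi.single_apply]
    simp only [eq_comm]
  intro h0
  have := congrArg Matrix.det hmul
  rw [Matrix.det_mul, h0, zero_mul, Matrix.det_one] at this
  exact zero_ne_one this

/-- Coordinate changes preserve the order. -/
theorem IsParam.order_subst {a : Fin n → MvPowerSeries (Fin n) K} (ha : IsParam a)
    (g : MvPowerSeries (Fin n) K) : (subst a g).order = g.order := by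
  obtain ⟨b, hb, h1, h2⟩ := ha.exists_inverse
  refine le_antisymm ?_ (order_le_order_subst a ha.1 g)
  have := order_le_order_subst b hb.1 (subst a g)
  rwa [h2] at this

theorem IsParam.map {L : Type*} [Field L] (φ : K →+* L) {a : Fin n → MvPowerSeries (Fin n) K}
    (ha : IsParam a) : IsParam (fun i => MvPowerSeries.map φ (a i)) := by
  refine ⟨fun i => by rw [constantCoeff_map, ha.1, map_zero], ?_⟩
  have : (Matrix.of fun i j => lin (MvPowerSeries.map φ (a i)) j) =
      φ.mapMatrix (Matrix.of fun i j => lin (a i) j) := by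
    ext i j
    simp [lin_map]
  rw [this, ← RingHom.map_det]
  exact (map_ne_zero_iff φ φ.injective).2 ha.2

/-- Linear parts are linearly independent iff `IsParam`. -/
theorem isParam_iff_linearIndependent (a : Fin n → MvPowerSeries (Fin n) K) :
    IsParam a ↔ (∀ i, constantCoeff (a i) = 0) ∧ LinearIndependent K (fun i => lin (a i)) := by
  unfold IsParam
  refine and_congr_right fun _ => ?_
  rw [← isUnit_iff_ne_zero, ← Matrix.isUnit_iff_isUnit_det,
    ← Matrix.linearIndependent_rows_iff_isUnit]
  rfl

/-- the variables are prime -/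
theorem invfun_prime_X (s : Fin n) : Prime (X s : MvPowerSeries (Fin n) K) := by
  classical
  refine ⟨?_, ?_, ?_⟩
  · intro h
    have := congrArg (coeff (Finsupp.single s 1)) h
    rw [coeff_X, if_pos rfl, map_zero] at this
    exact one_ne_zero this
  · intro h
    have := h.map (constantCoeff (σ := Fin n) (R := K))
    rw [constantCoeff_X] at this
    exact not_isUnit_zero this
  · intro f g hfg
    by_contra hcon
    rw [not_or] at hcon
    let t : MvPowerSeries (Fin n) K → MvPowerSeries (Fin n) K := fun f e =>
      if e s = 0 then coeff e f else 0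
    have ht : ∀ f e, coeff e (t f) = if e s = 0 then coeff e f else 0 := fun f e => rfl
    have hdvd : ∀ f, X s ∣ f - t f := by
      intro f
      rw [X_dvd_iff]
      intro e he
      rw [map_sub, ht, if_pos he, sub_self]
    have hne : ∀ f, ¬ X s ∣ f → t f ≠ 0 := by
      intro f hf h0
      have := hdvd f
      rw [h0, sub_zero] at this
      exact hf this
    have h1 : X s ∣ t f * t g := by
      have e1 : t f * t g = f * g - (f - t f) * g - t f * (g - t g) := by ring
      rw [e1]
      exact dvd_sub (dvd_sub hfg ((hdvd f).mul_right g)) ((hdvd g).mul_left _)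
    have h2 : t f * t g = 0 := by
      ext e
      rw [map_zero]
      by_cases he : e s = 0
      · exact X_dvd_iff.1 h1 e he
      · rw [coeff_mul]
        refine Finset.sum_eq_zero fun q hq => ?_
        have hq' : q.1 + q.2 = e := by simpa using hq
        rw [ht, ht]
        by_cases h3 : q.1 s = 0
        · have h4 : q.2 s ≠ 0 := by
            intro h4
            apply he
            rw [← hq', Finsupp.add_apply, h3, h4]
          rw [if_neg h4, mul_zero]
        · rw [if_neg h3, zero_mul]
    rcases mul_eq_zero.1 h2 with h3 | h3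
    · exact hne f hcon.1 h3
    · exact hne g hcon.2 h3

/-- An element of order one is prime. -/
theorem prime_of_lin_ne_zero {g : MvPowerSeries (Fin n) K} (h0 : constantCoeff g = 0)
    (h1 : lin g ≠ 0) : Prime g := by
  obtain ⟨s, hs⟩ : ∃ s, lin g s ≠ 0 := by
    by_contra h
    push Not at h
    exact h1 (funext h)
  let a : Fin n → MvPowerSeries (Fin n) K := Function.update X s g
  have ha : IsParam a := by
    refine ⟨fun i => ?_, ?_⟩
    · by_cases hi : i = s
      · subst hi; simp [a, h0]
      · simp [a, Function.update_of_ne hi]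
    · have : (Matrix.of fun i j => lin (a i) j) =
          (1 : Matrix (Fin n) (Fin n) K).updateRow s (lin g) := by
        ext i j
        by_cases hi : i = s
        · subst hi; simp [a]
        · rw [Matrix.updateRow_ne hi, Matrix.of_apply, Matrix.one_apply]
          simp only [a, Function.update_of_ne hi, lin_X, Pi.single_apply]
          simp only [eq_comm]
      rw [this, ← Matrix.cramer_transpose_apply, Matrix.transpose_one, Matrix.cramer_one]
      simpa using hs
  let φ : MvPowerSeries (Fin n) K ≃+* MvPowerSeries (Fin n) K :=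
    RingEquiv.ofBijective
      ((substAlgHom (R := K) (hasSubst_of_constantCoeff_zero ha.1)).toRingHom) (by
        have : ⇑((substAlgHom (R := K) (hasSubst_of_constantCoeff_zero ha.1)).toRingHom) =
            (subst a : MvPowerSeries (Fin n) K → MvPowerSeries (Fin n) K) := by
          funext f
          exact substAlgHom_apply (R := K) (hasSubst_of_constantCoeff_zero ha.1) f
        rw [this]
        exact ha.subst_bijective)
  have h2 : φ (X s) = g := by
    show substAlgHom (R := K) (hasSubst_of_constantCoeff_zero ha.1) (X s) = g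
    rw [substAlgHom_X]
    simp [a]
  rw [← h2]
  exact (MulEquiv.prime_iff φ).2 (invfun_prime_X s)

end Pool.Agent.Zariski
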