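import Pool.Agent.Zariski.Coord

/-!
# The key formula for the double curve of the second critical hypersurface

Data over one field `L`: a generic tower of projections
`L[[ζ]] ⊂ L[[z]] ⊂ L[[y]] ⊂ L[[x]]` (3, 4, 5, 6 variables), the hypersurfaces
`V1 a = φ₁ + α_a φ₅^m`, `V2 = φ₂`, `V3 a = φ₃ + α_a φ₅^m`, `V4 = φ₄` (`a = 0, 1, 2`), with
`α₀ = 0`, `α₁ = 1`, `α₂ = t + φ₀ φ₅`, their roots `a1, a2, a3, a4`, the components
`D12 a = a1 a - a2`, `D34 a = a3 a - a4` of the critical hypersurface, their roots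
`b12 a, b34 a`, the components `s a = b12 a - b34 a` of the second critical hypersurface and
their roots `c a`.
-/

namespace Pool.Agent.Zariski

open MvPowerSeries

/-- The conclusion of the key formula, as a structure on two series `β₁, β₂` in 3 variables. -/
structure KeyData {L : Type*} [Field L] (m : ℕ) (t : L) (β₁ β₂ : MvPowerSeries (Fin 3) L) where
  s : MvPowerSeries (Fin 3) L
  p : MvPowerSeries (Fin 3) L
  q : MvPowerSeries (Fin 3) L
  x : MvPowerSeries (Fin 3) L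
  F₁ : MvPowerSeries (Fin 3) L
  F₃ : MvPowerSeries (Fin 3) L
  G₁ : MvPowerSeries (Fin 3) L
  G₃ : MvPowerSeries (Fin 3) L
  s0 : constantCoeff s = 0
  p0 : constantCoeff p = 0
  q0 : constantCoeff q = 0
  x0 : constantCoeff x = 0
  li : LinearIndependent L ![lin s, lin p, lin q]
  w0 : L
  lin_x : lin x = lin s + w0 • (lin q - lin p)
  F₁0 : constantCoeff F₁ ≠ 0
  F₃0 : constantCoeff F₃ ≠ 0
  F₁₃ : constantCoeff F₁ ≠ constantCoeff F₃
  FG₁ : ((m - 1 : ℕ) : ℕ∞) ≤ (F₁ - G₁).order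
  FG₃ : ((m - 1 : ℕ) : ℕ∞) ≤ (F₃ - G₃).order
  eq₁ : β₁ = p ^ m * F₁ - q ^ m * F₃
  eq₂ : β₂ = (C t + s * p) * p ^ m * G₁ - (C t + x * q) * q ^ m * G₃

/-- three vectors in `L³` are independent iff the determinant does not vanish -/
theorem key_li_iff {L : Type*} [Field L] (u v w : Fin 3 → L) :
    LinearIndependent L ![u, v, w] ↔ (Matrix.of ![u, v, w]).det ≠ 0 := by
  have h := Matrix.linearIndependent_rows_iff_isUnit (A := Matrix.of ![u, v, w])
  rw [Matrix.isUnit_iff_isUnit_det, isUnit_iff_ne_zero] at h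
  exact h

/-- Base change of `KeyData`. -/
theorem KeyData.map {L L' : Type*} [Field L] [Field L'] (ψ : L →+* L') {m : ℕ} {t : L}
    {β₁ β₂ : MvPowerSeries (Fin 3) L} (h : KeyData m t β₁ β₂) :
    Nonempty (KeyData m (ψ t) (MvPowerSeries.map ψ β₁) (MvPowerSeries.map ψ β₂)) := by
  refine ⟨{ s := MvPowerSeries.map ψ h.s, p := MvPowerSeries.map ψ h.p,
            q := MvPowerSeries.map ψ h.q, x := MvPowerSeries.map ψ h.x,
            F₁ := MvPowerSeries.map ψ h.F₁, F₃ := MvPowerSeries.map ψ h.F₃,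
            G₁ := MvPowerSeries.map ψ h.G₁, G₃ := MvPowerSeries.map ψ h.G₃,
            s0 := ?_, p0 := ?_, q0 := ?_, x0 := ?_, li := ?_, w0 := ψ h.w0, lin_x := ?_,
            F₁0 := ?_, F₃0 := ?_, F₁₃ := ?_, FG₁ := ?_, FG₃ := ?_, eq₁ := ?_, eq₂ := ?_ }⟩
  · rw [constantCoeff_map, h.s0, map_zero]
  · rw [constantCoeff_map, h.p0, map_zero]
  · rw [constantCoeff_map, h.q0, map_zero]
  · rw [constantCoeff_map, h.x0, map_zero]
  · rw [key_li_iff]
    have h1 := (key_li_iff _ _ _).1 h.li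
    have e : (Matrix.of ![lin (MvPowerSeries.map ψ h.s), lin (MvPowerSeries.map ψ h.p),
        lin (MvPowerSeries.map ψ h.q)]) = (Matrix.of ![lin h.s, lin h.p, lin h.q]).map ψ := by
      ext i j
      fin_cases i <;> simp [lin_map]
    rw [e]
    have e2 : ((Matrix.of ![lin h.s, lin h.p, lin h.q]).map ψ).det =
        ψ (Matrix.of ![lin h.s, lin h.p, lin h.q]).det := by
      rw [RingHom.map_det]; rfl
    rw [e2]
    exact (map_ne_zero ψ).2 h1
  · funext j
    have := congrFun h.lin_x j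
    simp only [lin_map, Pi.add_apply, Pi.smul_apply, Pi.sub_apply, smul_eq_mul] at this ⊢
    rw [this]
    simp
  · rw [constantCoeff_map]; exact (map_ne_zero ψ).2 h.F₁0
  · rw [constantCoeff_map]; exact (map_ne_zero ψ).2 h.F₃0
  · rw [constantCoeff_map, constantCoeff_map]; exact fun hh => h.F₁₃ (ψ.injective hh)
  · rw [← map_sub, order_map_eq]; exact h.FG₁
  · rw [← map_sub, order_map_eq]; exact h.FG₃
  · have := congrArg (MvPowerSeries.map ψ) h.eq₁
    simpa using this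
  · have := congrArg (MvPowerSeries.map ψ) h.eq₂
    simpa using this

/-- Ring homomorphisms between power series rings which behave like substitutions. -/
structure KeyNice {L : Type*} [Field L] {n m : ℕ}
    (χ : MvPowerSeries (Fin n) L →+* MvPowerSeries (Fin m) L) : Prop where
  cc : ∀ g, constantCoeff (χ g) = constantCoeff g
  ord : ∀ g, g.order ≤ (χ g).order
  hC : ∀ a, χ (C a) = C a
  tan : ∀ v : Fin m → L, ∃ A : Fin n → L, ∀ g, ∑ j, lin (χ g) j * v j = ∑ i, lin g i * A i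

theorem keyNice_subHom {L : Type*} [Field L] {n m : ℕ} (a : Fin n → MvPowerSeries (Fin m) L)
    (ha : ∀ i, constantCoeff (a i) = 0) : KeyNice (subHom a ha) where
  cc g := by rw [subHom_apply, constantCoeff_subst0 a ha]
  ord g := by rw [subHom_apply]; exact order_le_order_subst a ha g
  hC c := by
    have h := (substAlgHom (R := L) (hasSubst_of_constantCoeff_zero ha)).commutes c
    exact h
  tan v := by
    refine ⟨fun i => ∑ j, lin (a i) j * v j, fun g => ?_⟩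
    simp only [subHom_apply, lin_subst a ha, Finset.sum_mul, Finset.mul_sum]
    rw [Finset.sum_comm]
    refine Finset.sum_congr rfl fun i _ => Finset.sum_congr rfl fun j _ => by ring

theorem KeyNice.comp {L : Type*} [Field L] {n m k : ℕ}
    {χ : MvPowerSeries (Fin n) L →+* MvPowerSeries (Fin m) L}
    {ω : MvPowerSeries (Fin m) L →+* MvPowerSeries (Fin k) L} (hω : KeyNice ω) (hχ : KeyNice χ) :
    KeyNice (ω.comp χ) where
  cc g := by rw [RingHom.comp_apply, hω.cc, hχ.cc]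
  ord g := (hχ.ord g).trans (hω.ord _)
  hC c := by rw [RingHom.comp_apply, hχ.hC, hω.hC]
  tan v := by
    obtain ⟨B, hB⟩ := hω.tan v
    obtain ⟨A, hA⟩ := hχ.tan B
    exact ⟨A, fun g => by rw [RingHom.comp_apply, hB, hA]⟩

theorem key_order_sub {L : Type*} [Field L] {n : ℕ} {k : ℕ∞} {f g : MvPowerSeries (Fin n) L}
    (hf : k ≤ f.order) (hg : k ≤ g.order) : k ≤ (f - g).order := by
  rw [sub_eq_add_neg]
  refine le_trans (le_min hf ?_) (min_order_le_add)
  rwa [order_neg]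

theorem key_order_add {L : Type*} [Field L] {n : ℕ} {k : ℕ∞} {f g : MvPowerSeries (Fin n) L}
    (hf : k ≤ f.order) (hg : k ≤ g.order) : k ≤ (f + g).order :=
  le_trans (le_min hf hg) (min_order_le_add)

theorem key_order_mul_left {L : Type*} [Field L] {n : ℕ} {k : ℕ∞}
    {f g : MvPowerSeries (Fin n) L} (hg : k ≤ g.order) : k ≤ (f * g).order :=
  hg.trans ((le_add_left le_rfl).trans le_order_mul)

theorem key_order_mul_right {L : Type*} [Field L] {n : ℕ} {k : ℕ∞}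
    {f g : MvPowerSeries (Fin n) L} (hf : k ≤ f.order) : k ≤ (f * g).order :=
  hf.trans ((le_add_right le_rfl).trans le_order_mul)

theorem key_cc_of_order {L : Type*} [Field L] {n : ℕ} {k : ℕ} (hk : 1 ≤ k)
    {f g : MvPowerSeries (Fin n) L} (h : (k : ℕ∞) ≤ (f - g).order) :
    constantCoeff f = constantCoeff g := by
  have h1 : (1 : ℕ∞) ≤ (f - g).order := le_trans (by exact_mod_cast hk) h
  rw [one_le_order_iff_constCoeff_eq_zero, map_sub, sub_eq_zero] at h1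
  exact h1

/-- closeness of products -/
theorem key_mul_close {L : Type*} [Field L] {n : ℕ} {k : ℕ∞}
    {f g f' g' : MvPowerSeries (Fin n) L} (hf : k ≤ (f - f').order) (hg : k ≤ (g - g').order) :
    k ≤ (f * g - f' * g').order := by
  have e : f * g - f' * g' = f * (g - g') + (f - f') * g' := by ring
  rw [e]
  exact key_order_add (key_order_mul_left hg) (key_order_mul_right hf)

/-- closeness of inverses -/
theorem key_inv_close {L : Type*} [Field L] {n : ℕ} {k : ℕ∞}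
    {f f' : MvPowerSeries (Fin n) L} (h0 : constantCoeff f ≠ 0) (h0' : constantCoeff f' ≠ 0)
    (hf : k ≤ (f - f').order) : k ≤ (f⁻¹ - f'⁻¹).order := by
  have e : f⁻¹ - f'⁻¹ = - (f⁻¹ * f'⁻¹ * (f - f')) := by
    have h1 := MvPowerSeries.inv_mul_cancel f h0
    have h2 := MvPowerSeries.inv_mul_cancel f' h0'
    linear_combination f'⁻¹ * h1 - f⁻¹ * h2
  rw [e, order_neg]
  exact key_order_mul_left hf

/-- sections of a projection as ring homomorphisms -/
theorem key_section {L : Type*} [Field L] {r : ℕ} {y : Fin r → MvPowerSeries (Fin (r + 1)) L}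
    (hy : Adm y) {b : MvPowerSeries (Fin r) L} (hb : constantCoeff b = 0) :
    ∃ χ : MvPowerSeries (Fin (r + 1)) L →+* MvPowerSeries (Fin r) L, KeyNice χ ∧ χ (X 0) = b ∧
      (∀ F : MvPowerSeries (Fin r) L, χ (subst y F) = F) ∧
      ∀ g υ b', IsRoot y g υ b' → χ g = χ υ * (b - b') := by
  obtain ⟨a, ha, ha0, has, -⟩ := hy.exists_section hb
  have h0 : subHom a ha (X 0) = b := by
    rw [subHom_apply, subst_X (hasSubst_of_constantCoeff_zero ha), ha0]
  have hs : ∀ F : MvPowerSeries (Fin r) L, subHom a ha (subst y F) = F := by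
    intro F; rw [subHom_apply, has]
  refine ⟨subHom a ha, keyNice_subHom a ha, h0, hs, fun g υ b' h => ?_⟩
  rw [h.eq, map_mul, map_sub, h0, hs]

/-- the linear algebra of the key formula -/
theorem key_linear {L : Type*} [Field L]
    {y : Fin 5 → MvPowerSeries (Fin 6) L} (hy : Adm y)
    {φ : Fin 6 → MvPowerSeries (Fin 6) L} (hφ : IsParam φ)
    (h5 : ∑ j, lin (φ 5) j * dir y j ≠ 0)
    {X1 X2 : MvPowerSeries (Fin 6) L →+* MvPowerSeries (Fin 3) L}
    (hX1 : KeyNice X1) (hX2 : KeyNice X2) (hy12 : ∀ k, X1 (y k) = X2 (y k))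
    (e1 : X1 (φ 1) = 0) (e2 : X1 (φ 2) = 0) (e3 : X2 (φ 3) = 0) (e4 : X2 (φ 4) = 0)
    (hret : ∀ k : Fin 3, ∃ F, X1 F = X k) :
    LinearIndependent L ![lin (X1 (φ 0)), lin (X1 (φ 5)), lin (X2 (φ 5))] ∧
    lin (X2 (φ 0)) = lin (X1 (φ 0)) + ((∑ j, lin (φ 0) j * dir y j) /
      (∑ j, lin (φ 5) j * dir y j)) • (lin (X2 (φ 5)) - lin (X1 (φ 5))) := by
  have main : ∀ v : Fin 3 → L, ∃ A B : Fin 6 → L, ∃ μ : L,
      (∀ g, ∑ j, lin (X1 g) j * v j = ∑ i, lin g i * A i) ∧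
      (∀ g, ∑ j, lin (X2 g) j * v j = ∑ i, lin g i * B i) ∧
      (∀ i, A i = B i + μ * dir y i) := by
    intro v
    obtain ⟨A, hA⟩ := hX1.tan v
    obtain ⟨B, hB⟩ := hX2.tan v
    refine ⟨A, B, (A - B) 0, hA, hB, ?_⟩
    have h1 : A - B = (A - B) 0 • dir y := by
      apply hy.eq_smul_dir
      intro k
      have h2 := hA (y k)
      rw [hy12 k, hB (y k)] at h2
      simp only [Pi.sub_apply, mul_sub, Finset.sum_sub_distrib]
      rw [h2, sub_self]
    intro i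
    have h3 := congrFun h1 i
    simp only [Pi.sub_apply, Pi.smul_apply, smul_eq_mul] at h3 ⊢
    rw [← h3]; ring
  have hsum : ∀ (g : MvPowerSeries (Fin 6) L) (A B : Fin 6 → L) (μ : L),
      (∀ i, A i = B i + μ * dir y i) →
      ∑ i, lin g i * A i = ∑ i, lin g i * B i + μ * ∑ j, lin g j * dir y j := by
    intro g A B μ h
    rw [Finset.mul_sum, ← Finset.sum_add_distrib]
    refine Finset.sum_congr rfl fun i _ => ?_
    rw [h i]; ring
  have hz0 : ∀ v : Fin 3 → L, ∑ j, lin (0 : MvPowerSeries (Fin 3) L) j * v j = 0 := by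
    intro v; simp [lin_zero]
  constructor
  · rw [key_li_iff, Ne, ← Matrix.exists_mulVec_eq_zero_iff]
    rintro ⟨v, hv, hv0⟩
    apply hv
    obtain ⟨A, B, μ, hA, hB, hAB⟩ := main v
    have k0 : ∑ j, lin (X1 (φ 0)) j * v j = 0 := congrFun hv0 0
    have k1 : ∑ j, lin (X1 (φ 5)) j * v j = 0 := congrFun hv0 1
    have k2 : ∑ j, lin (X2 (φ 5)) j * v j = 0 := congrFun hv0 2
    have hμ : μ = 0 := by
      have h1 := hsum (φ 5) A B μ hAB
      rw [← hA, ← hB, k1, k2, zero_add] at h1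
      rcases mul_eq_zero.1 h1.symm with h | h
      · exact h
      · exact absurd h h5
    have hABe : A = B := by
      funext i; rw [hAB i, hμ]; ring
    have hA0 : A = 0 := by
      apply Matrix.eq_zero_of_mulVec_eq_zero hφ.2
      funext i
      change ∑ j, lin (φ i) j * A j = 0
      fin_cases i
      · change ∑ j, lin (φ 0) j * A j = 0
        rw [← hA]; exact k0
      · change ∑ j, lin (φ 1) j * A j = 0
        rw [← hA, e1]; exact hz0 v
      · change ∑ j, lin (φ 2) j * A j = 0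
        rw [← hA, e2]; exact hz0 v
      · change ∑ j, lin (φ 3) j * A j = 0
        rw [hABe, ← hB, e3]; exact hz0 v
      · change ∑ j, lin (φ 4) j * A j = 0
        rw [hABe, ← hB, e4]; exact hz0 v
      · change ∑ j, lin (φ 5) j * A j = 0
        rw [← hA]; exact k1
    funext k
    obtain ⟨F, hF⟩ := hret k
    have h1 := hA F
    rw [hF, hA0] at h1
    simp only [lin_X, Pi.zero_apply, mul_zero, Finset.sum_const_zero] at h1
    rw [Finset.sum_eq_single k (fun j _ hj => by rw [Pi.single_eq_of_ne hj, zero_mul])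
      (fun h => absurd (Finset.mem_univ k) h), Pi.single_eq_same, one_mul] at h1
    exact h1
  · funext k
    obtain ⟨A, B, μ, hA, hB, hAB⟩ := main (Pi.single k 1)
    have hpick : ∀ g : MvPowerSeries (Fin 3) L, ∑ j, lin g j * (Pi.single k (1 : L) : Fin 3 → L) j =
        lin g k := by
      intro g
      rw [Finset.sum_eq_single k (fun j _ hj => by rw [Pi.single_eq_of_ne hj, mul_zero])
        (fun h => absurd (Finset.mem_univ k) h), Pi.single_eq_same, mul_one]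
    have h0 := hsum (φ 0) A B μ hAB
    have h5' := hsum (φ 5) A B μ hAB
    rw [← hA, ← hB, hpick, hpick] at h0 h5'
    simp only [Pi.add_apply, Pi.smul_apply, Pi.sub_apply, smul_eq_mul]
    rw [h0, h5']
    field_simp
    ring

/-- one of the two families of hypersurfaces -/
theorem key_side {L : Type*} [Field L]
    {y : Fin 5 → MvPowerSeries (Fin 6) L} {z : Fin 4 → MvPowerSeries (Fin 5) L}
    {g u : Fin 3 → MvPowerSeries (Fin 6) L} {a e : Fin 3 → MvPowerSeries (Fin 5) L}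
    {g' u' : MvPowerSeries (Fin 6) L} {a' : MvPowerSeries (Fin 5) L}
    {b : Fin 3 → MvPowerSeries (Fin 4) L} {B : MvPowerSeries (Fin 4) L}
    (h1 : ∀ i, IsRoot y (g i) (u i) (a i)) (h2 : IsRoot y g' u' a')
    (h12 : ∀ i, IsRoot z (a i - a') (e i) (b i))
    {s : MvPowerSeries (Fin 6) L →+* MvPowerSeries (Fin 5) L}
    {χ₂ : MvPowerSeries (Fin 5) L →+* MvPowerSeries (Fin 4) L}
    {χ₃ : MvPowerSeries (Fin 4) L →+* MvPowerSeries (Fin 3) L}
    (hs : ∀ g υ b', IsRoot y g υ b' → s g = s υ * (a 0 - b'))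
    (hχ₂ : ∀ g υ b', IsRoot z g υ b' → χ₂ g = χ₂ υ * (B - b')) (hB : χ₃ (b 0) = χ₃ B) :
    χ₃ (χ₂ (s g')) = 0 ∧ χ₃ (χ₂ (s (g 0))) = 0 ∧
      ∀ i, χ₃ (χ₂ (s (g i))) = χ₃ (χ₂ (s (u i))) * χ₃ (χ₂ (e i)) * (χ₃ (b i) - χ₃ B) := by
  have k1 : ∀ i, χ₃ (χ₂ (a i)) - χ₃ (χ₂ a') = χ₃ (χ₂ (e i)) * (χ₃ B - χ₃ (b i)) := by
    intro i
    have := congrArg χ₃ (hχ₂ _ _ _ (h12 i))
    simpa using this
  have k0 : χ₃ (χ₂ (a 0)) - χ₃ (χ₂ a') = 0 := by
    rw [k1 0, hB, sub_self, mul_zero]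
  refine ⟨?_, ?_, fun i => ?_⟩
  · rw [hs _ _ _ h2, map_mul, map_mul, map_sub, map_sub, k0, mul_zero]
  · rw [hs _ _ _ (h1 0), sub_self, mul_zero, map_zero, map_zero]
  · rw [hs _ _ _ (h1 i), map_mul, map_mul, map_sub, map_sub]
    have := k1 i
    linear_combination (χ₃ (χ₂ (s (u i)))) * (k0 - this)

theorem key_formula {L : Type*} [Field L] {m : ℕ} (hm : 2 ≤ m) (t : L)
    {y : Fin 5 → MvPowerSeries (Fin 6) L} (hy : Adm y)
    {z : Fin 4 → MvPowerSeries (Fin 5) L} (hz : Adm z)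
    {ζ : Fin 3 → MvPowerSeries (Fin 4) L} (hζ : Adm ζ)
    {φ : Fin 6 → MvPowerSeries (Fin 6) L} (hφ : IsParam φ)
    {α : Fin 3 → MvPowerSeries (Fin 6) L} (hα : α = ![0, 1, C t + φ 0 * φ 5])
    {a1 a3 : Fin 3 → MvPowerSeries (Fin 5) L} {u1 u3 : Fin 3 → MvPowerSeries (Fin 6) L}
    (h1 : ∀ i, IsRoot y (φ 1 + α i * φ 5 ^ m) (u1 i) (a1 i))
    (h3 : ∀ i, IsRoot y (φ 3 + α i * φ 5 ^ m) (u3 i) (a3 i))
    {a2 a4 : MvPowerSeries (Fin 5) L} {u2 u4 : MvPowerSeries (Fin 6) L}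
    (h2 : IsRoot y (φ 2) u2 a2) (h4 : IsRoot y (φ 4) u4 a4)
    {b12 b34 : Fin 3 → MvPowerSeries (Fin 4) L} {e12 e34 : Fin 3 → MvPowerSeries (Fin 5) L}
    (h12 : ∀ i, IsRoot z (a1 i - a2) (e12 i) (b12 i))
    (h34 : ∀ i, IsRoot z (a3 i - a4) (e34 i) (b34 i))
    {c : Fin 3 → MvPowerSeries (Fin 3) L} {e : Fin 3 → MvPowerSeries (Fin 4) L}
    (hc : ∀ i, IsRoot ζ (b12 i - b34 i) (e i) (c i))
    (h5 : ∑ j, lin (φ 5) j * dir y j ≠ 0)
    (hN : constantCoeff (u1 0) * constantCoeff (e12 0) ≠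
      constantCoeff (u3 0) * constantCoeff (e34 0)) :
    Nonempty (KeyData m t (c 0 - c 1) (c 0 - c 2)) := by
  obtain ⟨χ₃, n3, χ₃X, χ₃s, χ₃r⟩ := key_section hζ (hc 0).const
  obtain ⟨χ₂, n2, χ₂X, χ₂s, χ₂r⟩ := key_section hz (h12 0).const
  obtain ⟨s₁, m1, s₁X, s₁s, s₁r⟩ := key_section hy (h1 0).const
  obtain ⟨s₃, m3, s₃X, s₃s, s₃r⟩ := key_section hy (h3 0).const
  have hB : χ₃ (b34 0) = χ₃ (b12 0) := by
    have := χ₃r _ _ _ (hc 0)
    rw [sub_self, mul_zero, map_sub, sub_eq_zero] at this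
    exact this.symm
  obtain ⟨v2, v1, side1⟩ := key_side h1 h2 h12 s₁r χ₂r (χ₃ := χ₃) rfl
  obtain ⟨v4, v3, side3⟩ := key_side h3 h4 h34 s₃r χ₂r hB
  set X1 := (χ₃.comp χ₂).comp s₁ with hX1
  set X2 := (χ₃.comp χ₂).comp s₃ with hX2
  have nX1 : KeyNice X1 := (n3.comp n2).comp m1
  have nX2 : KeyNice X2 := (n3.comp n2).comp m3
  have a0 : α 0 = 0 := by rw [hα]; rfl
  have a1' : α 1 = 1 := by rw [hα]; rfl
  have a2' : α 2 = C t + φ 0 * φ 5 := by rw [hα]; rfl
  have e1 : X1 (φ 1) = 0 := by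
    have := v1
    rw [a0, zero_mul, add_zero] at this
    exact this
  have e2 : X1 (φ 2) = 0 := v2
  have e3 : X2 (φ 3) = 0 := by
    have := v3
    rw [a0, zero_mul, add_zero] at this
    exact this
  have e4 : X2 (φ 4) = 0 := v4
  have hsy : HasSubst y := hasSubst_of_constantCoeff_zero hy.1
  have hyX : ∀ k, subst y (X k : MvPowerSeries (Fin 5) L) = y k := fun k => subst_X hsy k
  have hy12 : ∀ k, X1 (y k) = X2 (y k) := by
    intro k
    rw [← hyX k]
    change χ₃ (χ₂ (s₁ _)) = χ₃ (χ₂ (s₃ _))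
    rw [s₁s, s₃s]
  have hret : ∀ k : Fin 3, ∃ F, X1 F = X k := by
    intro k
    refine ⟨subst y (subst z (subst ζ (X k : MvPowerSeries (Fin 3) L) :
      MvPowerSeries (Fin 4) L) : MvPowerSeries (Fin 5) L), ?_⟩
    change χ₃ (χ₂ (s₁ _)) = _
    rw [s₁s, χ₂s, χ₃s]
  obtain ⟨hli, hlx⟩ := key_linear hy hφ h5 nX1 nX2 hy12 e1 e2 e3 e4 hret
  -- the units
  set U : Fin 3 → MvPowerSeries (Fin 3) L := fun i => χ₃ (e i) * (X1 (u1 i) * χ₃ (χ₂ (e12 i))) with hU
  set W : Fin 3 → MvPowerSeries (Fin 3) L := fun i => χ₃ (e i) * (X2 (u3 i) * χ₃ (χ₂ (e34 i))) with hW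
  have unit_cc : ∀ {n : ℕ} {g : MvPowerSeries (Fin n) L}, IsUnit g → constantCoeff g ≠ 0 := by
    intro n g hg
    exact (isUnit_iff_constantCoeff.1 hg).ne_zero
  have ccU : ∀ i, constantCoeff (U i) = constantCoeff (e i) *
      (constantCoeff (u1 i) * constantCoeff (e12 i)) := by
    intro i
    simp only [hU, map_mul, n3.cc, n2.cc, nX1.cc]
  have ccW : ∀ i, constantCoeff (W i) = constantCoeff (e i) *
      (constantCoeff (u3 i) * constantCoeff (e34 i)) := by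
    intro i
    simp only [hW, map_mul, n3.cc, n2.cc, nX2.cc]
  have U0 : ∀ i, constantCoeff (U i) ≠ 0 := by
    intro i
    rw [ccU]
    exact mul_ne_zero (unit_cc (hc i).unit) (mul_ne_zero (unit_cc (h1 i).unit) (unit_cc (h12 i).unit))
  have W0 : ∀ i, constantCoeff (W i) ≠ 0 := by
    intro i
    rw [ccW]
    exact mul_ne_zero (unit_cc (hc i).unit) (mul_ne_zero (unit_cc (h3 i).unit) (unit_cc (h34 i).unit))
  -- closeness
  have hord5 : (m : ℕ∞) ≤ (φ 5 ^ m).order := le_order_pow_of_constantCoeff_eq_zero m (hφ.1 5)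
  have cl1 : ∀ i j, (m : ℕ∞) ≤ ((φ 1 + α i * φ 5 ^ m) - (φ 1 + α j * φ 5 ^ m)).order := by
    intro i j
    have : (φ 1 + α i * φ 5 ^ m) - (φ 1 + α j * φ 5 ^ m) = (α i - α j) * φ 5 ^ m := by ring
    rw [this]
    exact key_order_mul_left hord5
  have cl3 : ∀ i j, (m : ℕ∞) ≤ ((φ 3 + α i * φ 5 ^ m) - (φ 3 + α j * φ 5 ^ m)).order := by
    intro i j
    have : (φ 3 + α i * φ 5 ^ m) - (φ 3 + α j * φ 5 ^ m) = (α i - α j) * φ 5 ^ m := by ring
    rw [this]
    exact key_order_mul_left hord5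
  have ca1 : ∀ i j, (m : ℕ∞) ≤ (a1 i - a1 j).order ∧ ((m - 1 : ℕ) : ℕ∞) ≤ (u1 i - u1 j).order :=
    fun i j => IsRoot.congr_order hy (h1 i) (h1 j) (cl1 i j)
  have ca3 : ∀ i j, (m : ℕ∞) ≤ (a3 i - a3 j).order ∧ ((m - 1 : ℕ) : ℕ∞) ≤ (u3 i - u3 j).order :=
    fun i j => IsRoot.congr_order hy (h3 i) (h3 j) (cl3 i j)
  have cb12 : ∀ i j, (m : ℕ∞) ≤ (b12 i - b12 j).order ∧
      ((m - 1 : ℕ) : ℕ∞) ≤ (e12 i - e12 j).order := by
    intro i j
    refine IsRoot.congr_order hz (h12 i) (h12 j) ?_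
    rw [sub_sub_sub_cancel_right]
    exact (ca1 i j).1
  have cb34 : ∀ i j, (m : ℕ∞) ≤ (b34 i - b34 j).order ∧
      ((m - 1 : ℕ) : ℕ∞) ≤ (e34 i - e34 j).order := by
    intro i j
    refine IsRoot.congr_order hz (h34 i) (h34 j) ?_
    rw [sub_sub_sub_cancel_right]
    exact (ca3 i j).1
  have ce : ∀ i j, ((m - 1 : ℕ) : ℕ∞) ≤ (e i - e j).order := by
    intro i j
    refine (IsRoot.congr_order hζ (hc i) (hc j) ?_).2
    have : b12 i - b34 i - (b12 j - b34 j) = (b12 i - b12 j) - (b34 i - b34 j) := by ring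
    rw [this]
    exact key_order_sub (cb12 i j).1 (cb34 i j).1
  have close : ∀ {n k : ℕ} {χ : MvPowerSeries (Fin n) L →+* MvPowerSeries (Fin k) L},
      KeyNice χ → ∀ {f g : MvPowerSeries (Fin n) L}, ((m - 1 : ℕ) : ℕ∞) ≤ (f - g).order →
      ((m - 1 : ℕ) : ℕ∞) ≤ (χ f - χ g).order := by
    intro n k χ hχ f g h
    rw [← map_sub]
    exact h.trans (hχ.ord _)
  have cU : ∀ i j, ((m - 1 : ℕ) : ℕ∞) ≤ (U i - U j).order := by
    intro i j
    exact key_mul_close (close n3 (ce i j)) (key_mul_close (close nX1 (ca1 i j).2)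
      (close n3 (close n2 (cb12 i j).2)))
  have cW : ∀ i j, ((m - 1 : ℕ) : ℕ∞) ≤ (W i - W j).order := by
    intro i j
    exact key_mul_close (close n3 (ce i j)) (key_mul_close (close nX2 (ca3 i j).2)
      (close n3 (close n2 (cb34 i j).2)))
  have hm1 : 1 ≤ m - 1 := by omega
  -- the formula
  have formula : ∀ i, c 0 - c i = X1 (α i) * X1 (φ 5) ^ m * (U i)⁻¹ -
      X2 (α i) * X2 (φ 5) ^ m * (W i)⁻¹ := by
    intro i
    have f1 : X1 (α i) * X1 (φ 5) ^ m =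
        X1 (u1 i) * χ₃ (χ₂ (e12 i)) * (χ₃ (b12 i) - χ₃ (b12 0)) := by
      have h : X1 (φ 1 + α i * φ 5 ^ m) =
        X1 (u1 i) * χ₃ (χ₂ (e12 i)) * (χ₃ (b12 i) - χ₃ (b12 0)) := side1 i
      rw [map_add, map_mul, map_pow, e1, zero_add] at h
      exact h
    have f3 : X2 (α i) * X2 (φ 5) ^ m =
        X2 (u3 i) * χ₃ (χ₂ (e34 i)) * (χ₃ (b34 i) - χ₃ (b12 0)) := by
      have h : X2 (φ 3 + α i * φ 5 ^ m) =
        X2 (u3 i) * χ₃ (χ₂ (e34 i)) * (χ₃ (b34 i) - χ₃ (b12 0)) := side3 i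
      rw [map_add, map_mul, map_pow, e3, zero_add] at h
      exact h
    have f5 : χ₃ (b12 i) - χ₃ (b34 i) = χ₃ (e i) * (c 0 - c i) := by
      rw [← map_sub]
      exact χ₃r _ _ _ (hc i)
    have iU := MvPowerSeries.inv_mul_cancel (U i) (U0 i)
    have iW := MvPowerSeries.inv_mul_cancel (W i) (W0 i)
    have hEne : χ₃ (e i) ≠ 0 := by
      intro h
      apply U0 i
      simp only [hU, h, zero_mul, map_zero]
    apply mul_left_cancel₀ hEne
    rw [← f5, f1, f3]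
    simp only [hU, hW] at iU iW ⊢
    linear_combination (-(χ₃ (b12 i) - χ₃ (b12 0))) * iU + (χ₃ (b34 i) - χ₃ (b12 0)) * iW
  refine ⟨{ s := X1 (φ 0), p := X1 (φ 5), q := X2 (φ 5), x := X2 (φ 0),
            F₁ := (U 1)⁻¹, F₃ := (W 1)⁻¹, G₁ := (U 2)⁻¹, G₃ := (W 2)⁻¹,
            s0 := ?_, p0 := ?_, q0 := ?_, x0 := ?_, li := hli,
            w0 := (∑ j, lin (φ 0) j * dir y j) / (∑ j, lin (φ 5) j * dir y j), lin_x := hlx,
            F₁0 := ?_, F₃0 := ?_, F₁₃ := ?_, FG₁ := ?_, FG₃ := ?_, eq₁ := ?_, eq₂ := ?_ }⟩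
  · rw [nX1.cc, hφ.1]
  · rw [nX1.cc, hφ.1]
  · rw [nX2.cc, hφ.1]
  · rw [nX2.cc, hφ.1]
  · rw [constantCoeff_inv]; exact inv_ne_zero (U0 1)
  · rw [constantCoeff_inv]; exact inv_ne_zero (W0 1)
  · rw [constantCoeff_inv, constantCoeff_inv]
    intro h
    have h6 : constantCoeff (U 1) = constantCoeff (W 1) := inv_injective h
    rw [ccU, ccW] at h6
    have h7 := mul_left_cancel₀ (unit_cc (hc 1).unit) h6
    rw [key_cc_of_order hm1 (ca1 1 0).2, key_cc_of_order hm1 (cb12 1 0).2,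
      key_cc_of_order hm1 (ca3 1 0).2, key_cc_of_order hm1 (cb34 1 0).2] at h7
    exact hN h7
  · exact key_inv_close (U0 1) (U0 2) (cU 1 2)
  · exact key_inv_close (W0 1) (W0 2) (cW 1 2)
  · rw [formula 1, a1', map_one, map_one, one_mul, one_mul]
  · rw [formula 2, a2', map_add, map_add, map_mul, map_mul, nX1.hC, nX2.hC]

end Pool.Agent.Zariski
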