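import Pool.Agent.Zariski.Defs

/-!
# Instances for `Kstar`
-/

namespace Pool.Agent.Zariski

universe u

instance (r : ℕ) (K : Type u) [Field K] : IsFractionRing (MvPolynomial (UIdx r) K) (Kstar r K) :=
  inferInstanceAs (IsFractionRing (MvPolynomial (UIdx r) K)
    (FractionRing (MvPolynomial (UIdx r) K)))

instance (r : ℕ) (K : Type u) [Field K] :
    IsScalarTower K (MvPolynomial (UIdx r) K) (Kstar r K) :=
  inferInstanceAs (IsScalarTower K (MvPolynomial (UIdx r) K)
    (FractionRing (MvPolynomial (UIdx r) K)))

instance (r : ℕ) (K : Type u) [Field K] [CharZero K] : CharZero (Kstar r K) :=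
  charZero_of_injective_algebraMap (algebraMap K (Kstar r K)).injective

end Pool.Agent.Zariski
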