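import Pool.Agent.Zariski.Kstar

/-!
# Basic facts on `MvPowerSeries (Fin n) K`: linear part, order, maximal ideal
-/

namespace Pool.Agent.Zariski

open MvPowerSeries

/-- The linear part of a power series. -/
noncomputable def lin {n : ℕ} {K : Type*} [Field K] (g : MvPowerSeries (Fin n) K) : Fin n → K :=
  fun i => coeff (Finsupp.single i 1) g

section

variable {n m : ℕ} {K : Type*} [Field K]

lemma lin_add (f g : MvPowerSeries (Fin n) K) : lin (f + g) = lin f + lin g := by
  funext i
  simp [lin]

lemma lin_sub (f g : MvPowerSeries (Fin n) K) : lin (f - g) = lin f - lin g := by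
  funext i
  simp [lin]

lemma lin_neg (f : MvPowerSeries (Fin n) K) : lin (-f) = - lin f := by
  funext i
  simp [lin]

lemma lin_zero : lin (0 : MvPowerSeries (Fin n) K) = 0 := by
  funext i
  simp [lin]

lemma lin_C (a : K) : lin (C a : MvPowerSeries (Fin n) K) = 0 := by
  classical
  funext i
  simp [lin, coeff_C]

lemma lin_mul (f g : MvPowerSeries (Fin n) K) :
    lin (f * g) = constantCoeff f • lin g + constantCoeff g • lin f := by
  classical
  funext i
  simp only [lin, coeff_mul, Pi.add_apply, Pi.smul_apply, smul_eq_mul]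
  rw [Finsupp.antidiagonal_single]
  simp [Finset.Nat.antidiagonal_succ]
  ring

lemma lin_X (i : Fin n) : lin (X i : MvPowerSeries (Fin n) K) = Pi.single i 1 := by
  classical
  funext j
  simp only [lin, coeff_index_single_X, Pi.single_apply]

lemma lin_pow_of_two_le {f : MvPowerSeries (Fin n) K} (hf : constantCoeff f = 0) {k : ℕ}
    (hk : 2 ≤ k) : lin (f ^ k) = 0 := by
  obtain ⟨j, rfl⟩ := Nat.exists_eq_add_of_le hk
  rw [add_comm, pow_add, lin_mul, pow_two, lin_mul, map_mul, hf]
  simp

lemma lin_map {L : Type*} [Field L] (φ : K →+* L) (g : MvPowerSeries (Fin n) K) :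
    lin (MvPowerSeries.map φ g) = fun i => φ (lin g i) := by
  funext i
  simp [lin]

lemma constantCoeff_subst0_aux (a : Fin n → MvPowerSeries (Fin m) K)
    (ha : ∀ i, constantCoeff (a i) = 0) (g : MvPowerSeries (Fin n) K)
    (hg : constantCoeff g = 0) : constantCoeff (subst a g) = 0 :=
  constantCoeff_subst_eq_zero (hasSubst_of_constantCoeff_zero ha) ha hg

lemma subst_C0 (a : Fin n → MvPowerSeries (Fin m) K)
    (ha : ∀ i, constantCoeff (a i) = 0) (c : K) :
    subst a (C c : MvPowerSeries (Fin n) K) = C c := by
  have h := hasSubst_of_constantCoeff_zero ha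
  rw [← coe_substAlgHom h]
  exact (substAlgHom (R := K) h).commutes c

lemma constantCoeff_subst0 (a : Fin n → MvPowerSeries (Fin m) K)
    (ha : ∀ i, constantCoeff (a i) = 0) (g : MvPowerSeries (Fin n) K) :
    constantCoeff (subst a g) = constantCoeff g := by
  have h := hasSubst_of_constantCoeff_zero ha
  have e : g = (g - C (constantCoeff g)) + C (constantCoeff g) := by ring
  conv_lhs => rw [e]
  rw [subst_add h, map_add, constantCoeff_subst0_aux a ha _ (by simp), subst_C0 a ha]
  simp

/-- the pieces in the decomposition of a series without constant term -/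
noncomputable def linPiece (i : Fin n) (g : MvPowerSeries (Fin n) K) :
    MvPowerSeries (Fin n) K := by
  classical
  exact fun a => if ∀ j, j < i → a j = 0 then coeff (a + Finsupp.single i 1) g else 0

lemma coeff_linPiece (i : Fin n) (g : MvPowerSeries (Fin n) K) (a : Fin n →₀ ℕ)
    [Decidable (∀ j, j < i → a j = 0)] :
    coeff a (linPiece i g) = if ∀ j, j < i → a j = 0 then
      coeff (a + Finsupp.single i 1) g else 0 := by
  change linPiece i g a = _
  unfold linPiece
  congr

lemma coeff_X_mul0 (i : Fin n) (h : MvPowerSeries (Fin n) K) (e : Fin n →₀ ℕ) :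
    coeff e (X i * h) = if 1 ≤ e i then coeff (e - Finsupp.single i 1) h else 0 := by
  classical
  rw [X_def, coeff_monomial_mul]
  by_cases h1 : 1 ≤ e i
  · rw [if_pos h1, if_pos, one_mul]
    rw [Finsupp.single_le_iff]
    exact h1
  · rw [if_neg h1, if_neg]
    rw [Finsupp.single_le_iff]
    exact h1

lemma eq_sum_linPiece (g : MvPowerSeries (Fin n) K) (hg : constantCoeff g = 0) :
    g = ∑ i, X i * linPiece i g := by
  classical
  ext e
  rw [map_sum]
  simp_rw [coeff_X_mul0, coeff_linPiece]
  by_cases he : e = 0
  · subst he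
    have h1 : coeff 0 g = 0 := hg
    rw [h1]
    symm
    exact Finset.sum_eq_zero fun i _ => by simp
  · have hne : (Finset.univ.filter fun i : Fin n => e i ≠ 0).Nonempty := by
      obtain ⟨i, hi⟩ := Finsupp.ne_iff.mp he
      exact ⟨i, by simpa using hi⟩
    set i0 := (Finset.univ.filter fun i : Fin n => e i ≠ 0).min' hne with hi0
    have hmem : i0 ∈ Finset.univ.filter fun i : Fin n => e i ≠ 0 := Finset.min'_mem _ _
    have hi0' : e i0 ≠ 0 := (Finset.mem_filter.mp hmem).2
    have hlt : ∀ j, j < i0 → e j = 0 := by
      intro j hj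
      by_contra hj2
      have h3 : i0 ≤ j := Finset.min'_le _ j (Finset.mem_filter.mpr ⟨Finset.mem_univ _, hj2⟩)
      exact absurd hj (not_lt.mpr h3)
    rw [Finset.sum_eq_single i0]
    · rw [if_pos (by omega), if_pos]
      · congr 1
        rw [tsub_add_cancel_of_le]
        rw [Finsupp.single_le_iff]
        omega
      · intro j hj
        rw [Finsupp.tsub_apply, hlt j hj]
        simp
    · intro i _ hi
      by_cases h1 : 1 ≤ e i
      · rw [if_pos h1, if_neg]
        intro hall
        have h2 : i0 < i := by
          refine lt_of_le_of_ne ?_ (Ne.symm hi)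
          exact Finset.min'_le _ _ (Finset.mem_filter.mpr ⟨Finset.mem_univ _, by omega⟩)
        have h3 := hall i0 h2
        rw [Finsupp.tsub_apply, Finsupp.single_apply, if_neg (ne_of_gt h2)] at h3
        omega
      · rw [if_neg h1]
    · intro h
      exact absurd (Finset.mem_univ _) h

lemma le_order_linPiece (i : Fin n) (g : MvPowerSeries (Fin n) K) (k : ℕ)
    (hg : ((k + 1 : ℕ) : ℕ∞) ≤ g.order) : (k : ℕ∞) ≤ (linPiece i g).order := by
  classical
  refine nat_le_order fun d hd => ?_
  rw [coeff_linPiece]
  split_ifs with h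
  · refine coeff_of_lt_order (lt_of_lt_of_le ?_ hg)
    have h1 : (d + Finsupp.single i 1).degree = d.degree + 1 := by
      rw [map_add, Finsupp.degree_single]
    rw [h1]
    exact_mod_cast (by omega : d.degree + 1 < k + 1)
  · rfl

lemma lin_subst (a : Fin n → MvPowerSeries (Fin m) K) (ha : ∀ i, constantCoeff (a i) = 0)
    (g : MvPowerSeries (Fin n) K) (j : Fin m) :
    lin (subst a g) j = ∑ i, lin g i * lin (a i) j := by
  have h := hasSubst_of_constantCoeff_zero ha
  set g0 := g - C (constantCoeff g) with hg0
  have hg0c : constantCoeff g0 = 0 := by rw [hg0]; simp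
  have e0 : g = g0 + C (constantCoeff g) := by rw [hg0]; ring
  have e1 := eq_sum_linPiece g0 hg0c
  have e2 : subst a g = (∑ i, a i * subst a (linPiece i g0)) + C (constantCoeff g) := by
    conv_lhs => rw [e0, subst_add h, subst_C0 a ha, e1]
    congr 1
    rw [← coe_substAlgHom h, map_sum]
    refine Finset.sum_congr rfl fun i _ => ?_
    rw [map_mul, substAlgHom_X]
  have e3 : ∀ i, lin g i = constantCoeff (linPiece i g0) := by
    intro i
    have h1 : lin g = lin g0 := by
      conv_lhs => rw [e0, lin_add, lin_C, add_zero]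
    rw [h1]
    conv_lhs => rw [e1]
    unfold lin
    rw [map_sum, Finset.sum_eq_single i]
    · rw [coeff_X_mul0, if_pos (by simp), tsub_self]
      rfl
    · intro k _ hk
      rw [coeff_X_mul0, if_neg]
      rw [Finsupp.single_apply, if_neg (Ne.symm hk)]
      omega
    · intro h
      exact absurd (Finset.mem_univ _) h
  have e4 : lin (∑ i, a i * subst a (linPiece i g0)) = ∑ i, lin (a i * subst a (linPiece i g0)) := by
    funext k
    simp [lin, Finset.sum_apply]
  rw [e2, lin_add, lin_C, add_zero, e4, Finset.sum_apply]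
  refine Finset.sum_congr rfl fun i _ => ?_
  rw [lin_mul, ha, zero_smul, zero_add, constantCoeff_subst0 a ha, e3]
  rfl

/-- maximal ideal = series without constant term -/
lemma mem_maximalIdeal_iff (g : MvPowerSeries (Fin n) K) :
    g ∈ IsLocalRing.maximalIdeal (MvPowerSeries (Fin n) K) ↔ constantCoeff g = 0 := by
  rw [IsLocalRing.mem_maximalIdeal, mem_nonunits_iff, isUnit_iff_constantCoeff,
    isUnit_iff_ne_zero, not_not]

lemma maximalIdeal_eq_span_X :
    IsLocalRing.maximalIdeal (MvPowerSeries (Fin n) K) = Ideal.span (Set.range X) := by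
  apply le_antisymm
  · intro g hg
    rw [mem_maximalIdeal_iff] at hg
    rw [eq_sum_linPiece g hg]
    exact Ideal.sum_mem _ fun i _ => Ideal.mul_mem_right _ _ (Ideal.subset_span ⟨i, rfl⟩)
  · rw [Ideal.span_le]
    rintro _ ⟨i, rfl⟩
    rw [SetLike.mem_coe, mem_maximalIdeal_iff]
    simp

/-- `g ∈ m^k` iff all coefficients of degree `< k` vanish. -/
lemma mem_maximalIdeal_pow_iff (k : ℕ) (g : MvPowerSeries (Fin n) K) :
    g ∈ IsLocalRing.maximalIdeal (MvPowerSeries (Fin n) K) ^ k ↔ (k : ℕ∞) ≤ g.order := by
  induction k generalizing g with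
  | zero => simp
  | succ k ih =>
    constructor
    · intro h
      rw [pow_succ] at h
      induction h using Submodule.mul_induction_on' with
      | mem_mul_mem a ha b hb =>
        have h1 := (ih a).mp ha
        have h2 : (1 : ℕ∞) ≤ b.order :=
          one_le_order_iff_constCoeff_eq_zero.mpr ((mem_maximalIdeal_iff b).mp hb)
        refine le_trans ?_ le_order_mul
        push_cast
        exact add_le_add h1 h2
      | add x _ y _ hx hy => exact le_trans (le_min hx hy) min_order_le_add
    · intro h
      have hc : constantCoeff g = 0 := by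
        refine one_le_order_iff_constCoeff_eq_zero.mp (le_trans ?_ h)
        exact_mod_cast (by omega : 1 ≤ k + 1)
      rw [eq_sum_linPiece g hc, pow_succ]
      refine Ideal.sum_mem _ fun i _ => ?_
      rw [mul_comm (X i)]
      refine Ideal.mul_mem_mul ((ih _).mpr (le_order_linPiece i g k h)) ?_
      rw [mem_maximalIdeal_iff]
      simp

lemma two_le_order_iff (g : MvPowerSeries (Fin n) K) :
    2 ≤ g.order ↔ constantCoeff g = 0 ∧ lin g = 0 := by
  constructor
  · intro h
    refine ⟨one_le_order_iff_constCoeff_eq_zero.mp (le_trans (by norm_num) h), ?_⟩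
    funext i
    refine coeff_of_lt_order (lt_of_lt_of_le ?_ h)
    rw [Finsupp.degree_single]
    norm_num
  · rintro ⟨h1, h2⟩
    have h3 : ((2 : ℕ) : ℕ∞) ≤ g.order := by
      refine nat_le_order fun d hd => ?_
      by_cases hd0 : d = 0
      · rw [hd0]
        exact h1
      · have hd1 : d.degree = 1 := by
          have : d.degree ≠ 0 := by
            intro h
            exact hd0 ((Finsupp.degree_eq_zero_iff d).mp h)
          omega
        obtain ⟨i, hi⟩ : ∃ i, d = Finsupp.single i 1 := by
          obtain ⟨i, hi⟩ := Finsupp.ne_iff.mp hd0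
          refine ⟨i, ?_⟩
          have h4 : Finsupp.single i 1 ≤ d := by
            rw [Finsupp.single_le_iff]
            rw [Finsupp.coe_zero, Pi.zero_apply] at hi
            omega
          have h5 : d = Finsupp.single i 1 + (d - Finsupp.single i 1) :=
            (add_tsub_cancel_of_le h4).symm
          have h6 : (d - Finsupp.single i 1).degree = 0 := by
            have := congrArg Finsupp.degree h5
            rw [map_add, Finsupp.degree_single, hd1] at this
            omega
          rw [(Finsupp.degree_eq_zero_iff _).mp h6, add_zero] at h5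
          exact h5
        rw [hi]
        exact congrFun h2 i
    exact_mod_cast h3

lemma order_eq_one_iff (g : MvPowerSeries (Fin n) K) :
    g.order = 1 ↔ constantCoeff g = 0 ∧ lin g ≠ 0 := by
  have h1 := two_le_order_iff g
  have h2 := one_le_order_iff_constCoeff_eq_zero (f := g)
  constructor
  · intro h
    have hc := h2.mp (le_of_eq h.symm)
    refine ⟨hc, fun hl => ?_⟩
    have h3 := h1.mpr ⟨hc, hl⟩
    rw [h] at h3
    exact absurd h3 (by norm_num)
  · rintro ⟨hc, hl⟩
    have h3 := h2.mpr hc
    have h4 : ¬ 2 ≤ g.order := fun h => hl (h1.mp h).2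
    rw [not_le] at h4
    apply le_antisymm _ h3
    have h5 : (2 : ℕ∞) = 1 + 1 := by norm_num
    rw [h5] at h4
    exact Order.le_of_lt_add_one h4

lemma order_map_eq {L : Type*} [Field L] (φ : K →+* L) (g : MvPowerSeries (Fin n) K) :
    (MvPowerSeries.map φ g).order = g.order := by
  apply le_antisymm
  · refine le_order fun d hd => ?_
    have h := coeff_of_lt_order hd
    rw [coeff_map] at h
    exact (map_eq_zero φ).mp h
  · exact le_order_map φ

lemma order_le_order_subst (a : Fin n → MvPowerSeries (Fin m) K)
    (ha : ∀ i, constantCoeff (a i) = 0) (g : MvPowerSeries (Fin n) K) :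
    g.order ≤ (subst a g).order := by
  have h := hasSubst_of_constantCoeff_zero ha
  have key : ∀ (k : ℕ) (g : MvPowerSeries (Fin n) K), (k : ℕ∞) ≤ g.order →
      (k : ℕ∞) ≤ (subst a g).order := by
    intro k
    induction k with
    | zero => intro g _; simp
    | succ k ih =>
      intro g hg
      have hc : constantCoeff g = 0 := by
        refine one_le_order_iff_constCoeff_eq_zero.mp (le_trans ?_ hg)
        exact_mod_cast (by omega : 1 ≤ k + 1)
      have e2 : subst a g = ∑ i, a i * subst a (linPiece i g) := by
        conv_lhs => rw [eq_sum_linPiece g hc]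
        rw [← coe_substAlgHom h, map_sum]
        refine Finset.sum_congr rfl fun i _ => ?_
        rw [map_mul, substAlgHom_X]
      rw [e2, ← mem_maximalIdeal_pow_iff, pow_succ]
      refine Ideal.sum_mem _ fun i _ => ?_
      rw [mul_comm (a i)]
      refine Ideal.mul_mem_mul ?_ ((mem_maximalIdeal_iff _).mpr (ha i))
      rw [mem_maximalIdeal_pow_iff]
      exact ih _ (le_order_linPiece i g k hg)
  refine ENat.forall_natCast_le_iff_le.mp fun k hk => key k g hk

/-- compatibility of `map` and `subst` -/
lemma map_subst0 {L : Type*} [Field L] (φ : K →+* L) (a : Fin n → MvPowerSeries (Fin m) K)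
    (ha : ∀ i, constantCoeff (a i) = 0) (g : MvPowerSeries (Fin n) K) :
    MvPowerSeries.map φ (subst a g) =
      subst (fun i => MvPowerSeries.map φ (a i)) (MvPowerSeries.map φ g) :=
  map_subst (hasSubst_of_constantCoeff_zero ha) g

end

end Pool.Agent.Zariski
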