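import Pool.Agent.Zariski.LowA
import Pool.Agent.Zariski.Final3
import Pool.Agent.Zariski.Hyp

/-!
# The lower bound
-/

namespace Pool.Agent.Zariski

open MvPowerSeries

universe u

/-- If `g ∣ g'` then the roots agree. -/
theorem IsRoot.eq_of_dvd {r : ℕ} {K : Type*} [Field K]
    {y : Fin r → MvPowerSeries (Fin (r + 1)) K} (hy : Adm y)
    {g υ g' υ' : MvPowerSeries (Fin (r + 1)) K} {b b' : MvPowerSeries (Fin r) K}
    (h : IsRoot y g υ b) (h' : IsRoot y g' υ' b') (hd : g ∣ g') : b = b' := by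
  obtain ⟨a, ha, ha0, hay, hker⟩ := hy.exists_section h.const
  have hg : (X 0 - subst y b) ∣ g := ⟨υ, by rw [h.eq, mul_comm]⟩
  have h1 : subst a g' = 0 := (hker g').2 (hg.trans hd)
  have hs : HasSubst a := hasSubst_of_constantCoeff_zero ha
  rw [h'.eq, subst_mul hs, subst_sub hs, subst_X hs, ha0, hay] at h1
  rcases mul_eq_zero.1 h1 with h2 | h2
  · exfalso
    obtain ⟨w, hw⟩ := h'.unit
    have : subst a (↑w * ↑w⁻¹ : MvPowerSeries (Fin (r + 1)) K) = (0 : MvPowerSeries (Fin r) K) := by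
      rw [subst_mul hs, hw, h2, zero_mul]
    rw [Units.mul_inv, ← coe_substAlgHom hs, map_one] at this
    exact one_ne_zero this
  · exact sub_eq_zero.1 h2

/-- The radical of an ideal contained in a prime principal ideal. -/
theorem radical_span_le_of_prime {A : Type*} [CommRing A] {p d : A} (hp : Prime p) (h : p ∣ d) :
    (Ideal.span {d}).radical ≤ Ideal.span {p} := by
  have : (Ideal.span {p}).IsPrime := (Ideal.span_singleton_prime hp.ne_zero).2 hp
  refine (Ideal.IsPrime.radical_le_iff this).2 ?_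
  rw [Ideal.span_singleton_le_iff_mem, Ideal.mem_span_singleton]
  exact h

theorem lin_eq_smul_of_dvd {n : ℕ} {K : Type*} [Field K] {D g : MvPowerSeries (Fin n) K}
    (hg : constantCoeff g = 0) (h : g ∣ D) : ∃ c : K, lin D = c • lin g := by
  obtain ⟨c, rfl⟩ := h
  exact ⟨constantCoeff c, by rw [lin_mul, hg, zero_smul, zero_add]⟩

/-- Linear independence is preserved by extension of the field. -/
theorem linearIndependent_map_field {K L ι : Type*} [Field K] [Field L] [Fintype ι]
    [DecidableEq ι] {n : ℕ} (φ : K →+* L) {v : ι → Fin n → K} (h : LinearIndependent K v) :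
    LinearIndependent L (fun i j => φ (v i j)) := by
  obtain ⟨g, hg⟩ := (Fintype.linearCombination K v).exists_leftInverse_of_injective
    (LinearMap.ker_eq_bot'.2 (fun c hc => by
      rw [Fintype.linearIndependent_iff] at h
      funext i
      exact h c (by simpa [Fintype.linearCombination_apply] using hc) i))
  have hgv : ∀ i, g (v i) = Pi.single i 1 := by
    intro i
    have := LinearMap.congr_fun hg (Pi.single i 1)
    simpa [Fintype.linearCombination_apply] using this
  rw [Fintype.linearIndependent_iff]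
  intro c hc i'
  have key : ∀ i, ∑ j, v i j * g (Pi.single j 1) i' = if i = i' then 1 else 0 := by
    intro i
    have h1 : v i = ∑ j, v i j • (Pi.single j 1 : Fin n → K) := by
      funext k
      simp [Finset.sum_apply, Pi.single_apply]
    have h2 := congrFun (hgv i) i'
    rw [h1, map_sum, Finset.sum_apply] at h2
    simp only [map_smul, Pi.smul_apply, smul_eq_mul] at h2
    rw [h2, Pi.single_apply]
    by_cases h : i = i'
    · simp [h]
    · simp [h, Ne.symm h]
  have hcj : ∀ j, ∑ i, c i * φ (v i j) = 0 := by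
    intro j
    have := congrFun hc j
    simpa [Finset.sum_apply] using this
  calc c i' = ∑ i, c i * φ (if i = i' then 1 else 0) := by
        rw [Finset.sum_eq_single i']
        · simp
        · intro b _ hb
          simp [hb]
        · intro h; exact absurd (Finset.mem_univ _) h
    _ = ∑ i, c i * ∑ j, φ (v i j) * φ (g (Pi.single j 1) i') := by
        refine Finset.sum_congr rfl fun i _ => ?_
        rw [← key i, map_sum]
        simp only [map_mul]
    _ = ∑ j, φ (g (Pi.single j 1) i') * ∑ i, c i * φ (v i j) := by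
        simp only [Finset.mul_sum]
        rw [Finset.sum_comm]
        refine Finset.sum_congr rfl fun j _ => Finset.sum_congr rfl fun i _ => ?_
        ring
    _ = 0 := by simp [hcj]

/-- The linear part of `subst y g` is nonzero if that of `g` is. -/
theorem Adm.lin_subst_ne_zero {r : ℕ} {K : Type*} [Field K]
    {y : Fin r → MvPowerSeries (Fin (r + 1)) K} (hy : Adm y) {g : MvPowerSeries (Fin r) K}
    (hg : lin g ≠ 0) : lin (subst y g) ≠ 0 := by
  intro h
  apply hg
  have hM : IsUnit (Matrix.of fun i j : Fin r => lin (y i) j.succ).det := isUnit_iff_ne_zero.2 hy.2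
  have h2 : Matrix.vecMul (lin g) (Matrix.of fun i j : Fin r => lin (y i) j.succ) = 0 := by
    funext j
    have := congrFun h j.succ
    rw [lin_subst y hy.1] at this
    simpa [Matrix.vecMul, dotProduct] using this
  have h3 := congrArg (fun v => Matrix.vecMul v (Matrix.of fun i j : Fin r => lin (y i) j.succ)⁻¹) h2
  simpa [Matrix.vecMul_vecMul, Matrix.mul_nonsing_inv _ hM] using h3

/-- Alternative in the recursion. -/
theorem dimType_step {r : ℕ} {K : Type u} [Field K] [CharZero K]
    {f : MvPowerSeries (Fin (r + 2)) K} (hf : Squarefree f) (h0 : constantCoeff f = 0)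
    (h1 : lin f = 0) {d : ℕ}
    (hd : IsDimType (r + 1) K (Ideal.span {f}) (IsLocalRing.maximalIdeal _) d) :
    ∃ P, IsWeierstrassEq (Ideal.span {f}) P ∧
      ∃ D : MvPowerSeries (Fin (r + 1)) (Kstar (r + 1) K), Squarefree D ∧ constantCoeff D = 0 ∧
        (Ideal.span {P.discr}).radical = Ideal.span {D} ∧
        ∃ d', IsDimType r (Kstar (r + 1) K) (Ideal.span {D}) (IsLocalRing.maximalIdeal _) d' ∧
          d = d' + 1 := by
  rcases (isDimType_succ_iff hf.ne_zero h0 d).1 hd with h | ⟨-, P, hP, d', hd', hdd⟩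
  · exact absurd h1 h.1
  · obtain ⟨D, hD, hD0, hDr⟩ := exists_reduced_discr hf h0 h1 hP
    exact ⟨P, hP, D, hD, hD0, hDr, d', hDr ▸ hd', hdd⟩

section chain

/-- A component of the critical hypersurface: if `g` and `g'` are components of `f = 0` with
independent linear parts then the difference of the roots is a component of the reduced
discriminant. -/
theorem component_step {K : Type u} [Field K] {r : ℕ} {f : MvPowerSeries (Fin (r + 1)) K} {P}
    (hP : IsWeierstrassEq (Ideal.span {f}) P) {D : MvPowerSeries (Fin r) (Kstar r K)}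
    (hD : (Ideal.span {P.discr}).radical = Ideal.span {D})
    {g g' : MvPowerSeries (Fin (r + 1)) K} (hg : g ∣ f) (hg' : g' ∣ f)
    {υ υ' : MvPowerSeries (Fin (r + 1)) (Kstar r K)} {b b' : MvPowerSeries (Fin r) (Kstar r K)}
    (hr : IsRoot (xstar r K) (extCoeff r K g) υ b)
    (hr' : IsRoot (xstar r K) (extCoeff r K g') υ' b')
    (hli : LinearIndependent K ![lin g, lin g']) :
    constantCoeff (b - b') = 0 ∧ lin (b - b') ≠ 0 ∧ (b - b') ∣ D := by
  have hli' : LinearIndependent (Kstar r K)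
      ![lin (extCoeff r K g), lin (extCoeff r K g')] := by
    have h2 := linearIndependent_map_field (algebraMap K (Kstar r K)) hli
    have h3 : (fun i j => algebraMap K (Kstar r K) ((![lin g, lin g'] : Fin 2 → _) i j)) =
        ![lin (extCoeff r K g), lin (extCoeff r K g')] := by
      funext i
      fin_cases i <;> simp [extCoeff, lin_map]
    rwa [h3] at h2
  have h1 : lin (b - b') ≠ 0 := hr.lin_sub_ne_zero (adm_xstar r K) hr' hli'
  have h0 : constantCoeff (b - b') = 0 := by
    rw [map_sub, hr.const, hr'.const, sub_zero]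
  have hne : b ≠ b' := by
    rintro rfl
    apply h1
    rw [sub_self, lin_zero]
  have hdvd := sub_dvd_discr_of_isRoot hP
    (Ideal.span_singleton_le_span_singleton.2 hg) (Ideal.span_singleton_le_span_singleton.2 hg')
    hr hr' hne
  refine ⟨h0, h1, ?_⟩
  have := radical_span_le_of_prime (prime_of_lin_ne_zero h0 h1) hdvd
  rw [hD] at this
  exact Ideal.span_singleton_le_span_singleton.1 this

/-- Existence of the root over `K*` of an element of order one over `K`. -/
theorem exists_root_ext {K : Type u} [Field K] {r : ℕ} {g : MvPowerSeries (Fin (r + 1)) K}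
    (h0 : constantCoeff g = 0) (h1 : lin g ≠ 0) :
    ∃ υ b, IsRoot (xstar r K) (extCoeff r K g) υ b :=
  (adm_xstar r K).exists_root (by simp [extCoeff, h0]) (gen_lin' r K h1)

/-- The data at the first two levels. -/
structure Tower (K : Type u) [Field K] (m : ℕ) (t : K)
    (φ : Fin 6 → MvPowerSeries (Fin 6) K) where
  a1 : Fin 3 → MvPowerSeries (Fin 5) (Kstar 5 K)
  a2 : MvPowerSeries (Fin 5) (Kstar 5 K)
  a3 : Fin 3 → MvPowerSeries (Fin 5) (Kstar 5 K)
  a4 : MvPowerSeries (Fin 5) (Kstar 5 K)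
  u1 : Fin 3 → MvPowerSeries (Fin 6) (Kstar 5 K)
  u2 : MvPowerSeries (Fin 6) (Kstar 5 K)
  u3 : Fin 3 → MvPowerSeries (Fin 6) (Kstar 5 K)
  u4 : MvPowerSeries (Fin 6) (Kstar 5 K)
  b12 : Fin 3 → MvPowerSeries (Fin 4) (Kstar 4 (Kstar 5 K))
  b34 : Fin 3 → MvPowerSeries (Fin 4) (Kstar 4 (Kstar 5 K))
  e12 : Fin 3 → MvPowerSeries (Fin 5) (Kstar 4 (Kstar 5 K))
  e34 : Fin 3 → MvPowerSeries (Fin 5) (Kstar 4 (Kstar 5 K))
  c : Fin 3 → MvPowerSeries (Fin 3) (Kstar 3 (Kstar 4 (Kstar 5 K)))
  e : Fin 3 → MvPowerSeries (Fin 4) (Kstar 3 (Kstar 4 (Kstar 5 K)))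
  h1 : ∀ i, IsRoot (xstar 5 K) (extCoeff 5 K (φ 1 +
    (![0, 1, C t + φ 0 * φ 5] : Fin 3 → MvPowerSeries (Fin 6) K) i * φ 5 ^ m)) (u1 i) (a1 i)
  h2 : IsRoot (xstar 5 K) (extCoeff 5 K (φ 2)) u2 a2
  h3 : ∀ i, IsRoot (xstar 5 K) (extCoeff 5 K (φ 3 +
    (![0, 1, C t + φ 0 * φ 5] : Fin 3 → MvPowerSeries (Fin 6) K) i * φ 5 ^ m)) (u3 i) (a3 i)
  h4 : IsRoot (xstar 5 K) (extCoeff 5 K (φ 4)) u4 a4
  h12 : ∀ i, IsRoot (xstar 4 (Kstar 5 K)) (extCoeff 4 (Kstar 5 K) (a1 i - a2)) (e12 i) (b12 i)
  h34 : ∀ i, IsRoot (xstar 4 (Kstar 5 K)) (extCoeff 4 (Kstar 5 K) (a3 i - a4)) (e34 i) (b34 i)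
  hc : ∀ i, IsRoot (xstar 3 (Kstar 4 (Kstar 5 K)))
    (extCoeff 3 (Kstar 4 (Kstar 5 K)) (b12 i - b34 i)) (e i) (c i)

section tower

variable {K : Type u} [Field K] {m : ℕ} {t : K} {φ : Fin 6 → MvPowerSeries (Fin 6) K}

theorem lin_V (hφ : IsParam φ) (hm : 2 ≤ m) (j : Fin 6) (a : MvPowerSeries (Fin 6) K) :
    lin (φ j + a * φ 5 ^ m) = lin (φ j) := by
  rw [lin_add, lin_mul, lin_pow_of_two_le (hφ.1 5) hm, map_pow, hφ.1 5, zero_pow (by omega)]
  simp

theorem constantCoeff_V (hφ : IsParam φ) (hm : 2 ≤ m) (j : Fin 6)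
    (a : MvPowerSeries (Fin 6) K) : constantCoeff (φ j + a * φ 5 ^ m) = 0 := by
  rw [map_add, map_mul, map_pow, hφ.1 5, hφ.1 j, zero_pow (by omega)]
  simp

theorem lin_ne_zero (hφ : IsParam φ) (j : Fin 6) : lin (φ j) ≠ 0 :=
  ((isParam_iff_linearIndependent φ).1 hφ).2.ne_zero j

end tower

end chain

end Pool.Agent.Zariski
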