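import Pool.Agent.Zariski.Exist

/-!
# Components of the critical hypersurface
-/

namespace Pool.Agent.Zariski

open MvPowerSeries

universe u

/-- A component which is a graph gives a root of the Weierstrass equation. -/
theorem eval_eq_zero_of_isRoot {r : ℕ} {K : Type u} [Field K]
    {I : Ideal (MvPowerSeries (Fin (r + 1)) K)} {P} (hP : IsWeierstrassEq I P)
    {g : MvPowerSeries (Fin (r + 1)) K} (h : I ≤ Ideal.span {g})
    {υ : MvPowerSeries (Fin (r + 1)) (Kstar r K)}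
    {b : MvPowerSeries (Fin r) (Kstar r K)}
    (hr : IsRoot (xstar r K) (extCoeff r K g) υ b) : P.eval b = 0 := by
  obtain ⟨a, ha0, hab, hsub, hdvd⟩ := (adm_xstar r K).exists_section hr.const
  have h1 : P.eval₂ (inclStar r K) (X 0) ∈ Ideal.span {extCoeff r K g} := by
    have h2 : P.eval₂ (inclStar r K) (X 0) ∈ I.map (extCoeff r K) := by
      rw [← hP.span_eq]
      exact Ideal.mem_span_singleton_self _
    have h3 : I.map (extCoeff r K) ≤ Ideal.span {extCoeff r K g} := by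
      refine (Ideal.map_mono h).trans ?_
      rw [Ideal.map_span, Set.image_singleton]
    exact h3 h2
  have h4 : (X 0 - subst (xstar r K) b) ∣ P.eval₂ (inclStar r K) (X 0) := by
    refine dvd_trans ?_ (Ideal.mem_span_singleton.1 h1)
    rw [hr.eq]
    exact dvd_mul_left _ _
  have h5 : (subst a (P.eval₂ (inclStar r K) (X 0)) : MvPowerSeries (Fin r) (Kstar r K)) = 0 :=
    (hdvd _).2 h4
  have h6 : subHom a ha0 (P.eval₂ (inclStar r K) (X 0)) = P.eval b := by
    rw [Polynomial.hom_eval₂]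
    have h7 : (subHom a ha0).comp (inclStar r K) = RingHom.id _ := by
      ext1 F
      rw [RingHom.comp_apply, inclStar_apply, subHom_apply, hsub, RingHom.id_apply]
    have h8 : subHom a ha0 (X 0) = b := by
      rw [subHom_apply, subst_X (hasSubst_of_constantCoeff_zero ha0), hab]
    rw [h7, h8]
    rfl
  rw [← h6, subHom_apply, h5]

/-- Two roots of the Weierstrass equation: their difference divides the discriminant. -/
theorem sub_dvd_discr_of_isRoot {r : ℕ} {K : Type u} [Field K]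
    {I : Ideal (MvPowerSeries (Fin (r + 1)) K)} {P} (hP : IsWeierstrassEq I P)
    {g₁ g₂ : MvPowerSeries (Fin (r + 1)) K} (h₁ : I ≤ Ideal.span {g₁}) (h₂ : I ≤ Ideal.span {g₂})
    {υ₁ υ₂ : MvPowerSeries (Fin (r + 1)) (Kstar r K)}
    {b₁ b₂ : MvPowerSeries (Fin r) (Kstar r K)}
    (r₁ : IsRoot (xstar r K) (extCoeff r K g₁) υ₁ b₁)
    (r₂ : IsRoot (xstar r K) (extCoeff r K g₂) υ₂ b₂) (hne : b₁ ≠ b₂) :
    b₁ - b₂ ∣ P.discr :=
  haveI : IsDomain (MvPowerSeries (Fin r) (Kstar r K)) := NoZeroDivisors.to_isDomain _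
  sub_dvd_discr hP.distinguished.monic (eval_eq_zero_of_isRoot hP h₁ r₁)
    (eval_eq_zero_of_isRoot hP h₂ r₂) hne

/-- Three roots. -/
theorem sub_mul_sub_dvd_discr_of_isRoot {r : ℕ} {K : Type u} [Field K]
    {I : Ideal (MvPowerSeries (Fin (r + 1)) K)} {P} (hP : IsWeierstrassEq I P)
    {g : Fin 3 → MvPowerSeries (Fin (r + 1)) K} (h : ∀ i, I ≤ Ideal.span {g i})
    {υ : Fin 3 → MvPowerSeries (Fin (r + 1)) (Kstar r K)}
    {b : Fin 3 → MvPowerSeries (Fin r) (Kstar r K)}
    (hb : ∀ i, IsRoot (xstar r K) (extCoeff r K (g i)) (υ i) (b i))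
    (hne : Function.Injective b) :
    (b 0 - b 1) * (b 0 - b 2) ∣ P.discr :=
  haveI : IsDomain (MvPowerSeries (Fin r) (Kstar r K)) := NoZeroDivisors.to_isDomain _
  sub_mul_sub_dvd_discr hP.distinguished.monic (eval_eq_zero_of_isRoot hP (h 0) (hb 0))
    (eval_eq_zero_of_isRoot hP (h 1) (hb 1)) (eval_eq_zero_of_isRoot hP (h 2) (hb 2))
    (fun e => absurd (hne e) (by decide)) (fun e => absurd (hne e) (by decide))
    (fun e => absurd (hne e) (by decide))

/-- Where two coprime components `β₁ = 0`, `β₂ = 0` meet, the discriminant vanishes. -/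
theorem discr_mem_radical {r : ℕ} {K : Type u} [Field K] [CharZero K]
    {D : MvPowerSeries (Fin (r + 1)) K} {P} (hP : IsWeierstrassEq (Ideal.span {D}) P)
    {β₁ β₂ : MvPowerSeries (Fin (r + 1)) K}
    (h₁ : D ∈ (Ideal.span {β₁}).radical) (h₂ : D ∈ (Ideal.span {β₂}).radical)
    (hβ₁ : β₁ ≠ 0) (hβ₂ : β₂ ≠ 0)
    (hcop : ∀ π, π ∣ β₁ → π ∣ β₂ → IsUnit π) {g : MvPowerSeries (Fin r) (Kstar r K)}
    (hg : g ∈ (Ideal.span {P.discr}).radical) :
    ∃ N : ℕ, (inclStar r K g) ^ N ∈ Ideal.span {extCoeff r K β₁, extCoeff r K β₂} := by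
  have : IsDomain (MvPowerSeries (Fin (r + 1)) K) := NoZeroDivisors.to_isDomain _
  obtain ⟨b₁, -, hb₁⟩ := exists_squarefree_radical hβ₁
  obtain ⟨b₂, -, hb₂⟩ := exists_squarefree_radical hβ₂
  rw [hb₁, Ideal.mem_span_singleton] at h₁
  rw [hb₂, Ideal.mem_span_singleton] at h₂
  have d₁ : b₁ ∣ β₁ := by
    rw [← Ideal.mem_span_singleton, ← hb₁]
    exact Ideal.le_radical (Ideal.mem_span_singleton_self _)
  have d₂ : b₂ ∣ β₂ := by
    rw [← Ideal.mem_span_singleton, ← hb₂]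
    exact Ideal.le_radical (Ideal.mem_span_singleton_self _)
  have e₁ : b₁ ∈ (Ideal.span {β₁}).radical := by
    rw [hb₁]
    exact Ideal.mem_span_singleton_self _
  have e₂ : b₂ ∈ (Ideal.span {β₂}).radical := by
    rw [hb₂]
    exact Ideal.mem_span_singleton_self _
  have hrel : IsRelPrime b₁ b₂ := fun π hπ₁ hπ₂ => hcop π (hπ₁.trans d₁) (hπ₂.trans d₂)
  obtain ⟨c, hc⟩ := hrel.mul_dvd h₁ h₂
  have hPD : extCoeff r K D ∣ P.eval₂ (inclStar r K) (X 0) := by
    rw [← Ideal.mem_span_singleton]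
    have h2 : P.eval₂ (inclStar r K) (X 0) ∈ (Ideal.span {D}).map (extCoeff r K) := by
      rw [← hP.span_eq]
      exact Ideal.mem_span_singleton_self _
    rwa [Ideal.map_span, Set.image_singleton] at h2
  obtain ⟨w, hw⟩ := hPD
  obtain ⟨E, -, -, hE⟩ := (adm_xstar r K).exists_deriv
  have hE' : E (P.eval₂ (inclStar r K) (X 0)) =
      P.derivative.eval₂ (inclStar r K) (X 0) := hE P
  have key : inclStar r K g ∈ (Ideal.span {extCoeff r K β₁, extCoeff r K β₂}).radical := by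
    rw [Ideal.radical_eq_sInf, Ideal.mem_sInf]
    rintro 𝔔 ⟨hle, hprime⟩
    have f : ∀ {β b : MvPowerSeries (Fin (r + 1)) K}, b ∈ (Ideal.span {β}).radical →
        extCoeff r K β ∈ 𝔔 → extCoeff r K b ∈ 𝔔 := by
      intro β b hb hβ
      obtain ⟨n, hn⟩ := hb
      obtain ⟨s, hs⟩ := Ideal.mem_span_singleton.1 hn
      apply hprime.mem_of_pow_mem n
      rw [← map_pow, hs, map_mul]
      exact 𝔔.mul_mem_right _ hβ
    have q₁ : extCoeff r K b₁ ∈ 𝔔 := f e₁ (hle (Ideal.subset_span (by simp)))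
    have q₂ : extCoeff r K b₂ ∈ 𝔔 := f e₂ (hle (Ideal.subset_span (by simp)))
    have hprod : P.eval₂ (inclStar r K) (X 0) =
        extCoeff r K b₁ * (extCoeff r K b₂ * (extCoeff r K c * w)) := by
      rw [hw, hc, map_mul, map_mul]
      ring
    have m₂ : extCoeff r K b₂ * (extCoeff r K c * w) ∈ 𝔔 := 𝔔.mul_mem_right _ q₂
    have hP0 : P.eval₂ (inclStar r K) (X 0) ∈ 𝔔 := by
      rw [hprod]
      exact 𝔔.mul_mem_right _ q₁
    have hP1 : P.derivative.eval₂ (inclStar r K) (X 0) ∈ 𝔔 := by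
      rw [← hE', hprod, Derivation.leibniz, smul_eq_mul, smul_eq_mul]
      exact 𝔔.add_mem (𝔔.mul_mem_right _ q₁) (𝔔.mul_mem_right _ m₂)
    have hmonic : P.Monic := hP.distinguished.monic
    have hdeg : 1 ≤ P.natDegree := by
      by_contra hcon
      have h0 : P.natDegree = 0 := by omega
      have hP1' : P = 1 := Polynomial.eq_one_of_monic_natDegree_zero hmonic h0
      rw [hP1', Polynomial.eval₂_one] at hP0
      exact hprime.ne_top ((Ideal.eq_top_iff_one _).2 hP0)
    obtain ⟨p, q, hpq⟩ := C_discr_eq hmonic hdeg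
    have hdis : inclStar r K P.discr ∈ 𝔔 := by
      have h9 := congrArg (Polynomial.eval₂ (inclStar r K) (X 0)) hpq
      rw [Polynomial.eval₂_add, Polynomial.eval₂_mul, Polynomial.eval₂_mul,
        Polynomial.eval₂_C] at h9
      rw [← h9]
      exact 𝔔.add_mem (𝔔.mul_mem_right _ hP0) (𝔔.mul_mem_right _ hP1)
    obtain ⟨n, hn⟩ := hg
    obtain ⟨s, hs⟩ := Ideal.mem_span_singleton.1 hn
    apply hprime.mem_of_pow_mem n
    rw [← map_pow, hs, map_mul]
    exact 𝔔.mul_mem_right _ hdis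
  exact key

end Pool.Agent.Zariski
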