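import Pool.Agent.Zariski.Low

/-!
# The tower of roots
-/

namespace Pool.Agent.Zariski

open MvPowerSeries

universe u

section tower

variable {K : Type u} [Field K] {m : ℕ} {t : K} {φ : Fin 6 → MvPowerSeries (Fin 6) K}

/-- Linear independence of the linear parts after extension of the coefficients. -/
theorem linearIndependent_ext {r : ℕ} {ι : Type*} [Fintype ι] [DecidableEq ι]
    {g : ι → MvPowerSeries (Fin (r + 1)) K}
    (h : LinearIndependent K (fun i => lin (g i))) :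
    LinearIndependent (Kstar r K) (fun i => lin (extCoeff r K (g i))) := by
  have h2 := linearIndependent_map_field (algebraMap K (Kstar r K)) h
  have h3 : (fun i j => algebraMap K (Kstar r K) (lin (g i) j)) =
      (fun i => lin (extCoeff r K (g i))) := by
    funext i
    simp only [extCoeff, lin_map]
  rwa [h3] at h2

theorem linearIndependent_V (hφ : IsParam φ) (hm : 2 ≤ m) (a b : MvPowerSeries (Fin 6) K) :
    LinearIndependent K (fun i : Fin 4 =>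
      lin ((![φ 1 + a * φ 5 ^ m, φ 2, φ 3 + b * φ 5 ^ m, φ 4] : Fin 4 → _) i)) := by
  have h := ((isParam_iff_linearIndependent φ).1 hφ).2
  have h2 := h.comp (![1, 2, 3, 4] : Fin 4 → Fin 6) (by decide)
  have h3 : ((fun i => lin (φ i)) ∘ (![1, 2, 3, 4] : Fin 4 → Fin 6)) =
      (fun i : Fin 4 =>
      lin ((![φ 1 + a * φ 5 ^ m, φ 2, φ 3 + b * φ 5 ^ m, φ 4] : Fin 4 → _) i)) := by
    funext i
    fin_cases i <;> simp [lin_V hφ hm]
  rwa [h3] at h2

theorem linearIndependent_V12 (hφ : IsParam φ) (hm : 2 ≤ m) (a : MvPowerSeries (Fin 6) K) :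
    LinearIndependent K ![lin (φ 1 + a * φ 5 ^ m), lin (φ 2)] := by
  have h := ((isParam_iff_linearIndependent φ).1 hφ).2
  have h2 := h.comp (![1, 2] : Fin 2 → Fin 6) (by decide)
  have h3 : ((fun i => lin (φ i)) ∘ (![1, 2] : Fin 2 → Fin 6)) =
      ![lin (φ 1 + a * φ 5 ^ m), lin (φ 2)] := by
    funext i
    fin_cases i <;> simp [lin_V hφ hm]
  rwa [h3] at h2

theorem linearIndependent_V34 (hφ : IsParam φ) (hm : 2 ≤ m) (a : MvPowerSeries (Fin 6) K) :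
    LinearIndependent K ![lin (φ 3 + a * φ 5 ^ m), lin (φ 4)] := by
  have h := ((isParam_iff_linearIndependent φ).1 hφ).2
  have h2 := h.comp (![3, 4] : Fin 2 → Fin 6) (by decide)
  have h3 : ((fun i => lin (φ i)) ∘ (![3, 4] : Fin 2 → Fin 6)) =
      ![lin (φ 3 + a * φ 5 ^ m), lin (φ 4)] := by
    funext i
    fin_cases i <;> simp [lin_V hφ hm]
  rwa [h3] at h2

theorem IsRoot.lin_sub_ne_zero_ext {r : ℕ} {g₁ g₂ : MvPowerSeries (Fin (r + 1)) K}
    {υ₁ υ₂ : MvPowerSeries (Fin (r + 1)) (Kstar r K)} {b₁ b₂ : MvPowerSeries (Fin r) (Kstar r K)}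
    (h₁ : IsRoot (xstar r K) (extCoeff r K g₁) υ₁ b₁)
    (h₂ : IsRoot (xstar r K) (extCoeff r K g₂) υ₂ b₂)
    (hli : LinearIndependent K ![lin g₁, lin g₂]) : lin (b₁ - b₂) ≠ 0 := by
  refine h₁.lin_sub_ne_zero (adm_xstar r K) h₂ ?_
  have h2 := linearIndependent_map_field (algebraMap K (Kstar r K)) hli
  have h3 : (fun i j => algebraMap K (Kstar r K) ((![lin g₁, lin g₂] : Fin 2 → _) i j)) =
      ![lin (extCoeff r K g₁), lin (extCoeff r K g₂)] := by
    funext i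
    fin_cases i <;> simp [extCoeff, lin_map]
  rwa [h3] at h2

theorem IsRoot.constantCoeff_sub {r : ℕ} {y y' : Fin r → MvPowerSeries (Fin (r + 1)) K}
    {g₁ g₂ : MvPowerSeries (Fin (r + 1)) K}
    {υ₁ υ₂ : MvPowerSeries (Fin (r + 1)) K} {b₁ b₂ : MvPowerSeries (Fin r) K}
    (h₁ : IsRoot y g₁ υ₁ b₁) (h₂ : IsRoot y' g₂ υ₂ b₂) : constantCoeff (b₁ - b₂) = 0 := by
  rw [map_sub, h₁.const, h₂.const, sub_zero]

/-- the four roots at the first level give two independent linear forms -/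
theorem li_level1 (hφ : IsParam φ) (hm : 2 ≤ m) {a b : MvPowerSeries (Fin 6) K}
    {u1 u2 u3 u4 : MvPowerSeries (Fin 6) (Kstar 5 K)}
    {a1 a2 a3 a4 : MvPowerSeries (Fin 5) (Kstar 5 K)}
    (h1 : IsRoot (xstar 5 K) (extCoeff 5 K (φ 1 + a * φ 5 ^ m)) u1 a1)
    (h2 : IsRoot (xstar 5 K) (extCoeff 5 K (φ 2)) u2 a2)
    (h3 : IsRoot (xstar 5 K) (extCoeff 5 K (φ 3 + b * φ 5 ^ m)) u3 a3)
    (h4 : IsRoot (xstar 5 K) (extCoeff 5 K (φ 4)) u4 a4) :
    LinearIndependent (Kstar 5 K) ![lin (a1 - a2), lin (a3 - a4)] := by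
  have hli := linearIndependent_ext (linearIndependent_V hφ hm a b)
  have h : ∀ i : Fin 4, IsRoot (xstar 5 K)
      (extCoeff 5 K ((![φ 1 + a * φ 5 ^ m, φ 2, φ 3 + b * φ 5 ^ m, φ 4] : Fin 4 → _) i))
      ((![u1, u2, u3, u4] : Fin 4 → _) i) ((![a1, a2, a3, a4] : Fin 4 → _) i) :=
    Fin.forall_fin_succ.2 ⟨h1, Fin.forall_fin_succ.2 ⟨h2, Fin.forall_fin_succ.2 ⟨h3,
      Fin.forall_fin_succ.2 ⟨h4, fun i => i.elim0⟩⟩⟩⟩
  have := IsRoot.linearIndependent_sub (adm_xstar 5 K) h hli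
  simpa only [Matrix.cons_val] using this

theorem exists_tower (hφ : IsParam φ) (hm : 2 ≤ m) : Nonempty (Tower K m t φ) := by
  classical
  have e1 : ∀ i : Fin 3, ∃ υ b, IsRoot (xstar 5 K) (extCoeff 5 K (φ 1 +
      (![0, 1, C t + φ 0 * φ 5] : Fin 3 → MvPowerSeries (Fin 6) K) i * φ 5 ^ m)) υ b :=
    fun i => exists_root_ext (constantCoeff_V hφ hm 1 _)
      (by rw [lin_V hφ hm]; exact lin_ne_zero hφ 1)
  have e3 : ∀ i : Fin 3, ∃ υ b, IsRoot (xstar 5 K) (extCoeff 5 K (φ 3 +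
      (![0, 1, C t + φ 0 * φ 5] : Fin 3 → MvPowerSeries (Fin 6) K) i * φ 5 ^ m)) υ b :=
    fun i => exists_root_ext (constantCoeff_V hφ hm 3 _)
      (by rw [lin_V hφ hm]; exact lin_ne_zero hφ 3)
  obtain ⟨u2, a2, h2⟩ := exists_root_ext (hφ.1 2) (lin_ne_zero hφ 2)
  obtain ⟨u4, a4, h4⟩ := exists_root_ext (hφ.1 4) (lin_ne_zero hφ 4)
  choose u1 a1 h1 using e1
  choose u3 a3 h3 using e3
  have e12 : ∀ i : Fin 3, ∃ υ b, IsRoot (xstar 4 (Kstar 5 K))
      (extCoeff 4 (Kstar 5 K) (a1 i - a2)) υ b :=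
    fun i => exists_root_ext ((h1 i).constantCoeff_sub h2)
      ((h1 i).lin_sub_ne_zero_ext h2 (linearIndependent_V12 hφ hm _))
  have e34 : ∀ i : Fin 3, ∃ υ b, IsRoot (xstar 4 (Kstar 5 K))
      (extCoeff 4 (Kstar 5 K) (a3 i - a4)) υ b :=
    fun i => exists_root_ext ((h3 i).constantCoeff_sub h4)
      ((h3 i).lin_sub_ne_zero_ext h4 (linearIndependent_V34 hφ hm _))
  choose e12 b12 h12 using e12
  choose e34 b34 h34 using e34
  have ec : ∀ i : Fin 3, ∃ υ b, IsRoot (xstar 3 (Kstar 4 (Kstar 5 K)))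
      (extCoeff 3 (Kstar 4 (Kstar 5 K)) (b12 i - b34 i)) υ b :=
    fun i => exists_root_ext ((h12 i).constantCoeff_sub (h34 i))
      ((h12 i).lin_sub_ne_zero_ext (h34 i) (li_level1 hφ hm (h1 i) h2 (h3 i) h4))
  choose e c hc using ec
  exact ⟨⟨a1, a2, a3, a4, u1, u2, u3, u4, b12, b34, e12, e34, c, e, h1, h2, h3, h4, h12, h34, hc⟩⟩

end tower

end Pool.Agent.Zariski
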