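import Pool.Agent.Zariski.LowB

/-!
# The key data attached to the tower
-/

namespace Pool.Agent.Zariski

open MvPowerSeries

universe u

section tower

variable {K : Type u} [Field K] {m : ℕ} {t : K} {φ : Fin 6 → MvPowerSeries (Fin 6) K}

theorem sum_dir_map {r : ℕ} {L L' : Type*} [Field L] [Field L'] (ψ : L →+* L')
    {y : Fin r → MvPowerSeries (Fin (r + 1)) L} (hy : Adm y) (l : Fin (r + 1) → L) :
    ∑ j, ψ (l j) * dir (fun i => MvPowerSeries.map ψ (y i)) j = ψ (∑ j, l j * dir y j) := by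
  rw [map_sum]
  exact Finset.sum_congr rfl fun j _ => by rw [dir_map ψ hy, map_mul]

theorem constantCoeff_ne_zero_of_isUnit {n : ℕ} {L : Type*} [Field L]
    {υ : MvPowerSeries (Fin n) L} (h : IsUnit υ) : constantCoeff υ ≠ 0 :=
  (h.map (constantCoeff (σ := Fin n) (R := L))).ne_zero

theorem map_map_apply {n : ℕ} {A B D : Type*} [CommRing A] [CommRing B] [CommRing D]
    (f : A →+* B) (g : B →+* D) (F : MvPowerSeries (Fin n) A) :
    MvPowerSeries.map g (MvPowerSeries.map f F) = MvPowerSeries.map (g.comp f) F := by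
  ext d
  simp

theorem Tower.keyData (T : Tower K m t φ) (hφ : IsParam φ) (hm : 2 ≤ m) :
    Nonempty (KeyData m ((((algebraMap (Kstar 4 (Kstar 5 K)) (Kstar 3 (Kstar 4 (Kstar 5 K)))).comp
      (algebraMap (Kstar 5 K) (Kstar 4 (Kstar 5 K)))).comp (algebraMap K (Kstar 5 K))) t)
      (T.c 0 - T.c 1) (T.c 0 - T.c 2)) := by
  set j2 : Kstar 4 (Kstar 5 K) →+* Kstar 3 (Kstar 4 (Kstar 5 K)) := algebraMap _ _ with hj2
  set j1 : Kstar 5 K →+* Kstar 3 (Kstar 4 (Kstar 5 K)) :=
    j2.comp (algebraMap (Kstar 5 K) (Kstar 4 (Kstar 5 K))) with hj1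
  set j0 : K →+* Kstar 3 (Kstar 4 (Kstar 5 K)) := j1.comp (algebraMap K (Kstar 5 K)) with hj0
  have hm10 : ∀ g : MvPowerSeries (Fin 6) K,
      MvPowerSeries.map j1 (extCoeff 5 K g) = MvPowerSeries.map j0 g := fun g => by
    rw [extCoeff, map_map_apply]
  have hm21 : ∀ g : MvPowerSeries (Fin 5) (Kstar 5 K),
      MvPowerSeries.map j2 (extCoeff 4 (Kstar 5 K) g) = MvPowerSeries.map j1 g := fun g => by
    rw [extCoeff, map_map_apply]
  have hα : (fun i => MvPowerSeries.map j0
      ((![0, 1, C t + φ 0 * φ 5] : Fin 3 → MvPowerSeries (Fin 6) K) i)) =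
      ![0, 1, C (j0 t) + MvPowerSeries.map j0 (φ 0) * MvPowerSeries.map j0 (φ 5)] := by
    funext i
    fin_cases i
    · exact map_zero _
    · exact map_one _
    · simp
  refine key_formula hm (j0 t) (y := fun i => MvPowerSeries.map j1 (xstar 5 K i))
    ((adm_xstar 5 K).map j1) (z := fun i => MvPowerSeries.map j2 (xstar 4 (Kstar 5 K) i))
    ((adm_xstar 4 (Kstar 5 K)).map j2) (ζ := xstar 3 (Kstar 4 (Kstar 5 K)))
    (adm_xstar 3 (Kstar 4 (Kstar 5 K))) (φ := fun i => MvPowerSeries.map j0 (φ i)) (hφ.map j0)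
    (α := fun i => MvPowerSeries.map j0
      ((![0, 1, C t + φ 0 * φ 5] : Fin 3 → MvPowerSeries (Fin 6) K) i)) hα
    (a1 := fun i => MvPowerSeries.map j1 (T.a1 i)) (a3 := fun i => MvPowerSeries.map j1 (T.a3 i))
    (u1 := fun i => MvPowerSeries.map j1 (T.u1 i)) (u3 := fun i => MvPowerSeries.map j1 (T.u3 i))
    ?_ ?_
    (a2 := MvPowerSeries.map j1 T.a2) (a4 := MvPowerSeries.map j1 T.a4)
    (u2 := MvPowerSeries.map j1 T.u2) (u4 := MvPowerSeries.map j1 T.u4) ?_ ?_
    (b12 := fun i => MvPowerSeries.map j2 (T.b12 i))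
    (b34 := fun i => MvPowerSeries.map j2 (T.b34 i))
    (e12 := fun i => MvPowerSeries.map j2 (T.e12 i))
    (e34 := fun i => MvPowerSeries.map j2 (T.e34 i)) ?_ ?_ (c := T.c) (e := T.e) ?_ ?_ ?_
  · intro i
    have := (T.h1 i).map j1 (constantCoeff_xstar 5 K)
    rw [hm10, map_add, map_mul, map_pow] at this
    exact this
  · intro i
    have := (T.h3 i).map j1 (constantCoeff_xstar 5 K)
    rw [hm10, map_add, map_mul, map_pow] at this
    exact this
  · have := T.h2.map j1 (constantCoeff_xstar 5 K)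
    rw [hm10] at this
    exact this
  · have := T.h4.map j1 (constantCoeff_xstar 5 K)
    rw [hm10] at this
    exact this
  · intro i
    have := (T.h12 i).map j2 (constantCoeff_xstar 4 (Kstar 5 K))
    rw [hm21, map_sub] at this
    exact this
  · intro i
    have := (T.h34 i).map j2 (constantCoeff_xstar 4 (Kstar 5 K))
    rw [hm21, map_sub] at this
    exact this
  · intro i
    have := T.hc i
    rw [extCoeff, ← hj2, map_sub] at this
    exact this
  · have h := gen_lin' 5 K (lin_ne_zero hφ 5)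
    have h2 := sum_dir_map j1 (adm_xstar 5 K) (lin (extCoeff 5 K (φ 5)))
    have h3 : ∀ j, lin (MvPowerSeries.map j0 (φ 5)) j = j1 (lin (extCoeff 5 K (φ 5)) j) := by
      intro j
      rw [extCoeff, lin_map, lin_map]
      rfl
    simp only [h3, h2]
    exact (map_ne_zero j1).2 h
  · have hli := li_level1 hφ hm (T.h1 0) T.h2 (T.h3 0) T.h4
    have hu1 := constantCoeff_ne_zero_of_isUnit (T.h1 0).unit
    have hl : (constantCoeff (T.u1 0)) • lin (T.a1 0 - T.a2) -
        (constantCoeff (T.u3 0)) • lin (T.a3 0 - T.a4) ≠ 0 := by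
      intro h0
      have h1 := (LinearIndependent.pair_iff.1 hli) (constantCoeff (T.u1 0))
        (-(constantCoeff (T.u3 0))) (by rw [neg_smul, ← sub_eq_add_neg]; exact h0)
      exact hu1 h1.1
    have hg := gen_lin 4 (Kstar 5 K) hl
    have e1 := (T.h12 0).constantCoeff_unit (adm_xstar 4 (Kstar 5 K))
    have e3 := (T.h34 0).constantCoeff_unit (adm_xstar 4 (Kstar 5 K))
    intro heq
    apply hg
    have c1 : ∀ {n : ℕ} {A B : Type u} [Field A] [Field B] (ψ : A →+* B)
        (g : MvPowerSeries (Fin n) A),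
        constantCoeff (MvPowerSeries.map ψ g) = ψ (constantCoeff g) := by
      intro n A B _ _ ψ g
      simp
    rw [c1, c1, c1, c1] at heq
    simp only [hj1, RingHom.comp_apply, ← map_mul] at heq
    have heq' := j2.injective heq
    rw [e1, e3] at heq'
    rw [extCoeff, lin_map, lin_map] at heq'
    rw [Finset.mul_sum, Finset.mul_sum, ← sub_eq_zero, ← Finset.sum_sub_distrib] at heq'
    rw [← heq']
    refine Finset.sum_congr rfl fun j _ => ?_
    simp only [Pi.sub_apply, Pi.smul_apply, smul_eq_mul, map_sub, map_mul]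
    ring

end tower

end Pool.Agent.Zariski
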