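import Pool.Agent.Zariski.LowC

/-!
# The lower bound
-/

namespace Pool.Agent.Zariski

open MvPowerSeries

universe u

section final

/-- The properties of the pair `(β₁, β₂)` over the field itself. -/
structure GoodPair {L : Type u} [Field L] (β₁ β₂ : MvPowerSeries (Fin 3) L) : Prop where
  c₁ : constantCoeff β₁ = 0
  c₂ : constantCoeff β₂ = 0
  cop : ∀ π, π ∣ β₁ → π ∣ β₂ → IsUnit π
  pow : ∀ (L' : Type u) [Field L'] (ψ : L →+* L') (δ : MvPowerSeries (Fin 3) L'),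
    constantCoeff δ = 0 → lin δ ≠ 0 → ∀ N : ℕ,
      δ ^ N ∉ Ideal.span {MvPowerSeries.map ψ β₁, MvPowerSeries.map ψ β₂}

theorem map_constantCoeff' {n : ℕ} {A B : Type*} [Field A] [Field B] (ψ : A →+* B)
    (g : MvPowerSeries (Fin n) A) :
    constantCoeff (MvPowerSeries.map ψ g) = ψ (constantCoeff g) := by
  simp

theorem isUnit_of_isUnit_map {n : ℕ} {A B : Type*} [Field A] [Field B] (ψ : A →+* B)
    {g : MvPowerSeries (Fin n) A} (h : IsUnit (MvPowerSeries.map ψ g)) : IsUnit g := by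
  rw [MvPowerSeries.isUnit_iff_constantCoeff] at h ⊢
  rw [map_constantCoeff'] at h
  rw [isUnit_iff_ne_zero] at h ⊢
  exact fun h0 => h (by rw [h0, map_zero])

theorem KeyData.goodPair {L : Type u} [Field L] [CharZero L] {m : ℕ} (hm : 4 ≤ m) {t : L}
    {β₁ β₂ : MvPowerSeries (Fin 3) L} (h : KeyData m t β₁ β₂)
    (c₁ : constantCoeff β₁ = 0) (c₂ : constantCoeff β₂ = 0) : GoodPair β₁ β₂ := by
  refine ⟨c₁, c₂, ?_, ?_⟩
  · intro π h1 h2
    obtain ⟨h'⟩ := h.map (algebraMap L (AlgebraicClosure L))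
    exact isUnit_of_isUnit_map (algebraMap L (AlgebraicClosure L))
      (h'.isUnit_of_dvd hm (map_dvd _ h1) (map_dvd _ h2))
  · intro L' _ ψ δ h0 h1 N hN
    have : CharZero L' := charZero_of_injective_ringHom ψ.injective
    let ω : L' →+* AlgebraicClosure L' := algebraMap L' (AlgebraicClosure L')
    obtain ⟨h'⟩ := h.map (ω.comp ψ)
    refine h'.pow_notMem hm (δ := MvPowerSeries.map ω δ) ?_ ?_ N ?_
    · rw [map_constantCoeff', h0, map_zero]
    · intro h2
      apply h1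
      funext j
      have := congrFun h2 j
      rw [lin_map] at this
      exact (map_eq_zero ω).1 this
    · have h3 := Ideal.mem_map_of_mem (MvPowerSeries.map (σ := Fin 3) ω) hN
      rw [Ideal.map_span, Set.image_pair, map_map_apply, map_map_apply, map_pow] at h3
      exact h3

section

variable {L : Type u} [Field L] {β₁ β₂ : MvPowerSeries (Fin 3) L}

theorem not_isUnit_of_constantCoeff {n : ℕ} {L : Type*} [Field L] {g : MvPowerSeries (Fin n) L}
    (h : constantCoeff g = 0) : ¬ IsUnit g :=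
  fun hu => constantCoeff_ne_zero_of_isUnit hu h

theorem GoodPair.ne₁ (h : GoodPair β₁ β₂) : β₁ ≠ 0 := by
  rintro rfl
  exact not_isUnit_of_constantCoeff h.c₂ (h.cop β₂ (dvd_zero _) dvd_rfl)

theorem GoodPair.ne₂ (h : GoodPair β₁ β₂) : β₂ ≠ 0 := by
  rintro rfl
  exact not_isUnit_of_constantCoeff h.c₁ (h.cop β₁ dvd_rfl (dvd_zero _))

theorem GoodPair.ne (h : GoodPair β₁ β₂) : β₁ ≠ β₂ := by
  rintro rfl
  exact not_isUnit_of_constantCoeff h.c₁ (h.cop β₁ dvd_rfl dvd_rfl)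

/-- If a prime power is divisible by a nonunit `b`, then the prime divides `b`. -/
theorem dvd_of_dvd_pow_prime {r : ℕ} {K : Type*} [Field K] {p b : MvPowerSeries (Fin r) K}
    (hp : Prime p) (hb : ¬ IsUnit b) {n : ℕ} (h : b ∣ p ^ n) : p ∣ b := by
  have : IsDomain (MvPowerSeries (Fin r) K) := NoZeroDivisors.to_isDomain _
  obtain ⟨i, -, hi⟩ := (dvd_prime_pow hp n).1 h
  rcases Nat.eq_zero_or_pos i with rfl | hi0
  · rw [pow_zero] at hi
    exact absurd (hi.symm.isUnit isUnit_one) hb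
  · exact (dvd_pow_self p hi0.ne').trans hi.symm.dvd

end

/-- the vanishing of the linear part of an element divisible by two elements with independent
linear parts -/
theorem lin_eq_zero_of_two_dvd {n : ℕ} {K : Type*} [Field K] {D g g' : MvPowerSeries (Fin n) K}
    (h0 : constantCoeff g = 0) (h0' : constantCoeff g' = 0) (h : g ∣ D) (h' : g' ∣ D)
    (hli : LinearIndependent K ![lin g, lin g']) : lin D = 0 := by
  obtain ⟨c, hc⟩ := lin_eq_smul_of_dvd h0 h
  obtain ⟨c', hc'⟩ := lin_eq_smul_of_dvd h0' h'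
  have h1 := (LinearIndependent.pair_iff.1 hli) c (-c')
    (by rw [neg_smul, ← sub_eq_add_neg, ← hc, ← hc', sub_self])
  rw [hc, h1.1, zero_smul]

/-- Two components with different roots: the linear part vanishes. -/
theorem lin_eq_zero_of_roots {r : ℕ} {K : Type u} [Field K]
    {D s s' : MvPowerSeries (Fin (r + 1)) K} (hD0 : constantCoeff D = 0)
    (hs' : constantCoeff s' = 0) (h : s ∣ D) (h' : s' ∣ D)
    {υ υ' : MvPowerSeries (Fin (r + 1)) (Kstar r K)} {c c' : MvPowerSeries (Fin r) (Kstar r K)}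
    (hr : IsRoot (xstar r K) (extCoeff r K s) υ c)
    (hr' : IsRoot (xstar r K) (extCoeff r K s') υ' c') (hne : c ≠ c') : lin D = 0 := by
  by_contra hl
  have hp := prime_of_lin_ne_zero hD0 hl
  have e1 : D ∣ s' :=
    dvd_of_dvd_pow_prime hp (not_isUnit_of_constantCoeff hs') (n := 1) (by rwa [pow_one])
  exact hne (hr.eq_of_dvd (adm_xstar r K) hr' (map_dvd (extCoeff r K) (h.trans e1)))

/-- The linear part vanishes at the third level. -/
theorem GoodPair.lin_eq_zero {L : Type u} [Field L] {β₁ β₂ D : MvPowerSeries (Fin 3) L}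
    (gp : GoodPair β₁ β₂) (hD0 : constantCoeff D = 0)
    (rad1 : D ∈ (Ideal.span {β₁}).radical) (rad2 : D ∈ (Ideal.span {β₂}).radical) :
    lin D = 0 := by
  by_contra hne
  have hp := prime_of_lin_ne_zero hD0 hne
  obtain ⟨n1, hn1⟩ := rad1
  obtain ⟨n2, hn2⟩ := rad2
  rw [Ideal.mem_span_singleton] at hn1 hn2
  exact not_isUnit_of_constantCoeff hD0 (gp.cop D
    (dvd_of_dvd_pow_prime hp (not_isUnit_of_constantCoeff gp.c₁) hn1)
    (dvd_of_dvd_pow_prime hp (not_isUnit_of_constantCoeff gp.c₂) hn2))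

/-- The radical of the discriminant at the second level. -/
theorem mem_radical_of_roots {r : ℕ} {K : Type u} [Field K]
    {D : MvPowerSeries (Fin (r + 1)) K} {P} (hP : IsWeierstrassEq (Ideal.span {D}) P)
    {D' : MvPowerSeries (Fin r) (Kstar r K)}
    (hD' : (Ideal.span {P.discr}).radical = Ideal.span {D'})
    {g : Fin 3 → MvPowerSeries (Fin (r + 1)) K} (h : ∀ i, g i ∣ D)
    {υ : Fin 3 → MvPowerSeries (Fin (r + 1)) (Kstar r K)}
    {b : Fin 3 → MvPowerSeries (Fin r) (Kstar r K)}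
    (hb : ∀ i, IsRoot (xstar r K) (extCoeff r K (g i)) (υ i) (b i))
    (hne : Function.Injective b) :
    D' ∈ (Ideal.span {b 0 - b 1}).radical ∧ D' ∈ (Ideal.span {b 0 - b 2}).radical := by
  have hprod := sub_mul_sub_dvd_discr_of_isRoot hP
    (fun i => Ideal.span_singleton_le_span_singleton.2 (h i)) hb hne
  have hmem : D' ∈ (Ideal.span {P.discr}).radical := by
    rw [hD']; exact Ideal.mem_span_singleton_self _
  exact ⟨Ideal.radical_mono (Ideal.span_singleton_le_span_singleton.2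
      ((dvd_mul_right _ _).trans hprod)) hmem, Ideal.radical_mono
      (Ideal.span_singleton_le_span_singleton.2 ((dvd_mul_left _ _).trans hprod)) hmem⟩

/-- The last level. -/
theorem GoodPair.dimType {L : Type u} [Field L] [CharZero L] {β₁ β₂ D : MvPowerSeries (Fin 3) L}
    (gp : GoodPair β₁ β₂) (hD : Squarefree D) (hD0 : constantCoeff D = 0)
    (rad1 : D ∈ (Ideal.span {β₁}).radical) (rad2 : D ∈ (Ideal.span {β₂}).radical) {d : ℕ}
    (hd : IsDimType 2 L (Ideal.span {D}) (IsLocalRing.maximalIdeal _) d) : d = 2 := by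
  obtain ⟨P3, hP3, D4, hD4, hD40, hD4r, d4, hd4, rfl⟩ :=
    dimType_step (r := 1) hD hD0 (gp.lin_eq_zero hD0 rad1 rad2) hd
  have hD4mem : D4 ∈ (Ideal.span {P3.discr}).radical := by
    rw [hD4r]; exact Ideal.mem_span_singleton_self _
  have hD4l : lin D4 = 0 := by
    by_contra hne
    obtain ⟨N, hN⟩ := discr_mem_radical hP3 rad1 rad2 gp.ne₁ gp.ne₂ gp.cop hD4mem
    refine gp.pow _ (algebraMap _ _) (inclStar 2 _ D4) ?_ ?_ N hN
    · rw [inclStar_apply, constantCoeff_subst0 _ (constantCoeff_xstar 2 _), hD40]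
    · rw [inclStar_apply]
      exact (adm_xstar 2 _).lin_subst_ne_zero hne
  rcases (isDimType_succ_iff hD4.ne_zero hD40 d4).1 hd4 with h | ⟨-, P4, hP4, d5, hd5, rfl⟩
  · exact absurd hD4l h.1
  · have : d5 = 0 := hd5
    omega

/-- The third level. -/
theorem GoodPair.dimType' {L : Type u} [Field L] [CharZero L] {D : MvPowerSeries (Fin 4) L}
    {s : Fin 3 → MvPowerSeries (Fin 4) L} {υ : Fin 3 → MvPowerSeries (Fin 4) (Kstar 3 L)}
    {c : Fin 3 → MvPowerSeries (Fin 3) (Kstar 3 L)}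
    (hc : ∀ i, IsRoot (xstar 3 L) (extCoeff 3 L (s i)) (υ i) (c i))
    (gp : GoodPair (c 0 - c 1) (c 0 - c 2))
    (hD : Squarefree D) (hD0 : constantCoeff D = 0)
    (hs : ∀ i, constantCoeff (s i) = 0) (h : ∀ i, s i ∣ D) {d : ℕ}
    (hd : IsDimType 3 L (Ideal.span {D}) (IsLocalRing.maximalIdeal _) d) : d = 3 := by
  have n01 : c 0 ≠ c 1 := fun h => gp.ne₁ (sub_eq_zero.2 h)
  have n02 : c 0 ≠ c 2 := fun h => gp.ne₂ (sub_eq_zero.2 h)
  have n12 : c 1 ≠ c 2 := fun h => gp.ne (by rw [h])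
  have hcinj : Function.Injective c := by
    intro i j hij
    fin_cases i <;> fin_cases j <;> first | rfl | skip
    · exact absurd hij n01
    · exact absurd hij n02
    · exact absurd hij.symm n01
    · exact absurd hij n12
    · exact absurd hij.symm n02
    · exact absurd hij.symm n12
  have hDl : lin D = 0 := lin_eq_zero_of_roots hD0 (hs 1) (h 0) (h 1) (hc 0) (hc 1) n01
  obtain ⟨P2, hP2, D3, hD3, hD30, hD3r, d3, hd3, rfl⟩ := dimType_step (r := 2) hD hD0 hDl hd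
  obtain ⟨rad1, rad2⟩ := mem_radical_of_roots hP2 hD3r h hc hcinj
  have := gp.dimType hD3 hD30 rad1 rad2 hd3
  omega

theorem dimType_eq_five {K : Type u} [Field K] [CharZero K]
    {φ : Fin 6 → MvPowerSeries (Fin 6) K} (hφ : IsParam φ) {m : ℕ} (hm : 4 ≤ m) {t : K}
    (ht0 : t ≠ 0) (ht1 : t ≠ 1) {d : ℕ}
    (hd : IsDimType 5 K (Ideal.span {Vf m ![0, 1, C t + φ 0 * φ 5] φ})
      (IsLocalRing.maximalIdeal _) d) : d = 5 := by
  have hm2 : 2 ≤ m := by omega
  have hm1 : 1 ≤ m := by omega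
  set f := Vf m ![0, 1, C t + φ 0 * φ 5] φ with hf
  have hsq : Squarefree f := by
    refine squarefree_Vf hφ hm2 ?_
    have e0 : constantCoeff ((![0, 1, C t + φ 0 * φ 5] : Fin 3 → MvPowerSeries (Fin 6) K) 0) = 0 :=
      map_zero _
    have e1 : constantCoeff ((![0, 1, C t + φ 0 * φ 5] : Fin 3 → MvPowerSeries (Fin 6) K) 1) = 1 :=
      map_one _
    have e2 : constantCoeff ((![0, 1, C t + φ 0 * φ 5] : Fin 3 → MvPowerSeries (Fin 6) K) 2) = t :=
      by simp [hφ.1 0]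
    intro i j hij
    fin_cases i <;> fin_cases j <;> first | exact absurd rfl hij | skip
    · change constantCoeff ((![0, 1, C t + φ 0 * φ 5] : Fin 3 → MvPowerSeries (Fin 6) K) 0) ≠
        constantCoeff ((![0, 1, C t + φ 0 * φ 5] : Fin 3 → MvPowerSeries (Fin 6) K) 1)
      rw [e0, e1]; exact zero_ne_one
    · change constantCoeff ((![0, 1, C t + φ 0 * φ 5] : Fin 3 → MvPowerSeries (Fin 6) K) 0) ≠
        constantCoeff ((![0, 1, C t + φ 0 * φ 5] : Fin 3 → MvPowerSeries (Fin 6) K) 2)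
      rw [e0, e2]; exact ht0.symm
    · change constantCoeff ((![0, 1, C t + φ 0 * φ 5] : Fin 3 → MvPowerSeries (Fin 6) K) 1) ≠
        constantCoeff ((![0, 1, C t + φ 0 * φ 5] : Fin 3 → MvPowerSeries (Fin 6) K) 0)
      rw [e0, e1]; exact one_ne_zero
    · change constantCoeff ((![0, 1, C t + φ 0 * φ 5] : Fin 3 → MvPowerSeries (Fin 6) K) 1) ≠
        constantCoeff ((![0, 1, C t + φ 0 * φ 5] : Fin 3 → MvPowerSeries (Fin 6) K) 2)
      rw [e1, e2]; exact ht1.symm
    · change constantCoeff ((![0, 1, C t + φ 0 * φ 5] : Fin 3 → MvPowerSeries (Fin 6) K) 2) ≠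
        constantCoeff ((![0, 1, C t + φ 0 * φ 5] : Fin 3 → MvPowerSeries (Fin 6) K) 0)
      rw [e0, e2]; exact ht0
    · change constantCoeff ((![0, 1, C t + φ 0 * φ 5] : Fin 3 → MvPowerSeries (Fin 6) K) 2) ≠
        constantCoeff ((![0, 1, C t + φ 0 * φ 5] : Fin 3 → MvPowerSeries (Fin 6) K) 1)
      rw [e1, e2]; exact ht1
  have hf0 : constantCoeff f = 0 := constantCoeff_Vf hφ.1 hm1 _
  have hf1 : lin f = 0 := lin_Vf hφ.1 hm1 _
  obtain ⟨T⟩ := exists_tower (t := t) hφ hm2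
  -- the divisors of `f`
  have dV1 : ∀ i : Fin 3, (φ 1 +
      (![0, 1, C t + φ 0 * φ 5] : Fin 3 → MvPowerSeries (Fin 6) K) i * φ 5 ^ m) ∣ f := fun i =>
    Dvd.dvd.mul_left ((dvd_mul_right _ _).trans (Finset.dvd_prod_of_mem (fun i => ((φ 1 +
      (![0, 1, C t + φ 0 * φ 5] : Fin 3 → MvPowerSeries (Fin 6) K) i * φ 5 ^ m) * (φ 3 +
      (![0, 1, C t + φ 0 * φ 5] : Fin 3 → MvPowerSeries (Fin 6) K) i * φ 5 ^ m)))
      (Finset.mem_univ i))) _
  have dV3 : ∀ i : Fin 3, (φ 3 +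
      (![0, 1, C t + φ 0 * φ 5] : Fin 3 → MvPowerSeries (Fin 6) K) i * φ 5 ^ m) ∣ f := fun i =>
    Dvd.dvd.mul_left ((dvd_mul_left _ _).trans (Finset.dvd_prod_of_mem (fun i => ((φ 1 +
      (![0, 1, C t + φ 0 * φ 5] : Fin 3 → MvPowerSeries (Fin 6) K) i * φ 5 ^ m) * (φ 3 +
      (![0, 1, C t + φ 0 * φ 5] : Fin 3 → MvPowerSeries (Fin 6) K) i * φ 5 ^ m)))
      (Finset.mem_univ i))) _
  have dV2 : φ 2 ∣ f := Dvd.dvd.mul_right (dvd_mul_right _ _) _
  have dV4 : φ 4 ∣ f := Dvd.dvd.mul_right (dvd_mul_left _ _) _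
  -- level 1
  obtain ⟨P0, hP0, D1, hD1, hD10, hD1r, d1, hd1, rfl⟩ := dimType_step (r := 4) hsq hf0 hf1 hd
  have s12 : ∀ i, (T.a1 i - T.a2) ∣ D1 := fun i =>
    (component_step hP0 hD1r (dV1 i) dV2 (T.h1 i) T.h2 (linearIndependent_V12 hφ hm2 _)).2.2
  have s34 : ∀ i, (T.a3 i - T.a4) ∣ D1 := fun i =>
    (component_step hP0 hD1r (dV3 i) dV4 (T.h3 i) T.h4 (linearIndependent_V34 hφ hm2 _)).2.2
  have li1 : ∀ i, LinearIndependent (Kstar 5 K)
      ![lin (T.a1 i - T.a2), lin (T.a3 i - T.a4)] := fun i =>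
    li_level1 hφ hm2 (T.h1 i) T.h2 (T.h3 i) T.h4
  have hD1l : lin D1 = 0 := lin_eq_zero_of_two_dvd ((T.h1 0).constantCoeff_sub T.h2)
    ((T.h3 0).constantCoeff_sub T.h4) (s12 0) (s34 0) (li1 0)
  -- level 2
  obtain ⟨P1, hP1, D2, hD2, hD20, hD2r, d2, hd2, rfl⟩ :=
    dimType_step (r := 3) hD1 hD10 hD1l hd1
  have sb : ∀ i, constantCoeff (T.b12 i - T.b34 i) = 0 ∧ lin (T.b12 i - T.b34 i) ≠ 0 ∧
      (T.b12 i - T.b34 i) ∣ D2 := fun i =>
    component_step hP1 hD2r (s12 i) (s34 i) (T.h12 i) (T.h34 i) (li1 i)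
  obtain ⟨kd⟩ := T.keyData hφ hm2
  have gp : GoodPair (T.c 0 - T.c 1) (T.c 0 - T.c 2) := kd.goodPair hm
    ((T.hc 0).constantCoeff_sub (T.hc 1)) ((T.hc 0).constantCoeff_sub (T.hc 2))
  have := GoodPair.dimType' T.hc gp hD2 hD20 (fun i => (sb i).1) (fun i => (sb i).2.2) hd2
  omega

end final

end Pool.Agent.Zariski
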