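import Pool.Agent.Zariski.Defs

/-!
# Uniqueness of the coefficient field when `k` is algebraic over `ℚ`
-/

namespace Pool.Agent.Zariski

universe u

open Polynomial

theorem coeffField_range_le {k : Type u} [Field k] [CharZero k] [Algebra.IsAlgebraic ℚ k]
    {o : Type u} [CommRing o] [IsLocalRing o] {ι₁ ι₂ : k →+* o} (h₂ : IsCoeffField ι₂) :
    ι₁.range ≤ ι₂.range := by
  rintro _ ⟨a, rfl⟩
  obtain ⟨b, hb⟩ := h₂.2 ((IsLocalRing.residue o) (ι₁ a))
  replace hb : (IsLocalRing.residue o) (ι₂ b) = (IsLocalRing.residue o) (ι₁ a) := hb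
  set p : ℚ[X] := minpoly ℚ a with hp
  have hpa : p.eval₂ (algebraMap ℚ k) a = 0 := minpoly.aeval ℚ a
  have hsep : p.Separable := (minpoly.irreducible (Algebra.IsIntegral.isIntegral a)).separable
  set φ : ℚ →+* o := ι₁.comp (algebraMap ℚ k) with hφ
  have hφ₂ : ι₂.comp (algebraMap ℚ k) = φ := Subsingleton.elim _ _
  have hx : (p.map φ).eval (ι₁ a) = 0 := by
    rw [eval_map, hφ, ← hom_eval₂, hpa, map_zero]
  have hpb : p.eval₂ (algebraMap ℚ k) b = 0 := by
    have e1 : (IsLocalRing.residue o) (ι₂ (p.eval₂ (algebraMap ℚ k) b)) = 0 := by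
      rw [hom_eval₂, hφ₂, hom_eval₂, hb, ← hom_eval₂, ← eval_map, hx, map_zero]
    exact (map_eq_zero ((IsLocalRing.residue o).comp ι₂)).1 e1
  have hy : (p.map φ).eval (ι₂ b) = 0 := by
    rw [eval_map, ← hφ₂, ← hom_eval₂, hpb, map_zero]
  have hy' : IsUnit ((p.map φ).derivative.eval (ι₂ b)) := by
    have e1 : (p.map φ).derivative.eval (ι₂ b) =
        ι₂ ((derivative p).eval₂ (algebraMap ℚ k) b) := by
      rw [derivative_map, eval_map, ← hφ₂, hom_eval₂]
    rw [e1]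
    have e2 : (derivative p).eval₂ (algebraMap ℚ k) b ≠ 0 :=
      hsep.eval₂_derivative_ne_zero (algebraMap ℚ k) hpb
    exact (isUnit_iff_ne_zero.2 e2).map ι₂
  obtain ⟨c, hc⟩ := (p.map φ).binomExpansion (ι₂ b) (ι₁ a - ι₂ b)
  rw [add_sub_cancel, hx, hy, zero_add] at hc
  have hδ : ι₁ a - ι₂ b ∈ IsLocalRing.maximalIdeal o := by
    rw [← IsLocalRing.residue_eq_zero_iff, map_sub, hb, sub_self]
  have hu : IsUnit ((p.map φ).derivative.eval (ι₂ b) + c * (ι₁ a - ι₂ b)) := by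
    by_contra hn
    have h1 : (p.map φ).derivative.eval (ι₂ b) ∈ IsLocalRing.maximalIdeal o := by
      have := Ideal.sub_mem _ ((IsLocalRing.mem_maximalIdeal _).2 hn)
        (Ideal.mul_mem_left (IsLocalRing.maximalIdeal o) c hδ)
      rwa [add_sub_cancel_right] at this
    exact (IsLocalRing.mem_maximalIdeal _).1 h1 hy'
  have h0 : ((p.map φ).derivative.eval (ι₂ b) + c * (ι₁ a - ι₂ b)) * (ι₁ a - ι₂ b) = 0 := by
    rw [add_mul, hc]
    ring
  have h1 : ι₁ a - ι₂ b = 0 := (hu.mul_right_eq_zero).1 h0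
  exact ⟨b, (sub_eq_zero.1 h1).symm⟩

/-- If `k` is algebraic over `ℚ`, the coefficient field is unique. -/
theorem coeffField_unique {k : Type u} [Field k] [CharZero k] [Algebra.IsAlgebraic ℚ k]
    {o : Type u} [CommRing o] [IsLocalRing o] {ι₁ ι₂ : k →+* o} (h₁ : IsCoeffField ι₁)
    (h₂ : IsCoeffField ι₂) : ι₁.range = ι₂.range :=
  le_antisymm (coeffField_range_le h₂) (coeffField_range_le h₁)

end Pool.Agent.Zariski
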