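import Pool.Agent.Zariski.Coord

/-!
# Weierstrass preparation and division relative to a projection
-/

namespace Pool.Agent.Zariski

open MvPowerSeries

variable {r : ℕ} {K : Type*} [Field K]

theorem weier_isAdicComplete (r : ℕ) (K : Type*) [Field K] :
    IsAdicComplete (IsLocalRing.maximalIdeal (MvPowerSeries (Fin r) K))
      (MvPowerSeries (Fin r) K) := by
  rw [maximalIdeal_eq_span_X]
  infer_instance

/-- The isomorphism `A[[T]] ≃ K[[x]]`, `C a ↦ y^* a`, `T ↦ X 0`. -/
noncomputable def weierEquiv {y : Fin r → MvPowerSeries (Fin (r + 1)) K} (hy : Adm y) :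
    PowerSeries (MvPowerSeries (Fin r) K) ≃+* MvPowerSeries (Fin (r + 1)) K :=
  (finSuccEquiv K r).symm.toRingEquiv.trans
    (RingEquiv.ofBijective (subHom (full y) hy.isParam_full.1) (by
      have h : (⇑(subHom (full y) hy.isParam_full.1) :
          MvPowerSeries (Fin (r + 1)) K → MvPowerSeries (Fin (r + 1)) K) = subst (full y) := by
        funext g
        exact subHom_apply _ _ g
      rw [h]
      exact hy.isParam_full.subst_bijective))

theorem weierEquiv_apply {y : Fin r → MvPowerSeries (Fin (r + 1)) K} (hy : Adm y)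
    (g : PowerSeries (MvPowerSeries (Fin r) K)) :
    weierEquiv hy g = subst (full y) ((finSuccEquiv K r).symm g) :=
  subHom_apply _ hy.isParam_full.1 _

theorem weierEquiv_X {y : Fin r → MvPowerSeries (Fin (r + 1)) K} (hy : Adm y) :
    weierEquiv hy PowerSeries.X = X 0 := by
  rw [weierEquiv_apply, ← finSuccEquiv_X_zero, AlgEquiv.symm_apply_apply,
    subst_X (hasSubst_of_constantCoeff_zero hy.isParam_full.1)]
  rfl

theorem finSuccEquiv_rename (a : MvPowerSeries (Fin r) K) :
    finSuccEquiv K r (rename (Fin.succEmb r) a) = PowerSeries.C a := by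
  ext k x
  rw [coeff_coeff_finSuccEquiv, PowerSeries.coeff_C]
  split_ifs with h
  · subst h
    have : (Finsupp.cons 0 x : Fin (r + 1) →₀ ℕ) = Finsupp.embDomain (Fin.succEmb r) x := by
      ext i
      refine Fin.cases ?_ (fun j => ?_) i
      · rw [Finsupp.cons_zero, Finsupp.embDomain_of_notMem_range]
        simp
      · rw [Finsupp.cons_succ]
        exact (Finsupp.embDomain_apply_self (Fin.succEmb r) x j).symm
    rw [this, coeff_embDomain_rename]
  · rw [coeff_rename_eq_zero]
    · simp
    · rintro ⟨u, hu⟩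
      have h0 := DFunLike.congr_fun hu 0
      rw [Finsupp.cons_zero, Finsupp.mapDomain_of_notMem_range] at h0
      · exact h h0.symm
      · simp

theorem weierEquiv_C {y : Fin r → MvPowerSeries (Fin (r + 1)) K} (hy : Adm y)
    (a : MvPowerSeries (Fin r) K) :
    weierEquiv hy (PowerSeries.C a) = subst y a := by
  rw [weierEquiv_apply, ← finSuccEquiv_rename, AlgEquiv.symm_apply_apply, rename_eq_subst,
    subst_comp_subst_apply (HasSubst.X_comp _) (hasSubst_of_constantCoeff_zero hy.isParam_full.1)]
  congr 1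
  funext s
  simp only [Function.comp_apply]
  rw [subst_X (hasSubst_of_constantCoeff_zero hy.isParam_full.1)]
  rfl

theorem weierEquiv_coe {y : Fin r → MvPowerSeries (Fin (r + 1)) K} (hy : Adm y)
    (P : Polynomial (MvPowerSeries (Fin r) K)) :
    weierEquiv hy (P : PowerSeries (MvPowerSeries (Fin r) K)) =
      P.eval₂ (subHom y hy.1) (X 0) := by
  have h : ((weierEquiv hy : PowerSeries (MvPowerSeries (Fin r) K) →+*
      MvPowerSeries (Fin (r + 1)) K).comp Polynomial.coeToPowerSeries.ringHom) =
      Polynomial.eval₂RingHom (subHom y hy.1) (X 0) := by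
    apply Polynomial.ringHom_ext
    · intro a
      simp [weierEquiv_C]
    · simp [weierEquiv_X]
  have := congrArg (fun φ : Polynomial (MvPowerSeries (Fin r) K) →+*
    MvPowerSeries (Fin (r + 1)) K => φ P) h
  simpa using this


theorem weier_hasSubst_line {n : ℕ} (v : Fin n → K) :
    HasSubst (fun i => PowerSeries.C (v i) * PowerSeries.X : Fin n → MvPowerSeries Unit K) := by
  apply hasSubst_of_constantCoeff_zero
  intro i
  have : PowerSeries.constantCoeff (PowerSeries.C (v i) * PowerSeries.X : PowerSeries K) = 0 := by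
    simp
  exact this

/-- `line v` as a ring homomorphism. -/
noncomputable def weierLine {n : ℕ} (v : Fin n → K) :
    MvPowerSeries (Fin n) K →+* PowerSeries K :=
  (substAlgHom (R := K) (weier_hasSubst_line v)).toRingHom

theorem weierLine_apply {n : ℕ} (v : Fin n → K) (f : MvPowerSeries (Fin n) K) :
    weierLine v f = line v f :=
  substAlgHom_apply (weier_hasSubst_line v) f

theorem weierLine_X {n : ℕ} (v : Fin n → K) (i : Fin n) :
    weierLine v (X i) = PowerSeries.C (v i) * PowerSeries.X := by
  rw [weierLine_apply]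
  exact subst_X (weier_hasSubst_line v) i

theorem weierLine_C {n : ℕ} (v : Fin n → K) (a : K) :
    weierLine v (C a) = PowerSeries.C a := by
  have h : (C a : MvPowerSeries (Fin n) K) = algebraMap K (MvPowerSeries (Fin n) K) a := rfl
  have h2 : (PowerSeries.C a : PowerSeries K) = algebraMap K (MvPowerSeries Unit K) a := rfl
  rw [h, h2]
  exact (substAlgHom (R := K) (weier_hasSubst_line v)).commutes a

theorem weierLine_mem_pow {n : ℕ} (v : Fin n → K) (k : ℕ) {g : MvPowerSeries (Fin n) K}
    (hg : g ∈ IsLocalRing.maximalIdeal (MvPowerSeries (Fin n) K) ^ k) :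
    (PowerSeries.X : PowerSeries K) ^ k ∣ weierLine v g := by
  rw [← Ideal.mem_span_singleton, ← Ideal.span_singleton_pow]
  have h1 : Ideal.map (weierLine v) (IsLocalRing.maximalIdeal (MvPowerSeries (Fin n) K)) ≤
      Ideal.span {PowerSeries.X} := by
    rw [maximalIdeal_eq_span_X, Ideal.map_span, Ideal.span_le]
    rintro _ ⟨_, ⟨i, rfl⟩, rfl⟩
    rw [weierLine_X]
    exact Ideal.mul_mem_left _ _ (Ideal.mem_span_singleton_self _)
  have h2 : weierLine v g ∈ Ideal.map (weierLine v)
      (IsLocalRing.maximalIdeal (MvPowerSeries (Fin n) K) ^ k) := Ideal.mem_map_of_mem _ hg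
  rw [Ideal.map_pow] at h2
  exact Ideal.pow_right_mono h1 k h2

theorem weierLine_sq_dvd {y : Fin r → MvPowerSeries (Fin (r + 1)) K} (hy : Adm y) (i : Fin r) :
    (PowerSeries.X : PowerSeries K) ^ 2 ∣ weierLine (dir y) (y i) := by
  set S : MvPowerSeries (Fin (r + 1)) K := ∑ k, C (lin (y i) k) * X k with hS
  have hS0 : constantCoeff S = 0 := by
    rw [hS, map_sum]
    exact Finset.sum_eq_zero fun k _ => by simp
  have hSl : lin S = lin (y i) := by
    funext j
    have : lin S j = ∑ k, lin (C (lin (y i) k) * X k : MvPowerSeries (Fin (r + 1)) K) j := by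
      simp only [lin, hS, map_sum]
    rw [this]
    have h2 : ∀ k, lin (C (lin (y i) k) * X k : MvPowerSeries (Fin (r + 1)) K) j =
        lin (y i) k * (Pi.single k 1 : Fin (r + 1) → K) j := by
      intro k
      rw [lin_mul, lin_X, lin_C]
      simp
    simp_rw [h2]
    rw [Finset.sum_eq_single j]
    · simp
    · intro b _ hb
      rw [Pi.single_eq_of_ne hb.symm, mul_zero]
    · simp
  have h1 : y i - S ∈ IsLocalRing.maximalIdeal (MvPowerSeries (Fin (r + 1)) K) ^ 2 := by
    rw [mem_maximalIdeal_pow_iff]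
    refine (two_le_order_iff _).2 ⟨?_, ?_⟩
    · rw [map_sub, hy.1 i, hS0, sub_zero]
    · rw [lin_sub, hSl, sub_self]
  have h2 := weierLine_mem_pow (dir y) 2 h1
  have h3 : weierLine (dir y) S = 0 := by
    rw [hS, map_sum]
    have h4 : ∀ k, weierLine (dir y) (C (lin (y i) k) * X k) =
        PowerSeries.C (lin (y i) k * dir y k) * PowerSeries.X := by
      intro k
      rw [map_mul, weierLine_C, weierLine_X, map_mul, mul_assoc]
    simp_rw [h4]
    rw [← Finset.sum_mul, ← map_sum, hy.lin_dir i]
    simp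
  rwa [map_sub, h3, sub_zero] at h2

theorem weier_coeff_line {y : Fin r → MvPowerSeries (Fin (r + 1)) K} (hy : Adm y)
    (G : MvPowerSeries (Fin (r + 1)) K) {d : ℕ} (hG : (d : ℕ∞) ≤ G.order) :
    PowerSeries.coeff d (line (dir y) (subst (full y) G)) = coeff (Finsupp.single 0 d) G := by
  set b : Fin (r + 1) → MvPowerSeries Unit K := fun i => line (dir y) (full y i) with hb
  have hb' : ∀ i, b i = weierLine (dir y) (full y i) := fun i => (weierLine_apply _ _).symm
  have hb0 : b 0 = (PowerSeries.X : PowerSeries K) := by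
    rw [hb']
    have : full y 0 = X 0 := rfl
    rw [this, weierLine_X, dir_zero]
    simp
  have hbs : ∀ j : Fin r, (PowerSeries.X : PowerSeries K) ^ 2 ∣ b j.succ := by
    intro j
    rw [hb']
    exact weierLine_sq_dvd hy j
  set w : Fin (r + 1) → ℕ := Fin.cons 1 (fun _ => 2) with hw
  have hbw : ∀ i, (PowerSeries.X : PowerSeries K) ^ (w i) ∣ b i := by
    intro i
    refine Fin.cases ?_ (fun j => ?_) i
    · rw [hb0]
      simp [hw]
    · simpa [hw] using hbs j
  have hb00 : ∀ i, constantCoeff (b i) = 0 := by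
    intro i
    obtain ⟨c, hc⟩ := hbw i
    have h1 : (PowerSeries.X : PowerSeries K) ∣ b i := by
      refine dvd_trans ?_ (hbw i)
      refine dvd_pow_self _ ?_
      refine Fin.cases ?_ (fun j => ?_) i <;> simp [hw]
    have := PowerSeries.X_dvd_iff.1 h1
    exact this
  have hbS : HasSubst b := hasSubst_of_constantCoeff_zero hb00
  have h1 : line (dir y) (subst (full y) G) = subst b G :=
    subst_comp_subst_apply (hasSubst_of_constantCoeff_zero hy.isParam_full.1)
      (weier_hasSubst_line (dir y)) G
  rw [h1]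
  have h2 : PowerSeries.coeff d (subst b G : MvPowerSeries Unit K) =
      finsum (fun a => coeff a G • (PowerSeries.coeff d
        ((a.prod fun s e => (b s) ^ e : MvPowerSeries Unit K) : PowerSeries K))) :=
    coeff_subst hbS G (Finsupp.single () d)
  rw [h2, finsum_eq_single _ (Finsupp.single 0 d)]
  · have h3 : ((Finsupp.single (0 : Fin (r + 1)) d).prod fun s e => (b s) ^ e) =
        (PowerSeries.X : PowerSeries K) ^ d := by
      rw [Finsupp.prod_single_index (by simp), hb0]
    rw [h3, PowerSeries.coeff_X_pow_self, smul_eq_mul, mul_one]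
  · intro a ha
    by_cases hdeg : (a.degree : ℕ∞) < G.order
    · rw [coeff_of_lt_order hdeg, zero_smul]
    · have had : d ≤ a.degree := by
        have := hG.trans (not_lt.1 hdeg)
        exact_mod_cast this
      have h4 : (PowerSeries.X : PowerSeries K) ^ (∑ i, w i * a i) ∣
          ((a.prod fun s e => (b s) ^ e : MvPowerSeries Unit K) : PowerSeries K) := by
        rw [Finsupp.prod_fintype _ _ (fun i => by simp), ← Finset.prod_pow_eq_pow_sum]
        refine Finset.prod_dvd_prod_of_dvd _ _ fun i _ => ?_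
        rw [pow_mul]
        exact pow_dvd_pow_of_dvd (hbw i) _
      have h5 : d < ∑ i, w i * a i := by
        rw [Fin.sum_univ_succ]
        simp only [hw, Fin.cons_zero, Fin.cons_succ, one_mul]
        rw [Finsupp.degree_eq_sum, Fin.sum_univ_succ] at had
        rw [← Finset.mul_sum]
        by_contra hcon
        have h6 : ∑ i : Fin r, a i.succ = 0 := by omega
        have h7 : a 0 = d := by omega
        apply ha
        ext i
        refine Fin.cases ?_ (fun j => ?_) i
        · rw [h7, Finsupp.single_eq_same]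
        · have := (Finset.sum_eq_zero_iff.1 h6) j (Finset.mem_univ _)
          rw [this, Finsupp.single_eq_of_ne]
          exact Fin.succ_ne_zero j
      rw [PowerSeries.X_pow_dvd_iff.1 h4 d h5, smul_zero]


/-- Weierstrass preparation relative to the coordinates `y, X 0`. -/
theorem Adm.exists_weierstrass {y : Fin r → MvPowerSeries (Fin (r + 1)) K} (hy : Adm y)
    {f : MvPowerSeries (Fin (r + 1)) K} {d : ℕ} (hd : f.order = d)
    (hf : PowerSeries.coeff d (line (dir y) f) ≠ 0) :
    ∃ P : Polynomial (MvPowerSeries (Fin r) K),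
      P.IsDistinguishedAt (IsLocalRing.maximalIdeal (MvPowerSeries (Fin r) K)) ∧
      P.natDegree = d ∧
      Ideal.span {P.eval₂ (subHom y hy.1) (X 0)} = Ideal.span {f} := by
  have := weier_isAdicComplete r K
  obtain ⟨g, hg⟩ := (weierEquiv hy).surjective f
  set G := (finSuccEquiv K r).symm g with hG
  have hfG : f = subst (full y) G := by rw [← hg, weierEquiv_apply]
  have hGd : G.order = d := by rw [← hd, hfG, hy.isParam_full.order_subst]
  rw [hfG, weier_coeff_line hy G hGd.ge] at hf
  have hcoeff : ∀ k, PowerSeries.coeff k (g.map (IsLocalRing.residue (MvPowerSeries (Fin r) K))) = 0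
      ↔ coeff (Finsupp.single 0 k) G = 0 := by
    intro k
    rw [PowerSeries.coeff_map, IsLocalRing.residue_eq_zero_iff, mem_maximalIdeal_iff]
    have h1 : g = finSuccEquiv K r G := by rw [hG, AlgEquiv.apply_symm_apply]
    rw [h1, ← coeff_zero_eq_constantCoeff_apply, coeff_coeff_finSuccEquiv]
    have h2 : (Finsupp.cons k (0 : Fin r →₀ ℕ) : Fin (r + 1) →₀ ℕ) = Finsupp.single 0 k := by
      ext i
      refine Fin.cases ?_ (fun j => ?_) i
      · simp
      · rw [Finsupp.cons_succ, Finsupp.single_eq_of_ne]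
        · rfl
        · exact Fin.succ_ne_zero j
    rw [h2]
  have hord : (g.map (IsLocalRing.residue (MvPowerSeries (Fin r) K))).order = d := by
    rw [PowerSeries.order_eq_nat]
    refine ⟨fun h => hf ((hcoeff d).1 h), fun i hi => (hcoeff i).2 ?_⟩
    apply coeff_of_lt_order
    rw [hGd, Finsupp.degree_single]
    exact_mod_cast hi
  have hne : g.map (IsLocalRing.residue (MvPowerSeries (Fin r) K)) ≠ 0 := by
    intro h
    rw [h, PowerSeries.order_zero] at hord
    exact absurd hord (by simp)
  obtain ⟨P, h, H⟩ := PowerSeries.exists_isWeierstrassFactorization hne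
  refine ⟨P, H.isDistinguishedAt, ?_, ?_⟩
  · rw [H.natDegree_eq_toNat_order_map, hord]
    rfl
  · rw [← weierEquiv_coe hy, ← hg, H.eq_mul, map_mul,
      Ideal.span_singleton_mul_right_unit (H.isUnit.map _)]

/-- Transfer of equality of principal ideals. -/
theorem weier_mem_span {y : Fin r → MvPowerSeries (Fin (r + 1)) K} (hy : Adm y)
    (P : Polynomial (MvPowerSeries (Fin r) K)) (g : PowerSeries (MvPowerSeries (Fin r) K)) :
    weierEquiv hy g ∈ Ideal.span {P.eval₂ (subHom y hy.1) (X 0)} ↔
      (P : PowerSeries (MvPowerSeries (Fin r) K)) ∣ g := by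
  rw [Ideal.mem_span_singleton, ← weierEquiv_coe hy]
  exact map_dvd_iff (weierEquiv hy)

/-- Uniqueness of the Weierstrass polynomial. -/
theorem Adm.weierstrass_unique {y : Fin r → MvPowerSeries (Fin (r + 1)) K} (hy : Adm y)
    {P Q : Polynomial (MvPowerSeries (Fin r) K)}
    (hP : P.IsDistinguishedAt (IsLocalRing.maximalIdeal (MvPowerSeries (Fin r) K)))
    (hQ : Q.IsDistinguishedAt (IsLocalRing.maximalIdeal (MvPowerSeries (Fin r) K)))
    (h : Ideal.span {P.eval₂ (subHom y hy.1) (X 0)} =
      Ideal.span {Q.eval₂ (subHom y hy.1) (X 0)}) : P = Q := by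
  have := weier_isAdicComplete r K
  have h1 : (P : PowerSeries (MvPowerSeries (Fin r) K)) ∣ Q := by
    rw [← weier_mem_span hy, h, weierEquiv_coe]
    exact Ideal.mem_span_singleton_self _
  have h2 : (Q : PowerSeries (MvPowerSeries (Fin r) K)) ∣ P := by
    rw [← weier_mem_span hy, ← h, weierEquiv_coe]
    exact Ideal.mem_span_singleton_self _
  obtain ⟨u, hu⟩ := associated_of_dvd_dvd h1 h2
  have H1 : (Q : PowerSeries (MvPowerSeries (Fin r) K)).IsWeierstrassFactorization P u :=
    ⟨hP, u.isUnit, hu.symm⟩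
  have H2 : (Q : PowerSeries (MvPowerSeries (Fin r) K)).IsWeierstrassFactorization Q 1 :=
    ⟨hQ, isUnit_one, (mul_one _).symm⟩
  exact (H1.elim H2).1

/-- Weierstrass division, existence. -/
theorem Adm.exists_poly_congr {y : Fin r → MvPowerSeries (Fin (r + 1)) K} (hy : Adm y)
    {P : Polynomial (MvPowerSeries (Fin r) K)}
    (hP : P.IsDistinguishedAt (IsLocalRing.maximalIdeal (MvPowerSeries (Fin r) K)))
    (g : MvPowerSeries (Fin (r + 1)) K) :
    ∃ c : Polynomial (MvPowerSeries (Fin r) K),
      g - c.eval₂ (subHom y hy.1) (X 0) ∈ Ideal.span {P.eval₂ (subHom y hy.1) (X 0)} := by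
  have := weier_isAdicComplete r K
  obtain ⟨g', rfl⟩ := (weierEquiv hy).surjective g
  obtain ⟨c, hc⟩ := Ideal.Quotient.mk_surjective
    (hP.algEquivQuotient.symm (Ideal.Quotient.mk _ g'))
  refine ⟨c, ?_⟩
  rw [← weierEquiv_coe hy c, ← map_sub, weier_mem_span, ← Ideal.mem_span_singleton,
    ← Ideal.Quotient.mk_eq_mk_iff_sub_mem]
  have h1 : hP.algEquivQuotient (Ideal.Quotient.mk _ c) = Ideal.Quotient.mk _ g' := by
    rw [hc, AlgEquiv.apply_symm_apply]
  rw [← h1]
  rfl

/-- Weierstrass division, uniqueness: `A[T]/(P) → K[[x]]/(P(x_0))` is injective. -/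
theorem Adm.dvd_of_eval_mem {y : Fin r → MvPowerSeries (Fin (r + 1)) K} (hy : Adm y)
    {P F : Polynomial (MvPowerSeries (Fin r) K)}
    (hP : P.IsDistinguishedAt (IsLocalRing.maximalIdeal (MvPowerSeries (Fin r) K)))
    (hF : F.eval₂ (subHom y hy.1) (X 0) ∈ Ideal.span {P.eval₂ (subHom y hy.1) (X 0)}) :
    P ∣ F := by
  have := weier_isAdicComplete r K
  rw [← weierEquiv_coe hy F, weier_mem_span, ← Ideal.mem_span_singleton,
    ← Ideal.Quotient.eq_zero_iff_mem] at hF
  rw [← Ideal.mem_span_singleton, ← Ideal.Quotient.eq_zero_iff_mem]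
  apply hP.algEquivQuotient.injective
  rw [map_zero, ← hF]
  rfl

/-- The derivative along `X 0`, fixing `y`: a derivation `∂` of `K[[x]]` with `∂ (y^* F) = 0`
and `∂ X_0 = 1`; for polynomials it is the formal derivative. -/
theorem Adm.exists_deriv {y : Fin r → MvPowerSeries (Fin (r + 1)) K} (hy : Adm y) :
    ∃ E : Derivation ℤ (MvPowerSeries (Fin (r + 1)) K) (MvPowerSeries (Fin (r + 1)) K),
      (∀ F : MvPowerSeries (Fin r) K, E (subst y F) = 0) ∧ E (X 0) = 1 ∧
      ∀ P : Polynomial (MvPowerSeries (Fin r) K),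
        E (P.eval₂ (subHom y hy.1) (X 0)) = P.derivative.eval₂ (subHom y hy.1) (X 0) := by
  set T := weierEquiv hy with hT
  let D := PowerSeries.derivative (MvPowerSeries (Fin r) K)
  let L : MvPowerSeries (Fin (r + 1)) K →+ MvPowerSeries (Fin (r + 1)) K :=
    { toFun := fun g => T (D (T.symm g))
      map_zero' := by simp
      map_add' := fun a b => by simp }
  refine ⟨Derivation.mk' L.toIntLinearMap ?_, ?_, ?_, ?_⟩
  · intro a b
    show T (D (T.symm (a * b))) = a • T (D (T.symm b)) + b • T (D (T.symm a))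
    rw [map_mul, Derivation.leibniz, map_add, smul_eq_mul, smul_eq_mul, map_mul, map_mul,
      RingEquiv.apply_symm_apply, RingEquiv.apply_symm_apply]
    rfl
  · intro F
    show T (D (T.symm (subst y F))) = 0
    have : T.symm (subst y F) = PowerSeries.C F := by
      rw [← weierEquiv_C hy, ← hT, RingEquiv.symm_apply_apply]
    rw [this]
    have h2 : D (PowerSeries.C F) = 0 := PowerSeries.derivative_C
    rw [h2, map_zero]
  · show T (D (T.symm (X 0))) = 1
    have : T.symm (X 0) = PowerSeries.X := by
      rw [← weierEquiv_X hy, ← hT, RingEquiv.symm_apply_apply]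
    rw [this]
    have h2 : D PowerSeries.X = 1 := PowerSeries.derivative_X
    rw [h2, map_one]
  · intro P
    show T (D (T.symm (P.eval₂ (subHom y hy.1) (X 0)))) = _
    rw [← weierEquiv_coe hy, ← weierEquiv_coe hy, ← hT, RingEquiv.symm_apply_apply]
    have h2 : D (P : PowerSeries (MvPowerSeries (Fin r) K)) = P.derivative :=
      PowerSeries.derivative_coe P
    rw [h2]

end Pool.Agent.Zariski
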